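import Pool.Agent.Work.MP_63674d_an.Poisson

/-! The energy inequality for functions in the disc algebra. -/

open MeasureTheory Finset Filter Topology

namespace MP63

/-- Taylor polynomials of a disc algebra function converge uniformly on smaller discs. -/
theorem taylor_unif {h : ℂ → ℂ} (hh : DiffContOnCl ℂ h (Metric.ball 0 1)) :
    ∃ c : ℕ → ℂ, ∀ ρ : ℝ, 0 ≤ ρ → ρ < 1 → ∀ ε > 0, ∃ N0 : ℕ, ∀ N ≥ N0, ∀ z : ℂ, ‖z‖ ≤ ρ →
      ‖h z - ∑ k ∈ range N, c k * z ^ k‖ ≤ ε := by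
  obtain ⟨q, hq⟩ : ∃ q, HasFPowerSeriesOnBall h q 0 ((1 : NNReal) : ENNReal) :=
    ⟨_, DiffContOnCl.hasFPowerSeriesOnBall (R := 1) (by simpa using hh) one_pos⟩
  refine ⟨fun k => q.coeff k, ?_⟩
  intro ρ hρ hρ1 ε hε
  obtain ⟨ρ', h1, h2⟩ := exists_between hρ1
  have hρ' : 0 ≤ ρ' := by linarith
  have hu := hq.tendstoUniformlyOn (r' := ⟨ρ', hρ'⟩) (by
    have : (⟨ρ', hρ'⟩ : NNReal) < 1 := by exact_mod_cast h2
    exact_mod_cast this)
  rw [Metric.tendstoUniformlyOn_iff] at hu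
  obtain ⟨N0, hN0⟩ := eventually_atTop.mp (hu ε hε)
  refine ⟨N0, fun N hN z hz => ?_⟩
  have := hN0 N hN z (by
    rw [mem_ball_zero_iff]
    change ‖z‖ < ρ'
    linarith)
  rw [dist_eq_norm, zero_add] at this
  have e : q.partialSum N z = ∑ k ∈ range N, q.coeff k * z ^ k := by
    unfold FormalMultilinearSeries.partialSum
    refine Finset.sum_congr rfl fun k _ => ?_
    rw [FormalMultilinearSeries.apply_eq_pow_smul_coeff, smul_eq_mul, mul_comm]
  rw [e] at this
  exact this.le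

theorem poly_circle (c : ℕ → ℂ) (N : ℕ) (r : ℝ) :
    ∫ w : TT, ‖∑ k ∈ range N, c k * ((r : ℂ) * ee 1 w) ^ k‖ ^ 2
      = ∑ k ∈ range N, ‖c k‖ ^ 2 * r ^ (2 * k) := by
  have h := parseval_nat (range N) (fun k => c k * (r : ℂ) ^ k)
  have e : ∀ w : TT, ∑ k ∈ range N, c k * ((r : ℂ) * ee 1 w) ^ k
      = ∑ k ∈ range N, c k * (r : ℂ) ^ k * ee k w := by
    intro w
    refine Finset.sum_congr rfl fun k _ => ?_
    rw [mul_pow, ← ee_nat_pow]; ring
  simp_rw [e, h]
  refine Finset.sum_congr rfl fun k _ => ?_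
  rw [norm_mul, mul_pow, norm_pow, Complex.norm_real, Real.norm_eq_abs]
  congr 1
  rw [← pow_mul, mul_comm k 2, pow_mul, sq_abs, pow_mul]

theorem norm_add_sq_le (a b : ℂ) : ‖a + b‖ ^ 2 ≤ 2 * ‖a‖ ^ 2 + 2 * ‖b‖ ^ 2 := by
  have h1 := norm_add_le a b
  have h2 : ‖a + b‖ ^ 2 ≤ (‖a‖ + ‖b‖) ^ 2 := by gcongr
  nlinarith [sq_nonneg (‖a‖ - ‖b‖)]

/-- A lossy Bessel inequality for Taylor coefficients. -/
theorem bessel_taylor {h : ℂ → ℂ} (hh : DiffContOnCl ℂ h (Metric.ball 0 1)) (c : ℕ → ℂ)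
    (hc : ∀ ρ : ℝ, 0 ≤ ρ → ρ < 1 → ∀ ε > 0, ∃ N0 : ℕ, ∀ N ≥ N0, ∀ z : ℂ, ‖z‖ ≤ ρ →
      ‖h z - ∑ k ∈ range N, c k * z ^ k‖ ≤ ε) (N : ℕ) :
    ∑ k ∈ range N, ‖c k‖ ^ 2 ≤ 2 * ∫ x : TT, ‖h (ee 1 x)‖ ^ 2 := by
  set A := ∫ x : TT, ‖h (ee 1 x)‖ ^ 2 with hA
  -- inequality for r < 1
  have hr : ∀ r : ℝ, 0 ≤ r → r < 1 → ∑ k ∈ range N, ‖c k‖ ^ 2 * r ^ (2 * k) ≤ 2 * A := by
    intro r hr hr1
    apply le_of_forall_pos_le_add
    intro δ hδ
    obtain ⟨N0, hN0⟩ := hc r hr hr1 (Real.sqrt (δ / 2)) (by positivity)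
    set M := max N N0 with hM
    have hle : ∑ k ∈ range N, ‖c k‖ ^ 2 * r ^ (2 * k) ≤ ∑ k ∈ range M, ‖c k‖ ^ 2 * r ^ (2 * k) := by
      apply Finset.sum_le_sum_of_subset_of_nonneg
      · exact Finset.range_subset_range.mpr (le_max_left _ _)
      · intro k _ _; positivity
    refine hle.trans ?_
    rw [← poly_circle c M r]
    have hcont : Continuous fun y : TT => h (r * ee 1 y) := by
      have h1 := hh.continuousOn
      exact h1.comp_continuous (by fun_prop) (fun x => subset_closure (mem_ball_of hr hr1 x))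
    have hmono := mean_sq_mono hh hr hr1
    calc ∫ w : TT, ‖∑ k ∈ range M, c k * ((r : ℂ) * ee 1 w) ^ k‖ ^ 2
        ≤ ∫ w : TT, (2 * ‖h (r * ee 1 w)‖ ^ 2 + δ) := by
          apply integral_mono (integ (by fun_prop))
          · exact (integ (continuous_const.mul (hcont.norm.pow 2))).add (integrable_const _)
          · intro w
            have hz : ‖(r : ℂ) * ee 1 w‖ ≤ r := by
              rw [norm_mul, norm_ee, Complex.norm_real, Real.norm_of_nonneg hr, mul_one]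
            have h1 := hN0 M (le_max_right _ _) (r * ee 1 w) hz
            set S := ∑ k ∈ range M, c k * ((r : ℂ) * ee 1 w) ^ k with hS
            have h2 := norm_add_sq_le (h (r * ee 1 w)) (-(h (r * ee 1 w) - S))
            have e : h (r * ee 1 w) + -(h (r * ee 1 w) - S) = S := by ring
            rw [e, norm_neg] at h2
            have h3 : ‖h (r * ee 1 w) - S‖ ^ 2 ≤ δ / 2 := by
              calc ‖h (r * ee 1 w) - S‖ ^ 2 ≤ (Real.sqrt (δ / 2)) ^ 2 := by gcongr
                _ = δ / 2 := Real.sq_sqrt (by positivity)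
            change ‖S‖ ^ 2 ≤ 2 * ‖h (r * ee 1 w)‖ ^ 2 + δ
            linarith
      _ = 2 * (∫ w : TT, ‖h (r * ee 1 w)‖ ^ 2) + δ := by
          have hc2 : Continuous fun w : TT => 2 * ‖h (r * ee 1 w)‖ ^ 2 :=
            continuous_const.mul (hcont.norm.pow 2)
          rw [integral_add (integ hc2) (integrable_const _), integral_const_mul]
          simp
      _ ≤ 2 * A + δ := by gcongr
  -- let r tend to 1
  have hcont : Continuous fun r : ℝ => ∑ k ∈ range N, ‖c k‖ ^ 2 * r ^ (2 * k) := by fun_prop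
  have ht : Tendsto (fun r : ℝ => ∑ k ∈ range N, ‖c k‖ ^ 2 * r ^ (2 * k)) (𝓝[<] 1)
      (𝓝 (∑ k ∈ range N, ‖c k‖ ^ 2 * (1 : ℝ) ^ (2 * k))) :=
    (hcont.tendsto 1).mono_left nhdsWithin_le_nhds
  simp only [one_pow, mul_one] at ht
  refine le_of_tendsto ht ?_
  have : Set.Ioo (0 : ℝ) 1 ∈ 𝓝[<] (1 : ℝ) := Ioo_mem_nhdsLT (by norm_num)
  filter_upwards [this] with r hr'
  exact hr r hr'.1.le hr'.2

theorem int_t_exp (k : ℕ) (τ : ℝ) :
    (k : ℝ) ^ 2 * ∫ t in τ..1, t * (Real.exp (-t)) ^ (2 * k) ≤ 1 / 4 := by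
  rcases Nat.eq_zero_or_pos k with h | hk
  · subst h; norm_num
  set a : ℝ := 2 * k with ha
  have hk0 : (0 : ℝ) < k := by exact_mod_cast hk
  have ha0 : 0 < a := by positivity
  have e1 : ∀ t : ℝ, t * (Real.exp (-t)) ^ (2 * k) = t * Real.exp (-(a * t)) := by
    intro t
    rw [← Real.exp_nat_mul]; congr 2; rw [ha]; push_cast; ring
  simp_rw [e1]
  have hd : ∀ t ∈ Set.uIcc τ 1, HasDerivAt (fun t : ℝ => -((t / a + 1 / a ^ 2) * Real.exp (-(a * t))))
      (t * Real.exp (-(a * t))) t := by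
    intro t _
    have h1 : HasDerivAt (fun t : ℝ => t / a + 1 / a ^ 2) (1 / a) t :=
      ((hasDerivAt_id t).div_const a).add_const _
    have h2 : HasDerivAt (fun t : ℝ => Real.exp (-(a * t))) (Real.exp (-(a * t)) * (-(a * 1))) t :=
      (((hasDerivAt_id t).const_mul a).neg).exp
    have h3 := (h1.mul h2).neg
    refine h3.congr_deriv ?_
    field_simp
    ring
  rw [intervalIntegral.integral_eq_sub_of_hasDerivAt hd
    ((Continuous.intervalIntegrable (by fun_prop) _ _))]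
  have h4 : (1 + a * τ) * Real.exp (-(a * τ)) ≤ 1 := by
    have h5 := Real.add_one_le_exp (a * τ)
    have h6 : Real.exp (a * τ) * Real.exp (-(a * τ)) = 1 := by rw [← Real.exp_add]; simp
    nlinarith [Real.exp_pos (-(a * τ))]
  have h7 : 0 ≤ (1 / a + 1 / a ^ 2) * Real.exp (-(a * 1)) := by positivity
  have h8 : (τ / a + 1 / a ^ 2) * Real.exp (-(a * τ)) ≤ 1 / a ^ 2 := by
    have : (τ / a + 1 / a ^ 2) * Real.exp (-(a * τ))
        = ((1 + a * τ) * Real.exp (-(a * τ))) / a ^ 2 := by field_simp; ring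
    rw [this]; gcongr
  have h9 : (k : ℝ) ^ 2 * (1 / a ^ 2) = 1 / 4 := by rw [ha]; field_simp; norm_num
  calc (k : ℝ) ^ 2 * (-((1 / a + 1 / a ^ 2) * Real.exp (-(a * 1)))
        - -((τ / a + 1 / a ^ 2) * Real.exp (-(a * τ))))
      ≤ (k : ℝ) ^ 2 * (1 / a ^ 2) := by
        gcongr; linarith
    _ = 1 / 4 := h9

theorem energy {h : ℂ → ℂ} (hh : DiffContOnCl ℂ h (Metric.ball 0 1)) {τ : ℝ} (hτ : 0 < τ)
    (hτ1 : τ ≤ 1) :
    ∫ t in τ..1, t * ∫ w : TT, ‖((Real.exp (-t) : ℝ) : ℂ) * ee 1 w *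
        deriv h ((Real.exp (-t) : ℝ) * ee 1 w)‖ ^ 2
      ≤ ∫ x : TT, ‖h (ee 1 x)‖ ^ 2 := by
  obtain ⟨c, hc⟩ := taylor_unif hh
  set A := ∫ x : TT, ‖h (ee 1 x)‖ ^ 2 with hA
  have hb := bessel_taylor hh c hc
  set ρ := Real.exp (-τ) with hρ
  have hρ0 : 0 < ρ := Real.exp_pos _
  have hρ1 : ρ < 1 := by rw [hρ, Real.exp_lt_one_iff]; linarith
  obtain ⟨ρ1, hρ2, hρ3⟩ := exists_between hρ1
  apply le_of_forall_pos_le_add
  intro δ hδ
  -- choose N
  set ε := Real.sqrt δ * (ρ1 - ρ) with hε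
  have hε0 : 0 < ε := mul_pos (Real.sqrt_pos.mpr hδ) (by linarith)
  obtain ⟨N, hN⟩ := hc ρ1 (by linarith) hρ3 ε hε0
  have hN := hN N le_rfl
  set P : ℂ → ℂ := fun z => ∑ k ∈ range N, c k * z ^ k with hP
  have hPd : Differentiable ℂ P := by rw [hP]; fun_prop
  have hPder : ∀ z, z * deriv P z = ∑ k ∈ range N, ((k : ℂ) * c k) * z ^ k := by
    intro z
    have : deriv P z = ∑ k ∈ range N, c k * ((k : ℂ) * z ^ (k - 1)) := by
      rw [hP, deriv_fun_sum (fun k _ => by fun_prop)]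
      refine Finset.sum_congr rfl fun k _ => ?_
      rw [deriv_const_mul _ (by fun_prop), deriv_pow_field]
    rw [this, Finset.mul_sum]
    refine Finset.sum_congr rfl fun k _ => ?_
    rcases Nat.eq_zero_or_pos k with h0 | h0
    · subst h0; simp
    · obtain ⟨m, rfl⟩ : ∃ m, k = m + 1 := ⟨k - 1, by omega⟩
      simp only [Nat.add_sub_cancel]
      rw [pow_succ]; ring
  have hdiff : ∀ z : ℂ, ‖z‖ ≤ ρ → ‖deriv h z - deriv P z‖ ≤ Real.sqrt δ := by
    intro z hz
    have hzb : z ∈ Metric.ball (0 : ℂ) 1 := by rw [mem_ball_zero_iff]; linarith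
    have hd1 : DifferentiableAt ℂ h z := hh.differentiableAt Metric.isOpen_ball hzb
    have e : deriv h z - deriv P z = deriv (fun z => h z - P z) z :=
      (deriv_fun_sub hd1 (hPd z)).symm
    rw [e]
    have hR : 0 < ρ1 - ρ := by linarith
    have hsub : Metric.closedBall z (ρ1 - ρ) ⊆ Metric.ball (0 : ℂ) 1 := by
      intro y hy
      rw [mem_ball_zero_iff]
      rw [mem_closedBall_iff_norm] at hy
      have := norm_le_norm_add_norm_sub' y z
      linarith
    have h1 : DiffContOnCl ℂ (fun z => h z - P z) (Metric.ball z (ρ1 - ρ)) := by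
      apply DifferentiableOn.diffContOnCl
      rw [closure_ball z hR.ne']
      intro y hy
      exact ((hh.differentiableAt Metric.isOpen_ball (hsub hy)).sub (hPd y)).differentiableWithinAt
    have h2 := Complex.norm_deriv_le_of_forall_mem_sphere_norm_le hR h1 (C := ε) (by
      intro y hy
      apply hN
      rw [mem_sphere_iff_norm] at hy
      have := norm_le_norm_add_norm_sub' y z
      linarith)
    rw [hε, mul_div_assoc, div_self hR.ne', mul_one] at h2
    exact h2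
  have hG : ∀ t ∈ Set.Ioc τ 1, t * ∫ w : TT, ‖((Real.exp (-t) : ℝ) : ℂ) * ee 1 w *
        deriv h ((Real.exp (-t) : ℝ) * ee 1 w)‖ ^ 2
      ≤ t * (2 * ∑ k ∈ range N, ((k : ℝ) ^ 2 * ‖c k‖ ^ 2) * (Real.exp (-t)) ^ (2 * k) + 2 * δ) := by
    intro t ht
    have ht0 : 0 < t := lt_trans hτ ht.1
    apply mul_le_mul_of_nonneg_left _ ht0.le
    have h1 := poly_circle (fun k => (k : ℂ) * c k) N (Real.exp (-t))
    have h2 : ∑ k ∈ range N, ‖(k : ℂ) * c k‖ ^ 2 * (Real.exp (-t)) ^ (2 * k)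
        = ∑ k ∈ range N, ((k : ℝ) ^ 2 * ‖c k‖ ^ 2) * (Real.exp (-t)) ^ (2 * k) := by
      refine Finset.sum_congr rfl fun k _ => ?_
      rw [norm_mul, mul_pow, Complex.norm_natCast]
    rw [← h2, ← h1]
    have h3 : ∫ w : TT, (2 * ‖∑ k ∈ range N, ((k : ℂ) * c k) *
          (((Real.exp (-t) : ℝ) : ℂ) * ee 1 w) ^ k‖ ^ 2 + 2 * δ)
        = 2 * (∫ w : TT, ‖∑ k ∈ range N, ((k : ℂ) * c k) *
          (((Real.exp (-t) : ℝ) : ℂ) * ee 1 w) ^ k‖ ^ 2) + 2 * δ := by
      rw [integral_add (integ (by fun_prop)) (integrable_const _), integral_const_mul]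
      simp
    rw [← h3]
    apply integral_mono_of_nonneg
    · exact Eventually.of_forall fun w => by positivity
    · exact (integ (by fun_prop))
    · apply Eventually.of_forall
      intro w
      simp only
      set z : ℂ := ((Real.exp (-t) : ℝ) : ℂ) * ee 1 w with hz
      have hzn : ‖z‖ ≤ ρ := by
        rw [hz, norm_mul, norm_ee, Complex.norm_real, Real.norm_of_nonneg (Real.exp_pos _).le,
          mul_one, hρ]
        exact Real.exp_le_exp.mpr (by linarith [ht.1])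
      have h4 := hdiff z hzn
      rw [← hPder z]
      have h5 := norm_add_sq_le (z * deriv P z) (z * (deriv h z - deriv P z))
      have e : z * deriv P z + z * (deriv h z - deriv P z) = z * deriv h z := by ring
      rw [e] at h5
      have h6 : ‖z * (deriv h z - deriv P z)‖ ^ 2 ≤ δ := by
        have h7 : ‖z * (deriv h z - deriv P z)‖ ≤ Real.sqrt δ := by
          rw [norm_mul]
          calc ‖z‖ * ‖deriv h z - deriv P z‖ ≤ 1 * Real.sqrt δ := by
                gcongr; linarith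
            _ = _ := one_mul _
        calc ‖z * (deriv h z - deriv P z)‖ ^ 2 ≤ (Real.sqrt δ) ^ 2 := by gcongr
          _ = δ := Real.sq_sqrt hδ.le
      linarith
  have hcG : Continuous fun t : ℝ => t * (2 * ∑ k ∈ range N, ((k : ℝ) ^ 2 * ‖c k‖ ^ 2) *
      (Real.exp (-t)) ^ (2 * k) + 2 * δ) := by fun_prop
  rw [intervalIntegral.integral_of_le hτ1]
  calc ∫ t in Set.Ioc τ 1, t * ∫ w : TT, ‖((Real.exp (-t) : ℝ) : ℂ) * ee 1 w *
        deriv h ((Real.exp (-t) : ℝ) * ee 1 w)‖ ^ 2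
      ≤ ∫ t in Set.Ioc τ 1, t * (2 * ∑ k ∈ range N, ((k : ℝ) ^ 2 * ‖c k‖ ^ 2) *
        (Real.exp (-t)) ^ (2 * k) + 2 * δ) := by
        apply integral_mono_of_nonneg
        · rw [EventuallyLE, ae_restrict_iff' measurableSet_Ioc]
          apply Eventually.of_forall
          intro t ht
          have ht0 : 0 < t := lt_trans hτ ht.1
          exact mul_nonneg ht0.le (integral_nonneg fun w => by positivity)
        · exact (hcG.integrableOn_Icc).mono_set Set.Ioc_subset_Icc_self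
        · rw [EventuallyLE, ae_restrict_iff' measurableSet_Ioc]
          exact Eventually.of_forall hG
    _ = ∫ t in τ..1, (∑ k ∈ range N, (2 * ‖c k‖ ^ 2) * ((k : ℝ) ^ 2 *
        (t * (Real.exp (-t)) ^ (2 * k))) + 2 * δ * t) := by
        rw [intervalIntegral.integral_of_le hτ1]
        congr 1; ext t
        rw [mul_add, Finset.mul_sum, Finset.mul_sum]
        congr 1
        · refine Finset.sum_congr rfl fun k _ => ?_
          ring
        · ring
    _ = ∑ k ∈ range N, (2 * ‖c k‖ ^ 2) * ((k : ℝ) ^ 2 * ∫ t in τ..1,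
        (t * (Real.exp (-t)) ^ (2 * k))) + 2 * δ * ∫ t in τ..1, t := by
        rw [intervalIntegral.integral_add, intervalIntegral.integral_finsetSum,
          intervalIntegral.integral_const_mul]
        · congr 1
          refine Finset.sum_congr rfl fun k _ => ?_
          rw [intervalIntegral.integral_const_mul, intervalIntegral.integral_const_mul]
        · intro k _
          exact Continuous.intervalIntegrable (by fun_prop) _ _
        · exact Continuous.intervalIntegrable (by fun_prop) _ _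
        · exact Continuous.intervalIntegrable (by fun_prop) _ _
    _ ≤ ∑ k ∈ range N, (2 * ‖c k‖ ^ 2) * (1 / 4) + 2 * δ * (1 / 2) := by
        gcongr with k hk
        · exact int_t_exp k τ
        · rw [integral_id]; nlinarith
    _ = (1 / 2) * ∑ k ∈ range N, ‖c k‖ ^ 2 + δ := by
        rw [← Finset.sum_mul, ← Finset.mul_sum]; ring
    _ ≤ (1 / 2) * (2 * A) + δ := by gcongr; exact hb N
    _ = A + δ := by ring

end MP63
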