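import Pool.Agent.Work.MP_63674d_an.Poisson

/-! Maximal inequality for the Poisson kernel on the circle of length one, by a `T T*` argument with
continuous weights. -/

open MeasureTheory Finset

namespace MP63

/-- Poisson integral of a real function. -/
noncomputable def PP (r : ℝ) (u : TT → ℝ) (x : TT) : ℝ := ∫ z : TT, pk r (x - z) * u z

/-- The dyadic radii. -/
noncomputable def rad (i : ℕ) : ℝ := Real.exp (-((2 : ℝ) ^ i)⁻¹)

theorem rad_nonneg (i : ℕ) : 0 ≤ rad i := (Real.exp_pos _).le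

theorem rad_lt_one (i : ℕ) : rad i < 1 := by
  unfold rad
  rw [Real.exp_lt_one_iff]
  have : 0 < ((2 : ℝ) ^ i)⁻¹ := by positivity
  linarith

theorem norm_one_sub_ge {r : ℝ} (hr : 0 ≤ r) (x : TT) : 1 - r ≤ ‖1 - (r : ℂ) * ee 1 x‖ := by
  have h := norm_sub_norm_le (1 : ℂ) ((r : ℂ) * ee 1 x)
  rw [norm_mul, norm_ee, Complex.norm_real, Real.norm_of_nonneg hr, norm_one, mul_one] at h
  exact h

/-- Harnack inequality in the radius. -/
theorem pk_harnack {r r' : ℝ} (hr1 : r < 1) (hr0 : 0 ≤ r') (h1 : r' ≤ r) (h2 : r ^ 2 ≤ r')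
    (x : TT) : pk r' x ≤ 8 * pk r x := by
  have hr : 0 ≤ r := hr0.trans h1
  have hr1' : r' < 1 := h1.trans_lt hr1
  have hA : 0 < ‖1 - (r : ℂ) * ee 1 x‖ := norm_pos_iff.mpr (one_sub_ne_zero hr hr1 x)
  have hB : 0 < ‖1 - (r' : ℂ) * ee 1 x‖ := norm_pos_iff.mpr (one_sub_ne_zero hr0 hr1' x)
  set A := ‖1 - (r : ℂ) * ee 1 x‖ with hAd
  set B := ‖1 - (r' : ℂ) * ee 1 x‖ with hBd
  have hAB : A ≤ 2 * B := by
    have h3 : (1 : ℂ) - (r : ℂ) * ee 1 x = (1 - (r' : ℂ) * ee 1 x) - ((r - r' : ℝ) : ℂ) * ee 1 x := by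
      push_cast; ring
    have h4 : A ≤ B + (r - r') := by
      rw [hAd, h3]
      refine (norm_sub_le _ _).trans ?_
      rw [norm_mul, norm_ee, Complex.norm_real, Real.norm_of_nonneg (by linarith), mul_one]
    have h5 := norm_one_sub_ge hr0 x
    linarith
  have hn : 1 - r' ^ 2 ≤ 2 * (1 - r ^ 2) := by
    have : r ^ 4 ≤ r' ^ 2 := by
      have := mul_self_le_mul_self (sq_nonneg r) h2
      nlinarith
    have h6 : (r ^ 2) ^ 2 = r ^ 4 := by ring
    have h7 : r ^ 2 ≤ 1 := by nlinarith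
    nlinarith
  unfold pk
  rw [← hAd, ← hBd, div_le_iff₀ (by positivity)]
  have h8 : 8 * ((1 - r ^ 2) / A ^ 2) * B ^ 2 = (2 * (1 - r ^ 2)) * ((2 * B) ^ 2 / A ^ 2) := by
    field_simp; ring
  rw [h8]
  have h9 : 1 ≤ (2 * B) ^ 2 / A ^ 2 := by
    rw [one_le_div (by positivity)]
    gcongr
  have h10 : 0 ≤ 1 - r ^ 2 := by nlinarith
  nlinarith

theorem cont_pk_sub {r : ℝ} (hr : 0 ≤ r) (hr1 : r < 1) :
    Continuous (Function.uncurry fun x z : TT => pk r (x - z)) := by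
  unfold Function.uncurry
  exact (continuous_pk hr hr1).comp (by fun_prop)

theorem cont_pk_sub' {r : ℝ} (hr : 0 ≤ r) (hr1 : r < 1) (x : TT) :
    Continuous (fun z : TT => pk r (x - z)) :=
  (continuous_pk hr hr1).comp (by fun_prop)

theorem cont_PP {r : ℝ} (hr : 0 ≤ r) (hr1 : r < 1) {u : TT → ℝ} (hu : Continuous u) :
    Continuous (PP r u) := by
  unfold PP
  apply continuous_integral
  have h1 := cont_pk_sub hr hr1
  have h2 : Continuous (Function.uncurry fun (_ : TT) (z : TT) => u z) := by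
    unfold Function.uncurry; exact hu.comp continuous_snd
  exact h1.mul h2

theorem PP_nonneg {r : ℝ} (hr : 0 ≤ r) (hr1 : r < 1) {u : TT → ℝ} (hu0 : ∀ x, 0 ≤ u x) (x : TT) :
    0 ≤ PP r u x :=
  integral_nonneg fun z => mul_nonneg (pk_nonneg hr hr1 _) (hu0 z)

theorem PP_mono {r : ℝ} (hr : 0 ≤ r) (hr1 : r < 1) {u v : TT → ℝ} (hu : Continuous u)
    (hv : Continuous v) (huv : ∀ x, u x ≤ v x) (x : TT) : PP r u x ≤ PP r v x := by
  apply integral_mono (integ ((cont_pk_sub' hr hr1 x).mul hu)) (integ ((cont_pk_sub' hr hr1 x).mul hv))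
  intro z
  exact mul_le_mul_of_nonneg_left (huv z) (pk_nonneg hr hr1 _)

theorem PP_harnack {r r' : ℝ} (hr1 : r < 1) (hr0 : 0 ≤ r') (h1 : r' ≤ r) (h2 : r ^ 2 ≤ r')
    {u : TT → ℝ} (hu : Continuous u) (hu0 : ∀ x, 0 ≤ u x) (x : TT) :
    PP r' u x ≤ 8 * PP r u x := by
  unfold PP
  rw [← integral_const_mul]
  have hr : 0 ≤ r := hr0.trans h1
  have hr1' : r' < 1 := h1.trans_lt hr1
  apply integral_mono (integ ((cont_pk_sub' hr0 hr1' x).mul hu))
    (integ (continuous_const.mul ((cont_pk_sub' hr hr1 x).mul hu)))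
  intro z
  have := pk_harnack hr1 hr0 h1 h2 (x - z)
  calc pk r' (x - z) * u z ≤ (8 * pk r (x - z)) * u z := mul_le_mul_of_nonneg_right this (hu0 z)
    _ = 8 * (pk r (x - z) * u z) := by ring

theorem PP_sum {r : ℝ} (hr : 0 ≤ r) (hr1 : r < 1) (n : ℕ) (f : ℕ → TT → ℝ)
    (hf : ∀ j, Continuous (f j)) (x : TT) :
    PP r (fun z => ∑ j ∈ range n, f j z) x = ∑ j ∈ range n, PP r (f j) x := by
  unfold PP
  simp_rw [Finset.mul_sum]
  rw [integral_finsetSum]
  intro j _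
  exact integ ((cont_pk_sub' hr hr1 x).mul (hf j))

theorem PP_dual {r : ℝ} (hr : 0 ≤ r) (hr1 : r < 1) {u w : TT → ℝ} (hu : Continuous u)
    (hw : Continuous w) : ∫ x : TT, PP r u x * w x = ∫ z : TT, u z * PP r w z := by
  have h1 : ∀ x : TT, PP r u x * w x = ∫ z : TT, pk r (x - z) * u z * w x := by
    intro x; unfold PP; rw [integral_mul_const]
  have h2 : ∀ z : TT, u z * PP r w z = ∫ x : TT, pk r (x - z) * u z * w x := by
    intro z
    unfold PP
    rw [← integral_const_mul]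
    congr 1; ext x
    rw [← pk_neg r (x - z), neg_sub]; ring
  simp_rw [h1, h2]
  apply fubini
  have h3 := cont_pk_sub hr hr1
  unfold Function.uncurry at h3 ⊢
  exact (h3.mul (hu.comp continuous_snd)).mul (hw.comp continuous_fst)

theorem PP_PP {r r' : ℝ} (hr : 0 ≤ r) (hr1 : r < 1) (hr' : 0 ≤ r') (hr1' : r' < 1) {u : TT → ℝ}
    (hu : Continuous u) (x : TT) : PP r (PP r' u) x = PP (r * r') u x := by
  have h1 : PP r (PP r' u) x = ∫ z : TT, ∫ w : TT, pk r (x - z) * pk r' (z - w) * u w := by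
    unfold PP
    congr 1; ext z
    rw [← integral_const_mul]
    congr 1; ext w; ring
  rw [h1, fubini]
  · unfold PP
    congr 1; ext w
    rw [integral_mul_const, pk_semigroup hr hr1 hr' hr1']
  · have h3 := cont_pk_sub hr' hr1'
    have h4 := cont_pk_sub' hr hr1 x
    unfold Function.uncurry at h3 ⊢
    exact ((h4.comp continuous_fst).mul h3).mul (hu.comp continuous_snd)

/-- Cauchy-Schwarz. -/
theorem cs_cont {f g : TT → ℝ} (hf : Continuous f) (hg : Continuous g) :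
    (∫ x : TT, f x * g x) ^ 2 ≤ (∫ x : TT, f x ^ 2) * ∫ x : TT, g x ^ 2 := by
  have key : ∀ s : ℝ, 0 ≤ (∫ x : TT, f x ^ 2) * (s * s) + (2 * ∫ x : TT, f x * g x) * s
      + ∫ x : TT, g x ^ 2 := by
    intro s
    have h0 : 0 ≤ ∫ x : TT, (s * f x + g x) ^ 2 := integral_nonneg fun x => sq_nonneg _
    have h1 : ∀ x : TT, (s * f x + g x) ^ 2 = (s * s) * f x ^ 2 + (2 * s) * (f x * g x) + g x ^ 2 :=
      fun x => by ring
    simp_rw [h1] at h0
    rw [integral_add, integral_add, integral_const_mul, integral_const_mul] at h0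
    · linarith
    · exact integ (by fun_prop)
    · exact integ (by fun_prop)
    · exact integ (by fun_prop)
    · exact integ (by fun_prop)
  have h := discrim_le_zero key
  unfold discrim at h
  nlinarith

/-- The linearised maximal operator. -/
noncomputable def Top (n : ℕ) (θ : ℕ → TT → ℝ) (u : TT → ℝ) (x : TT) : ℝ :=
  ∑ i ∈ range n, θ i x * PP (rad i) u x

/-- Its adjoint. -/
noncomputable def Tad (n : ℕ) (θ : ℕ → TT → ℝ) (u : TT → ℝ) (x : TT) : ℝ :=
  ∑ i ∈ range n, PP (rad i) (fun z => θ i z * u z) x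

variable {n : ℕ} {θ : ℕ → TT → ℝ}

theorem cont_Top (hθ : ∀ i, Continuous (θ i)) {u : TT → ℝ} (hu : Continuous u) :
    Continuous (Top n θ u) := by
  unfold Top
  apply continuous_finsetSum
  intro i _
  exact (hθ i).mul (cont_PP (rad_nonneg i) (rad_lt_one i) hu)

theorem cont_Tad (hθ : ∀ i, Continuous (θ i)) {u : TT → ℝ} (hu : Continuous u) :
    Continuous (Tad n θ u) := by
  unfold Tad
  apply continuous_finsetSum
  intro i _
  exact (cont_PP (rad_nonneg i) (rad_lt_one i) ((hθ i).mul hu))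

theorem Top_nonneg (hθ0 : ∀ i x, 0 ≤ θ i x) {u : TT → ℝ} (hu0 : ∀ x, 0 ≤ u x) (x : TT) :
    0 ≤ Top n θ u x :=
  Finset.sum_nonneg fun i _ =>
    mul_nonneg (hθ0 i x) (PP_nonneg (rad_nonneg i) (rad_lt_one i) hu0 x)

theorem Tad_nonneg (hθ0 : ∀ i x, 0 ≤ θ i x) {u : TT → ℝ} (hu0 : ∀ x, 0 ≤ u x) (x : TT) :
    0 ≤ Tad n θ u x :=
  Finset.sum_nonneg fun i _ =>
    PP_nonneg (rad_nonneg i) (rad_lt_one i) (fun z => mul_nonneg (hθ0 i z) (hu0 z)) x

theorem Top_dual (hθ : ∀ i, Continuous (θ i)) {u w : TT → ℝ} (hu : Continuous u)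
    (hw : Continuous w) : ∫ x : TT, Top n θ u x * w x = ∫ z : TT, u z * Tad n θ w z := by
  unfold Top Tad
  simp_rw [Finset.sum_mul, Finset.mul_sum]
  rw [integral_finsetSum, integral_finsetSum]
  · refine Finset.sum_congr rfl fun i _ => ?_
    have hc : Continuous fun z => θ i z * w z := (hθ i).mul hw
    rw [← PP_dual (rad_nonneg i) (rad_lt_one i) hu hc]
    congr 1; ext x; ring
  · intro i _
    exact integ (hu.mul (cont_PP (rad_nonneg i) (rad_lt_one i) ((hθ i).mul hw)))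
  · intro i _
    exact integ (((hθ i).mul (cont_PP (rad_nonneg i) (rad_lt_one i) hu)).mul hw)

theorem PP_rad_mul_le (i j : ℕ) {f : TT → ℝ} (hf : Continuous f) (hf0 : ∀ x, 0 ≤ f x) (x : TT) :
    PP (rad i * rad j) f x ≤ 8 * (PP (rad i) f x + PP (rad j) f x) := by
  have key : ∀ i j : ℕ, i ≤ j → PP (rad i * rad j) f x ≤ 8 * PP (rad i) f x := by
    intro i j hij
    apply PP_harnack (rad_lt_one i) (mul_nonneg (rad_nonneg i) (rad_nonneg j)) _ _ hf hf0
    · have := rad_nonneg i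
      have := (rad_lt_one j).le
      nlinarith
    · rw [sq]
      apply mul_le_mul_of_nonneg_left _ (rad_nonneg i)
      unfold rad
      apply Real.exp_le_exp.mpr
      have : ((2 : ℝ) ^ j)⁻¹ ≤ ((2 : ℝ) ^ i)⁻¹ := by
        apply inv_anti₀ (by positivity)
        exact pow_le_pow_right₀ (by norm_num) hij
      linarith
  have h0i := PP_nonneg (rad_nonneg i) (rad_lt_one i) hf0 x
  have h0j := PP_nonneg (rad_nonneg j) (rad_lt_one j) hf0 x
  rcases le_total i j with h | h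
  · have := key i j h; linarith
  · have := key j i h; rw [mul_comm] at this; linarith

/-- The key inequality `T T* u ≤ 8 (T u + T* u)`. -/
theorem Top_Tad_le (hθ : ∀ i, Continuous (θ i)) (hθ0 : ∀ i x, 0 ≤ θ i x)
    (hθ1 : ∀ x, ∑ i ∈ range n, θ i x ≤ 1) {u : TT → ℝ} (hu : Continuous u) (hu0 : ∀ x, 0 ≤ u x)
    (x : TT) : Top n θ (Tad n θ u) x ≤ 8 * (Top n θ u x + Tad n θ u x) := by
  have e1 : Top n θ (Tad n θ u) x
      = ∑ i ∈ range n, ∑ j ∈ range n, θ i x * PP (rad i * rad j) (fun z => θ j z * u z) x := by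
    unfold Top
    refine Finset.sum_congr rfl fun i _ => ?_
    unfold Tad
    rw [PP_sum (rad_nonneg i) (rad_lt_one i) n
      (fun j x => PP (rad j) (fun z => θ j z * u z) x)
      (fun j => cont_PP (rad_nonneg j) (rad_lt_one j) ((hθ j).mul hu)), Finset.mul_sum]
    refine Finset.sum_congr rfl fun j _ => ?_
    have hc : Continuous fun z => θ j z * u z := (hθ j).mul hu
    rw [← PP_PP (rad_nonneg i) (rad_lt_one i) (rad_nonneg j) (rad_lt_one j) hc]
  have e2 : ∀ i, θ i x * PP (rad i) u x ≥ ∑ j ∈ range n, θ i x * PP (rad i) (fun z => θ j z * u z) x := by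
    intro i
    rw [← Finset.mul_sum]
    apply mul_le_mul_of_nonneg_left _ (hθ0 i x)
    rw [← PP_sum (rad_nonneg i) (rad_lt_one i) n (fun j z => θ j z * u z) (fun j => (hθ j).mul hu)]
    apply PP_mono (rad_nonneg i) (rad_lt_one i) _ hu
    · intro z
      rw [← Finset.sum_mul]
      have := hθ1 z
      have := hu0 z
      nlinarith
    · apply continuous_finsetSum
      intro j _
      exact (hθ j).mul hu
  rw [e1]
  have e3 : ∑ i ∈ range n, ∑ j ∈ range n, θ i x * PP (rad i * rad j) (fun z => θ j z * u z) x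
      ≤ ∑ i ∈ range n, ∑ j ∈ range n, (8 * (θ i x * PP (rad i) (fun z => θ j z * u z) x)
        + 8 * (θ i x * PP (rad j) (fun z => θ j z * u z) x)) := by
    apply Finset.sum_le_sum; intro i _
    apply Finset.sum_le_sum; intro j _
    have hc : Continuous fun z => θ j z * u z := (hθ j).mul hu
    have h := PP_rad_mul_le i j hc (fun z => mul_nonneg (hθ0 j z) (hu0 z)) x
    have := mul_le_mul_of_nonneg_left h (hθ0 i x)
    linarith
  refine e3.trans ?_
  simp_rw [Finset.sum_add_distrib, ← Finset.mul_sum]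
  have e4 : ∑ i ∈ range n, θ i x * ∑ j ∈ range n, PP (rad i) (fun z => θ j z * u z) x ≤ Top n θ u x := by
    unfold Top
    apply Finset.sum_le_sum; intro i _
    have := e2 i
    rw [← Finset.mul_sum] at this
    exact this
  have e5 : ∑ i ∈ range n, θ i x * ∑ j ∈ range n, PP (rad j) (fun z => θ j z * u z) x ≤ Tad n θ u x := by
    rw [← Finset.sum_mul]
    have h1 := Tad_nonneg (n := n) hθ0 hu0 x
    have h2 := hθ1 x
    unfold Tad at h1 ⊢
    nlinarith
  linarith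

theorem PP_sq_le {r : ℝ} (hr : 0 ≤ r) (hr1 : r < 1) {u : TT → ℝ} (hu : Continuous u) (x : TT) :
    PP r u x ^ 2 ≤ PP r (fun z => u z ^ 2) x := by
  set A := PP r u x with hA
  have hcp := cont_pk_sub' hr hr1 x
  have h2 : 0 ≤ ∫ z : TT, pk r (x - z) * (u z - A) ^ 2 :=
    integral_nonneg fun z => mul_nonneg (pk_nonneg hr hr1 _) (sq_nonneg _)
  have h3 : ∫ z : TT, pk r (x - z) * (u z - A) ^ 2
      = (∫ z : TT, pk r (x - z) * u z ^ 2) - A ^ 2 := by
    have e : ∀ z : TT, pk r (x - z) * (u z - A) ^ 2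
        = pk r (x - z) * u z ^ 2 - (2 * A) * (pk r (x - z) * u z)
          + A ^ 2 * pk r (x - z) := fun z => by ring
    simp_rw [e]
    have c1 : Continuous fun z : TT => pk r (x - z) * u z ^ 2 := hcp.mul (hu.pow 2)
    have c2 : Continuous fun z : TT => (2 * A) * (pk r (x - z) * u z) :=
      continuous_const.mul (hcp.mul hu)
    have c3 : Continuous fun z : TT => A ^ 2 * pk r (x - z) := continuous_const.mul hcp
    have hAe : ∫ z : TT, pk r (x - z) * u z = A := rfl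
    have c12 : Continuous fun z : TT => pk r (x - z) * u z ^ 2
        - (2 * A) * (pk r (x - z) * u z) := c1.sub c2
    rw [integral_add (integ c12) (integ c3),
      integral_sub (integ c1) (integ c2), integral_const_mul,
      integral_const_mul, integral_pk_sub hr hr1, hAe]
    ring
  have h5 : PP r (fun z => u z ^ 2) x = ∫ z : TT, pk r (x - z) * u z ^ 2 := rfl
  rw [h5]
  linarith

theorem PP_l1 {r : ℝ} (hr : 0 ≤ r) (hr1 : r < 1) {u : TT → ℝ} (hu : Continuous u) :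
    ∫ x : TT, PP r u x = ∫ x : TT, u x := by
  have h := PP_dual hr hr1 hu (continuous_const (y := (1 : ℝ)))
  simp only [mul_one] at h
  rw [h]
  congr 1; ext z
  have : PP r (fun _ => (1 : ℝ)) z = 1 := by
    unfold PP
    simp only [mul_one]
    exact integral_pk_sub hr hr1 z
  rw [this, mul_one]

theorem Top_crude (hθ : ∀ i, Continuous (θ i)) (hθ0 : ∀ i x, 0 ≤ θ i x)
    (hθ1 : ∀ x, ∑ i ∈ range n, θ i x ≤ 1) {u : TT → ℝ} (hu : Continuous u) :
    ∫ x : TT, Top n θ u x ^ 2 ≤ n * ∫ x : TT, u x ^ 2 := by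
  have h1 : ∀ x : TT, Top n θ u x ^ 2 ≤ ∑ i ∈ range n, PP (rad i) (fun z => u z ^ 2) x := by
    intro x
    unfold Top
    have hcs := Finset.sum_mul_sq_le_sq_mul_sq (range n) (fun i => θ i x)
      (fun i => PP (rad i) u x)
    have h2 : ∑ i ∈ range n, θ i x ^ 2 ≤ 1 := by
      have h3 : ∀ i ∈ range n, θ i x ≤ 1 := by
        intro i hi
        exact (Finset.single_le_sum (f := fun i => θ i x) (fun j _ => hθ0 j x) hi).trans (hθ1 x)
      refine le_trans ?_ (hθ1 x)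
      apply Finset.sum_le_sum
      intro i hi
      have := h3 i hi
      have := hθ0 i x
      nlinarith
    have h4 : ∑ i ∈ range n, PP (rad i) u x ^ 2 ≤ ∑ i ∈ range n, PP (rad i) (fun z => u z ^ 2) x :=
      Finset.sum_le_sum fun i _ => PP_sq_le (rad_nonneg i) (rad_lt_one i) hu x
    have h5 : 0 ≤ ∑ i ∈ range n, PP (rad i) u x ^ 2 := Finset.sum_nonneg fun i _ => sq_nonneg _
    nlinarith
  have hc : Continuous fun x => ∑ i ∈ range n, PP (rad i) (fun z => u z ^ 2) x := by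
    apply continuous_finsetSum
    intro i _
    exact cont_PP (rad_nonneg i) (rad_lt_one i) (hu.pow 2)
  refine (integral_mono (integ ((cont_Top hθ hu).pow 2)) (integ hc) h1).trans ?_
  rw [integral_finsetSum]
  · have : ∀ i ∈ range n, ∫ x : TT, PP (rad i) (fun z => u z ^ 2) x = ∫ x : TT, u x ^ 2 :=
      fun i _ => PP_l1 (rad_nonneg i) (rad_lt_one i) (hu.pow 2)
    rw [Finset.sum_congr rfl this]
    simp
  · intro i _
    exact integ (cont_PP (rad_nonneg i) (rad_lt_one i) (hu.pow 2))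

theorem Top_step (hθ : ∀ i, Continuous (θ i)) (hθ0 : ∀ i x, 0 ≤ θ i x)
    (hθ1 : ∀ x, ∑ i ∈ range n, θ i x ≤ 1) {S : ℝ} (hS : 0 ≤ S)
    (h : ∀ u : TT → ℝ, Continuous u → (∀ x, 0 ≤ u x) →
      ∫ x : TT, Top n θ u x ^ 2 ≤ S * ∫ x : TT, u x ^ 2) :
    ∀ u : TT → ℝ, Continuous u → (∀ x, 0 ≤ u x) →
      ∫ x : TT, Top n θ u x ^ 2 ≤ 16 * Real.sqrt S * ∫ x : TT, u x ^ 2 := by
  -- bound for the adjoint
  have hadj : ∀ u : TT → ℝ, Continuous u → (∀ x, 0 ≤ u x) →
      ∫ x : TT, Tad n θ u x ^ 2 ≤ 16 * Real.sqrt S * ∫ x : TT, u x ^ 2 := by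
    intro u hu hu0
    have cT := cont_Top (n := n) hθ hu
    have cA := cont_Tad (n := n) hθ hu
    have e1 : ∫ x : TT, Tad n θ u x ^ 2 = ∫ x : TT, Top n θ (Tad n θ u) x * u x := by
      rw [Top_dual hθ cA hu]
      congr 1; ext x; ring
    have e2 : ∫ x : TT, Top n θ (Tad n θ u) x * u x
        ≤ ∫ x : TT, 8 * (Top n θ u x * u x + u x * Tad n θ u x) := by
      have d1 : Continuous fun x => Top n θ (Tad n θ u) x * u x := (cont_Top hθ cA).mul hu
      have d2 : Continuous fun x => 8 * (Top n θ u x * u x + u x * Tad n θ u x) :=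
        continuous_const.mul ((cT.mul hu).add (hu.mul cA))
      refine integral_mono (integ d1) (integ d2) fun x => ?_
      have := mul_le_mul_of_nonneg_right (Top_Tad_le hθ hθ0 hθ1 hu hu0 x) (hu0 x)
      change Top n θ (Tad n θ u) x * u x ≤ 8 * (Top n θ u x * u x + u x * Tad n θ u x)
      linarith
    have e3 : ∫ x : TT, 8 * (Top n θ u x * u x + u x * Tad n θ u x)
        = 16 * ∫ x : TT, Top n θ u x * u x := by
      have d1 : Continuous fun x => Top n θ u x * u x := cT.mul hu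
      have d2 : Continuous fun x => u x * Tad n θ u x := hu.mul cA
      rw [integral_const_mul, integral_add (integ d1) (integ d2),
        ← Top_dual hθ hu hu]
      ring
    have e4 : (∫ x : TT, Top n θ u x * u x) ≤ Real.sqrt S * ∫ x : TT, u x ^ 2 := by
      have hb : 0 ≤ ∫ x : TT, u x ^ 2 := integral_nonneg fun x => sq_nonneg _
      have h5 := cs_cont cT hu
      have h6 := h u hu hu0
      apply abs_le_of_sq_le_sq' _ (by positivity) |>.2
      rw [mul_pow, Real.sq_sqrt hS]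
      calc _ ≤ _ := h5
        _ ≤ (S * ∫ x : TT, u x ^ 2) * ∫ x : TT, u x ^ 2 := by gcongr
        _ = _ := by ring
    rw [e1]
    linarith
  intro u hu hu0
  have cT := cont_Top (n := n) hθ hu
  have T0 := Top_nonneg (n := n) hθ0 hu0
  set b := ∫ x : TT, Top n θ u x ^ 2 with hb
  have hb0 : 0 ≤ b := integral_nonneg fun x => sq_nonneg _
  have hu2 : 0 ≤ ∫ x : TT, u x ^ 2 := integral_nonneg fun x => sq_nonneg _
  have e1 : b = ∫ x : TT, u x * Tad n θ (Top n θ u) x := by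
    rw [hb, ← Top_dual hθ hu cT]
    congr 1; ext x; ring
  have e2 : b ^ 2 ≤ (∫ x : TT, u x ^ 2) * (16 * Real.sqrt S * b) := by
    have h1 := cs_cont hu (cont_Tad (n := n) hθ cT)
    rw [← e1] at h1
    refine h1.trans ?_
    have := hadj _ cT T0
    gcongr
  rcases hb0.eq_or_lt with h0 | h0
  · rw [← h0]; positivity
  · have : b * b ≤ (16 * Real.sqrt S * ∫ x : TT, u x ^ 2) * b := by nlinarith
    exact le_of_mul_le_mul_right this h0

theorem Top_bound (hθ : ∀ i, Continuous (θ i)) (hθ0 : ∀ i x, 0 ≤ θ i x)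
    (hθ1 : ∀ x, ∑ i ∈ range n, θ i x ≤ 1) {u : TT → ℝ} (hu : Continuous u) (hu0 : ∀ x, 0 ≤ u x) :
    ∫ x : TT, Top n θ u x ^ 2 ≤ 256 * ∫ x : TT, u x ^ 2 := by
  let V : Set ℝ := {S : ℝ | 0 ≤ S ∧ ∀ u : TT → ℝ, Continuous u → (∀ x, 0 ≤ u x) →
      ∫ x : TT, Top n θ u x ^ 2 ≤ S * ∫ x : TT, u x ^ 2}
  have hV0 : (n : ℝ) ∈ V := ⟨by positivity, fun u hu _ => Top_crude hθ hθ0 hθ1 hu⟩
  have hbdd : BddBelow V := ⟨0, fun S hS => hS.1⟩
  have hmem : sInf V ∈ V := by
    refine ⟨le_csInf ⟨_, hV0⟩ fun S hS => hS.1, fun u hu hu0 => ?_⟩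
    have hu2 : 0 ≤ ∫ x : TT, u x ^ 2 := integral_nonneg fun x => sq_nonneg _
    rcases hu2.eq_or_lt with h0 | h0
    · have := hV0.2 u hu hu0
      rw [← h0] at this ⊢
      simpa using this
    · rw [← div_le_iff₀ h0]
      apply le_csInf ⟨_, hV0⟩
      intro S hS
      rw [div_le_iff₀ h0]
      exact hS.2 u hu hu0
  have hstep : 16 * Real.sqrt (sInf V) ∈ V := by
    refine ⟨by positivity, Top_step hθ hθ0 hθ1 hmem.1 hmem.2⟩
  have hle : sInf V ≤ 16 * Real.sqrt (sInf V) := csInf_le hbdd hstep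
  have h256 : sInf V ≤ 256 := by
    set s := Real.sqrt (sInf V) with hs
    have h1 : sInf V = s ^ 2 := (Real.sq_sqrt hmem.1).symm
    have h2 : 0 ≤ s := Real.sqrt_nonneg _
    rw [h1] at hle ⊢
    have h3 : s ≤ 16 := by
      rcases h2.eq_or_lt with h0 | h0
      · rw [← h0]; norm_num
      · nlinarith
    nlinarith
  have hu2 : 0 ≤ ∫ x : TT, u x ^ 2 := integral_nonneg fun x => sq_nonneg _
  refine (hmem.2 u hu hu0).trans ?_
  gcongr

/-- Soft maximum: elementary inequality. -/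
theorem soft_max (n q : ℕ) (hq : n ≤ 2 ^ q) (a : ℕ → ℝ) (ha : ∀ i, 0 ≤ a i) {i : ℕ}
    (hi : i ∈ range n) :
    a i * ∑ j ∈ range n, a j ^ q ≤ 3 * ∑ j ∈ range n, a j ^ (q + 1) := by
  have h1 : ∀ j, a i * a j ^ q ≤ 2 * a j ^ (q + 1) + a i ^ (q + 1) * ((2 : ℝ) ^ q)⁻¹ := by
    intro j
    rcases le_total (a i / 2) (a j) with h | h
    · have h2 : a i * a j ^ q ≤ (2 * a j) * a j ^ q := by
        apply mul_le_mul_of_nonneg_right (by linarith) (pow_nonneg (ha j) q)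
      have h3 : 0 ≤ a i ^ (q + 1) * ((2 : ℝ) ^ q)⁻¹ := by
        have := ha i; positivity
      have h4 : (2 * a j) * a j ^ q = 2 * a j ^ (q + 1) := by ring
      linarith
    · have h2 : a i * a j ^ q ≤ a i * (a i / 2) ^ q := by
        apply mul_le_mul_of_nonneg_left _ (ha i)
        exact pow_le_pow_left₀ (ha j) h q
      have h4 : a i * (a i / 2) ^ q = a i ^ (q + 1) * ((2 : ℝ) ^ q)⁻¹ := by
        rw [div_pow, pow_succ, div_eq_mul_inv]; ring
      have h5 : 0 ≤ 2 * a j ^ (q + 1) := by have := ha j; positivity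
      linarith
  have h2 : a i * ∑ j ∈ range n, a j ^ q ≤ 2 * (∑ j ∈ range n, a j ^ (q + 1))
      + n * (a i ^ (q + 1) * ((2 : ℝ) ^ q)⁻¹) := by
    rw [Finset.mul_sum, Finset.mul_sum]
    refine (Finset.sum_le_sum fun j _ => h1 j).trans (le_of_eq ?_)
    rw [Finset.sum_add_distrib]
    simp
  have h3 : a i ^ (q + 1) ≤ ∑ j ∈ range n, a j ^ (q + 1) :=
    Finset.single_le_sum (f := fun j => a j ^ (q + 1)) (fun j _ => pow_nonneg (ha j) _) hi
  have h4 : (n : ℝ) * (a i ^ (q + 1) * ((2 : ℝ) ^ q)⁻¹) ≤ a i ^ (q + 1) := by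
    have h5 : (n : ℝ) ≤ 2 ^ q := by exact_mod_cast hq
    have h6 : 0 ≤ a i ^ (q + 1) := pow_nonneg (ha i) _
    have h7 : (n : ℝ) * ((2 : ℝ) ^ q)⁻¹ ≤ 1 := by
      rw [← div_eq_mul_inv, div_le_one (by positivity)]
      exact h5
    nlinarith
  linarith

theorem pk_lower {r : ℝ} (hr : 0 ≤ r) (hr1 : r < 1) (x : TT) : (1 - r ^ 2) / 4 ≤ pk r x := by
  unfold pk
  have hA : 0 < ‖1 - (r : ℂ) * ee 1 x‖ := norm_pos_iff.mpr (one_sub_ne_zero hr hr1 x)
  have h1 : ‖1 - (r : ℂ) * ee 1 x‖ ≤ 2 := by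
    refine (norm_sub_le _ _).trans ?_
    rw [norm_mul, norm_ee, Complex.norm_real, Real.norm_of_nonneg hr, norm_one, mul_one]
    linarith
  apply div_le_div_of_nonneg_left _ (by positivity)
  · nlinarith
  · nlinarith

theorem PP_pos {r : ℝ} (hr : 0 ≤ r) (hr1 : r < 1) {u : TT → ℝ} (hu : Continuous u)
    (hu0 : ∀ x, 0 ≤ u x) {x0 : TT} (hx0 : u x0 ≠ 0) (x : TT) : 0 < PP r u x := by
  have h1 : 0 < ∫ z : TT, u z :=
    hu.integral_pos_of_hasCompactSupport_nonneg_nonzero (HasCompactSupport.of_compactSpace u)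
      hu0 hx0
  have h2 : ∫ z : TT, (1 - r ^ 2) / 4 * u z ≤ PP r u x := by
    apply integral_mono (integ (continuous_const.mul hu)) (integ ((cont_pk_sub' hr hr1 x).mul hu))
    intro z
    exact mul_le_mul_of_nonneg_right (pk_lower hr hr1 _) (hu0 z)
  rw [integral_const_mul] at h2
  have h3 : 0 < (1 - r ^ 2) / 4 := by nlinarith
  have := mul_pos h3 h1
  linarith

/-- Moving the centre of the Poisson kernel. -/
theorem pk_move {τ : ℝ} (hτ : 0 < τ) (hτ1 : τ ≤ 1) (x w z : TT) :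
    pk (Real.exp (-τ)) (w - z) ≤ (1 + 4 * Real.pi * (‖x - w‖ / τ)) ^ 2 * pk (Real.exp (-τ)) (x - z) := by
  set ρ := Real.exp (-τ) with hρ
  have hρ0 : 0 ≤ ρ := (Real.exp_pos _).le
  have hρ1 : ρ < 1 := by rw [hρ, Real.exp_lt_one_iff]; linarith
  have hA : 0 < ‖1 - (ρ : ℂ) * ee 1 (x - z)‖ := norm_pos_iff.mpr (one_sub_ne_zero hρ0 hρ1 _)
  have hB : 0 < ‖1 - (ρ : ℂ) * ee 1 (w - z)‖ := norm_pos_iff.mpr (one_sub_ne_zero hρ0 hρ1 _)
  set A := ‖1 - (ρ : ℂ) * ee 1 (x - z)‖ with hAd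
  set B := ‖1 - (ρ : ℂ) * ee 1 (w - z)‖ with hBd
  have h1 : A ≤ B + 2 * Real.pi * ‖x - w‖ := by
    have e : (1 : ℂ) - (ρ : ℂ) * ee 1 (x - z)
        = (1 - (ρ : ℂ) * ee 1 (w - z)) + (ρ : ℂ) * (ee 1 (w - z) * (1 - ee 1 (x - w))) := by
      have : ee 1 (x - z) = ee 1 (w - z) * ee 1 (x - w) := by
        rw [← ee_add_right]; congr 1; abel
      rw [this]; ring
    rw [hAd, e]
    refine (norm_add_le _ _).trans ?_
    rw [norm_mul, norm_mul, norm_ee, Complex.norm_real, Real.norm_of_nonneg hρ0, one_mul]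
    have h2 := norm_one_sub_ee_le (x - w)
    have h3 : 0 ≤ ‖1 - ee 1 (x - w)‖ := norm_nonneg _
    nlinarith
  have h2 : τ / 2 ≤ B := by
    have h3 := norm_one_sub_ge hρ0 (w - z)
    rw [← hBd] at h3
    have h4 : Real.exp (-τ) ≤ 1 - τ / 2 := by
      have h5 := Real.add_one_le_exp τ
      have h6 : Real.exp (-τ) = 1 / Real.exp τ := by rw [Real.exp_neg]; ring
      rw [h6, div_le_iff₀ (Real.exp_pos _)]
      have h7 : 0 ≤ 1 - τ / 2 := by linarith
      nlinarith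
    linarith
  have h3 : A ≤ (1 + 4 * Real.pi * (‖x - w‖ / τ)) * B := by
    have h4 : 2 * Real.pi * ‖x - w‖ = 4 * Real.pi * (‖x - w‖ / τ) * (τ / 2) := by
      field_simp; ring
    have h5 : 4 * Real.pi * (‖x - w‖ / τ) * (τ / 2) ≤ 4 * Real.pi * (‖x - w‖ / τ) * B := by
      apply mul_le_mul_of_nonneg_left h2
      have := Real.pi_pos
      positivity
    linarith
  unfold pk
  rw [← hAd, ← hBd, mul_div_assoc', div_le_div_iff₀ (by positivity) (by positivity)]
  have h4 : 0 ≤ 1 - ρ ^ 2 := by nlinarith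
  have h5 : A ^ 2 ≤ ((1 + 4 * Real.pi * (‖x - w‖ / τ)) * B) ^ 2 := by gcongr
  calc (1 - ρ ^ 2) * A ^ 2 ≤ (1 - ρ ^ 2) * ((1 + 4 * Real.pi * (‖x - w‖ / τ)) * B) ^ 2 := by gcongr
    _ = _ := by ring

theorem exists_dyadic (I : ℕ) {t : ℝ} (h1 : ((2 : ℝ) ^ (I + 1))⁻¹ ≤ t) (h2 : t ≤ 1) :
    ∃ i ≤ I, ((2 : ℝ) ^ (i + 1))⁻¹ ≤ t ∧ t ≤ 2 * ((2 : ℝ) ^ (i + 1))⁻¹ := by
  induction I with
  | zero =>
    refine ⟨0, le_refl _, h1, ?_⟩
    simp only [zero_add, pow_one]
    linarith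
  | succ I ih =>
    rcases le_total (((2 : ℝ) ^ (I + 1))⁻¹) t with h | h
    · obtain ⟨i, hi, h3⟩ := ih h
      exact ⟨i, by omega, h3⟩
    · refine ⟨I + 1, le_refl _, h1, h.trans (le_of_eq ?_)⟩
      rw [pow_succ (2 : ℝ) (I + 1)]
      field_simp

theorem poisson_max : ∃ C : ℝ, 0 ≤ C ∧ ∀ (Φ : ℂ → ℂ), DiffContOnCl ℂ Φ (Metric.ball 0 1) →
    ∀ I : ℕ, ∃ Nf : TT → ℝ, Continuous Nf ∧ (∀ x, 0 ≤ Nf x) ∧
      (∀ x w : TT, ∀ t : ℝ, ((2 : ℝ) ^ (I + 1))⁻¹ ≤ t → t ≤ 1 →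
        ‖Φ ((Real.exp (-t) : ℝ) * ee 1 w)‖ ≤ Nf x * (1 + ‖x - w‖ / t) ^ 2) ∧
      ∫ x : TT, Nf x ^ 2 ≤ C * ∫ x : TT, ‖Φ (ee 1 x)‖ ^ 2 := by
  set K : ℝ := 8 * (8 * Real.pi) ^ 2 * 3 with hK
  have hK0 : 0 ≤ K := by positivity
  refine ⟨K ^ 2 * 256, by positivity, fun Φ hΦ I => ?_⟩
  set v : TT → ℝ := fun z => ‖Φ (ee 1 z)‖ with hv
  have hvc : Continuous v := (continuous_boundary hΦ).norm
  have hv0 : ∀ x, 0 ≤ v x := fun x => norm_nonneg _
  -- pointwise estimate by the dyadic Poisson integrals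
  have hpt : ∀ x w : TT, ∀ t : ℝ, ((2 : ℝ) ^ (I + 1))⁻¹ ≤ t → t ≤ 1 → ∃ i ∈ range (I + 2),
      ‖Φ ((Real.exp (-t) : ℝ) * ee 1 w)‖ ≤
        8 * (8 * Real.pi) ^ 2 * PP (rad i) v x * (1 + ‖x - w‖ / t) ^ 2 := by
    intro x w t ht1 ht2
    have ht0 : 0 < t := lt_of_lt_of_le (by positivity) ht1
    obtain ⟨i, hi, hi1, hi2⟩ := exists_dyadic I ht1 ht2
    refine ⟨i + 1, by rw [mem_range]; omega, ?_⟩
    set τ : ℝ := ((2 : ℝ) ^ (i + 1))⁻¹ with hτ
    have hτ0 : 0 < τ := by positivity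
    have hτ1 : τ ≤ 1 := hi1.trans ht2
    have hrad : rad (i + 1) = Real.exp (-τ) := rfl
    have hr0 : 0 ≤ Real.exp (-t) := (Real.exp_pos _).le
    have hr1 : Real.exp (-t) < 1 := by rw [Real.exp_lt_one_iff]; linarith
    have h1 := poisson_le hΦ hr0 hr1 w
    have h2 : PP (Real.exp (-t)) v w ≤ 8 * PP (rad (i + 1)) v w := by
      apply PP_harnack (rad_lt_one _) hr0 _ _ hvc hv0
      · rw [hrad]; exact Real.exp_le_exp.mpr (by linarith)
      · rw [hrad, ← Real.exp_nat_mul]; apply Real.exp_le_exp.mpr; push_cast; linarith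
    have h3 : PP (rad (i + 1)) v w
        ≤ (1 + 4 * Real.pi * (‖x - w‖ / τ)) ^ 2 * PP (rad (i + 1)) v x := by
      unfold PP
      rw [← integral_const_mul]
      apply integral_mono (integ ((cont_pk_sub' (rad_nonneg _) (rad_lt_one _) w).mul hvc))
        (integ (continuous_const.mul ((cont_pk_sub' (rad_nonneg _) (rad_lt_one _) x).mul hvc)))
      intro z
      have := mul_le_mul_of_nonneg_right (pk_move hτ0 hτ1 x w z) (hv0 z)
      rw [← hrad] at this
      change pk (rad (i + 1)) (w - z) * v z ≤ (1 + 4 * Real.pi * (‖x - w‖ / τ)) ^ 2 *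
        (pk (rad (i + 1)) (x - z) * v z)
      linarith
    have h4 : (1 + 4 * Real.pi * (‖x - w‖ / τ)) ^ 2 ≤ (8 * Real.pi) ^ 2 * (1 + ‖x - w‖ / t) ^ 2 := by
      rw [← mul_pow]
      have hpi := Real.pi_gt_three
      have h5 : ‖x - w‖ / τ ≤ 2 * (‖x - w‖ / t) := by
        rw [div_le_iff₀ hτ0]
        have h6 : 2 * (‖x - w‖ / t) * τ = ‖x - w‖ * (2 * τ / t) := by field_simp
        rw [h6]
        have h7 : 1 ≤ 2 * τ / t := by rw [one_le_div ht0]; exact hi2
        have := norm_nonneg (x - w)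
        nlinarith
      have h8 : 0 ≤ ‖x - w‖ / τ := by positivity
      have h9 : 0 ≤ ‖x - w‖ / t := by positivity
      apply pow_le_pow_left₀ (by positivity)
      nlinarith
    have hP0 := PP_nonneg (rad_nonneg (i + 1)) (rad_lt_one (i + 1)) hv0 x
    calc ‖Φ ((Real.exp (-t) : ℝ) * ee 1 w)‖ ≤ PP (Real.exp (-t)) v w := h1
      _ ≤ 8 * PP (rad (i + 1)) v w := h2
      _ ≤ 8 * ((1 + 4 * Real.pi * (‖x - w‖ / τ)) ^ 2 * PP (rad (i + 1)) v x) := by gcongr
      _ ≤ 8 * (((8 * Real.pi) ^ 2 * (1 + ‖x - w‖ / t) ^ 2) * PP (rad (i + 1)) v x) := by gcongr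
      _ = _ := by ring
  by_cases hz : ∀ x, v x = 0
  · -- trivial case
    refine ⟨fun _ => 0, continuous_const, fun _ => le_refl _, ?_, ?_⟩
    · intro x w t ht1 ht2
      obtain ⟨i, _, hi⟩ := hpt x w t ht1 ht2
      have : PP (rad i) v x = 0 := by
        unfold PP
        simp [hz]
      rw [this] at hi
      simpa using hi
    · have : 0 ≤ K ^ 2 * 256 * ∫ x : TT, ‖Φ (ee 1 x)‖ ^ 2 := by
        have : 0 ≤ ∫ x : TT, ‖Φ (ee 1 x)‖ ^ 2 := integral_nonneg fun x => sq_nonneg _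
        positivity
      simpa using this
  · obtain ⟨x0, hx0⟩ := not_forall.mp hz
    set n := I + 2 with hn
    obtain ⟨q, hq⟩ : ∃ q : ℕ, n ≤ 2 ^ q := ⟨n, Nat.lt_two_pow_self.le⟩
    set a : ℕ → TT → ℝ := fun i x => PP (rad i) v x with ha
    have hac : ∀ i, Continuous (a i) := fun i => cont_PP (rad_nonneg i) (rad_lt_one i) hvc
    have hap : ∀ i x, 0 < a i x := fun i x => PP_pos (rad_nonneg i) (rad_lt_one i) hvc hv0 hx0 x
    set s : TT → ℝ := fun x => ∑ j ∈ range n, a j x ^ q with hs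
    have hsp : ∀ x, 0 < s x := by
      intro x
      apply Finset.sum_pos (fun j _ => pow_pos (hap j x) q)
      exact ⟨0, by rw [mem_range]; omega⟩
    have hsc : Continuous s := by
      apply continuous_finsetSum
      intro j _
      exact (hac j).pow q
    set θ : ℕ → TT → ℝ := fun i x => a i x ^ q / s x with hθd
    have hθc : ∀ i, Continuous (θ i) := fun i =>
      ((hac i).pow q).div hsc (fun x => (hsp x).ne')
    have hθ0 : ∀ i x, 0 ≤ θ i x := fun i x => div_nonneg (pow_pos (hap i x) q).le (hsp x).le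
    have hθ1 : ∀ x, ∑ i ∈ range n, θ i x ≤ 1 := by
      intro x
      simp only [hθd]
      rw [← Finset.sum_div, div_self (hsp x).ne']
    have hmax : ∀ i ∈ range n, ∀ x, a i x ≤ 3 * Top n θ v x := by
      intro i hi x
      have h1 := soft_max n q hq (fun j => a j x) (fun j => (hap j x).le) hi
      have h2 : Top n θ v x = (∑ j ∈ range n, a j x ^ (q + 1)) / s x := by
        unfold Top
        rw [Finset.sum_div]
        refine Finset.sum_congr rfl fun j _ => ?_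
        simp only [hθd, ha]
        rw [pow_succ]; ring
      rw [h2, ← mul_div_assoc, le_div_iff₀ (hsp x)]
      exact h1
    refine ⟨fun x => K * Top n θ v x, continuous_const.mul (cont_Top hθc hvc),
      fun x => mul_nonneg hK0 (Top_nonneg hθ0 hv0 x), ?_, ?_⟩
    · intro x w t ht1 ht2
      obtain ⟨i, hi, h⟩ := hpt x w t ht1 ht2
      refine h.trans ?_
      have h1 := hmax i hi x
      have h2 : 8 * (8 * Real.pi) ^ 2 * PP (rad i) v x ≤ K * Top n θ v x := by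
        rw [hK]
        have : 8 * (8 * Real.pi) ^ 2 * PP (rad i) v x ≤ 8 * (8 * Real.pi) ^ 2 * (3 * Top n θ v x) := by
          apply mul_le_mul_of_nonneg_left h1 (by positivity)
        linarith
      exact mul_le_mul_of_nonneg_right h2 (by positivity)
    · simp_rw [mul_pow]
      rw [integral_const_mul, mul_assoc]
      apply mul_le_mul_of_nonneg_left _ (by positivity)
      exact Top_bound hθc hθ0 hθ1 hvc hv0

end MP63
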