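import Pool.Agent.Work.MP_63674d_an.Base

/-! Poisson kernel on the circle of length one. -/

open MeasureTheory Finset

namespace MP63

/-- The Poisson kernel. -/
noncomputable def pk (r : ℝ) (x : TT) : ℝ := (1 - r ^ 2) / ‖1 - (r : ℂ) * ee 1 x‖ ^ 2

theorem one_sub_ne_zero {r : ℝ} (hr : 0 ≤ r) (hr1 : r < 1) (x : TT) : (1 : ℂ) - r * ee 1 x ≠ 0 := by
  intro h
  have h1 : (1 : ℂ) = r * ee 1 x := by linear_combination h
  have h2 : (1 : ℝ) = ‖(r : ℂ) * ee 1 x‖ := by rw [← h1]; simp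
  rw [norm_mul, norm_ee, Complex.norm_real, Real.norm_of_nonneg hr] at h2
  linarith

theorem continuous_pk {r : ℝ} (hr : 0 ≤ r) (hr1 : r < 1) : Continuous (pk r) := by
  unfold pk
  apply Continuous.div (by fun_prop) (by fun_prop)
  intro x
  exact pow_ne_zero 2 (norm_ne_zero_iff.mpr (one_sub_ne_zero hr hr1 x))

theorem pk_nonneg {r : ℝ} (hr : 0 ≤ r) (hr1 : r < 1) (x : TT) : 0 ≤ pk r x := by
  unfold pk
  apply div_nonneg _ (by positivity)
  nlinarith

theorem pk_neg (r : ℝ) (x : TT) : pk r (-x) = pk r x := by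
  unfold pk
  congr 2
  rw [ee_neg_right, ee_neg]
  have : (1 : ℂ) - r * (starRingEnd ℂ) (ee 1 x) = (starRingEnd ℂ) (1 - r * ee 1 x) := by
    simp [map_sub, map_mul]
  rw [this, Complex.norm_conj]

theorem poissonKernel_eq {r : ℝ} (hr : 0 ≤ r) (y z : TT) :
    poissonKernel 0 ((r : ℂ) * ee 1 y) (ee 1 z) = pk r (y - z) := by
  unfold pk
  rw [poissonKernel_def]
  simp only [sub_zero, norm_ee, norm_mul, Complex.norm_real, Real.norm_of_nonneg hr, mul_one,
    one_pow]
  congr 2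
  have h1 : ee 1 z - (r : ℂ) * ee 1 y = ee 1 z * (1 - r * ee 1 (y - z)) := by
    rw [ee_sub_right]
    have := ee_mul_ee_neg 1 z
    linear_combination (r : ℂ) * ee 1 y * this
  rw [h1, norm_mul, norm_ee, one_mul]

theorem circleAverage_eq_C (g : ℂ → ℂ) :
    Real.circleAverage g 0 1 = ∫ x : TT, g (ee 1 x) := by
  have h := AddCircle.intervalIntegral_preimage (1 : ℝ) 0 (fun x : TT => g (ee 1 x))
  rw [← h, Real.circleAverage_def]
  have hpi : (2 * Real.pi) ≠ 0 := by positivity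
  have h2 : ∀ θ : ℝ, g (circleMap 0 1 θ) = g (ee 1 ((θ / (2 * Real.pi) : ℝ) : TT)) := by
    intro θ; rw [ee_theta]; simp [circleMap]
  simp_rw [h2]
  rw [intervalIntegral.integral_comp_div (fun y : ℝ => g (ee 1 (y : TT))) hpi]
  rw [smul_smul, inv_mul_cancel₀ hpi, one_smul]
  simp [hpi]

theorem mem_ball_of {r : ℝ} (hr : 0 ≤ r) (hr1 : r < 1) (y : TT) :
    (r : ℂ) * ee 1 y ∈ Metric.ball (0 : ℂ) 1 := by
  rw [mem_ball_zero_iff, norm_mul, norm_ee, Complex.norm_real, Real.norm_of_nonneg hr]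
  linarith

theorem poisson_formula {Φ : ℂ → ℂ} (h : DiffContOnCl ℂ Φ (Metric.ball 0 1)) {r : ℝ} (hr : 0 ≤ r)
    (hr1 : r < 1) (y : TT) :
    ∫ z : TT, (pk r (y - z) : ℂ) * Φ (ee 1 z) = Φ (r * ee 1 y) := by
  have h1 := h.circleAverage_poissonKernel_smul (mem_ball_of hr hr1 y)
  rw [circleAverage_eq_C] at h1
  rw [← h1]
  congr 1; ext z
  simp only [Pi.smul_apply', poissonKernel_eq hr, Complex.real_smul]

theorem integral_pk {r : ℝ} (hr : 0 ≤ r) (hr1 : r < 1) : ∫ z : TT, pk r z = 1 := by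
  have h1 := poisson_formula (Φ := fun _ => 1) diffContOnCl_const hr hr1 0
  simp only [zero_sub, pk_neg, mul_one] at h1
  have h2 : ((∫ z : TT, pk r z : ℝ) : ℂ) = ((1 : ℝ) : ℂ) := by
    rw [← integral_complex_ofReal, h1]; simp
  exact_mod_cast h2

theorem integral_pk_sub {r : ℝ} (hr : 0 ≤ r) (hr1 : r < 1) (y : TT) :
    ∫ z : TT, pk r (y - z) = 1 := by
  rw [integral_sub_left_eq_self (fun z => pk r z) volume y, integral_pk hr hr1]

theorem continuous_boundary {Φ : ℂ → ℂ} (h : DiffContOnCl ℂ Φ (Metric.ball 0 1)) :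
    Continuous fun z : TT => Φ (ee 1 z) := by
  have h1 := h.continuousOn
  rw [closure_ball 0 one_ne_zero] at h1
  exact h1.comp_continuous (by fun_prop) (fun x => by simp [norm_ee])

theorem poisson_le {Φ : ℂ → ℂ} (h : DiffContOnCl ℂ Φ (Metric.ball 0 1)) {r : ℝ} (hr : 0 ≤ r)
    (hr1 : r < 1) (y : TT) :
    ‖Φ (r * ee 1 y)‖ ≤ ∫ z : TT, pk r (y - z) * ‖Φ (ee 1 z)‖ := by
  rw [← poisson_formula h hr hr1 y]
  refine (norm_integral_le_integral_norm _).trans (le_of_eq ?_)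
  congr 1; ext z
  rw [norm_mul, Complex.norm_real, Real.norm_of_nonneg (pk_nonneg hr hr1 _)]

theorem poisson_le_sq {Φ : ℂ → ℂ} (h : DiffContOnCl ℂ Φ (Metric.ball 0 1)) {r : ℝ} (hr : 0 ≤ r)
    (hr1 : r < 1) (y : TT) :
    ‖Φ (r * ee 1 y)‖ ^ 2 ≤ ∫ z : TT, pk r (y - z) * ‖Φ (ee 1 z)‖ ^ 2 := by
  have h1 := poisson_le h hr hr1 y
  set A := ∫ z : TT, pk r (y - z) * ‖Φ (ee 1 z)‖ with hA
  have hcb := continuous_boundary h
  have hcp : Continuous fun z : TT => pk r (y - z) :=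
    (continuous_pk hr hr1).comp (by fun_prop)
  have h2 : 0 ≤ ∫ z : TT, pk r (y - z) * (‖Φ (ee 1 z)‖ - A) ^ 2 :=
    integral_nonneg fun z => mul_nonneg (pk_nonneg hr hr1 _) (sq_nonneg _)
  have h3 : ∫ z : TT, pk r (y - z) * (‖Φ (ee 1 z)‖ - A) ^ 2
      = (∫ z : TT, pk r (y - z) * ‖Φ (ee 1 z)‖ ^ 2) - A ^ 2 := by
    have e : ∀ z : TT, pk r (y - z) * (‖Φ (ee 1 z)‖ - A) ^ 2
        = pk r (y - z) * ‖Φ (ee 1 z)‖ ^ 2 - (2 * A) * (pk r (y - z) * ‖Φ (ee 1 z)‖)
          + A ^ 2 * pk r (y - z) := fun z => by ring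
    simp_rw [e]
    have c1 : Continuous fun z : TT => pk r (y - z) * ‖Φ (ee 1 z)‖ ^ 2 := hcp.mul (hcb.norm.pow 2)
    have c2 : Continuous fun z : TT => (2 * A) * (pk r (y - z) * ‖Φ (ee 1 z)‖) :=
      continuous_const.mul (hcp.mul hcb.norm)
    have c3 : Continuous fun z : TT => A ^ 2 * pk r (y - z) := continuous_const.mul hcp
    have c12 : Continuous fun z : TT => pk r (y - z) * ‖Φ (ee 1 z)‖ ^ 2
        - (2 * A) * (pk r (y - z) * ‖Φ (ee 1 z)‖) := c1.sub c2
    rw [integral_add (integ c12) (integ c3),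
      integral_sub (integ c1) (integ c2), integral_const_mul,
      integral_const_mul, integral_pk_sub hr hr1, ← hA]
    ring
  have h4 : ‖Φ (r * ee 1 y)‖ ^ 2 ≤ A ^ 2 := by gcongr
  linarith

/-- Fubini on the circle for continuous functions. -/
theorem fubini {f : TT → TT → ℝ} (hf : Continuous (Function.uncurry f)) :
    ∫ x, ∫ y, f x y = ∫ y, ∫ x, f x y := by
  apply integral_integral_swap
  exact hf.integrable_of_hasCompactSupport (HasCompactSupport.of_compactSpace _)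

theorem continuous_integral {X : Type*} [TopologicalSpace X] [FirstCountableTopology X]
    [LocallyCompactSpace X] {f : X → TT → ℝ} (hf : Continuous (Function.uncurry f)) :
    Continuous fun x => ∫ y, f x y := by
  have h := continuous_parametric_integral_of_continuous (μ := (volume : Measure TT)) hf
    isCompact_univ
  simpa using h

theorem mean_sq_mono {Φ : ℂ → ℂ} (h : DiffContOnCl ℂ Φ (Metric.ball 0 1)) {r : ℝ} (hr : 0 ≤ r)
    (hr1 : r < 1) :
    ∫ y : TT, ‖Φ (r * ee 1 y)‖ ^ 2 ≤ ∫ y : TT, ‖Φ (ee 1 y)‖ ^ 2 := by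
  have hcb := continuous_boundary h
  have hcp := continuous_pk hr hr1
  have hc2 : Continuous fun y : TT => Φ (r * ee 1 y) := by
    have h1 := h.continuousOn
    exact h1.comp_continuous (by fun_prop) (fun x => subset_closure (mem_ball_of hr hr1 x))
  have hcu : Continuous (Function.uncurry fun y z : TT => pk r (y - z) * ‖Φ (ee 1 z)‖ ^ 2) := by
    unfold Function.uncurry
    apply Continuous.mul
    · exact hcp.comp (by fun_prop)
    · exact ((hcb.comp continuous_snd).norm).pow 2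
  calc ∫ y : TT, ‖Φ (r * ee 1 y)‖ ^ 2
      ≤ ∫ y : TT, ∫ z : TT, pk r (y - z) * ‖Φ (ee 1 z)‖ ^ 2 := by
        apply integral_mono (integ (hc2.norm.pow 2)) (integ (continuous_integral hcu))
        intro y
        exact poisson_le_sq h hr hr1 y
    _ = ∫ z : TT, ∫ y : TT, pk r (y - z) * ‖Φ (ee 1 z)‖ ^ 2 := fubini hcu
    _ = ∫ y : TT, ‖Φ (ee 1 y)‖ ^ 2 := by
        congr 1; ext z
        rw [integral_mul_const, integral_sub_right_eq_self (fun y => pk r y) z,
          integral_pk hr hr1, one_mul]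

theorem pk_semigroup {r r' : ℝ} (hr : 0 ≤ r) (hr1 : r < 1) (hr' : 0 ≤ r') (hr1' : r' < 1)
    (x w : TT) :
    ∫ z : TT, pk r (x - z) * pk r' (z - w) = pk (r * r') (x - w) := by
  have hd : ∀ ζ : ℂ, ‖ζ‖ ≤ 1 → (1 : ℂ) - r' * ee (-1) w * ζ ≠ 0 := by
    intro ζ hζ h0
    have h1 : (1 : ℂ) = r' * ee (-1) w * ζ := by linear_combination h0
    have h2 : (1 : ℝ) = ‖(r' : ℂ) * ee (-1) w * ζ‖ := by rw [← h1]; simp
    rw [norm_mul, norm_mul, norm_ee, Complex.norm_real, Real.norm_of_nonneg hr'] at h2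
    nlinarith [norm_nonneg ζ]
  have hre : ∀ v : ℂ, 1 - v ≠ 0 → ((1 + v) / (1 - v)).re = (1 - ‖v‖ ^ 2) / ‖1 - v‖ ^ 2 := by
    intro v hv
    rw [Complex.div_re, ← Complex.normSq_eq_norm_sq, ← Complex.normSq_eq_norm_sq]
    rw [← add_div]; congr 1
    simp [Complex.normSq_apply]; ring
  let H : ℂ → ℂ := fun ζ => (1 + r' * ee (-1) w * ζ) / (1 - r' * ee (-1) w * ζ)
  have hH : DiffContOnCl ℂ H (Metric.ball 0 1) := by
    apply DifferentiableOn.diffContOnCl
    rw [closure_ball 0 one_ne_zero]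
    intro ζ hζ
    apply DifferentiableAt.differentiableWithinAt
    apply DifferentiableAt.div (by fun_prop) (by fun_prop)
    exact hd ζ (by simpa using hζ)
  have h1 := poisson_formula hH hr hr1 x
  have h2 : ∀ z : TT, (H (ee 1 z)).re = pk r' (z - w) := by
    intro z
    have := hre (r' * ee (-1) w * ee 1 z) (hd _ (by rw [norm_ee]))
    simp only [H]
    rw [this]
    unfold pk
    rw [norm_mul, norm_mul, norm_ee, norm_ee, Complex.norm_real, Real.norm_of_nonneg hr',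
      ee_sub_right]
    congr 2
    · ring
    · ring_nf
  have h3 : (H (r * ee 1 x)).re = pk (r * r') (x - w) := by
    have hn : ‖(r : ℂ) * ee 1 x‖ ≤ 1 := by
      have := mem_ball_of hr hr1 x
      rw [mem_ball_zero_iff] at this; exact this.le
    have := hre (r' * ee (-1) w * (r * ee 1 x)) (hd _ hn)
    simp only [H]
    rw [this]
    unfold pk
    rw [norm_mul, norm_mul, norm_mul, norm_ee, norm_ee, Complex.norm_real, Complex.norm_real,
      Real.norm_of_nonneg hr', Real.norm_of_nonneg hr, ee_sub_right]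
    congr 2
    · ring
    · push_cast; ring_nf
  rw [← h3, ← h1]
  have hcH := continuous_boundary hH
  have hcp : Continuous fun z : TT => pk r (x - z) := (continuous_pk hr hr1).comp (by fun_prop)
  have h4 : (∫ z : TT, (pk r (x - z) : ℂ) * H (ee 1 z)).re
      = ∫ z : TT, ((pk r (x - z) : ℂ) * H (ee 1 z)).re := by
    have := integral_re (μ := (volume : Measure TT)) (f := fun z : TT => (pk r (x - z) : ℂ) * H (ee 1 z))
      (integ ((Complex.continuous_ofReal.comp hcp).mul hcH))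
    simpa using this.symm
  rw [h4]
  congr 1; ext z
  rw [Complex.re_ofReal_mul, h2]

end MP63
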