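import Pool.Agent.Work.MP_63674d_an.Cut
import Pool.Agent.Work.MP_63674d_an.Poisson

open MeasureTheory Finset

namespace MP63

/-- The (truncated) area integral. -/
noncomputable def area (D : ℕ) (a : ℕ → ℂ) (I L : ℕ) (x : TT) : ℝ :=
  ∫ t in ((2 : ℝ) ^ (I + 1))⁻¹..1, ∫ w : TT, ‖dtp D a t w‖ ^ 2 * ((1 + ‖x - w‖ / t) ^ L)⁻¹

theorem h1_cont_dtp (D : ℕ) (a : ℕ → ℂ) :
    Continuous (fun q : ℝ × TT => dtp D a q.1 q.2) := by
  unfold dtp
  fun_prop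

/-- truncated weight -/
theorem h1_cont_G (D : ℕ) (a : ℕ → ℂ) (L : ℕ) (τ : ℝ) (hτ : 0 < τ) :
    Continuous (fun q : TT × ℝ =>
      ∫ w : TT, ‖dtp D a q.2 w‖ ^ 2 * ((1 + ‖q.1 - w‖ / max q.2 τ) ^ L)⁻¹) := by
  apply continuous_integral
    (f := fun (q : TT × ℝ) (w : TT) => ‖dtp D a q.2 w‖ ^ 2 * ((1 + ‖q.1 - w‖ / max q.2 τ) ^ L)⁻¹)
  unfold Function.uncurry
  have h1 : Continuous (fun a_1 : (TT × ℝ) × TT => dtp D a a_1.1.2 a_1.2) :=
    (h1_cont_dtp D a).comp (by fun_prop : Continuous fun a_1 : (TT × ℝ) × TT => (a_1.1.2, a_1.2))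
  apply Continuous.mul (h1.norm.pow 2)
  apply Continuous.inv₀
  · apply Continuous.pow
    apply Continuous.add continuous_const
    apply Continuous.div (by fun_prop) (by fun_prop)
    intro q
    have : τ ≤ max q.1.2 τ := le_max_right _ _
    intro h0
    rw [h0] at this
    linarith
  · intro q
    have h2 : 0 < max q.1.2 τ := lt_of_lt_of_le hτ (le_max_right _ _)
    positivity

theorem h1_cont_G' (D : ℕ) (a : ℕ → ℂ) (L : ℕ) (τ : ℝ) (hτ : 0 < τ) (x : TT) :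
    Continuous (fun t : ℝ =>
      ∫ w : TT, ‖dtp D a t w‖ ^ 2 * ((1 + ‖x - w‖ / max t τ) ^ L)⁻¹) := by
  apply continuous_integral
    (f := fun (t : ℝ) (w : TT) => ‖dtp D a t w‖ ^ 2 * ((1 + ‖x - w‖ / max t τ) ^ L)⁻¹)
  unfold Function.uncurry
  apply Continuous.mul ((h1_cont_dtp D a).norm.pow 2)
  apply Continuous.inv₀
  · apply Continuous.pow
    apply Continuous.add continuous_const
    apply Continuous.div (by fun_prop) (by fun_prop)
    intro q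
    have : τ ≤ max q.1 τ := le_max_right _ _
    intro h0
    rw [h0] at this
    linarith
  · intro q
    have h2 : 0 < max q.1 τ := lt_of_lt_of_le hτ (le_max_right _ _)
    positivity

theorem h1_eqOn (D : ℕ) (a : ℕ → ℂ) (L : ℕ) (τ b : ℝ) (hb : τ ≤ b) (x : TT) (t : ℝ)
    (ht : t ∈ Set.uIcc τ b) :
    (∫ w : TT, ‖dtp D a t w‖ ^ 2 * ((1 + ‖x - w‖ / t) ^ L)⁻¹) =
      ∫ w : TT, ‖dtp D a t w‖ ^ 2 * ((1 + ‖x - w‖ / max t τ) ^ L)⁻¹ := by
  rw [Set.uIcc_of_le hb] at ht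
  rw [max_eq_left ht.1]

theorem continuous_area (D : ℕ) (a : ℕ → ℂ) (I L : ℕ) : Continuous (area D a I L) := by
  set τ : ℝ := ((2 : ℝ) ^ (I + 1))⁻¹ with hτ
  have hτ0 : 0 < τ := by positivity
  have hτ1 : τ ≤ 1 := by
    rw [hτ]
    exact inv_le_one_of_one_le₀ (one_le_pow₀ (by norm_num))
  have h1 : area D a I L = fun x => ∫ t in τ..1,
      ∫ w : TT, ‖dtp D a t w‖ ^ 2 * ((1 + ‖x - w‖ / max t τ) ^ L)⁻¹ := by
    funext x
    unfold area
    apply intervalIntegral.integral_congr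
    intro t ht
    exact h1_eqOn D a L τ 1 hτ1 x t ht
  rw [h1]
  apply intervalIntegral.continuous_parametric_intervalIntegral_of_continuous'
  exact h1_cont_G D a L τ hτ0

/-- weighted Cauchy-Schwarz -/
theorem h1_cs {α : Type*} [MeasurableSpace α] {μ : Measure α} {u K : α → ℝ}
    (hK : ∀ x, 0 ≤ K x) (h1 : Integrable (fun x => u x * K x) μ)
    (h2 : Integrable (fun x => u x ^ 2 * K x) μ) (h3 : Integrable K μ) (hB : 0 < ∫ x, K x ∂μ) :
    (∫ x, u x * K x ∂μ) ^ 2 ≤ (∫ x, u x ^ 2 * K x ∂μ) * ∫ x, K x ∂μ := by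
  set A := ∫ x, u x * K x ∂μ with hA
  set B := ∫ x, K x ∂μ with hBd
  have h0 : 0 ≤ ∫ x, (B * u x - A) ^ 2 * K x ∂μ :=
    integral_nonneg fun x => mul_nonneg (sq_nonneg _) (hK x)
  have h4 : ∫ x, (B * u x - A) ^ 2 * K x ∂μ =
      B ^ 2 * (∫ x, u x ^ 2 * K x ∂μ) - (2 * A * B) * A + A ^ 2 * B := by
    have e : ∀ x, (B * u x - A) ^ 2 * K x =
        B ^ 2 * (u x ^ 2 * K x) - (2 * A * B) * (u x * K x) + A ^ 2 * K x := fun x => by ring
    simp_rw [e]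
    have i1 := h2.const_mul (B ^ 2)
    have i2 := h1.const_mul (2 * A * B)
    have i3 := h3.const_mul (A ^ 2)
    have i12 : Integrable (fun x => B ^ 2 * (u x ^ 2 * K x) - (2 * A * B) * (u x * K x)) μ :=
      i1.sub i2
    rw [integral_add i12 i3, integral_sub i1 i2,
      integral_const_mul, integral_const_mul, integral_const_mul]
  rw [h4] at h0
  have h5 : 0 ≤ B * (B * (∫ x, u x ^ 2 * K x ∂μ) - A ^ 2) := by
    have : B * (B * (∫ x, u x ^ 2 * K x ∂μ) - A ^ 2) =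
      B ^ 2 * (∫ x, u x ^ 2 * K x ∂μ) - (2 * A * B) * A + A ^ 2 * B := by ring
    rw [this]
    exact h0
  have h6 := (mul_nonneg_iff_of_pos_left hB).mp h5
  linarith

theorem h1_orth (m n : ℤ) (y : TT) :
    ∫ w : TT, ee m w * ee n (y - w) = if m = n then ee n y else 0 := by
  have h : ∀ w : TT, ee m w * ee n (y - w) = ee n y * ee (m - n) w := by
    intro w
    rw [ee_sub_right, sub_eq_add_neg, ee_add]
    ring
  simp_rw [h]
  rw [integral_const_mul, integral_ee]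
  by_cases hmn : m = n
  · simp [hmn]
  · rw [if_neg (sub_ne_zero.mpr hmn), if_neg hmn, mul_zero]

theorem h1_conv (D N : ℕ) (c g : ℕ → ℂ) (hg : ∀ n, N ≤ n → g n = 0) (y : TT) :
    ∫ w : TT, (∑ m ∈ range D, c m * ee m w) * (∑ n ∈ range N, g n * ee n (y - w)) =
      ∑ m ∈ range D, c m * g m * ee m y := by
  have h : ∀ w : TT, (∑ m ∈ range D, c m * ee m w) * (∑ n ∈ range N, g n * ee n (y - w)) =
      ∑ m ∈ range D, ∑ n ∈ range N, (c m * g n) * (ee m w * ee n (y - w)) := by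
    intro w
    rw [Finset.sum_mul_sum]
    refine Finset.sum_congr rfl fun m _ => Finset.sum_congr rfl fun n _ => ?_
    ring
  simp_rw [h]
  rw [integral_finsetSum _ (fun m _ => integ (by fun_prop))]
  refine Finset.sum_congr rfl fun m hm => ?_
  rw [integral_finsetSum _ (fun n _ => integ (by fun_prop))]
  have h2 : ∀ n ∈ range N, ∫ w : TT, (c m * g n) * (ee m w * ee n (y - w)) =
      if n = m then c m * g m * ee m y else 0 := by
    intro n _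
    rw [integral_const_mul, h1_orth]
    by_cases hnm : n = m
    · subst hnm
      simp
    · have : ¬ ((m : ℤ) = n) := fun h => hnm (by omega)
      rw [if_neg this, if_neg hnm, mul_zero]
  rw [Finset.sum_congr rfl h2, Finset.sum_ite_eq']
  by_cases hmN : m ∈ range N
  · rw [if_pos hmN]
  · rw [if_neg hmN, hg m (by simpa using hmN)]
    ring

theorem h1_int_exp (m : ℕ) (a b : ℝ) :
    ∫ t in a..b, (m : ℂ) * ((Real.exp (-(m * t)) : ℝ) : ℂ) =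
      ((Real.exp (-(m * a)) : ℝ) : ℂ) - ((Real.exp (-(m * b)) : ℝ) : ℂ) := by
  have h : ∀ t ∈ Set.uIcc a b, HasDerivAt (fun t : ℝ => -((Real.exp (-(m * t)) : ℝ) : ℂ))
      ((m : ℂ) * ((Real.exp (-(m * t)) : ℝ) : ℂ)) t := by
    intro t _
    have h1 : HasDerivAt (fun t : ℝ => -(m * t)) (-((m : ℝ) * 1)) t :=
      ((hasDerivAt_id t).const_mul (m : ℝ)).neg
    have h2 := h1.exp
    have h3 := (h2.ofReal_comp).neg
    have h4 : -((Real.exp (-((m : ℝ) * t)) * -((m : ℝ) * 1) : ℝ) : ℂ) =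
        (m : ℂ) * ((Real.exp (-(m * t)) : ℝ) : ℂ) := by
      push_cast
      ring
    rw [← h4]
    exact h3
  have hint : IntervalIntegrable (fun t : ℝ => (m : ℂ) * ((Real.exp (-(m * t)) : ℝ) : ℂ))
      volume a b := by
    apply Continuous.intervalIntegrable
    fun_prop
  rw [intervalIntegral.integral_eq_sub_of_hasDerivAt h hint]
  ring

/-- the quotient cut-off -/
noncomputable def h1_g (al : ℝ → ℝ) (x : ℝ) : ℝ :=
  al x / (Real.exp (-(x / 2)) - Real.exp (-x))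

theorem h1_den_pos {x : ℝ} (hx : 0 < x) : 0 < Real.exp (-(x / 2)) - Real.exp (-x) := by
  have : Real.exp (-x) < Real.exp (-(x / 2)) := Real.exp_lt_exp.mpr (by linarith)
  linarith

theorem h1_g_smooth (al : ℝ → ℝ) (hal : ∀ n : ℕ, ContDiff ℝ n al)
    (hsupp : ∀ x, al x ≠ 0 → 1 / 8 < x ∧ x < 1 / 2) (n : ℕ) : ContDiff ℝ n (h1_g al) := by
  rw [contDiff_iff_contDiffAt]
  intro x
  by_cases hx : x < 1 / 8
  · have h : h1_g al =ᶠ[nhds x] fun _ => (0 : ℝ) := by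
      filter_upwards [Iio_mem_nhds hx] with z hz
      unfold h1_g
      have : al z = 0 := by
        by_contra hne
        have := (hsupp z hne).1
        have hz' : z < 1 / 8 := hz
        linarith
      rw [this, zero_div]
    exact contDiffAt_const.congr_of_eventuallyEq h
  · have hx0 : 0 < x := by
      push Not at hx
      linarith
    unfold h1_g
    apply ContDiffAt.div (hal n).contDiffAt
    · fun_prop
    · exact (h1_den_pos hx0).ne'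

theorem h1_g_supp (al : ℝ → ℝ) (hsupp : ∀ x, al x ≠ 0 → 1 / 8 < x ∧ x < 1 / 2) (x : ℝ)
    (hx : h1_g al x ≠ 0) : 0 < x ∧ x < 1 := by
  have h : al x ≠ 0 := by
    intro h0
    apply hx
    unfold h1_g
    rw [h0, zero_div]
  have := hsupp x h
  constructor <;> linarith

theorem h1_rep (al : ℝ → ℝ) (hsupp : ∀ x, al x ≠ 0 → 1 / 8 < x ∧ x < 1 / 2) (D i : ℕ)
    (a : ℕ → ℂ) (y : TT) :
    tp D (fun n => (al ((n : ℝ) / 2 ^ i) : ℂ) * a n) y =
      ∫ t in ((2 : ℝ) ^ (i + 1))⁻¹..((2 : ℝ) ^ i)⁻¹, ∫ w : TT, dtp D a t w *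
        (∑ n ∈ range (2 ^ i), (h1_g al ((n : ℝ) / 2 ^ i) : ℂ) * ee n (y - w)) := by
  have hg : ∀ n : ℕ, 2 ^ i ≤ n → (h1_g al ((n : ℝ) / 2 ^ i) : ℂ) = 0 := by
    intro n hn
    by_contra hne
    have h1 : h1_g al ((n : ℝ) / 2 ^ i) ≠ 0 := by
      intro h0
      apply hne
      rw [h0]
      simp
    have h2 := (h1_g_supp al hsupp _ h1).2
    rw [div_lt_one (by positivity)] at h2
    have h3 : (n : ℝ) < ((2 ^ i : ℕ) : ℝ) := by push_cast; exact h2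
    have h4 : n < 2 ^ i := by exact_mod_cast h3
    omega
  have h1 : ∀ t : ℝ, ∫ w : TT, dtp D a t w *
        (∑ n ∈ range (2 ^ i), (h1_g al ((n : ℝ) / 2 ^ i) : ℂ) * ee n (y - w)) =
      ∑ m ∈ range D, (a m * (h1_g al ((m : ℝ) / 2 ^ i) : ℂ) * ee m y) *
        ((m : ℂ) * ((Real.exp (-(m * t)) : ℝ) : ℂ)) := by
    intro t
    have := h1_conv D (2 ^ i) (fun n => (n : ℂ) * a n * (Real.exp (-(n * t)) : ℂ))
      (fun n => (h1_g al ((n : ℝ) / 2 ^ i) : ℂ)) hg y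
    unfold dtp
    rw [this]
    refine Finset.sum_congr rfl fun m _ => ?_
    ring
  simp_rw [h1]
  rw [intervalIntegral.integral_finsetSum]
  · unfold tp
    refine Finset.sum_congr rfl fun m _ => ?_
    rw [intervalIntegral.integral_const_mul, h1_int_exp]
    have e1 : (m : ℝ) * ((2 : ℝ) ^ (i + 1))⁻¹ = (m : ℝ) / 2 ^ i / 2 := by
      rw [pow_succ]
      field_simp
    have e2 : (m : ℝ) * ((2 : ℝ) ^ i)⁻¹ = (m : ℝ) / 2 ^ i := by
      field_simp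
    rw [e1, e2]
    set z : ℝ := (m : ℝ) / 2 ^ i with hz
    have e3 : (h1_g al z : ℂ) * (((Real.exp (-(z / 2)) : ℝ) : ℂ) - ((Real.exp (-z) : ℝ) : ℂ)) =
        (al z : ℂ) := by
      rw [← Complex.ofReal_sub, ← Complex.ofReal_mul]
      congr 1
      unfold h1_g
      by_cases h0 : al z = 0
      · rw [h0]
        simp
      · have := (hsupp z h0).1
        exact div_mul_cancel₀ _ (h1_den_pos (by linarith)).ne'
    show (al z : ℂ) * a m * ee m y = _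
    rw [← e3]
    ring
  · intro m _
    apply Continuous.intervalIntegrable
    fun_prop

/-- the bump weight -/
theorem h1_K_int (L : ℕ) (hL : 2 ≤ L) (i : ℕ) (x : TT) :
    ∫ w : TT, (2 : ℝ) ^ i * ((1 + 2 ^ i * ‖x - w‖) ^ L)⁻¹ ≤ 2 := by
  rw [integral_const_mul, integral_sub_left_eq_self
    (fun w : TT => ((1 + (2 : ℝ) ^ i * ‖w‖) ^ L)⁻¹) volume x]
  have hL' : (2 : ℝ) ≤ L := by exact_mod_cast hL
  have h := int_decay (L : ℝ) (by linarith) ((2 : ℝ) ^ i) (by positivity)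
  have h1 : ∀ w : TT, ((1 + (2 : ℝ) ^ i * ‖w‖) ^ L)⁻¹ = (1 + (2 : ℝ) ^ i * ‖w‖) ^ (-(L : ℝ)) := by
    intro w
    rw [Real.rpow_neg (by positivity), Real.rpow_natCast]
  simp_rw [h1]
  calc (2 : ℝ) ^ i * ∫ w : TT, (1 + (2 : ℝ) ^ i * ‖w‖) ^ (-(L : ℝ)) ≤
        2 ^ i * ((2 / ((L : ℝ) - 1)) / 2 ^ i) := by gcongr
    _ = 2 / ((L : ℝ) - 1) := by field_simp
    _ ≤ 2 := by
        rw [div_le_iff₀ (by linarith)]
        linarith

theorem h1_cont_K (L : ℕ) (i : ℕ) (x : TT) :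
    Continuous (fun w : TT => (2 : ℝ) ^ i * ((1 + 2 ^ i * ‖x - w‖) ^ L)⁻¹) := by
  apply Continuous.mul continuous_const
  apply Continuous.inv₀ (by fun_prop)
  intro w
  positivity

theorem h1_K_pos (L : ℕ) (i : ℕ) (x : TT) :
    0 < ∫ w : TT, (2 : ℝ) ^ i * ((1 + 2 ^ i * ‖x - w‖) ^ L)⁻¹ := by
  have h : ∫ _w : TT, (2 : ℝ) ^ i * ((1 + 2 ^ i) ^ L)⁻¹ ≤
      ∫ w : TT, (2 : ℝ) ^ i * ((1 + 2 ^ i * ‖x - w‖) ^ L)⁻¹ := by
    apply integral_mono (integrable_const _) (integ (h1_cont_K L i x))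
    intro w
    have h1 := norm_le_half (x - w)
    have h2 : 1 + (2 : ℝ) ^ i * ‖x - w‖ ≤ 1 + 2 ^ i := by
      have : (2 : ℝ) ^ i * ‖x - w‖ ≤ 2 ^ i * 1 := by
        gcongr
        linarith
      linarith
    simp only
    gcongr
  refine lt_of_lt_of_le ?_ h
  rw [integral_const]
  simp only [probReal_univ, smul_eq_mul, one_mul]
  positivity

theorem h1_cs_interval {a b : ℝ} (hab : a < b) {u : ℝ → ℝ} (hu : Continuous u) :
    (∫ t in a..b, u t) ^ 2 ≤ (b - a) * ∫ t in a..b, u t ^ 2 := by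
  have h1 : Integrable u (volume.restrict (Set.Ioc a b)) := by
    have := hu.intervalIntegrable (μ := volume) a b
    exact (intervalIntegrable_iff_integrableOn_Ioc_of_le hab.le).mp this
  have h2 : Integrable (fun t => u t ^ 2) (volume.restrict (Set.Ioc a b)) := by
    have := (hu.pow 2).intervalIntegrable (μ := volume) a b
    exact (intervalIntegrable_iff_integrableOn_Ioc_of_le hab.le).mp this
  have hB : ∫ _t : ℝ, (1 : ℝ) ∂(volume.restrict (Set.Ioc a b)) = b - a := by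
    rw [← intervalIntegral.integral_of_le hab.le, intervalIntegral.integral_const]
    simp
  have h := h1_cs (μ := volume.restrict (Set.Ioc a b)) (u := u) (K := fun _ => 1)
    (fun _ => zero_le_one) (by simpa using h1) (by simpa using h2) (integrable_const _)
    (by rw [hB]; linarith)
  rw [hB] at h
  simp only [mul_one] at h
  rw [intervalIntegral.integral_of_le hab.le, intervalIntegral.integral_of_le hab.le, mul_comm]
  exact h

theorem h1_step (al : ℝ → ℝ) (hsupp : ∀ x, al x ≠ 0 → 1 / 8 < x ∧ x < 1 / 2) (L : ℕ)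
    (hL : 2 ≤ L) (C₀ : ℝ) (_hC₀ : 0 ≤ C₀)
    (hk : ∀ (i : ℕ) (x : TT), ‖∑ n ∈ range (2 ^ i), (h1_g al ((n : ℝ) / 2 ^ i) : ℂ) * ee n x‖ *
      (1 + 2 ^ i * ‖x‖) ^ L ≤ C₀ * 2 ^ i)
    (D i : ℕ) (a : ℕ → ℂ) (x y : TT) (hxy : ‖x - y‖ ≤ ((2 : ℝ) ^ i)⁻¹) :
    ‖tp D (fun n => (al ((n : ℝ) / 2 ^ i) : ℂ) * a n) y‖ ^ 2 ≤
      (C₀ * 2 ^ L) ^ 2 * 2 ^ L * ∫ t in ((2 : ℝ) ^ (i + 1))⁻¹..((2 : ℝ) ^ i)⁻¹,
        ∫ w : TT, ‖dtp D a t w‖ ^ 2 * ((1 + ‖x - w‖ / t) ^ L)⁻¹ := by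
  set A : ℝ := ((2 : ℝ) ^ (i + 1))⁻¹ with hA
  set B : ℝ := ((2 : ℝ) ^ i)⁻¹ with hB
  have hA0 : 0 < A := by positivity
  have hAB2 : B = 2 * A := by
    rw [hA, hB, pow_succ]
    field_simp
  have hAB : A < B := by linarith
  have hB2 : (2 : ℝ) ^ i * B = 1 := by
    rw [hB]
    exact mul_inv_cancel₀ (by positivity)
  set K : TT → ℝ := fun w => (2 : ℝ) ^ i * ((1 + 2 ^ i * ‖x - w‖) ^ L)⁻¹ with hK
  have hKc : Continuous K := h1_cont_K L i x
  have hK0 : ∀ w, 0 ≤ K w := fun w => by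
    simp only [hK]
    positivity
  set E : TT → ℂ := fun w => ∑ n ∈ range (2 ^ i),
    (h1_g al ((n : ℝ) / 2 ^ i) : ℂ) * ee n (y - w) with hEd
  have hEc : Continuous E := by
    simp only [hEd]
    fun_prop
  have hE : ∀ w, ‖E w‖ ≤ (C₀ * 2 ^ L) * K w := by
    intro w
    have h1 := hk i (y - w)
    have h2 : 1 + (2 : ℝ) ^ i * ‖x - w‖ ≤ 2 * (1 + 2 ^ i * ‖y - w‖) := by
      have h3 : ‖x - w‖ ≤ ‖x - y‖ + ‖y - w‖ := by
        have := norm_add_le (x - y) (y - w)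
        rwa [sub_add_sub_cancel] at this
      have h4 : (2 : ℝ) ^ i * ‖x - w‖ ≤ 2 ^ i * B + 2 ^ i * ‖y - w‖ := by
        rw [← mul_add]
        gcongr
        linarith
      rw [hB2] at h4
      have h5 : 0 ≤ (2 : ℝ) ^ i * ‖y - w‖ := by positivity
      linarith
    have h6 : ‖E w‖ * (1 + (2 : ℝ) ^ i * ‖x - w‖) ^ L ≤ C₀ * 2 ^ L * 2 ^ i := by
      calc ‖E w‖ * (1 + (2 : ℝ) ^ i * ‖x - w‖) ^ L ≤
            ‖E w‖ * (2 * (1 + 2 ^ i * ‖y - w‖)) ^ L := by gcongr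
        _ = 2 ^ L * (‖E w‖ * (1 + 2 ^ i * ‖y - w‖) ^ L) := by rw [mul_pow]; ring
        _ ≤ 2 ^ L * (C₀ * 2 ^ i) := by gcongr
        _ = _ := by ring
    have h7 : (0 : ℝ) < (1 + (2 : ℝ) ^ i * ‖x - w‖) ^ L := by positivity
    simp only [hK]
    rw [← mul_assoc, ← div_eq_mul_inv, le_div_iff₀ h7]
    exact h6
  have hd : ∀ t, Continuous (fun w => dtp D a t w) := fun t =>
    (h1_cont_dtp D a).comp (by fun_prop : Continuous fun w : TT => (t, w))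
  set J : ℝ → ℂ := fun t => ∫ w : TT, dtp D a t w * E w with hJd
  have hJc : Continuous J := by
    have h := continuous_parametric_integral_of_continuous (μ := (volume : Measure TT))
      (f := fun (t : ℝ) (w : TT) => dtp D a t w * E w) (by
        unfold Function.uncurry
        exact (h1_cont_dtp D a).mul (hEc.comp continuous_snd)) isCompact_univ
    simpa using h
  have hJ : ∀ t, ‖J t‖ ^ 2 ≤ (C₀ * 2 ^ L) ^ 2 * 2 * ∫ w : TT, ‖dtp D a t w‖ ^ 2 * K w := by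
    intro t
    have h1 : ‖J t‖ ≤ (C₀ * 2 ^ L) * ∫ w : TT, ‖dtp D a t w‖ * K w := by
      refine (norm_integral_le_integral_norm _).trans ?_
      rw [← integral_const_mul]
      have c1 : Continuous fun w => ‖dtp D a t w * E w‖ := ((hd t).mul hEc).norm
      have c2 : Continuous fun w => (C₀ * 2 ^ L) * (‖dtp D a t w‖ * K w) :=
        continuous_const.mul ((hd t).norm.mul hKc)
      refine integral_mono (integ c1) (integ c2) fun w => ?_
      show ‖dtp D a t w * E w‖ ≤ (C₀ * 2 ^ L) * (‖dtp D a t w‖ * K w)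
      rw [norm_mul]
      calc ‖dtp D a t w‖ * ‖E w‖ ≤ ‖dtp D a t w‖ * ((C₀ * 2 ^ L) * K w) :=
            mul_le_mul_of_nonneg_left (hE w) (norm_nonneg _)
        _ = (C₀ * 2 ^ L) * (‖dtp D a t w‖ * K w) := by ring
    have c3 : Continuous fun w => ‖dtp D a t w‖ * K w := (hd t).norm.mul hKc
    have c4 : Continuous fun w => ‖dtp D a t w‖ ^ 2 * K w := ((hd t).norm.pow 2).mul hKc
    have h2 := h1_cs (μ := (volume : Measure TT)) (u := fun w => ‖dtp D a t w‖) (K := K) hK0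
      (integ c3) (integ c4) (integ hKc) (h1_K_pos L i x)
    have h3 : ∫ w : TT, K w ≤ 2 := h1_K_int L hL i x
    have h4 : 0 ≤ ∫ w : TT, ‖dtp D a t w‖ ^ 2 * K w :=
      integral_nonneg fun w => mul_nonneg (by positivity) (hK0 w)
    calc ‖J t‖ ^ 2 ≤ ((C₀ * 2 ^ L) * ∫ w : TT, ‖dtp D a t w‖ * K w) ^ 2 := by gcongr
      _ = (C₀ * 2 ^ L) ^ 2 * (∫ w : TT, ‖dtp D a t w‖ * K w) ^ 2 := by ring
      _ ≤ (C₀ * 2 ^ L) ^ 2 * ((∫ w : TT, ‖dtp D a t w‖ ^ 2 * K w) * ∫ w : TT, K w) := by gcongr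
      _ ≤ (C₀ * 2 ^ L) ^ 2 * ((∫ w : TT, ‖dtp D a t w‖ ^ 2 * K w) * 2) := by gcongr
      _ = _ := by ring
  have hrep := h1_rep al hsupp D i a y
  have h10 : ‖tp D (fun n => (al ((n : ℝ) / 2 ^ i) : ℂ) * a n) y‖ ≤ ∫ t in A..B, ‖J t‖ := by
    rw [hrep]
    exact intervalIntegral.norm_integral_le_integral_norm hAB.le
  have h11 : ‖tp D (fun n => (al ((n : ℝ) / 2 ^ i) : ℂ) * a n) y‖ ^ 2 ≤
      (B - A) * ∫ t in A..B, ‖J t‖ ^ 2 :=
    (pow_le_pow_left₀ (norm_nonneg _) h10 2).trans (h1_cs_interval hAB hJc.norm)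
  have h12 : ∫ t in A..B, ‖J t‖ ^ 2 ≤ ∫ t in A..B, (C₀ * 2 ^ L) ^ 2 * 2 * (2 ^ i * 2 ^ L) *
      ∫ w : TT, ‖dtp D a t w‖ ^ 2 * ((1 + ‖x - w‖ / max t A) ^ L)⁻¹ := by
    apply intervalIntegral.integral_mono_on hAB.le
    · exact (hJc.norm.pow 2).intervalIntegrable _ _
    · apply Continuous.intervalIntegrable
      apply Continuous.mul continuous_const
      exact h1_cont_G' D a L A hA0 x
    · intro t ht
      rw [max_eq_left ht.1]
      have ht0 : 0 < t := lt_of_lt_of_le hA0 ht.1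
      refine (hJ t).trans ?_
      rw [mul_assoc ((C₀ * 2 ^ L) ^ 2 * 2)]
      refine mul_le_mul_of_nonneg_left ?_ (by positivity)
      rw [← integral_const_mul]
      have hc2 : Continuous fun w : TT => ‖dtp D a t w‖ ^ 2 * ((1 + ‖x - w‖ / t) ^ L)⁻¹ := by
        apply Continuous.mul ((hd t).norm.pow 2)
        apply Continuous.inv₀ (by fun_prop)
        intro w
        positivity
      have c5 : Continuous fun w => ‖dtp D a t w‖ ^ 2 * K w := ((hd t).norm.pow 2).mul hKc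
      have c6 : Continuous fun w : TT => (2 : ℝ) ^ i * 2 ^ L *
        (‖dtp D a t w‖ ^ 2 * ((1 + ‖x - w‖ / t) ^ L)⁻¹) := continuous_const.mul hc2
      refine integral_mono (integ c5) (integ c6) fun w => ?_
      show ‖dtp D a t w‖ ^ 2 * (2 ^ i * ((1 + 2 ^ i * ‖x - w‖) ^ L)⁻¹) ≤ (2 : ℝ) ^ i * 2 ^ L *
        (‖dtp D a t w‖ ^ 2 * ((1 + ‖x - w‖ / t) ^ L)⁻¹)
      have h13 : 1 + ‖x - w‖ / t ≤ 2 * (1 + 2 ^ i * ‖x - w‖) := by
        have h14 : 1 / t ≤ 2 * 2 ^ i := by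
          rw [div_le_iff₀ ht0]
          have : (2 : ℝ) * 2 ^ i * A = 1 := by
            calc (2 : ℝ) * 2 ^ i * A = 2 ^ i * B := by rw [hAB2]; ring
              _ = 1 := hB2
          calc (1 : ℝ) = 2 * 2 ^ i * A := this.symm
            _ ≤ 2 * 2 ^ i * t := by
              gcongr
              exact ht.1
        have h15 : ‖x - w‖ / t ≤ ‖x - w‖ * (2 * 2 ^ i) := by
          rw [div_eq_mul_one_div]
          gcongr
        linarith
      have h16 : ((1 + (2 : ℝ) ^ i * ‖x - w‖) ^ L)⁻¹ ≤ 2 ^ L * ((1 + ‖x - w‖ / t) ^ L)⁻¹ := by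
        rw [← div_eq_mul_inv, le_div_iff₀ (by positivity), inv_mul_le_iff₀ (by positivity)]
        calc (1 + ‖x - w‖ / t) ^ L ≤ (2 * (1 + 2 ^ i * ‖x - w‖)) ^ L := by gcongr
          _ = _ := by rw [mul_pow]; ring
      calc ‖dtp D a t w‖ ^ 2 * (2 ^ i * ((1 + 2 ^ i * ‖x - w‖) ^ L)⁻¹) ≤
            ‖dtp D a t w‖ ^ 2 * (2 ^ i * (2 ^ L * ((1 + ‖x - w‖ / t) ^ L)⁻¹)) := by gcongr
        _ = _ := by ring
  rw [intervalIntegral.integral_const_mul] at h12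
  have h17 : ∫ t in A..B, ∫ w : TT, ‖dtp D a t w‖ ^ 2 * ((1 + ‖x - w‖ / max t A) ^ L)⁻¹ =
      ∫ t in A..B, ∫ w : TT, ‖dtp D a t w‖ ^ 2 * ((1 + ‖x - w‖ / t) ^ L)⁻¹ := by
    apply intervalIntegral.integral_congr
    intro t ht
    exact (h1_eqOn D a L A B hAB.le x t ht).symm
  rw [h17] at h12
  refine h11.trans ?_
  have hBA : B - A = A := by linarith
  rw [hBA]
  have h18 : A * ((C₀ * 2 ^ L) ^ 2 * 2 * (2 ^ i * 2 ^ L)) = (C₀ * 2 ^ L) ^ 2 * 2 ^ L := by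
    have : (2 : ℝ) ^ i * (2 * A) = 1 := by rw [← hAB2]; exact hB2
    calc A * ((C₀ * 2 ^ L) ^ 2 * 2 * (2 ^ i * 2 ^ L)) =
          (C₀ * 2 ^ L) ^ 2 * 2 ^ L * ((2 : ℝ) ^ i * (2 * A)) := by ring
      _ = _ := by rw [this, mul_one]
  calc A * ∫ t in A..B, ‖J t‖ ^ 2 ≤ A * ((C₀ * 2 ^ L) ^ 2 * 2 * (2 ^ i * 2 ^ L) *
        ∫ t in A..B, ∫ w : TT, ‖dtp D a t w‖ ^ 2 * ((1 + ‖x - w‖ / t) ^ L)⁻¹) := by gcongr
    _ = A * ((C₀ * 2 ^ L) ^ 2 * 2 * (2 ^ i * 2 ^ L)) *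
        ∫ t in A..B, ∫ w : TT, ‖dtp D a t w‖ ^ 2 * ((1 + ‖x - w‖ / t) ^ L)⁻¹ := by ring
    _ = _ := by rw [h18]

theorem square_le_area (al : ℝ → ℝ) (hal : ∀ n : ℕ, ContDiff ℝ n al)
    (hsupp : ∀ x, al x ≠ 0 → 1 / 8 < x ∧ x < 1 / 2) (L : ℕ) (hL : 2 ≤ L) :
    ∃ C : ℝ, 0 ≤ C ∧ ∀ (D I : ℕ) (a : ℕ → ℂ) (x : TT) (y : ℕ → TT),
      (∀ i ≤ I, ‖x - y i‖ ≤ ((2 : ℝ) ^ i)⁻¹) →
      ∑ i ∈ range (I + 1), ‖tp D (fun n => (al ((n : ℝ) / 2 ^ i) : ℂ) * a n) (y i)‖ ^ 2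
        ≤ C * area D a I L x := by
  obtain ⟨C₀, hC₀, hk⟩ := kernel_decay (h1_g al) (h1_g_smooth al hal hsupp)
    (h1_g_supp al hsupp) L
  refine ⟨(C₀ * 2 ^ L) ^ 2 * 2 ^ L, by positivity, ?_⟩
  intro D I a x y hxy
  have h1 : ∀ i ∈ range (I + 1),
      ‖tp D (fun n => (al ((n : ℝ) / 2 ^ i) : ℂ) * a n) (y i)‖ ^ 2 ≤
      (C₀ * 2 ^ L) ^ 2 * 2 ^ L * ∫ t in ((2 : ℝ) ^ (i + 1))⁻¹..((2 : ℝ) ^ i)⁻¹,
        ∫ w : TT, ‖dtp D a t w‖ ^ 2 * ((1 + ‖x - w‖ / t) ^ L)⁻¹ := by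
    intro i hi
    exact h1_step al hsupp L hL C₀ hC₀ hk D i a x (y i) (hxy i (by
      have := Finset.mem_range.mp hi
      omega))
  refine (Finset.sum_le_sum h1).trans ?_
  rw [← Finset.mul_sum]
  gcongr
  have h2 := intervalIntegral.sum_integral_adjacent_intervals (μ := volume)
    (f := fun t : ℝ => ∫ w : TT, ‖dtp D a t w‖ ^ 2 * ((1 + ‖x - w‖ / t) ^ L)⁻¹)
    (a := fun k : ℕ => ((2 : ℝ) ^ k)⁻¹) (n := I + 1) ?_
  · have h3 : ∀ k ∈ range (I + 1), (∫ t in ((2 : ℝ) ^ (k + 1))⁻¹..((2 : ℝ) ^ k)⁻¹,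
        ∫ w : TT, ‖dtp D a t w‖ ^ 2 * ((1 + ‖x - w‖ / t) ^ L)⁻¹) =
        -∫ t in ((2 : ℝ) ^ k)⁻¹..((2 : ℝ) ^ (k + 1))⁻¹,
          ∫ w : TT, ‖dtp D a t w‖ ^ 2 * ((1 + ‖x - w‖ / t) ^ L)⁻¹ := by
      intro k _
      rw [intervalIntegral.integral_symm]
    rw [Finset.sum_congr rfl h3, Finset.sum_neg_distrib, h2, ← intervalIntegral.integral_symm]
    unfold area
    simp
  · intro k _
    have hpos : (0 : ℝ) < ((2 : ℝ) ^ (k + 1))⁻¹ := by positivity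
    have hle : ((2 : ℝ) ^ (k + 1))⁻¹ ≤ ((2 : ℝ) ^ k)⁻¹ := by
      apply inv_anti₀ (by positivity)
      exact pow_le_pow_right₀ (by norm_num) (by omega)
    have hc : Continuous fun t : ℝ =>
        ∫ w : TT, ‖dtp D a t w‖ ^ 2 * ((1 + ‖x - w‖ / max t ((2 : ℝ) ^ (k + 1))⁻¹) ^ L)⁻¹ :=
      h1_cont_G' D a L _ hpos x
    have hi := hc.intervalIntegrable (μ := volume) ((2 : ℝ) ^ (k + 1))⁻¹ ((2 : ℝ) ^ k)⁻¹
    refine (hi.congr ?_).symm
    intro t ht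
    rw [Set.uIoc_of_le hle] at ht
    have ht1 : ((2 : ℝ) ^ (k + 1))⁻¹ ≤ t := ht.1.le
    show (∫ w : TT, ‖dtp D a t w‖ ^ 2 * ((1 + ‖x - w‖ / max t ((2 : ℝ) ^ (k + 1))⁻¹) ^ L)⁻¹) = _
    rw [max_eq_left ht1]

end MP63
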