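import Pool.Agent.Work.MP_63674d_an.Factor
import Pool.Agent.Work.MP_63674d_an.PMax
import Pool.Agent.Work.MP_63674d_an.Energy
import Pool.Agent.Work.MP_63674d_an.Square

/-! The area integral of an analytic polynomial is bounded in `L^{p/2}` by its `H^p` norm. -/

open MeasureTheory Finset

namespace MP63

/-- `z h'(z)` at `z = exp (-t) e(w)`. -/
noncomputable def rd (h : ℂ → ℂ) (t : ℝ) (w : TT) : ℂ :=
  ((Real.exp (-t) : ℝ) : ℂ) * ee 1 w * deriv h ((Real.exp (-t) : ℝ) * ee 1 w)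

theorem rd_mem {t : ℝ} (ht : 0 < t) (w : TT) :
    ((Real.exp (-t) : ℝ) : ℂ) * ee 1 w ∈ Metric.ball (0 : ℂ) 1 :=
  mem_ball_of (Real.exp_pos _).le (by rw [Real.exp_lt_one_iff]; linarith) w

theorem continuous_rd {h : ℂ → ℂ} (hh : DiffContOnCl ℂ h (Metric.ball 0 1)) {τ : ℝ} (hτ : 0 < τ) :
    Continuous fun q : ℝ × TT => rd h (max q.1 τ) q.2 := by
  have hd : ContinuousOn (deriv h) (Metric.ball 0 1) :=
    (hh.differentiableOn.deriv Metric.isOpen_ball).continuousOn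
  unfold rd
  have hz : Continuous fun q : ℝ × TT => ((Real.exp (-(max q.1 τ)) : ℝ) : ℂ) * ee 1 q.2 := by
    fun_prop
  exact hz.mul (hd.comp_continuous hz fun q => rd_mem (lt_max_of_lt_right hτ) _)

theorem dtp_eq (D : ℕ) (a : ℕ → ℂ) (t : ℝ) (w : TT) :
    dtp D a t w = ((Real.exp (-t) : ℝ) : ℂ) * ee 1 w *
      (Polynomial.derivative (∑ n ∈ range D, Polynomial.C (a n) * Polynomial.X ^ n)).eval
       (((Real.exp (-t) : ℝ) : ℂ) * ee 1 w) := by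
  unfold dtp
  rw [Polynomial.derivative_sum, Polynomial.eval_finsetSum, Finset.mul_sum]
  refine Finset.sum_congr rfl fun n _ => ?_
  rcases n with _ | n
  · simp
  · have h1 : ((Real.exp (-(((n + 1 : ℕ) : ℝ) * t)) : ℝ) : ℂ)
        = ((Real.exp (-t) : ℝ) : ℂ) ^ (n + 1) := by
      rw [← Complex.ofReal_pow, ← Real.exp_nat_mul]; congr 2; push_cast; ring
    rw [h1, ee_nat_pow]
    simp only [Polynomial.derivative_C_mul_X_pow, Polynomial.eval_mul, Polynomial.eval_C,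
      Polynomial.eval_pow, Polynomial.eval_X, Nat.add_sub_cancel]
    push_cast
    ring

theorem tp_eq (D : ℕ) (a : ℕ → ℂ) (x : TT) :
    tp D a x = (∑ n ∈ range D, Polynomial.C (a n) * Polynomial.X ^ n : Polynomial ℂ).eval
      (ee 1 x) := by
  unfold tp
  rw [Polynomial.eval_finsetSum]
  refine Finset.sum_congr rfl fun n _ => ?_
  rw [ee_nat_pow]; simp

theorem integrable_box {τ : ℝ} {f : ℝ → TT → ℝ} (hf : Continuous (Function.uncurry f)) :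
    Integrable (Function.uncurry f)
      ((volume.restrict (Set.uIoc τ 1)).prod (volume : Measure TT)) := by
  have h1 : IntegrableOn (Function.uncurry f) (Set.uIcc τ 1 ×ˢ (Set.univ : Set TT))
      ((volume : Measure ℝ).prod (volume : Measure TT)) :=
    hf.continuousOn.integrableOn_compact (isCompact_uIcc.prod isCompact_univ)
  have h2 : ((volume.restrict (Set.uIoc τ 1)).prod (volume : Measure TT))
      = ((volume : Measure ℝ).prod (volume : Measure TT)).restrict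
        (Set.uIoc τ 1 ×ˢ (Set.univ : Set TT)) := by
    rw [← Measure.prod_restrict, Measure.restrict_univ]
  rw [h2]
  exact h1.mono_set (Set.prod_mono Set.uIoc_subset_uIcc le_rfl)

theorem int_kernel {t : ℝ} (ht : 0 < t) (w : TT) :
    ∫ x : TT, ((1 + ‖x - w‖ / t) ^ 2)⁻¹ ≤ 2 * t := by
  rw [integral_sub_right_eq_self (fun x : TT => ((1 + ‖x‖ / t) ^ 2)⁻¹) w]
  have h := int_decay 2 (by norm_num) (1 / t) (by positivity)
  have e : ∀ x : TT, (1 + 1 / t * ‖x‖) ^ (-2 : ℝ) = ((1 + ‖x‖ / t) ^ 2)⁻¹ := by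
    intro x
    have h0 : 0 ≤ 1 + 1 / t * ‖x‖ := by positivity
    rw [Real.rpow_neg h0]
    congr 1
    rw [show (2 : ℝ) = ((2 : ℕ) : ℝ) by norm_num, Real.rpow_natCast]
    congr 1; ring
  simp_rw [e] at h
  refine h.trans (le_of_eq ?_)
  field_simp
  norm_num

/-- The dominating function. -/
noncomputable def dom (Φ Ψ : ℂ → ℂ) (c τ : ℝ) (t : ℝ) (w : TT) : ℝ :=
  2 * (‖rd Ψ (max t τ) w‖ ^ 2 + c ^ 2 * ‖rd Φ (max t τ) w‖ ^ 2)

theorem dom_nonneg (Φ Ψ : ℂ → ℂ) (c τ : ℝ) (t : ℝ) (w : TT) : 0 ≤ dom Φ Ψ c τ t w := by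
  unfold dom; positivity

theorem continuous_dom {Φ Ψ : ℂ → ℂ} (h1 : DiffContOnCl ℂ Φ (Metric.ball 0 1))
    (h2 : DiffContOnCl ℂ Ψ (Metric.ball 0 1)) (c : ℝ) {τ : ℝ} (hτ : 0 < τ) :
    Continuous fun q : ℝ × TT => dom Φ Ψ c τ q.1 q.2 := by
  unfold dom
  have := continuous_rd h1 hτ
  have := continuous_rd h2 hτ
  fun_prop

/-- The dominating area integral. -/
noncomputable def hhf (Φ Ψ : ℂ → ℂ) (c τ : ℝ) (x : TT) : ℝ :=
  ∫ t in τ..1, ∫ w : TT, dom Φ Ψ c τ t w * ((1 + ‖x - w‖ / max t τ) ^ 2)⁻¹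

theorem continuous_int3 {Φ Ψ : ℂ → ℂ} (h1 : DiffContOnCl ℂ Φ (Metric.ball 0 1))
    (h2 : DiffContOnCl ℂ Ψ (Metric.ball 0 1)) (c : ℝ) {τ : ℝ} (hτ : 0 < τ) :
    Continuous fun q : (TT × ℝ) × TT =>
      dom Φ Ψ c τ q.1.2 q.2 * ((1 + ‖q.1.1 - q.2‖ / max q.1.2 τ) ^ 2)⁻¹ := by
  have hd := continuous_dom h1 h2 c hτ
  have e0 : Continuous fun q : (TT × ℝ) × TT => (q.1.2, q.2) := by fun_prop
  have e1 := hd.comp e0
  refine Continuous.mul e1 ?_
  have hpos : ∀ q : (TT × ℝ) × TT, 0 < max q.1.2 τ := fun q => lt_max_of_lt_right hτ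
  refine Continuous.inv₀ (Continuous.pow (continuous_const.add
    (Continuous.div (by fun_prop) (by fun_prop) fun q => (hpos q).ne')) 2) ?_
  intro q
  have := hpos q
  positivity

theorem continuous_hh2 {Φ Ψ : ℂ → ℂ} (h1 : DiffContOnCl ℂ Φ (Metric.ball 0 1))
    (h2 : DiffContOnCl ℂ Ψ (Metric.ball 0 1)) (c : ℝ) {τ : ℝ} (hτ : 0 < τ) :
    Continuous fun q : TT × ℝ => ∫ w : TT, dom Φ Ψ c τ q.2 w *
      ((1 + ‖q.1 - w‖ / max q.2 τ) ^ 2)⁻¹ :=
  continuous_integral (X := TT × ℝ) (f := fun q w => dom Φ Ψ c τ q.2 w *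
      ((1 + ‖q.1 - w‖ / max q.2 τ) ^ 2)⁻¹) (continuous_int3 h1 h2 c hτ)

theorem continuous_hhf {Φ Ψ : ℂ → ℂ} (h1 : DiffContOnCl ℂ Φ (Metric.ball 0 1))
    (h2 : DiffContOnCl ℂ Ψ (Metric.ball 0 1)) (c : ℝ) {τ : ℝ} (hτ : 0 < τ) :
    Continuous (hhf Φ Ψ c τ) := by
  unfold hhf
  exact intervalIntegral.continuous_parametric_intervalIntegral_of_continuous'
    (f := fun x t => ∫ w : TT, dom Φ Ψ c τ t w * ((1 + ‖x - w‖ / max t τ) ^ 2)⁻¹)
    (continuous_hh2 h1 h2 c hτ) τ 1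

theorem hhf_nonneg (Φ Ψ : ℂ → ℂ) (c : ℝ) {τ : ℝ} (hτ : 0 < τ) (hτ1 : τ ≤ 1) (x : TT) :
    0 ≤ hhf Φ Ψ c τ x := by
  unfold hhf
  apply intervalIntegral.integral_nonneg hτ1
  intro t ht
  apply integral_nonneg
  intro w
  have h1 : 0 < max t τ := lt_max_of_lt_right hτ
  have := dom_nonneg Φ Ψ c τ t w
  exact mul_nonneg this (by positivity)

theorem energy' {h : ℂ → ℂ} (hh : DiffContOnCl ℂ h (Metric.ball 0 1)) {τ : ℝ} (hτ : 0 < τ)
    (hτ1 : τ ≤ 1) :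
    ∫ t in τ..1, max t τ * ∫ w : TT, ‖rd h (max t τ) w‖ ^ 2 ≤ ∫ x : TT, ‖h (ee 1 x)‖ ^ 2 := by
  refine le_trans (le_of_eq ?_) (energy hh hτ hτ1)
  apply intervalIntegral.integral_congr
  intro t ht
  rw [Set.uIcc_of_le hτ1] at ht
  simp only [max_eq_left ht.1]
  rfl

theorem integral_hhf_le {Φ Ψ : ℂ → ℂ} (h1 : DiffContOnCl ℂ Φ (Metric.ball 0 1))
    (h2 : DiffContOnCl ℂ Ψ (Metric.ball 0 1)) (c : ℝ) {τ : ℝ} (hτ : 0 < τ) (hτ1 : τ ≤ 1) :
    ∫ x : TT, hhf Φ Ψ c τ x ≤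
      4 * ((∫ x : TT, ‖Ψ (ee 1 x)‖ ^ 2) + c ^ 2 * ∫ x : TT, ‖Φ (ee 1 x)‖ ^ 2) := by
  have c2 := continuous_hh2 h1 h2 c hτ
  have c3 := continuous_int3 h1 h2 c hτ
  have hd := continuous_dom h1 h2 c hτ
  have hdt : ∀ t, Continuous fun w => dom Φ Ψ c τ t w := by
    intro t
    have e0 : Continuous fun w : TT => (t, w) := by fun_prop
    have e1 := hd.comp e0
    exact e1
  have esw : Continuous fun q : ℝ × TT => (q.2, q.1) := by fun_prop
  have esw2 : Continuous fun q : TT × TT => (q.2, q.1) := by fun_prop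
  have cR : ∀ h : ℂ → ℂ, DiffContOnCl ℂ h (Metric.ball 0 1) →
      Continuous fun t : ℝ => max t τ * ∫ w : TT, ‖rd h (max t τ) w‖ ^ 2 := by
    intro h hh
    have hr := continuous_rd hh hτ
    refine Continuous.mul (by fun_prop) ?_
    exact continuous_integral (X := ℝ) (f := fun t w => ‖rd h (max t τ) w‖ ^ 2)
      (hr.norm.pow 2)
  have s1 : ∫ x : TT, hhf Φ Ψ c τ x = ∫ t in τ..1, ∫ x : TT, ∫ w : TT,
      dom Φ Ψ c τ t w * ((1 + ‖x - w‖ / max t τ) ^ 2)⁻¹ := by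
    unfold hhf
    refine (intervalIntegral_integral_swap (f := fun (t : ℝ) (x : TT) => ∫ w : TT,
      dom Φ Ψ c τ t w * ((1 + ‖x - w‖ / max t τ) ^ 2)⁻¹) (integrable_box ?_)).symm
    have e1 := c2.comp esw
    exact e1
  have s2 : ∀ t : ℝ, ∫ x : TT, ∫ w : TT, dom Φ Ψ c τ t w * ((1 + ‖x - w‖ / max t τ) ^ 2)⁻¹
      ≤ 2 * max t τ * ∫ w : TT, dom Φ Ψ c τ t w := by
    intro t
    have ht : 0 < max t τ := lt_max_of_lt_right hτ
    have cc : Continuous (Function.uncurry fun (x w : TT) =>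
        dom Φ Ψ c τ t w * ((1 + ‖x - w‖ / max t τ) ^ 2)⁻¹) := by
      have e0 : Continuous fun q : TT × TT => ((q.1, t), q.2) := by fun_prop
      have e1 := c3.comp e0
      exact e1
    rw [fubini cc]
    rw [← integral_const_mul]
    apply integral_mono
    · apply integ
      exact continuous_integral (X := TT) (f := fun w x =>
        dom Φ Ψ c τ t w * ((1 + ‖x - w‖ / max t τ) ^ 2)⁻¹)
        (by have e1 := cc.comp esw2; exact e1)
    · exact integ (continuous_const.mul (hdt t))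
    · intro w
      simp only
      rw [integral_const_mul]
      have := int_kernel ht w
      have h0 := dom_nonneg Φ Ψ c τ t w
      nlinarith
  have s3 : ∀ t : ℝ, 2 * max t τ * ∫ w : TT, dom Φ Ψ c τ t w
      = 4 * ((max t τ * ∫ w : TT, ‖rd Ψ (max t τ) w‖ ^ 2)
        + c ^ 2 * (max t τ * ∫ w : TT, ‖rd Φ (max t τ) w‖ ^ 2)) := by
    intro t
    have e0 : Continuous fun w : TT => (t, w) := by fun_prop
    have e1 : Continuous fun w => ‖rd Ψ (max t τ) w‖ ^ 2 := by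
      have e3 := ((continuous_rd h2 hτ).comp e0).norm.pow 2
      exact e3
    have e2 : Continuous fun w => ‖rd Φ (max t τ) w‖ ^ 2 := by
      have e3 := ((continuous_rd h1 hτ).comp e0).norm.pow 2
      exact e3
    have e4 : Continuous fun w => c ^ 2 * ‖rd Φ (max t τ) w‖ ^ 2 := continuous_const.mul e2
    unfold dom
    rw [integral_const_mul, integral_add (integ e1) (integ e4), integral_const_mul]
    ring
  rw [s1]
  have hcA : Continuous fun t : ℝ => ∫ x : TT, ∫ w : TT,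
      dom Φ Ψ c τ t w * ((1 + ‖x - w‖ / max t τ) ^ 2)⁻¹ :=
    continuous_integral (X := ℝ) (f := fun t x => ∫ w : TT,
      dom Φ Ψ c τ t w * ((1 + ‖x - w‖ / max t τ) ^ 2)⁻¹)
      (by have e1 := c2.comp esw; exact e1)
  have hcB : Continuous fun t : ℝ => 4 * ((max t τ * ∫ w : TT, ‖rd Ψ (max t τ) w‖ ^ 2)
        + c ^ 2 * (max t τ * ∫ w : TT, ‖rd Φ (max t τ) w‖ ^ 2)) :=
    continuous_const.mul ((cR Ψ h2).add (continuous_const.mul (cR Φ h1)))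
  have s4 : (∫ t in τ..1, ∫ x : TT, ∫ w : TT,
      dom Φ Ψ c τ t w * ((1 + ‖x - w‖ / max t τ) ^ 2)⁻¹)
      ≤ ∫ t in τ..1, 4 * ((max t τ * ∫ w : TT, ‖rd Ψ (max t τ) w‖ ^ 2)
        + c ^ 2 * (max t τ * ∫ w : TT, ‖rd Φ (max t τ) w‖ ^ 2)) := by
    apply intervalIntegral.integral_mono hτ1 (hcA.intervalIntegrable _ _)
      (hcB.intervalIntegrable _ _)
    intro t
    exact (s2 t).trans (le_of_eq (s3 t))
  refine s4.trans ?_
  have e4 : Continuous fun t : ℝ => c ^ 2 * (max t τ * ∫ w : TT, ‖rd Φ (max t τ) w‖ ^ 2) :=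
    continuous_const.mul (cR Φ h1)
  rw [intervalIntegral.integral_const_mul, intervalIntegral.integral_add
    ((cR Ψ h2).intervalIntegrable _ _) (e4.intervalIntegrable _ _),
    intervalIntegral.integral_const_mul]
  have e1 := energy' h2 hτ hτ1
  have e2 := energy' h1 hτ hτ1
  have hc : 0 ≤ c ^ 2 := sq_nonneg c
  nlinarith

theorem dtp_bound {p : ℝ} (hp : 0 < p) (hp1 : p < 1) {D : ℕ} {a : ℕ → ℂ} {Φ Ψ : ℂ → ℂ} {τ : ℝ}
    (hτ : 0 < τ) {L : ℕ} (hL : 8 / p ≤ L)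
    (hF : ∀ z : ℂ, ‖z‖ < 1 →
      ‖(Polynomial.derivative (∑ n ∈ range D, Polynomial.C (a n) * Polynomial.X ^ n)).eval z‖
        ≤ ‖Φ z‖ ^ (2 / p - 1) * (‖deriv Ψ z‖ + 2 / p * ‖deriv Φ z‖))
    {Nf : TT → ℝ} (hN0 : ∀ x, 0 ≤ Nf x)
    (hN : ∀ x w : TT, ∀ t : ℝ, τ ≤ t → t ≤ 1 →
        ‖Φ ((Real.exp (-t) : ℝ) * ee 1 w)‖ ≤ Nf x * (1 + ‖x - w‖ / t) ^ 2)
    (x w : TT) {t : ℝ} (ht : τ ≤ t) (ht1 : t ≤ 1) :
    ‖dtp D a t w‖ ^ 2 * ((1 + ‖x - w‖ / t) ^ L)⁻¹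
      ≤ Nf x ^ (2 * (2 / p - 1)) *
        (dom Φ Ψ (2 / p) τ t w * ((1 + ‖x - w‖ / max t τ) ^ 2)⁻¹) := by
  have ht0 : 0 < t := hτ.trans_le ht
  rw [max_eq_left ht]
  unfold dom
  rw [max_eq_left ht]
  set e : ℝ := 2 / p - 1 with he
  have he0 : 0 < e := by
    rw [he, sub_pos, lt_div_iff₀ hp]; linarith
  set u : ℝ := 1 + ‖x - w‖ / t with hu
  have hu1 : 1 ≤ u := by rw [hu]; have : 0 ≤ ‖x - w‖ / t := by positivity
                         linarith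
  have hu0 : 0 < u := by linarith
  set z : ℂ := ((Real.exp (-t) : ℝ) : ℂ) * ee 1 w with hz
  have hz1 : ‖z‖ < 1 := by
    have := rd_mem ht0 w
    rwa [mem_ball_zero_iff] at this
  have hNx := hN0 x
  have b1 : ‖dtp D a t w‖ ≤ ‖Φ z‖ ^ e * (‖rd Ψ t w‖ + 2 / p * ‖rd Φ t w‖) := by
    have r1 : ‖rd Ψ t w‖ = ‖z‖ * ‖deriv Ψ z‖ := by unfold rd; rw [← hz]; exact norm_mul _ _
    have r2 : ‖rd Φ t w‖ = ‖z‖ * ‖deriv Φ z‖ := by unfold rd; rw [← hz]; exact norm_mul _ _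
    have r3 : ‖dtp D a t w‖ = ‖z‖ * ‖(Polynomial.derivative
        (∑ n ∈ range D, Polynomial.C (a n) * Polynomial.X ^ n)).eval z‖ := by
      rw [dtp_eq, ← hz]; exact norm_mul _ _
    rw [r1, r2, r3]
    calc ‖z‖ * _ ≤ ‖z‖ * (‖Φ z‖ ^ e * (‖deriv Ψ z‖ + 2 / p * ‖deriv Φ z‖)) :=
          mul_le_mul_of_nonneg_left (hF z hz1) (norm_nonneg _)
      _ = ‖Φ z‖ ^ e * (‖z‖ * ‖deriv Ψ z‖ + 2 / p * (‖z‖ * ‖deriv Φ z‖)) := by ring
  have b2 : ‖Φ z‖ ^ e ≤ Nf x ^ e * u ^ (2 * e) := by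
    calc ‖Φ z‖ ^ e ≤ (Nf x * u ^ 2) ^ e := by
          apply Real.rpow_le_rpow (norm_nonneg _) (hN x w t ht ht1) he0.le
      _ = Nf x ^ e * u ^ (2 * e) := by
          rw [Real.mul_rpow hNx (by positivity), ← Real.rpow_natCast u 2, ← Real.rpow_mul hu0.le]
          norm_num
  have hA : 0 ≤ ‖rd Ψ t w‖ := norm_nonneg _
  have hB : 0 ≤ 2 / p * ‖rd Φ t w‖ := by positivity
  have b3 : ‖dtp D a t w‖ ^ 2 ≤ (Nf x ^ e * u ^ (2 * e)) ^ 2 *
      (2 * (‖rd Ψ t w‖ ^ 2 + (2 / p) ^ 2 * ‖rd Φ t w‖ ^ 2)) := by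
    have h1 : ‖dtp D a t w‖ ≤ (Nf x ^ e * u ^ (2 * e)) * (‖rd Ψ t w‖ + 2 / p * ‖rd Φ t w‖) :=
      b1.trans (by gcongr)
    calc ‖dtp D a t w‖ ^ 2
        ≤ ((Nf x ^ e * u ^ (2 * e)) * (‖rd Ψ t w‖ + 2 / p * ‖rd Φ t w‖)) ^ 2 := by gcongr
      _ = (Nf x ^ e * u ^ (2 * e)) ^ 2 * (‖rd Ψ t w‖ + 2 / p * ‖rd Φ t w‖) ^ 2 := by ring
      _ ≤ _ := by
          gcongr
          nlinarith [sq_nonneg (‖rd Ψ t w‖ - 2 / p * ‖rd Φ t w‖)]
  have b4 : (Nf x ^ e * u ^ (2 * e)) ^ 2 = Nf x ^ (2 * e) * u ^ (4 * e) := by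
    rw [mul_pow, ← Real.rpow_natCast (Nf x ^ e) 2, ← Real.rpow_natCast (u ^ (2 * e)) 2,
      ← Real.rpow_mul hNx, ← Real.rpow_mul hu0.le]
    congr 2
    · push_cast; ring
    · push_cast; ring
  have b5 : u ^ (4 * e) * (u ^ L)⁻¹ ≤ (u ^ 2)⁻¹ := by
    rw [← Real.rpow_natCast u L, ← Real.rpow_natCast u 2, ← Real.rpow_neg hu0.le,
      ← Real.rpow_neg hu0.le, ← Real.rpow_add hu0]
    apply Real.rpow_le_rpow_of_exponent_le hu1
    rw [he]; push_cast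
    have : 8 / p = 4 * (2 / p) := by ring
    linarith
  have hG : 0 ≤ 2 * (‖rd Ψ t w‖ ^ 2 + (2 / p) ^ 2 * ‖rd Φ t w‖ ^ 2) := by positivity
  have hN2 : 0 ≤ Nf x ^ (2 * e) := by positivity
  calc ‖dtp D a t w‖ ^ 2 * (u ^ L)⁻¹
      ≤ (Nf x ^ (2 * e) * u ^ (4 * e)) *
      (2 * (‖rd Ψ t w‖ ^ 2 + (2 / p) ^ 2 * ‖rd Φ t w‖ ^ 2)) * (u ^ L)⁻¹ := by
        rw [b4] at b3; gcongr
    _ = Nf x ^ (2 * e) * ((2 * (‖rd Ψ t w‖ ^ 2 + (2 / p) ^ 2 * ‖rd Φ t w‖ ^ 2)) *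
        (u ^ (4 * e) * (u ^ L)⁻¹)) := by ring
    _ ≤ _ := by gcongr

theorem area_nonneg (D : ℕ) (a : ℕ → ℂ) (I L : ℕ) (x : TT) : 0 ≤ area D a I L x := by
  unfold area
  have h1 : ((2 : ℝ) ^ (I + 1))⁻¹ ≤ 1 := by
    apply inv_le_one_of_one_le₀
    exact one_le_pow₀ (by norm_num)
  apply intervalIntegral.integral_nonneg h1
  intro t ht
  have ht0 : 0 < t := lt_of_lt_of_le (by positivity) ht.1
  apply integral_nonneg
  intro w
  positivity

theorem area_le {p : ℝ} (hp : 0 < p) (hp1 : p < 1) : ∃ (L : ℕ) (C : ℝ), 2 ≤ L ∧ 0 ≤ C ∧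
    ∀ (D I : ℕ) (a : ℕ → ℂ),
      ∫ x : TT, (area D a I L x) ^ (p / 2) ≤ C * ∫ x : TT, ‖tp D a x‖ ^ p := by
  obtain ⟨C0, hC0, hmax⟩ := poisson_max
  have hL : 8 / p ≤ ((⌈8 / p⌉₊ : ℕ) : ℝ) := Nat.le_ceil _
  refine ⟨⌈8 / p⌉₊, C0 ^ ((2 - p) / 2) * (4 * (1 + (2 / p) ^ 2)) ^ (p / 2), ?_, by positivity, ?_⟩
  · have h8 : (2 : ℝ) ≤ 8 / p := by rw [le_div_iff₀ hp]; linarith
    exact_mod_cast h8.trans hL
  intro D I a
  set L := ⌈8 / p⌉₊ with hLdef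
  set τ : ℝ := ((2 : ℝ) ^ (I + 1))⁻¹ with hτd
  have hτ : 0 < τ := by positivity
  have hτ1 : τ ≤ 1 := by
    apply inv_le_one_of_one_le₀
    exact one_le_pow₀ (by norm_num)
  have hE0 : 0 ≤ ∫ x : TT, ‖tp D a x‖ ^ p := integral_nonneg fun x => by positivity
  by_cases hP : (∑ n ∈ range D, Polynomial.C (a n) * Polynomial.X ^ n : Polynomial ℂ) = 0
  · have hd : ∀ t w, dtp D a t w = 0 := by
      intro t w
      rw [dtp_eq, hP]; simp
    have ha : ∀ x, area D a I L x = 0 := by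
      intro x; unfold area; simp [hd]
    simp only [ha]
    rw [Real.zero_rpow (by positivity)]
    simp only [integral_zero]
    positivity
  obtain ⟨Φ, Ψ, hΦ, hΨ, hbd, hin⟩ := factor hp hp1 _ hP
  obtain ⟨Nf, hNc, hN0, hNb, hNi⟩ := hmax Φ hΦ I
  set E := ∫ x : TT, ‖tp D a x‖ ^ p with hE
  have hEΦ : ∫ x : TT, ‖Φ (ee 1 x)‖ ^ 2 = E := by
    rw [hE]; congr 1; ext x
    rw [(hbd _ (norm_ee 1 x)).1, tp_eq]
  have hEΨ : ∫ x : TT, ‖Ψ (ee 1 x)‖ ^ 2 = E := by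
    rw [hE]; congr 1; ext x
    rw [(hbd _ (norm_ee 1 x)).2, tp_eq]
  have hh := integral_hhf_le hΦ hΨ (2 / p) hτ hτ1
  rw [hEΦ, hEΨ] at hh
  rw [hEΦ] at hNi
  have hhc := continuous_hhf hΦ hΨ (2 / p) hτ
  have hh0 := hhf_nonneg Φ Ψ (2 / p) hτ hτ1
  have c3 := continuous_int3 hΦ hΨ (2 / p) hτ
  -- pointwise bound
  have key : ∀ x : TT, area D a I L x ≤ Nf x ^ (2 * (2 / p - 1)) * hhf Φ Ψ (2 / p) τ x := by
    intro x
    unfold area hhf
    rw [← intervalIntegral.integral_const_mul, intervalIntegral.integral_of_le hτ1,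
      intervalIntegral.integral_of_le hτ1]
    have c4 : Continuous fun q : ℝ × TT => dom Φ Ψ (2 / p) τ q.1 q.2 *
        ((1 + ‖x - q.2‖ / max q.1 τ) ^ 2)⁻¹ := by
      have e0 : Continuous fun q : ℝ × TT => ((x, q.1), q.2) := by fun_prop
      have e1 := c3.comp e0
      exact e1
    have c5 : Continuous fun t : ℝ => ∫ w : TT, dom Φ Ψ (2 / p) τ t w *
        ((1 + ‖x - w‖ / max t τ) ^ 2)⁻¹ :=
      continuous_integral (X := ℝ) (f := fun t w => dom Φ Ψ (2 / p) τ t w *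
        ((1 + ‖x - w‖ / max t τ) ^ 2)⁻¹) c4
    have c6 : Continuous fun t : ℝ => Nf x ^ (2 * (2 / p - 1)) *
        ∫ w : TT, dom Φ Ψ (2 / p) τ t w * ((1 + ‖x - w‖ / max t τ) ^ 2)⁻¹ :=
      continuous_const.mul c5
    apply integral_mono_of_nonneg
    · refine (ae_restrict_iff' measurableSet_Ioc).mpr (Filter.Eventually.of_forall fun t ht => ?_)
      have ht0 : 0 < t := hτ.trans ht.1
      simp only [Pi.zero_apply]
      apply integral_nonneg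
      intro w
      simp only [Pi.zero_apply]
      positivity
    · exact (c6.intervalIntegrable τ 1).1
    · refine (ae_restrict_iff' measurableSet_Ioc).mpr (Filter.Eventually.of_forall fun t ht => ?_)
      have ht0 : 0 < t := hτ.trans ht.1
      simp only
      rw [← integral_const_mul]
      have c7 : Continuous fun w : TT => Nf x ^ (2 * (2 / p - 1)) *
          (dom Φ Ψ (2 / p) τ t w * ((1 + ‖x - w‖ / max t τ) ^ 2)⁻¹) := by
        have e0 : Continuous fun w : TT => (t, w) := by fun_prop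
        have e1 := c4.comp e0
        exact continuous_const.mul e1
      apply integral_mono_of_nonneg
      · refine Filter.Eventually.of_forall fun w => ?_
        simp only [Pi.zero_apply]
        positivity
      · exact integ c7
      · refine Filter.Eventually.of_forall fun w => ?_
        exact dtp_bound hp hp1 hτ hL (fun z hz => (hin z hz).2) hN0 hNb x w ht.1.le ht.2
  -- Hölder
  have h2p : 0 < 2 - p := by linarith
  have hconj : (2 / (2 - p)).HolderConjugate (2 / p) := by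
    rw [Real.holderConjugate_iff]
    constructor
    · rw [lt_div_iff₀ h2p]; linarith
    · rw [inv_div, inv_div]; ring
  have hf0 : ∀ x, 0 ≤ Nf x ^ (2 - p) := fun x => Real.rpow_nonneg (hN0 x) _
  have hg0 : ∀ x, 0 ≤ hhf Φ Ψ (2 / p) τ x ^ (p / 2) := fun x => Real.rpow_nonneg (hh0 x) _
  have hfc : Continuous fun x => Nf x ^ (2 - p) :=
    hNc.rpow_const fun x => Or.inr h2p.le
  have hgc : Continuous fun x => hhf Φ Ψ (2 / p) τ x ^ (p / 2) :=
    hhc.rpow_const fun x => Or.inr (by positivity)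
  have hol := integral_mul_le_Lp_mul_Lq_of_nonneg (μ := (volume : Measure TT)) hconj
    (f := fun x => Nf x ^ (2 - p)) (g := fun x => hhf Φ Ψ (2 / p) τ x ^ (p / 2))
    (Filter.Eventually.of_forall hf0) (Filter.Eventually.of_forall hg0)
    (hfc.memLp_of_hasCompactSupport (HasCompactSupport.of_compactSpace _))
    (hgc.memLp_of_hasCompactSupport (HasCompactSupport.of_compactSpace _))
  have e1 : ∀ x, (Nf x ^ (2 - p)) ^ (2 / (2 - p)) = Nf x ^ 2 := by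
    intro x
    rw [← Real.rpow_mul (hN0 x), mul_div_cancel₀ _ h2p.ne']
    norm_num
  have e2 : ∀ x, (hhf Φ Ψ (2 / p) τ x ^ (p / 2)) ^ (2 / p) = hhf Φ Ψ (2 / p) τ x := by
    intro x
    rw [← Real.rpow_mul (hh0 x)]
    have : p / 2 * (2 / p) = 1 := by field_simp
    rw [this, Real.rpow_one]
  simp only [e1, e2, one_div, inv_div] at hol
  have m1 : ∫ x : TT, (area D a I L x) ^ (p / 2)
      ≤ ∫ x : TT, Nf x ^ (2 - p) * hhf Φ Ψ (2 / p) τ x ^ (p / 2) := by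
    apply integral_mono_of_nonneg
    · exact Filter.Eventually.of_forall fun x => Real.rpow_nonneg (area_nonneg D a I L x) _
    · exact integ (hfc.mul hgc)
    · refine Filter.Eventually.of_forall fun x => ?_
      calc (area D a I L x) ^ (p / 2)
          ≤ (Nf x ^ (2 * (2 / p - 1)) * hhf Φ Ψ (2 / p) τ x) ^ (p / 2) :=
            Real.rpow_le_rpow (area_nonneg D a I L x) (key x) (by positivity)
        _ = Nf x ^ (2 - p) * hhf Φ Ψ (2 / p) τ x ^ (p / 2) := by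
            rw [Real.mul_rpow (Real.rpow_nonneg (hN0 x) _) (hh0 x), ← Real.rpow_mul (hN0 x)]
            congr 2
            field_simp
  have hNi0 : 0 ≤ ∫ x : TT, Nf x ^ 2 := integral_nonneg fun x => by positivity
  have hhi0 : 0 ≤ ∫ x : TT, hhf Φ Ψ (2 / p) τ x := integral_nonneg hh0
  calc ∫ x : TT, (area D a I L x) ^ (p / 2)
      ≤ (∫ x : TT, Nf x ^ 2) ^ ((2 - p) / 2) * (∫ x : TT, hhf Φ Ψ (2 / p) τ x) ^ (p / 2) :=
        m1.trans hol
    _ ≤ (C0 * E) ^ ((2 - p) / 2) * (4 * (E + (2 / p) ^ 2 * E)) ^ (p / 2) := by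
        gcongr
    _ = C0 ^ ((2 - p) / 2) * (4 * (1 + (2 / p) ^ 2)) ^ (p / 2) * E := by
        have e3 : 4 * (E + (2 / p) ^ 2 * E) = (4 * (1 + (2 / p) ^ 2)) * E := by ring
        rw [e3, Real.mul_rpow hC0 hE0, Real.mul_rpow (by positivity) hE0]
        have e4 : E ^ ((2 - p) / 2) * E ^ (p / 2) = E := by
          rw [← Real.rpow_add_of_nonneg hE0 (by positivity) (by positivity)]
          have : (2 - p) / 2 + p / 2 = 1 := by ring
          rw [this, Real.rpow_one]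
        calc _ = C0 ^ ((2 - p) / 2) * (4 * (1 + (2 / p) ^ 2)) ^ (p / 2) *
              (E ^ ((2 - p) / 2) * E ^ (p / 2)) := by ring
          _ = _ := by rw [e4]

end MP63
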