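import Pool.Agent.Work.MP_63674d_an.Ker

/-! The atom bound (sufficiency, one atom). -/

open MeasureTheory Finset

namespace MP63

namespace Atom

theorem sum_shift (D k : ℕ) (g : ℕ → ℂ) (h1 : ∀ n < k, g n = 0) (h2 : ∀ n, D ≤ n → g n = 0) :
    ∑ n ∈ range D, g n = ∑ u ∈ range D, g (u + k) := by
  have e1 : ∑ n ∈ range (D + k), g n = ∑ n ∈ range D, g n := by
    rw [Finset.sum_range_add]
    have : ∑ x ∈ range k, g (D + x) = 0 := by
      apply Finset.sum_eq_zero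
      intro x _
      exact h2 _ (by omega)
    rw [this, add_zero]
  have e2 : ∑ n ∈ range (k + D), g n = ∑ u ∈ range D, g (u + k) := by
    rw [Finset.sum_range_add]
    have : ∑ x ∈ range k, g x = 0 := by
      apply Finset.sum_eq_zero
      intro x hx
      exact h1 _ (Finset.mem_range.mp hx)
    rw [this, zero_add]
    refine Finset.sum_congr rfl fun u _ => ?_
    rw [add_comm]
  rw [← e1, ← e2, add_comm]

theorem conv_identity (D w : ℕ) (κ c : ℕ → ℂ) (hc : ∀ n < w, c n = 0)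
    (hc2 : ∀ n, D ≤ n → c n = 0) (x y : TT) :
    (∑ k ∈ range (w + 1), κ k * ee k y) * tp D c (x - y)
      = ∑ u ∈ range D, (∑ k ∈ range (w + 1), κ k * c (u + k) * ee ((u + k : ℕ) : ℤ) x)
          * ee (-(u : ℤ)) y := by
  unfold tp
  rw [Finset.sum_mul]
  simp_rw [Finset.sum_mul]
  rw [Finset.sum_comm (s := range D)]
  refine Finset.sum_congr rfl fun k hk => ?_
  have hk' : k ≤ w := by have := Finset.mem_range.mp hk; omega
  rw [Finset.mul_sum]
  rw [sum_shift D k (fun n => κ k * ee k y * (c n * ee n (x - y)))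
    (fun n hn => by simp only [hc n (by omega)]; ring)
    (fun n hn => by simp only [hc2 n hn]; ring)]
  refine Finset.sum_congr rfl fun u _ => ?_
  rw [ee_sub_right]
  have : ee (-(u : ℤ)) y = ee k y * ee (-((u + k : ℕ) : ℤ)) y := by
    rw [← ee_add]; congr 1; push_cast; ring
  rw [this]; ring

theorem parseval_neg (D : ℕ) (c : ℕ → ℂ) :
    ∫ y : TT, ‖∑ u ∈ range D, c u * ee (-(u : ℤ)) y‖ ^ 2 = ∑ u ∈ range D, ‖c u‖ ^ 2 := by
  have h := parseval_nat (range D) (fun u => (starRingEnd ℂ) (c u))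
  simp only [RCLike.norm_conj] at h
  rw [← h]
  refine integral_congr_ae (Filter.Eventually.of_forall fun y => ?_)
  simp only
  congr 1
  rw [← RCLike.norm_conj, map_sum]
  congr 1
  refine Finset.sum_congr rfl fun u _ => ?_
  rw [map_mul, ee_neg]
  simp

theorem conv_parseval (D w : ℕ) (κ c : ℕ → ℂ) (hc : ∀ n < w, c n = 0)
    (hc2 : ∀ n, D ≤ n → c n = 0) (x : TT) :
    ∫ y : TT, ‖∑ k ∈ range (w + 1), κ k * ee k y‖ ^ 2 * ‖tp D c (x - y)‖ ^ 2
      = ∑ u ∈ range D, ‖∑ k ∈ range (w + 1), κ k * c (u + k) * ee ((u + k : ℕ) : ℤ) x‖ ^ 2 := by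
  rw [← parseval_neg]
  refine integral_congr_ae (Filter.Eventually.of_forall fun y => ?_)
  simp only
  rw [← conv_identity D w κ c hc hc2 x y, norm_mul, mul_pow]

theorem holder (A B : TT → ℝ) (hA : Continuous A) (hB : Continuous B) (hA0 : ∀ x, 0 ≤ A x)
    (hB0 : ∀ x, 0 ≤ B x) (θ : ℝ) (h0 : 0 < θ) (h1 : θ < 1) :
    ∫ x : TT, A x ^ (1 - θ) * B x ^ θ ≤ (∫ x : TT, A x) ^ (1 - θ) * (∫ x : TT, B x) ^ θ := by
  have hpq : Real.HolderConjugate (1 / (1 - θ)) (1 / θ) := by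
    rw [Real.holderConjugate_iff]
    constructor
    · rw [lt_div_iff₀ (by linarith)]; linarith
    · simp
  have hcA : Continuous fun x => A x ^ (1 - θ) := hA.rpow_const (fun x => Or.inr (by linarith))
  have hcB : Continuous fun x => B x ^ θ := hB.rpow_const (fun x => Or.inr (by linarith))
  have memA : MemLp (fun x => A x ^ (1 - θ)) (ENNReal.ofReal (1 / (1 - θ))) (volume : Measure TT) :=
    hcA.memLp_of_hasCompactSupport (HasCompactSupport.of_compactSpace _)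
  have memB : MemLp (fun x => B x ^ θ) (ENNReal.ofReal (1 / θ)) (volume : Measure TT) :=
    hcB.memLp_of_hasCompactSupport (HasCompactSupport.of_compactSpace _)
  have h := integral_mul_le_Lp_mul_Lq_of_nonneg hpq (μ := (volume : Measure TT))
    (f := fun x => A x ^ (1 - θ)) (g := fun x => B x ^ θ)
    (Filter.Eventually.of_forall fun x => Real.rpow_nonneg (hA0 x) _)
    (Filter.Eventually.of_forall fun x => Real.rpow_nonneg (hB0 x) _) memA memB
  have e1 : ∀ x, (A x ^ (1 - θ)) ^ (1 / (1 - θ)) = A x := by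
    intro x
    rw [← Real.rpow_mul (hA0 x), mul_one_div_cancel (by linarith), Real.rpow_one]
  have e2 : ∀ x, (B x ^ θ) ^ (1 / θ) = B x := by
    intro x
    rw [← Real.rpow_mul (hB0 x), mul_one_div_cancel (by linarith), Real.rpow_one]
  simp only [e1, e2, one_div_one_div] at h
  exact h

theorem avg_le (ρ : TT → ℝ) (hρ : Continuous ρ) (hρ0 : ∀ x, 0 ≤ ρ x) (hρ1 : ∫ x : TT, ρ x = 1)
    (F : TT → ℂ) (hF : Continuous F) (S : TT → ℝ) (hS : Continuous S)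
    (hSF : ∀ x, ∫ y : TT, ρ y * ‖F (x - y)‖ ^ 2 = S x) (p : ℝ) (hp : 0 < p) (hp1 : p < 1) :
    ∫ x : TT, ‖F x‖ ^ p ≤ ∫ x : TT, S x ^ (p / 2) := by
  have hFp : Continuous fun x => ‖F x‖ ^ p := hF.norm.rpow_const (fun x => Or.inr hp.le)
  have hprod : Integrable (Function.uncurry fun (x y : TT) => ρ y * ‖F (x - y)‖ ^ p)
      ((volume : Measure TT).prod (volume : Measure TT)) := by
    apply Continuous.integrable_of_hasCompactSupport _ (HasCompactSupport.of_compactSpace _)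
    apply Continuous.mul (by fun_prop)
    exact hFp.comp (by fun_prop)
  have h1 : ∫ x : TT, ∫ y : TT, ρ y * ‖F (x - y)‖ ^ p = ∫ x : TT, ‖F x‖ ^ p := by
    rw [integral_integral_swap hprod]
    have : ∀ y : TT, ∫ x : TT, ρ y * ‖F (x - y)‖ ^ p = ρ y * ∫ x : TT, ‖F x‖ ^ p := by
      intro y
      rw [integral_const_mul, integral_sub_right_eq_self (fun x => ‖F x‖ ^ p) y]
    simp_rw [this]
    rw [integral_mul_const, hρ1, one_mul]
  rw [← h1]
  apply integral_mono hprod.integral_prod_left (integ (hS.rpow_const fun x => Or.inr (by linarith)))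
  intro x
  simp only
  have hθ := holder ρ (fun y => ρ y * ‖F (x - y)‖ ^ 2) hρ (by fun_prop) hρ0
    (fun y => mul_nonneg (hρ0 y) (by positivity)) (p / 2) (by linarith) (by linarith)
  rw [hρ1, Real.one_rpow, one_mul, hSF x] at hθ
  refine le_trans (le_of_eq ?_) hθ
  refine integral_congr_ae (Filter.Eventually.of_forall fun y => ?_)
  simp only
  rw [Real.mul_rpow (hρ0 y) (by positivity), ← mul_assoc, ← Real.rpow_natCast ‖F (x - y)‖ 2,
    ← Real.rpow_mul (norm_nonneg _)]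
  rcases (hρ0 y).eq_or_lt with h | h
  · rw [← h, Real.zero_rpow (by linarith : 1 - p / 2 ≠ 0)]
    simp [Function.uncurry, ← h]
  · rw [← Real.rpow_add h]
    have e1 : 1 - p / 2 + p / 2 = 1 := by ring
    have e2 : ((2 : ℕ) : ℝ) * (p / 2) = p := by push_cast; ring
    rw [e1, Real.rpow_one, e2]
    rfl

theorem roots_identity (L : ℕ) (hL : 0 < L) (u : ℕ) (α β : ℕ → ℂ) (x y : TT) :
    ∑ j ∈ range L, (∑ k ∈ range L, α k * ee ((u + k : ℕ) : ℤ) (y + (((j : ℝ) / L : ℝ) : TT))) *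
        (∑ k ∈ range L, β k * ee ((u + k : ℕ) : ℤ) (x - (y + (((j : ℝ) / L : ℝ) : TT))))
      = L * ∑ k ∈ range L, α k * β k * ee ((u + k : ℕ) : ℤ) x := by
  simp_rw [Finset.sum_mul_sum]
  rw [Finset.sum_comm, Finset.mul_sum]
  refine Finset.sum_congr rfl fun k hk => ?_
  rw [Finset.sum_comm]
  have hkey : ∀ k' ∈ range L, ∑ j ∈ range L,
      α k * ee ((u + k : ℕ) : ℤ) (y + (((j : ℝ) / L : ℝ) : TT)) *
        (β k' * ee ((u + k' : ℕ) : ℤ) (x - (y + (((j : ℝ) / L : ℝ) : TT))))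
      = if k' = k then L * (α k * β k * ee ((u + k : ℕ) : ℤ) x) else 0 := by
    intro k' hk'
    have e1 : ∀ j ∈ range L, α k * ee ((u + k : ℕ) : ℤ) (y + (((j : ℝ) / L : ℝ) : TT)) *
        (β k' * ee ((u + k' : ℕ) : ℤ) (x - (y + (((j : ℝ) / L : ℝ) : TT))))
        = (α k * β k' * ee ((u + k' : ℕ) : ℤ) x * ee ((k : ℤ) - k') y) *
          ee ((k : ℤ) - k') (((j : ℝ) / L : ℝ) : TT) := by
      intro j _
      have e2 : ee ((k : ℤ) - k') (y + (((j : ℝ) / L : ℝ) : TT))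
          = ee ((u + k : ℕ) : ℤ) (y + (((j : ℝ) / L : ℝ) : TT)) *
            ee (-((u + k' : ℕ) : ℤ)) (y + (((j : ℝ) / L : ℝ) : TT)) := by
        rw [← ee_add]; congr 1; push_cast; ring
      rw [ee_sub_right, mul_assoc _ (ee ((k : ℤ) - k') y), ← ee_add_right, e2]; ring
    rw [Finset.sum_congr rfl e1, ← Finset.mul_sum, sum_roots L hL]
    by_cases hkk : k' = k
    · subst hkk
      simp [ee_zero]; ring
    · have hnd : ¬ ((L : ℤ) ∣ (k : ℤ) - k') := by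
        intro hd
        have h1 := Finset.mem_range.mp hk
        have h2 := Finset.mem_range.mp hk'
        apply hkk
        have h3 : |(k : ℤ) - k'| < L := by rw [abs_lt]; constructor <;> omega
        have := Int.eq_zero_of_abs_lt_dvd hd h3
        omega
      simp [hkk, hnd]
  rw [Finset.sum_congr rfl hkey, Finset.sum_ite_eq' (range L) k]
  simp [hk]

theorem rpow_sum_le {ι : Type*} (s : Finset ι) (f : ι → ℝ) (hf : ∀ i, 0 ≤ f i) (p : ℝ)
    (hp : 0 < p) (hp1 : p ≤ 1) : (∑ i ∈ s, f i) ^ p ≤ ∑ i ∈ s, f i ^ p := by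
  classical
  induction s using Finset.induction_on with
  | empty => simp [Real.zero_rpow hp.ne']
  | insert a s ha ih =>
    rw [Finset.sum_insert ha, Finset.sum_insert ha]
    refine (Real.rpow_add_le_add_rpow (hf a) (Finset.sum_nonneg fun i _ => hf i) hp.le hp1).trans ?_
    gcongr

theorem minkowski (D L : ℕ) (V : ℕ → ℕ → ℂ) (p : ℝ) (hp : 0 < p) (hp1 : p ≤ 1) :
    (∑ u ∈ range D, ‖∑ j ∈ range L, V j u‖ ^ 2) ^ (p / 2)
      ≤ ∑ j ∈ range L, (∑ u ∈ range D, ‖V j u‖ ^ 2) ^ (p / 2) := by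
  have key : ∀ v : EuclideanSpace ℂ (Fin D), ‖v‖ ^ p = (∑ u : Fin D, ‖v u‖ ^ 2) ^ (p / 2) := by
    intro v
    rw [EuclideanSpace.norm_eq, Real.sqrt_eq_rpow, ← Real.rpow_mul (by positivity)]
    congr 1; ring
  let v : ℕ → EuclideanSpace ℂ (Fin D) := fun j => WithLp.toLp 2 (fun u : Fin D => V j u)
  have h1 : (∑ u ∈ range D, ‖∑ j ∈ range L, V j u‖ ^ 2) ^ (p / 2) = ‖∑ j ∈ range L, v j‖ ^ p := by
    rw [key, Finset.sum_range]
    congr 1
    refine Finset.sum_congr rfl fun u _ => ?_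
    congr 2
    simp [v]
  have h2 : ∀ j, (∑ u ∈ range D, ‖V j u‖ ^ 2) ^ (p / 2) = ‖v j‖ ^ p := by
    intro j
    rw [key, Finset.sum_range]
  rw [h1]
  simp_rw [h2]
  calc ‖∑ j ∈ range L, v j‖ ^ p ≤ (∑ j ∈ range L, ‖v j‖) ^ p := by
        gcongr; exact norm_sum_le _ _
    _ ≤ _ := rpow_sum_le _ _ (fun j => norm_nonneg _) p hp hp1

theorem win_eq (s : ℕ) (l : ℕ → ℂ) (M u : ℕ) (z : TT) :
    ∑ k ∈ range (s * (M - 1) + 1), ((bc s M k : ℂ) * l (u + k)) * ee ((u + k : ℕ) : ℤ) z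
      = ee u z * win s l M u z := by
  unfold win
  rw [Finset.mul_sum]
  refine Finset.sum_congr rfl fun k _ => ?_
  have : ee ((u + k : ℕ) : ℤ) z = ee u z * ee k z := by rw [← ee_add]; congr 1
  rw [this]; ring

theorem VC_nonneg {p : ℝ} {s : ℕ} {l : ℕ → ℂ} {C : ℝ} (hV : VC p s l C) : 0 ≤ C := by
  have h := hV 1 le_rfl {0} (fun _ => 1) (by simp) (by simp)
  simp only [Nat.cast_one, Real.one_rpow, mul_one] at h
  refine le_trans (integral_nonneg fun x => ?_) h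
  positivity

theorem test_le {p : ℝ} (hp : 0 < p) {s : ℕ} {l : ℕ → ℂ} {C : ℝ}
    (hV : VC p s l C) (M : ℕ) (hM : 1 ≤ M) (D : ℕ) (e : ℕ → ℝ) (he : ∀ u, 0 ≤ e u) (z : TT) :
    ∫ x : TT, (∑ u ∈ range D, e u * ‖win s l M u (x - z)‖ ^ 2) ^ (p / 2)
      ≤ C * (M : ℝ) ^ (s * p - 1) * (∑ u ∈ range D, e u) ^ (p / 2) := by
  rw [integral_sub_right_eq_self
    (fun x : TT => (∑ u ∈ range D, e u * ‖win s l M u x‖ ^ 2) ^ (p / 2)) z]
  set E := ∑ u ∈ range D, e u with hE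
  have hE0 : 0 ≤ E := Finset.sum_nonneg fun u _ => he u
  rcases hE0.eq_or_lt with h | h
  · have hz : ∀ u ∈ range D, e u = 0 := (Finset.sum_eq_zero_iff_of_nonneg (fun u _ => he u)).mp h.symm
    have : ∀ x : TT, (∑ u ∈ range D, e u * ‖win s l M u x‖ ^ 2) ^ (p / 2) = 0 := by
      intro x
      rw [Finset.sum_eq_zero fun u hu => by rw [hz u hu, zero_mul], Real.zero_rpow (by linarith)]
    simp_rw [this]
    rw [← h, Real.zero_rpow (by linarith)]; simp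
  · have h1 := hV M hM (range D) (fun u => e u / E) (fun u _ => div_nonneg (he u) hE0)
      (by rw [← Finset.sum_div, ← hE, div_self h.ne'])
    have h2 : ∀ x : TT, (∑ u ∈ range D, e u * ‖win s l M u x‖ ^ 2) ^ (p / 2)
        = E ^ (p / 2) * (∑ u ∈ range D, e u / E * ‖win s l M u x‖ ^ 2) ^ (p / 2) := by
      intro x
      rw [← Real.mul_rpow hE0 (Finset.sum_nonneg fun u _ => by have := he u; positivity),
        Finset.mul_sum]
      congr 1
      refine Finset.sum_congr rfl fun u _ => ?_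
      field_simp
    simp_rw [h2]
    rw [integral_const_mul]
    calc E ^ (p / 2) * ∫ x : TT, (∑ u ∈ range D, e u / E * ‖win s l M u x‖ ^ 2) ^ (p / 2)
        ≤ E ^ (p / 2) * (C * (M : ℝ) ^ (s * p - 1)) := by gcongr
      _ = _ := by ring

theorem half_one {p : ℝ} (hp : 0 < p) (hp1 : p < 1) {s : ℕ} (l : ℕ → ℂ) {C : ℝ}
    (hV : VC p s l C) (M : ℕ) (hM : 1 ≤ M) (hs : 1 ≤ s) (D : ℕ) (a : ℕ → ℂ)
    (ha : ∀ k < s * (M - 1), a k = 0) (ha2 : ∀ k, D ≤ k → a k = 0) (c : ℝ) (hc : 0 ≤ c)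
    (hc2 : c ^ 2 * ∑ k ∈ range (s * (M - 1) + 1), (bc s M k : ℝ) ^ 4 = 1) (y : TT) :
    ∫ x : TT, ‖tp D (fun n => l n * a n) x‖ ^ p ≤
      ((s * (M - 1) + 1 : ℕ) : ℝ) ^ (-p) * ∑ j ∈ range (s * (M - 1) + 1),
        (C * (M : ℝ) ^ (s * p - 1) * (∑ u ∈ range D,
          ‖∑ k ∈ range (s * (M - 1) + 1), (((c * bc s M k : ℝ) : ℂ) * a (u + k)) *
            ee ((u + k : ℕ) : ℤ) (y + (((j : ℝ) / (s * (M - 1) + 1 : ℕ) : ℝ) : TT))‖ ^ 2) ^ (p / 2)) := by
  set w := s * (M - 1) with hw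
  set κ : ℕ → ℂ := fun k => ((c * (bc s M k : ℝ) ^ 2 : ℝ) : ℂ) with hκ
  set S : TT → ℝ := fun x => ∑ u ∈ range D,
    ‖∑ k ∈ range (w + 1), κ k * (l (u + k) * a (u + k)) * ee ((u + k : ℕ) : ℤ) x‖ ^ 2 with hS
  have hScont : Continuous S := by rw [hS]; fun_prop
  have h1 : ∫ x : TT, ‖tp D (fun n => l n * a n) x‖ ^ p ≤ ∫ x : TT, S x ^ (p / 2) := by
    apply avg_le (fun y => ‖∑ k ∈ range (w + 1), κ k * ee k y‖ ^ 2) (by fun_prop)
      (fun y => by positivity) _ _ (by fun_prop) S hScont _ p hp hp1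
    · rw [parseval_nat, ← hc2, Finset.mul_sum]
      refine Finset.sum_congr rfl fun k _ => ?_
      rw [hκ]
      simp only
      rw [Complex.norm_real, Real.norm_eq_abs, sq_abs]; ring
    · intro x
      exact conv_parseval D w κ (fun n => l n * a n) (fun n hn => by simp only [ha n hn, mul_zero])
        (fun n hn => by simp only [ha2 n hn, mul_zero]) x
  refine h1.trans ?_
  set Y : ℕ → TT := fun j => y + (((j : ℝ) / (w + 1 : ℕ) : ℝ) : TT) with hY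
  set h : ℕ → TT → ℂ := fun u z => ∑ k ∈ range (w + 1), (((c * bc s M k : ℝ) : ℂ) * a (u + k)) *
            ee ((u + k : ℕ) : ℤ) z with hh
  have hL : (0 : ℝ) < ((w + 1 : ℕ) : ℝ) := by positivity
  have h2 : ∀ x, S x ^ (p / 2) ≤ ((w + 1 : ℕ) : ℝ) ^ (-p) * ∑ j ∈ range (w + 1),
      (∑ u ∈ range D, ‖h u (Y j)‖ ^ 2 * ‖win s l M u (x - Y j)‖ ^ 2) ^ (p / 2) := by
    intro x
    have e1 : ∀ u, ‖∑ k ∈ range (w + 1), κ k * (l (u + k) * a (u + k)) * ee ((u + k : ℕ) : ℤ) x‖ ^ 2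
        = ((w + 1 : ℕ) : ℝ) ^ (-2 : ℝ) * ‖∑ j ∈ range (w + 1), h u (Y j) *
          (ee u (x - Y j) * win s l M u (x - Y j))‖ ^ 2 := by
      intro u
      have e2 := roots_identity (w + 1) (Nat.succ_pos w) u
        (fun k => ((c * bc s M k : ℝ) : ℂ) * a (u + k)) (fun k => (bc s M k : ℂ) * l (u + k)) x y
      have e3 : ∀ j : ℕ, ∑ k ∈ range (w + 1), (fun k => (bc s M k : ℂ) * l (u + k)) k *
          ee ((u + k : ℕ) : ℤ) (x - (y + (((j : ℝ) / (w + 1 : ℕ) : ℝ) : TT)))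
          = ee u (x - Y j) * win s l M u (x - Y j) := by
        intro j
        rw [← win_eq]
      rw [Finset.sum_congr rfl fun j _ => by rw [e3 j]] at e2
      have e4 : ∑ j ∈ range (w + 1), h u (Y j) * (ee u (x - Y j) * win s l M u (x - Y j))
          = ((w + 1 : ℕ) : ℂ) * ∑ k ∈ range (w + 1), κ k * (l (u + k) * a (u + k)) *
            ee ((u + k : ℕ) : ℤ) x := by
        rw [hh]
        simp only
        rw [e2]
        congr 1
        refine Finset.sum_congr rfl fun k _ => ?_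
        rw [hκ]; push_cast; ring
      have e7 : ((w + 1 : ℕ) : ℝ) ^ (-2 : ℝ) * ((w + 1 : ℕ) : ℝ) ^ 2 = 1 := by
        rw [← Real.rpow_natCast ((w + 1 : ℕ) : ℝ) 2, ← Real.rpow_add hL]
        norm_num
      rw [e4, norm_mul, mul_pow, Complex.norm_natCast, ← mul_assoc, e7, one_mul]
    have e5 : S x = ((w + 1 : ℕ) : ℝ) ^ (-2 : ℝ) * ∑ u ∈ range D, ‖∑ j ∈ range (w + 1), h u (Y j) *
          (ee u (x - Y j) * win s l M u (x - Y j))‖ ^ 2 := by
      rw [hS, Finset.mul_sum]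
      exact Finset.sum_congr rfl fun u _ => e1 u
    rw [e5, Real.mul_rpow (by positivity) (by positivity), ← Real.rpow_mul hL.le]
    have e6 : (-2 : ℝ) * (p / 2) = -p := by ring
    rw [e6]
    gcongr
    refine (minkowski D (w + 1) (fun j u => h u (Y j) *
          (ee u (x - Y j) * win s l M u (x - Y j))) p hp hp1.le).trans (le_of_eq ?_)
    refine Finset.sum_congr rfl fun j _ => ?_
    congr 1
    refine Finset.sum_congr rfl fun u _ => ?_
    rw [norm_mul, norm_mul, norm_ee, one_mul, mul_pow]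
  have hcont : ∀ j, Continuous fun x => (∑ u ∈ range D, ‖h u (Y j)‖ ^ 2 *
      ‖win s l M u (x - Y j)‖ ^ 2) ^ (p / 2) := by
    intro j
    apply Continuous.rpow_const _ (fun x => Or.inr (by linarith))
    apply continuous_finsetSum
    intro u _
    have := continuous_win s l M u
    exact continuous_const.mul ((this.comp (by fun_prop)).norm.pow 2)
  calc ∫ x : TT, S x ^ (p / 2) ≤ ∫ x : TT, ((w + 1 : ℕ) : ℝ) ^ (-p) * ∑ j ∈ range (w + 1),
      (∑ u ∈ range D, ‖h u (Y j)‖ ^ 2 * ‖win s l M u (x - Y j)‖ ^ 2) ^ (p / 2) := by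
        apply integral_mono (integ (hScont.rpow_const fun x => Or.inr (by linarith))) _ h2
        apply integ
        apply continuous_const.mul
        apply continuous_finsetSum
        intro j _
        exact hcont j
    _ = ((w + 1 : ℕ) : ℝ) ^ (-p) * ∑ j ∈ range (w + 1), ∫ x : TT,
      (∑ u ∈ range D, ‖h u (Y j)‖ ^ 2 * ‖win s l M u (x - Y j)‖ ^ 2) ^ (p / 2) := by
        rw [integral_const_mul, integral_finsetSum _ (fun j _ => integ (hcont j))]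
    _ ≤ _ := by
        gcongr with j hj
        exact test_le hp hV M hM D (fun u => ‖h u (Y j)‖ ^ 2) (fun u => by positivity) (Y j)

/-- The kernel bound. -/
theorem H_le {s : ℕ} (M : ℕ) (hM : 1 ≤ M) (hs : 1 ≤ s) (D : ℕ) (a : ℕ → ℂ)
    (ha : ∀ k < s * (M - 1), a k = 0) (ha2 : ∀ k, D ≤ k → a k = 0) (c : ℝ) (hc : 0 ≤ c)
    (hc2 : c ^ 2 * ∑ k ∈ range (s * (M - 1) + 1), (bc s M k : ℝ) ^ 4 = 1) (y x0 : TT) :
    ∑ u ∈ range D, ‖∑ k ∈ range (s * (M - 1) + 1), (((c * bc s M k : ℝ) : ℂ) * a (u + k)) *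
            ee ((u + k : ℕ) : ℤ) y‖ ^ 2
      ≤ (4 : ℝ) ^ s * s ^ 3 * ((M : ℝ) ^ 3 / (M : ℝ) ^ (2 * s)) *
        (∫ x : TT, ‖tp D a x‖ ^ 2 * (1 + M * ‖x - x0‖) ^ (2 * s)) *
        ((1 + M * ‖y - x0‖) ^ (2 * s))⁻¹ := by
  have hM0 : (0 : ℝ) < M := by exact_mod_cast hM
  rw [← conv_parseval D (s * (M - 1)) (fun k => ((c * bc s M k : ℝ) : ℂ)) a ha ha2 y]
  rw [← integral_sub_left_eq_self
    (fun x : TT => ‖tp D a x‖ ^ 2 * (1 + M * ‖x - x0‖) ^ (2 * s)) volume y]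
  rw [← integral_const_mul, ← integral_mul_const]
  apply integral_mono (integ (by fun_prop)) (integ (by fun_prop))
  intro z
  simp only
  have e1 : ∑ k ∈ range (s * (M - 1) + 1), ((c * bc s M k : ℝ) : ℂ) * ee k z
      = c * (∑ k ∈ range M, ee k z) ^ s := by
    rw [← bc_gen s M hM, Finset.mul_sum]
    refine Finset.sum_congr rfl fun k _ => ?_
    push_cast; ring
  have e2 : ‖∑ k ∈ range (s * (M - 1) + 1), ((c * bc s M k : ℝ) : ℂ) * ee k z‖ ^ 2
      = c ^ 2 * ‖∑ k ∈ range M, ee k z‖ ^ (2 * s) := by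
    rw [e1, norm_mul, norm_pow, mul_pow, ← pow_mul, Complex.norm_real, Real.norm_eq_abs, sq_abs,
      mul_comm s 2]
  rw [e2]
  have hpos : 0 < 1 + (M : ℝ) * ‖z‖ := by positivity
  have e3 : ‖∑ k ∈ range M, ee k z‖ ≤ (2 * M) / (1 + (M : ℝ) * ‖z‖) := by
    rw [le_div_iff₀ hpos]; exact dir_bound M z
  have e4 : 1 + (M : ℝ) * ‖y - x0‖ ≤ (1 + M * ‖z‖) * (1 + M * ‖y - z - x0‖) := by
    have : ‖y - x0‖ ≤ ‖z‖ + ‖y - z - x0‖ := by
      have h : y - x0 = z + (y - z - x0) := by abel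
      calc ‖y - x0‖ = ‖z + (y - z - x0)‖ := by rw [← h]
        _ ≤ _ := norm_add_le _ _
    have h0 : 0 ≤ (M : ℝ) * ‖z‖ := by positivity
    have h1 : 0 ≤ (M : ℝ) * ‖y - z - x0‖ := by positivity
    nlinarith [mul_nonneg h0 h1]
  have e5 : c ^ 2 ≤ (s : ℝ) ^ 3 * ((M : ℝ) ^ 3 / (M : ℝ) ^ (4 * s)) := by
    have h4 := bc_four s M hs hM
    have hT : c ^ 2 * (M : ℝ) ^ (4 * s) ≤ (s * M : ℝ) ^ 3 := by
      calc c ^ 2 * (M : ℝ) ^ (4 * s) ≤ c ^ 2 * (((s : ℝ) * M) ^ 3 *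
            ∑ k ∈ range (s * (M - 1) + 1), (bc s M k : ℝ) ^ 4) := by gcongr
        _ = ((s : ℝ) * M) ^ 3 * (c ^ 2 * ∑ k ∈ range (s * (M - 1) + 1), (bc s M k : ℝ) ^ 4) := by
            ring
        _ = _ := by rw [hc2, mul_one]
    rw [← mul_div_assoc, le_div_iff₀ (by positivity)]
    calc _ ≤ _ := hT
      _ = _ := by ring
  have e6 : (1 + (M : ℝ) * ‖y - x0‖) ^ (2 * s) ≤
      (1 + M * ‖z‖) ^ (2 * s) * (1 + M * ‖y - z - x0‖) ^ (2 * s) := by
    rw [← mul_pow]; gcongr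
  have e7 : (1 + (M : ℝ) * ‖z‖)⁻¹ ^ (2 * s) ≤
      (1 + M * ‖y - z - x0‖) ^ (2 * s) * ((1 + M * ‖y - x0‖) ^ (2 * s))⁻¹ := by
    rw [inv_pow, inv_le_comm₀ (by positivity) (by positivity), mul_inv, inv_inv, ← div_eq_inv_mul,
      div_le_iff₀ (by positivity)]
    exact e6
  calc c ^ 2 * ‖∑ k ∈ range M, ee k z‖ ^ (2 * s) * ‖tp D a (y - z)‖ ^ 2
      ≤ ((s : ℝ) ^ 3 * ((M : ℝ) ^ 3 / (M : ℝ) ^ (4 * s))) *
        ((2 * M) / (1 + (M : ℝ) * ‖z‖)) ^ (2 * s) * ‖tp D a (y - z)‖ ^ 2 := by gcongr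
    _ = (4 : ℝ) ^ s * s ^ 3 * ((M : ℝ) ^ 3 / (M : ℝ) ^ (2 * s)) * ‖tp D a (y - z)‖ ^ 2 *
        (1 + (M : ℝ) * ‖z‖)⁻¹ ^ (2 * s) := by
        rw [div_eq_mul_inv (2 * (M : ℝ)), mul_pow, mul_pow 2, pow_mul 2 2 s]
        have : (M : ℝ) ^ (4 * s) = (M : ℝ) ^ (2 * s) * (M : ℝ) ^ (2 * s) := by
          rw [← pow_add]; congr 1; ring
        rw [this]
        field_simp
        norm_num
        ring
    _ ≤ (4 : ℝ) ^ s * s ^ 3 * ((M : ℝ) ^ 3 / (M : ℝ) ^ (2 * s)) * ‖tp D a (y - z)‖ ^ 2 *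
        ((1 + M * ‖y - z - x0‖) ^ (2 * s) * ((1 + M * ‖y - x0‖) ^ (2 * s))⁻¹) := by gcongr
    _ = _ := by ring

theorem core {p : ℝ} (hp : 0 < p) (hp1 : p < 1) {s : ℕ} (hs : 1 < s * p) (l : ℕ → ℂ) {C : ℝ}
    (hV : VC p s l C) (M : ℕ) (hM : 1 ≤ M) (D : ℕ) (a : ℕ → ℂ)
    (ha : ∀ k < s * (M - 1), a k = 0) (ha2 : ∀ k, D ≤ k → a k = 0) (x0 : TT) :
    ∫ x : TT, ‖tp D (fun n => l n * a n) x‖ ^ p ≤
      (C * (s : ℝ) ^ (1 - p) * ((4 : ℝ) ^ s * s ^ 3) ^ (p / 2) * (2 / (s * p - 1))) *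
        (M : ℝ) ^ (p / 2 - 1) *
        (∫ x : TT, ‖tp D a x‖ ^ 2 * (1 + M * ‖x - x0‖) ^ (2 * s)) ^ (p / 2) := by
  have hM0 : (0 : ℝ) < M := by exact_mod_cast hM
  have hC := VC_nonneg hV
  have hs1 : 1 ≤ s := by
    rcases Nat.eq_zero_or_pos s with h | h
    · subst h; norm_num at hs
    · exact h
  have hs0 : (0 : ℝ) < s := by exact_mod_cast hs1
  set W := ∫ x : TT, ‖tp D a x‖ ^ 2 * (1 + M * ‖x - x0‖) ^ (2 * s) with hW
  have hW0 : 0 ≤ W := integral_nonneg fun x => by positivity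
  set T4 : ℝ := ∑ k ∈ range (s * (M - 1) + 1), (bc s M k : ℝ) ^ 4 with hT4
  have hT4pos : 0 < T4 := by
    have h := bc_four s M hs1 hM
    by_contra hneg
    push Not at hneg
    have h2 : ((s : ℝ) * M) ^ 3 * T4 ≤ 0 := mul_nonpos_of_nonneg_of_nonpos (by positivity) hneg
    have h3 : 0 < (M : ℝ) ^ (4 * s) := by positivity
    linarith
  set c : ℝ := Real.sqrt (T4⁻¹) with hc
  have hc0 : 0 ≤ c := Real.sqrt_nonneg _
  have hc2 : c ^ 2 * T4 = 1 := by
    rw [hc, Real.sq_sqrt (by positivity), inv_mul_cancel₀ hT4pos.ne']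
  set H : TT → ℝ := fun y => ∑ u ∈ range D,
    ‖∑ k ∈ range (s * (M - 1) + 1), (((c * bc s M k : ℝ) : ℂ) * a (u + k)) *
            ee ((u + k : ℕ) : ℤ) y‖ ^ 2 with hH
  have hHc : Continuous H := by rw [hH]; fun_prop
  have hHpc : Continuous fun y => H y ^ (p / 2) :=
    hHc.rpow_const fun x => Or.inr (by linarith)
  set w := s * (M - 1) with hw
  have hL : (0 : ℝ) < ((w + 1 : ℕ) : ℝ) := by positivity
  have h1 : ∀ y : TT, ∫ x : TT, ‖tp D (fun n => l n * a n) x‖ ^ p ≤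
      ((w + 1 : ℕ) : ℝ) ^ (-p) * ∑ j ∈ range (w + 1),
        (C * (M : ℝ) ^ (s * p - 1) * H (y + (((j : ℝ) / (w + 1 : ℕ) : ℝ) : TT)) ^ (p / 2)) :=
    fun y => half_one hp hp1 l hV M hM hs1 D a ha ha2 c hc0 hc2 y
  have h2 : ∫ x : TT, ‖tp D (fun n => l n * a n) x‖ ^ p ≤
      ((w + 1 : ℕ) : ℝ) ^ (1 - p) * (C * (M : ℝ) ^ (s * p - 1)) * ∫ y : TT, H y ^ (p / 2) := by
    have hcj : ∀ j : ℕ, Continuous fun y =>
        C * (M : ℝ) ^ (s * p - 1) * H (y + (((j : ℝ) / (w + 1 : ℕ) : ℝ) : TT)) ^ (p / 2) := by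
      intro j
      exact continuous_const.mul (hHpc.comp (continuous_add_right _))
    have e1 : ∫ x : TT, ‖tp D (fun n => l n * a n) x‖ ^ p
        = ∫ _y : TT, ∫ x : TT, ‖tp D (fun n => l n * a n) x‖ ^ p := by simp
    rw [e1]
    calc ∫ _y : TT, ∫ x : TT, ‖tp D (fun n => l n * a n) x‖ ^ p
        ≤ ∫ y : TT, ((w + 1 : ℕ) : ℝ) ^ (-p) * ∑ j ∈ range (w + 1),
        (C * (M : ℝ) ^ (s * p - 1) * H (y + (((j : ℝ) / (w + 1 : ℕ) : ℝ) : TT)) ^ (p / 2)) := by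
          apply integral_mono (integ continuous_const) _ h1
          apply integ
          apply continuous_const.mul
          apply continuous_finsetSum
          intro j _
          exact hcj j
      _ = ((w + 1 : ℕ) : ℝ) ^ (-p) * ∑ j ∈ range (w + 1),
        (C * (M : ℝ) ^ (s * p - 1) * ∫ y : TT, H y ^ (p / 2)) := by
          rw [integral_const_mul, integral_finsetSum _ (fun j _ => integ (hcj j))]
          congr 1
          refine Finset.sum_congr rfl fun j _ => ?_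
          rw [integral_const_mul, integral_add_right_eq_self (fun y => H y ^ (p / 2))]
      _ = _ := by
          rw [Finset.sum_const, card_range, nsmul_eq_mul, sub_eq_add_neg 1 p, Real.rpow_add hL,
            Real.rpow_one]
          ring
  have hpos : ∀ y : TT, 0 < 1 + (M : ℝ) * ‖y - x0‖ := fun y => by positivity
  have h3 : ∀ y, H y ^ (p / 2) ≤ ((4 : ℝ) ^ s * s ^ 3 * ((M : ℝ) ^ 3 / (M : ℝ) ^ (2 * s)) * W) ^ (p / 2)
      * (1 + M * ‖y - x0‖) ^ (-(s * p)) := by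
    intro y
    have h := H_le M hM hs1 D a ha ha2 c hc0 hc2 y x0
    have e1 : (1 + M * ‖y - x0‖) ^ (-(s * p)) = (((1 + (M : ℝ) * ‖y - x0‖) ^ (2 * s))⁻¹) ^ (p / 2) := by
      rw [Real.inv_rpow (by positivity), ← Real.rpow_natCast, ← Real.rpow_mul (hpos y).le,
        ← Real.rpow_neg (hpos y).le]
      congr 1; push_cast; ring
    rw [e1, ← Real.mul_rpow (by positivity) (by positivity)]
    apply Real.rpow_le_rpow _ h (by linarith)
    exact Finset.sum_nonneg fun u _ => by positivity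
  have hdc : Continuous fun y : TT => (1 + (M : ℝ) * ‖y - x0‖) ^ (-(s * p)) := by
    apply Continuous.rpow_const (by fun_prop)
    intro y; left; exact (hpos y).ne'
  have h4 : ∫ y : TT, H y ^ (p / 2) ≤
      ((4 : ℝ) ^ s * s ^ 3 * ((M : ℝ) ^ 3 / (M : ℝ) ^ (2 * s)) * W) ^ (p / 2) *
        ((2 / (s * p - 1)) / M) := by
    calc ∫ y : TT, H y ^ (p / 2) ≤ ∫ y : TT, ((4 : ℝ) ^ s * s ^ 3 * ((M : ℝ) ^ 3 / (M : ℝ) ^ (2 * s)) * W) ^ (p / 2)
      * (1 + M * ‖y - x0‖) ^ (-(s * p)) := by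
          exact integral_mono (integ hHpc) (integ (continuous_const.mul hdc)) h3
      _ = ((4 : ℝ) ^ s * s ^ 3 * ((M : ℝ) ^ 3 / (M : ℝ) ^ (2 * s)) * W) ^ (p / 2) *
          ∫ y : TT, (1 + (M : ℝ) * ‖y‖) ^ (-(s * p)) := by
          rw [integral_const_mul]
          congr 1
          exact integral_sub_right_eq_self (fun y : TT => (1 + (M : ℝ) * ‖y‖) ^ (-(s * p))) x0
      _ ≤ _ := by
          gcongr
          exact int_decay (s * p) hs M hM0
  have hLM : ((w + 1 : ℕ) : ℝ) ≤ s * M := by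
    have : w + 1 ≤ s * M := by
      rw [hw]
      obtain ⟨m, rfl⟩ : ∃ m, M = m + 1 := ⟨M - 1, by omega⟩
      simp only [Nat.add_sub_cancel]
      nlinarith
    exact_mod_cast this
  have hsp : 0 < s * p - 1 := by linarith
  calc ∫ x : TT, ‖tp D (fun n => l n * a n) x‖ ^ p
      ≤ ((w + 1 : ℕ) : ℝ) ^ (1 - p) * (C * (M : ℝ) ^ (s * p - 1)) * ∫ y : TT, H y ^ (p / 2) := h2
    _ ≤ (s * M : ℝ) ^ (1 - p) * (C * (M : ℝ) ^ (s * p - 1)) *
        (((4 : ℝ) ^ s * s ^ 3 * ((M : ℝ) ^ 3 / (M : ℝ) ^ (2 * s)) * W) ^ (p / 2) *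
        ((2 / (s * p - 1)) / M)) := by
        gcongr
    _ = _ := by
        have e1 : ((4 : ℝ) ^ s * s ^ 3 * ((M : ℝ) ^ 3 / (M : ℝ) ^ (2 * s)) * W) ^ (p / 2)
            = ((4 : ℝ) ^ s * s ^ 3) ^ (p / 2) * (M : ℝ) ^ ((3 - 2 * s) * (p / 2)) * W ^ (p / 2) := by
          rw [Real.mul_rpow (by positivity) hW0, Real.mul_rpow (by positivity) (by positivity)]
          congr 2
          rw [← Real.rpow_natCast (M : ℝ) 3, ← Real.rpow_natCast (M : ℝ) (2 * s),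
            ← Real.rpow_sub hM0, ← Real.rpow_mul hM0.le]
          congr 1; push_cast; ring
        have e2 : (M : ℝ) ^ (p / 2 - 1) = (M : ℝ) ^ (1 - p) * (M : ℝ) ^ (s * p - 1) *
            (M : ℝ) ^ ((3 - 2 * s) * (p / 2)) * (M : ℝ)⁻¹ := by
          rw [← Real.rpow_neg_one (M : ℝ), ← Real.rpow_add hM0, ← Real.rpow_add hM0,
            ← Real.rpow_add hM0]
          congr 1; ring
        rw [e1, e2, Real.mul_rpow hs0.le hM0.le]
        ring

end Atom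

theorem atom_bound {p : ℝ} (hp : 0 < p) (hp1 : p < 1) {s : ℕ} (hs : 1 < s * p) (l : ℕ → ℂ) (C : ℝ)
    (hV : VC p s l C) :
    ∃ C' : ℝ, 0 ≤ C' ∧ ∀ (M : ℕ), 1 ≤ M → ∀ (D : ℕ) (a : ℕ → ℂ), (∀ k < s * (M - 1), a k = 0) →
      ∀ x0 : TT, ∫ x : TT, ‖tp D (fun n => l n * a n) x‖ ^ p ≤ C' * (M : ℝ) ^ (p / 2 - 1) *
        (∫ x : TT, ‖tp D a x‖ ^ 2 * (1 + M * ‖x - x0‖) ^ (2 * s)) ^ (p / 2) := by
  have hC := Atom.VC_nonneg hV
  refine ⟨C * (s : ℝ) ^ (1 - p) * ((4 : ℝ) ^ s * s ^ 3) ^ (p / 2) * (2 / (s * p - 1)), ?_, ?_⟩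
  · have : 0 < s * p - 1 := by linarith
    positivity
  intro M hM D a ha x0
  set a' : ℕ → ℂ := fun n => if n < D then a n else 0 with ha'
  have e1 : ∀ x, tp D a x = tp D a' x := by
    intro x
    unfold tp
    refine Finset.sum_congr rfl fun n hn => ?_
    have := Finset.mem_range.mp hn
    simp [ha', this]
  have e2 : ∀ x, tp D (fun n => l n * a n) x = tp D (fun n => l n * a' n) x := by
    intro x
    unfold tp
    refine Finset.sum_congr rfl fun n hn => ?_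
    have := Finset.mem_range.mp hn
    simp [ha', this]
  simp_rw [e1, e2]
  refine Atom.core hp hp1 hs l hV M hM D a' ?_ ?_ x0
  · intro k hk
    simp [ha', ha k hk]
  · intro k hk
    have : ¬ k < D := by omega
    simp [ha', this]

end MP63
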