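import Mathlib

/-! Basic objects for the multiplier problem: characters on the circle of length one, analytic
trigonometric polynomials, coefficients of the kernels `((1 - X ^ N) / (1 - X)) ^ s`, the testing
condition. All integrals are over `UnitAddCircle` with its Haar probability measure `volume`. -/

open MeasureTheory Finset

namespace MP63

/-- The circle `ℝ / ℤ`. -/
abbrev TT := UnitAddCircle

instance : IsProbabilityMeasure (volume : Measure TT) := ⟨by simp⟩

/-- The character `x ↦ exp (2 π i n x)`. -/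
noncomputable def ee (n : ℤ) (x : TT) : ℂ := fourier n x

/-- Analytic trigonometric polynomial with coefficients `a n`, `n < D`. -/
noncomputable def tp (D : ℕ) (a : ℕ → ℂ) (x : TT) : ℂ := ∑ n ∈ range D, a n * ee n x

/-- `dtp D a t x = z f'(z)` at `z = exp (-t) e(x)`, where `f(z) = ∑ n < D, a n z ^ n`. -/
noncomputable def dtp (D : ℕ) (a : ℕ → ℂ) (t : ℝ) (x : TT) : ℂ :=
  ∑ n ∈ range D, (n : ℂ) * a n * (Real.exp (-(n * t)) : ℂ) * ee n x

/-- The coefficient of `X ^ k` in `(1 + X + ... + X ^ (N - 1)) ^ s`. -/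
noncomputable def bc (s N k : ℕ) : ℕ :=
  ((∑ i ∈ range N, (Polynomial.X : Polynomial ℕ) ^ i) ^ s).coeff k

/-- The window polynomial of `l` at position `m` and scale `N`. -/
noncomputable def win (s : ℕ) (l : ℕ → ℂ) (N m : ℕ) (x : TT) : ℂ :=
  ∑ k ∈ range (s * (N - 1) + 1), (bc s N k : ℂ) * l (m + k) * ee k x

/-- The testing condition (V) with constant `C` (normalised measure on the circle). -/
def VC (p : ℝ) (s : ℕ) (l : ℕ → ℂ) (C : ℝ) : Prop :=
  ∀ N : ℕ, 1 ≤ N → ∀ (S : Finset ℕ) (d : ℕ → ℝ), (∀ m ∈ S, 0 ≤ d m) → ∑ m ∈ S, d m = 1 →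
    ∫ x : TT, (∑ m ∈ S, d m * ‖win s l N m x‖ ^ 2) ^ (p / 2) ≤ C * (N : ℝ) ^ (s * p - 1)

/-- The node `l / 2 ^ i`. -/
noncomputable def om (i l : ℕ) : TT := (((l : ℝ) / 2 ^ i : ℝ) : TT)

/-- The analysing function attached to the dyadic arc `[l / 2 ^ i, (l + 1) / 2 ^ i)`. -/
noncomputable def psi (b : ℝ → ℝ) (i l : ℕ) (x : TT) : ℂ :=
  (((Real.sqrt (2 ^ i))⁻¹ : ℝ) : ℂ) *
    ∑ n ∈ range (2 ^ i), (b ((n : ℝ) / 2 ^ i) : ℂ) * ee n (x - om i l)

/-! ### characters -/

theorem ee_zero (x : TT) : ee 0 x = 1 := by simp [ee]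

theorem ee_add (m n : ℤ) (x : TT) : ee (m + n) x = ee m x * ee n x := by
  simp [ee]

theorem ee_neg (n : ℤ) (x : TT) : ee (-n) x = (starRingEnd ℂ) (ee n x) := by
  simp [ee]

theorem ee_add_right (n : ℤ) (x y : TT) : ee n (x + y) = ee n x * ee n y := by
  simp [ee, fourier_apply, smul_add, AddCircle.toCircle_add]

theorem ee_zero_right (n : ℤ) : ee n (0 : TT) = 1 := by
  simp [ee]

theorem norm_ee (n : ℤ) (x : TT) : ‖ee n x‖ = 1 := by
  simp [ee, fourier_apply]

theorem ee_ne_zero (n : ℤ) (x : TT) : ee n x ≠ 0 := by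
  intro h; have := norm_ee n x; rw [h] at this; simp at this

theorem ee_mul_ee_neg (n : ℤ) (x : TT) : ee n x * ee (-n) x = 1 := by
  rw [← ee_add]; simp [ee_zero]

theorem ee_neg_right (n : ℤ) (x : TT) : ee n (-x) = ee (-n) x := by
  have h1 : ee n x * ee n (-x) = 1 := by rw [← ee_add_right]; simp [ee_zero_right]
  have h2 := ee_mul_ee_neg n x
  exact mul_left_cancel₀ (ee_ne_zero n x) (h1.trans h2.symm)

theorem ee_sub_right (n : ℤ) (x y : TT) : ee n (x - y) = ee n x * ee (-n) y := by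
  rw [sub_eq_add_neg, ee_add_right, ee_neg_right]

theorem ee_nat_pow (n : ℕ) (x : TT) : ee n x = (ee 1 x) ^ n := by
  induction n with
  | zero => simp [ee_zero]
  | succ n ih => rw [pow_succ, ← ih, ← ee_add]; push_cast; rfl

theorem ee_coe (n : ℤ) (x : ℝ) : ee n (x : TT) = Complex.exp (2 * Real.pi * Complex.I * n * x) := by
  simp [ee]

@[fun_prop]
theorem continuous_ee (n : ℤ) : Continuous (ee n) := (fourier n).continuous

@[fun_prop]
theorem continuous_tp (D : ℕ) (a : ℕ → ℂ) : Continuous (tp D a) := by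
  unfold tp; fun_prop

@[fun_prop]
theorem continuous_win (s : ℕ) (l : ℕ → ℂ) (N m : ℕ) : Continuous (win s l N m) := by
  unfold win; fun_prop

@[fun_prop]
theorem continuous_psi (b : ℝ → ℝ) (i l : ℕ) : Continuous (psi b i l) := by
  unfold psi; fun_prop

/-! ### integration -/

theorem integ {E : Type*} [NormedAddCommGroup E] {f : TT → E} (hf : Continuous f) :
    Integrable f := hf.integrable_of_hasCompactSupport (HasCompactSupport.of_compactSpace f)

theorem integral_ee (n : ℤ) : ∫ x : TT, ee n x = if n = 0 then 1 else 0 := by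
  have h := AddCircle.intervalIntegral_preimage (1 : ℝ) 0 (fun x : TT => ee n x)
  rw [← h]
  by_cases hn : n = 0
  · subst hn; simp [ee_zero]
  · simp only [hn, if_false]
    have h1 : ∀ x : ℝ, ee n (x : TT) = Complex.exp ((2 * Real.pi * Complex.I * n) * x) :=
      fun x => ee_coe n x
    simp_rw [h1]
    have h0 : (2 * Real.pi * Complex.I * n : ℂ) ≠ 0 := by
      simp [Real.pi_ne_zero, hn]
    rw [integral_exp_mul_complex h0]
    have : Complex.exp (2 * Real.pi * Complex.I * n * ((0 + 1 : ℝ) : ℂ)) = 1 := by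
      have := Complex.exp_int_mul_two_pi_mul_I n
      rw [← this]; congr 1; push_cast; ring
    rw [this]; simp

theorem integral_circle_eq (g : TT → ℝ) :
    ∫ θ in (0 : ℝ)..(2 * Real.pi), g ((θ / (2 * Real.pi) : ℝ) : TT) = 2 * Real.pi * ∫ x : TT, g x := by
  have h := AddCircle.intervalIntegral_preimage (1 : ℝ) 0 g
  rw [← h]
  have hpi : (2 * Real.pi) ≠ 0 := by positivity
  rw [intervalIntegral.integral_comp_div (fun y : ℝ => g (y : TT)) hpi]
  simp [hpi]

theorem ee_theta (n : ℤ) (θ : ℝ) :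
    ee n ((θ / (2 * Real.pi) : ℝ) : TT) = Complex.exp (n * θ * Complex.I) := by
  rw [ee_coe]; congr 1; push_cast
  have : (Real.pi : ℂ) ≠ 0 := by simp [Real.pi_ne_zero]
  field_simp

/-- Parseval for finite sums of characters. -/
theorem parseval (S : Finset ℤ) (c : ℤ → ℂ) :
    ∫ x : TT, ‖∑ n ∈ S, c n * ee n x‖ ^ 2 = ∑ n ∈ S, ‖c n‖ ^ 2 := by
  have key : ∀ x : TT, ((‖∑ n ∈ S, c n * ee n x‖ ^ 2 : ℝ) : ℂ)
      = ∑ m ∈ S, ∑ n ∈ S, (c m * (starRingEnd ℂ) (c n)) * ee (m - n) x := by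
    intro x
    have h1 : ((‖∑ n ∈ S, c n * ee n x‖ ^ 2 : ℝ) : ℂ)
        = (∑ n ∈ S, c n * ee n x) * (starRingEnd ℂ) (∑ n ∈ S, c n * ee n x) := by
      rw [Complex.mul_conj, Complex.normSq_eq_norm_sq]
    rw [h1, map_sum, Finset.sum_mul_sum]
    refine Finset.sum_congr rfl fun m _ => Finset.sum_congr rfl fun n _ => ?_
    rw [map_mul, ← ee_neg, sub_eq_add_neg, ee_add]; ring
  have h2 : ∫ x : TT, ((‖∑ n ∈ S, c n * ee n x‖ ^ 2 : ℝ) : ℂ) = ∑ n ∈ S, ((‖c n‖ ^ 2 : ℝ) : ℂ) := by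
    simp_rw [key]
    rw [integral_finsetSum _ (fun m _ => integ (by fun_prop))]
    refine Finset.sum_congr rfl fun m hm => ?_
    rw [integral_finsetSum _ (fun n _ => integ (by fun_prop))]
    have h3 : ∀ n ∈ S, ∫ x : TT, (c m * (starRingEnd ℂ) (c n)) * ee (m - n) x
        = if n = m then ((‖c m‖ ^ 2 : ℝ) : ℂ) else 0 := by
      intro n _
      rw [integral_const_mul, integral_ee]
      by_cases hnm : n = m
      · subst hnm
        simp [Complex.mul_conj, Complex.normSq_eq_norm_sq]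
      · have : m - n ≠ 0 := fun h => hnm (by omega)
        simp [hnm, this]
    rw [Finset.sum_congr rfl h3, Finset.sum_ite_eq' S m]
    simp [hm]
  have h4 : ((∫ x : TT, ‖∑ n ∈ S, c n * ee n x‖ ^ 2 : ℝ) : ℂ)
      = ((∑ n ∈ S, ‖c n‖ ^ 2 : ℝ) : ℂ) := by
    rw [← integral_complex_ofReal, h2]; push_cast; rfl
  exact_mod_cast h4

theorem parseval_nat (S : Finset ℕ) (c : ℕ → ℂ) :
    ∫ x : TT, ‖∑ n ∈ S, c n * ee n x‖ ^ 2 = ∑ n ∈ S, ‖c n‖ ^ 2 := by
  have h := parseval (S.map Nat.castEmbedding) (fun n => c n.toNat)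
  simp only [Finset.sum_map, Nat.castEmbedding_apply, Int.toNat_natCast] at h
  exact h

/-! ### the distance to the origin -/

theorem exists_rep (x : TT) : ∃ y : ℝ, (y : TT) = x ∧ |y| ≤ 1 / 2 ∧ ‖x‖ = |y| := by
  obtain ⟨y, rfl⟩ := QuotientAddGroup.mk_surjective x
  refine ⟨y - round y, ?_, ?_, ?_⟩
  · change ((y - round y : ℝ) : TT) = (y : TT)
    have h : ((round y : ℝ) : TT) = 0 := by
      have h2 := AddCircle.coe_eq_zero_iff (p := (1 : ℝ)) (x := (round y : ℝ))
      rw [h2]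
      exact ⟨round y, by simp⟩
    rw [AddCircle.coe_sub, h, sub_zero]
  · exact abs_sub_round y
  · exact UnitAddCircle.norm_eq

theorem norm_one_sub_ee (y : ℝ) : ‖1 - ee 1 (y : TT)‖ = 2 * |Real.sin (Real.pi * y)| := by
  rw [ee_coe]
  have h : (2 * Real.pi * Complex.I * (1 : ℤ) * (y : ℂ)) = ((2 * (Real.pi * y) : ℝ) : ℂ) * Complex.I := by
    push_cast; ring
  rw [h]
  have h2 : ‖1 - Complex.exp (((2 * (Real.pi * y) : ℝ) : ℂ) * Complex.I)‖ ^ 2
      = (2 * |Real.sin (Real.pi * y)|) ^ 2 := by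
    rw [← Complex.normSq_eq_norm_sq, Complex.exp_mul_I, ← Complex.ofReal_cos, ← Complex.ofReal_sin,
      Complex.normSq_apply]
    simp only [Complex.sub_re, Complex.one_re, Complex.add_re, Complex.ofReal_re, Complex.mul_re,
      Complex.ofReal_im, Complex.I_re, Complex.I_im, Complex.sub_im, Complex.one_im,
      Complex.add_im, Complex.mul_im]
    have h3 := Real.sin_sq_add_cos_sq (2 * (Real.pi * y))
    have h4 := Real.cos_two_mul (Real.pi * y)
    have h5 := Real.sin_sq_add_cos_sq (Real.pi * y)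
    rw [mul_pow, sq_abs]
    nlinarith
  exact (sq_eq_sq₀ (norm_nonneg _) (by positivity)).mp h2

theorem le_norm_one_sub_ee (x : TT) : 4 * ‖x‖ ≤ ‖1 - ee 1 x‖ := by
  obtain ⟨y, rfl, hy, hn⟩ := exists_rep x
  rw [norm_one_sub_ee, hn]
  have h1 : Real.sin (Real.pi * |y|) = |Real.sin (Real.pi * y)| := by
    have hb : 0 ≤ Real.sin (Real.pi * |y|) := by
      apply Real.sin_nonneg_of_nonneg_of_le_pi
      · positivity
      · have := Real.pi_pos; nlinarith [abs_nonneg y]
    rcases abs_choice y with h | h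
    · rw [h] at hb ⊢; exact (abs_of_nonneg hb).symm
    · rw [h] at hb ⊢
      rw [mul_neg, Real.sin_neg] at hb ⊢
      rw [← abs_neg]; exact (abs_of_nonneg hb).symm
  rw [← h1]
  have h2 := Real.mul_le_sin (x := Real.pi * |y|) (by positivity)
    (by have := Real.pi_pos; nlinarith [abs_nonneg y])
  have h3 : 2 / Real.pi * (Real.pi * |y|) = 2 * |y| := by
    have := Real.pi_pos.ne'
    field_simp
  linarith

theorem norm_one_sub_ee_le (x : TT) : ‖1 - ee 1 x‖ ≤ 2 * Real.pi * ‖x‖ := by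
  obtain ⟨y, rfl, hy, hn⟩ := exists_rep x
  rw [norm_one_sub_ee, hn]
  have := Real.abs_sin_le_abs (x := Real.pi * y)
  rw [abs_mul, abs_of_pos Real.pi_pos] at this
  linarith

theorem norm_le_half (x : TT) : ‖x‖ ≤ 1 / 2 := by
  obtain ⟨y, rfl, hy, hn⟩ := exists_rep x
  rw [hn]; exact hy

/-- Sum over the `J`-th roots of unity. -/
theorem sum_roots (J : ℕ) (hJ : 0 < J) (k : ℤ) :
    ∑ j ∈ range J, ee k (((j : ℝ) / J : ℝ) : TT) = if (J : ℤ) ∣ k then (J : ℂ) else 0 := by
  have hJ0 : (J : ℂ) ≠ 0 := by exact_mod_cast hJ.ne'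
  have h1 : ∀ j : ℕ, ee k (((j : ℝ) / J : ℝ) : TT)
      = (Complex.exp (2 * Real.pi * Complex.I * k / J)) ^ j := by
    intro j
    rw [ee_coe, ← Complex.exp_nat_mul]; congr 1; push_cast; field_simp
  simp_rw [h1]
  have hw : (Complex.exp (2 * Real.pi * Complex.I * k / J)) ^ J = 1 := by
    rw [← Complex.exp_nat_mul]
    have := Complex.exp_int_mul_two_pi_mul_I k
    rw [← this]; congr 1; field_simp
  by_cases hd : (J : ℤ) ∣ k
  · simp only [hd, if_true]
    obtain ⟨m, rfl⟩ := hd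
    have : Complex.exp (2 * Real.pi * Complex.I * ((J : ℤ) * m : ℤ) / J) = 1 := by
      have := Complex.exp_int_mul_two_pi_mul_I m
      rw [← this]; congr 1; push_cast; field_simp
    rw [this]; simp
  · simp only [hd, if_false]
    have hne : Complex.exp (2 * Real.pi * Complex.I * k / J) ≠ 1 := by
      intro h
      rw [Complex.exp_eq_one_iff] at h
      obtain ⟨n, hn⟩ := h
      apply hd
      refine ⟨n, ?_⟩
      have hpi : (2 * Real.pi * Complex.I : ℂ) ≠ 0 := by simp [Real.pi_ne_zero]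
      have h2 : (k : ℂ) / J = n := by
        apply mul_left_cancel₀ hpi
        rw [← mul_div_assoc, hn]; ring
      rw [div_eq_iff hJ0] at h2
      have h3 : (k : ℂ) = ((n * J : ℤ) : ℂ) := by rw [h2]; push_cast; ring
      have h4 : k = n * J := by exact_mod_cast h3
      rw [h4]; ring
    rw [geom_sum_eq hne, hw]; simp

/-- Decay integral. -/
theorem int_decay (q : ℝ) (hq : 1 < q) (M : ℝ) (hM : 0 < M) :
    ∫ x : TT, (1 + M * ‖x‖) ^ (-q) ≤ (2 / (q - 1)) / M := by
  have h := AddCircle.intervalIntegral_preimage (1 : ℝ) (-(1/2)) (fun x : TT => (1 + M * ‖x‖) ^ (-q))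
  rw [← h]
  have e1 : (-(1/2) + 1 : ℝ) = 1/2 := by norm_num
  rw [e1]
  have hcont : Continuous fun x : ℝ => (1 + M * |x|) ^ (-q) := by
    apply Continuous.rpow_const (by fun_prop)
    intro x; left; positivity
  have h2 : ∫ x in (-(1/2):ℝ)..(1/2), (1 + M * ‖(x : TT)‖) ^ (-q)
      = ∫ x in (-(1/2):ℝ)..(1/2), (1 + M * |x|) ^ (-q) := by
    apply intervalIntegral.integral_congr
    intro x hx
    rw [Set.uIcc_of_le (by norm_num)] at hx
    have : ‖(x : TT)‖ = |x| := by
      rw [AddCircle.norm_coe_eq_abs_iff _ (by norm_num)]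
      rw [abs_le]; norm_num; constructor <;> linarith [hx.1, hx.2]
    simp only [this]
  rw [h2, ← intervalIntegral.integral_add_adjacent_intervals (b := 0)
    (hcont.intervalIntegrable _ _) (hcont.intervalIntegrable _ _)]
  have h3 : ∫ x in (-(1/2):ℝ)..0, (1 + M * |x|) ^ (-q) = ∫ x in (0:ℝ)..(1/2), (1 + M * |x|) ^ (-q) := by
    have := intervalIntegral.integral_comp_neg (a := (-(1/2) : ℝ)) (b := 0) (fun x : ℝ => (1 + M * |x|) ^ (-q))
    simp only [abs_neg, neg_neg, neg_zero] at this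
    exact this
  rw [h3]
  have h4 : ∫ x in (0:ℝ)..(1/2), (1 + M * |x|) ^ (-q) ≤ (1 / (q - 1)) / M := by
    have h5 : ∫ x in (0:ℝ)..(1/2), (1 + M * |x|) ^ (-q) = ∫ x in (0:ℝ)..(1/2), (1 + M * x) ^ (-q) := by
      apply intervalIntegral.integral_congr
      intro x hx
      rw [Set.uIcc_of_le (by norm_num)] at hx
      simp only [abs_of_nonneg hx.1]
    rw [h5]
    have h6 : ∫ x in (0:ℝ)..(1/2), (1 + M * x) ^ (-q)
        = M⁻¹ • ∫ y in (1 + M * 0)..(1 + M * (1/2)), y ^ (-q) := by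
      exact intervalIntegral.integral_comp_add_mul (fun y : ℝ => y ^ (-q)) hM.ne' 1
    rw [h6, integral_rpow (Or.inr ⟨by linarith, by
      rw [Set.uIcc_of_le (by nlinarith)]
      intro h0; have := h0.1; linarith⟩)]
    simp only [mul_zero, add_zero, Real.one_rpow, smul_eq_mul]
    have h7 : 0 ≤ (1 + M * (1/2)) ^ (-q + 1) := by positivity
    have h8 : ((1 + M * (1 / 2)) ^ (-q + 1) - 1) / (-q + 1) ≤ 1 / (q - 1) := by
      have : ((1 + M * (1 / 2)) ^ (-q + 1) - 1) / (-q + 1)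
          = (1 - (1 + M * (1 / 2)) ^ (-q + 1)) / (q - 1) := by
        rw [← neg_div_neg_eq]; congr 1 <;> ring
      rw [this]
      apply div_le_div_of_nonneg_right _ (by linarith)
      linarith
    calc M⁻¹ * (((1 + M * (1 / 2)) ^ (-q + 1) - 1) / (-q + 1)) ≤ M⁻¹ * (1 / (q - 1)) := by gcongr
      _ = 1 / (q - 1) / M := by ring
  calc _ ≤ (1 / (q - 1)) / M + (1 / (q - 1)) / M := add_le_add h4 h4
    _ = _ := by ring

/-- Circle averages as integrals over `TT`. -/
theorem circleAverage_eq (g : ℂ → ℝ) : Real.circleAverage g 0 1 = ∫ x : TT, g (ee 1 x) := by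
  have h := integral_circle_eq (fun x => g (ee 1 x))
  rw [Real.circleAverage_def]
  have h2 : ∀ θ : ℝ, g (circleMap 0 1 θ) = g (ee 1 ((θ / (2 * Real.pi) : ℝ) : TT)) := by
    intro θ; rw [ee_theta]; simp [circleMap]
  simp_rw [h2, h]
  have : (2 * Real.pi) ≠ 0 := by positivity
  rw [smul_eq_mul]; field_simp

end MP63
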