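import Pool.Agent.Work.MP_63674d_an.Cut

/-! Localised Bessel inequality for the analysing functions `psi`. -/

open MeasureTheory Finset

namespace MP63

theorem bs_card (s I n : ℕ) :
    #({i ∈ range (I + 1) | 2 ^ i < 16 * n ∧ n ≤ 2 ^ i + s}) ≤ s + 4 := by
  set T := {i ∈ range (I + 1) | 2 ^ i < 16 * n ∧ n ≤ 2 ^ i + s} with hT
  rcases T.eq_empty_or_nonempty with h | h
  · rw [h]; simp
  · have hmin := T.min'_mem h
    set i' := T.min' h with hi'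
    have h1 : T ⊆ Finset.Ico i' (i' + (s + 4)) := by
      intro i hi
      have hle : i' ≤ i := T.min'_le i hi
      rw [hT, mem_filter] at hi hmin
      rw [Finset.mem_Ico]
      refine ⟨hle, ?_⟩
      have h2 : s < 2 ^ s := Nat.lt_two_pow_self
      have h3 : 2 ^ i < 2 ^ (i' + (s + 4)) := by
        have e : 2 ^ (i' + (s + 4)) = 16 * (2 ^ i' * 2 ^ s) := by rw [pow_add, pow_add]; ring
        rw [e]
        have h4 : 2 ^ i' + s ≤ 2 ^ i' * 2 ^ s := by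
          have h5 : 1 ≤ 2 ^ i' := Nat.one_le_two_pow
          nlinarith
        calc 2 ^ i < 16 * n := hi.2.1
          _ ≤ 16 * (2 ^ i' * 2 ^ s) := by
            have := hmin.2.2
            omega
      exact (Nat.pow_lt_pow_iff_right (by norm_num)).mp h3
    calc #T ≤ #(Finset.Ico i' (i' + (s + 4))) := card_le_card h1
      _ = s + 4 := by simp

theorem ee_om_period (i l n : ℕ) :
    ee (-(((n + 2 ^ i : ℕ)) : ℤ)) (om i l) = ee (-(n : ℤ)) (om i l) := by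
  have h : (-(((n + 2 ^ i : ℕ)) : ℤ)) = -(n : ℤ) + (-((2 ^ i : ℕ) : ℤ)) := by push_cast; ring
  rw [h, ee_add]
  have h2 : ee (-((2 ^ i : ℕ) : ℤ)) (om i l) = 1 := by
    unfold om
    rw [ee_coe]
    have := Complex.exp_int_mul_two_pi_mul_I (-(l : ℤ))
    rw [← this]; congr 1; push_cast; field_simp
  rw [h2, mul_one]

theorem bs_period_sum (f : ℕ → ℝ) (J : ℕ) (hf : ∀ n, f (n + J) = f n) (k : ℕ) :
    ∑ n ∈ range (k * J), f n = k * ∑ n ∈ range J, f n := by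
  have h0 : ∀ k n, f (k * J + n) = f n := by
    intro k
    induction k with
    | zero => intro n; simp
    | succ k ih => intro n; rw [show (k + 1) * J + n = (k * J + n) + J by ring, hf, ih]
  induction k with
  | zero => simp
  | succ k ih =>
    rw [add_mul, one_mul, Finset.sum_range_add, ih]
    simp_rw [h0]; push_cast; ring

theorem bs_one_period (i : ℕ) (c : ℕ → ℂ) :
    ∑ n ∈ range (2 ^ i), ‖∑ l ∈ range (2 ^ i), c l * ee (-(n : ℤ)) (om i l)‖ ^ 2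
      = 2 ^ i * ∑ l ∈ range (2 ^ i), ‖c l‖ ^ 2 := by
  have key : ∀ n : ℕ, ((‖∑ l ∈ range (2 ^ i), c l * ee (-(n : ℤ)) (om i l)‖ ^ 2 : ℝ) : ℂ)
      = ∑ m ∈ range (2 ^ i), ∑ l ∈ range (2 ^ i), (c m * (starRingEnd ℂ) (c l)) *
          ee ((l : ℤ) - m) (((n : ℝ) / (2 ^ i : ℕ) : ℝ) : TT) := by
    intro n
    have h1 : ((‖∑ l ∈ range (2 ^ i), c l * ee (-(n : ℤ)) (om i l)‖ ^ 2 : ℝ) : ℂ)
        = (∑ l ∈ range (2 ^ i), c l * ee (-(n : ℤ)) (om i l)) *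
          (starRingEnd ℂ) (∑ l ∈ range (2 ^ i), c l * ee (-(n : ℤ)) (om i l)) := by
      rw [Complex.mul_conj, Complex.normSq_eq_norm_sq]
    rw [h1, map_sum, Finset.sum_mul_sum]
    refine Finset.sum_congr rfl fun m _ => Finset.sum_congr rfl fun l _ => ?_
    rw [map_mul, ← ee_neg, neg_neg]
    have h2 : ee (n : ℤ) (om i l) * ee (-(n : ℤ)) (om i m)
        = ee ((l : ℤ) - m) (((n : ℝ) / (2 ^ i : ℕ) : ℝ) : TT) := by
      unfold om
      rw [ee_coe, ee_coe, ee_coe, ← Complex.exp_add]; congr 1; push_cast; ring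
    rw [← h2]; ring
  have h2 : ((∑ n ∈ range (2 ^ i), ‖∑ l ∈ range (2 ^ i), c l * ee (-(n : ℤ)) (om i l)‖ ^ 2 : ℝ) : ℂ)
      = ((2 ^ i * ∑ l ∈ range (2 ^ i), ‖c l‖ ^ 2 : ℝ) : ℂ) := by
    rw [Complex.ofReal_sum]
    simp_rw [key]
    rw [Finset.sum_comm]
    have h3 : ∀ m ∈ range (2 ^ i), ∑ n ∈ range (2 ^ i), ∑ l ∈ range (2 ^ i),
        (c m * (starRingEnd ℂ) (c l)) * ee ((l : ℤ) - m) (((n : ℝ) / (2 ^ i : ℕ) : ℝ) : TT)
        = 2 ^ i * ((‖c m‖ ^ 2 : ℝ) : ℂ) := by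
      intro m hm
      rw [Finset.sum_comm]
      have h4 : ∀ l ∈ range (2 ^ i), ∑ n ∈ range (2 ^ i),
          (c m * (starRingEnd ℂ) (c l)) * ee ((l : ℤ) - m) (((n : ℝ) / (2 ^ i : ℕ) : ℝ) : TT)
          = if l = m then 2 ^ i * ((‖c m‖ ^ 2 : ℝ) : ℂ) else 0 := by
        intro l hl
        rw [← Finset.mul_sum, sum_roots (2 ^ i) (by positivity)]
        by_cases hlm : l = m
        · subst hlm
          simp [Complex.mul_conj, Complex.normSq_eq_norm_sq]; ring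
        · have : ¬ (((2 ^ i : ℕ) : ℤ) ∣ (l : ℤ) - m) := by
            intro hd
            apply hlm
            rw [mem_range] at hl hm
            have h5 := Int.emod_emod_of_dvd
            have h6 : (l : ℤ) - m = 0 := by
              apply Int.eq_zero_of_abs_lt_dvd hd
              rw [abs_lt]; constructor <;> omega
            omega
          rw [if_neg this, if_neg hlm, mul_zero]
      rw [Finset.sum_congr rfl h4, Finset.sum_ite_eq' (range (2 ^ i)) m]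
      simp [hm]
    rw [Finset.sum_congr rfl h3, ← Finset.mul_sum]
    push_cast; rfl
  exact_mod_cast h2

theorem bs_period (i s : ℕ) (c : ℕ → ℂ) :
    ∑ n ∈ range (2 ^ i + s + 1), ‖∑ l ∈ range (2 ^ i), c l * ee (-(n : ℤ)) (om i l)‖ ^ 2
      ≤ (s + 2) * (2 ^ i * ∑ l ∈ range (2 ^ i), ‖c l‖ ^ 2) := by
  rw [← bs_one_period]
  have h := bs_period_sum (fun n : ℕ => ‖∑ l ∈ range (2 ^ i), c l * ee (-(n : ℤ)) (om i l)‖ ^ 2)
    (2 ^ i) (by intro n; simp_rw [ee_om_period]) (s + 2)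
  have e : ((s + 2 : ℕ) : ℝ) = s + 2 := by push_cast; ring
  rw [e] at h
  rw [← h]
  apply Finset.sum_le_sum_of_subset_of_nonneg
  · apply Finset.range_subset_range.mpr
    have : 1 ≤ 2 ^ i := Nat.one_le_two_pow
    nlinarith
  · intros; positivity

theorem bessel_core (s I : ℕ) (ga : ℕ → ℕ → ℂ) (B : ℝ) (hB : ∀ i n, ‖ga i n‖ ≤ B)
    (hs : ∀ i n, ga i n ≠ 0 → 2 ^ i < 16 * n ∧ n ≤ 2 ^ i + s) (c : ℕ → ℕ → ℂ) :
    ∫ x : TT, ‖∑ i ∈ range (I + 1), ∑ l ∈ range (2 ^ i), c i l *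
        ((((Real.sqrt (2 ^ i))⁻¹ : ℝ) : ℂ) *
          ∑ n ∈ range (2 ^ i + s + 1), ga i n * ee n (x - om i l))‖ ^ 2
      ≤ (s + 4) * (s + 2) * B ^ 2 * ∑ i ∈ range (I + 1), ∑ l ∈ range (2 ^ i), ‖c i l‖ ^ 2 := by
  set D := 2 ^ I + s + 1 with hD
  set ch : ℕ → ℕ → ℂ := fun i n => ∑ l ∈ range (2 ^ i), c i l * ee (-(n : ℤ)) (om i l) with hch
  have hB0 : 0 ≤ B := (norm_nonneg _).trans (hB 0 0)
  have h1 : ∀ x : TT, ∑ i ∈ range (I + 1), ∑ l ∈ range (2 ^ i), c i l *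
        ((((Real.sqrt (2 ^ i))⁻¹ : ℝ) : ℂ) *
          ∑ n ∈ range (2 ^ i + s + 1), ga i n * ee n (x - om i l))
      = ∑ n ∈ range D, (∑ i ∈ range (I + 1), ga i n * (((Real.sqrt (2 ^ i))⁻¹ : ℝ) : ℂ) * ch i n)
          * ee n x := by
    intro x
    have h2 : ∀ i ∈ range (I + 1), ∀ l ∈ range (2 ^ i),
        ∑ n ∈ range (2 ^ i + s + 1), ga i n * ee n (x - om i l)
        = ∑ n ∈ range D, ga i n * ee n (x - om i l) := by
      intro i hi l _
      apply Finset.sum_subset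
      · apply Finset.range_subset_range.mpr
        rw [mem_range] at hi
        have : 2 ^ i ≤ 2 ^ I := Nat.pow_le_pow_right (by norm_num) (by omega)
        omega
      · intro n _ hn
        have : ga i n = 0 := by
          by_contra h
          have := (hs i n h).2
          rw [mem_range] at hn; omega
        rw [this, zero_mul]
    have h3 : ∀ i ∈ range (I + 1), ∑ l ∈ range (2 ^ i), c i l *
        ((((Real.sqrt (2 ^ i))⁻¹ : ℝ) : ℂ) *
          ∑ n ∈ range (2 ^ i + s + 1), ga i n * ee n (x - om i l))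
        = ∑ n ∈ range D, ga i n * (((Real.sqrt (2 ^ i))⁻¹ : ℝ) : ℂ) * ch i n * ee n x := by
      intro i hi
      rw [Finset.sum_congr rfl (fun l hl => by rw [h2 i hi l hl])]
      simp_rw [hch, Finset.mul_sum, Finset.sum_mul]
      rw [Finset.sum_comm]
      refine Finset.sum_congr rfl fun n _ => Finset.sum_congr rfl fun l _ => ?_
      rw [ee_sub_right]; ring
    rw [Finset.sum_congr rfl h3, Finset.sum_comm]
    refine Finset.sum_congr rfl fun n _ => ?_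
    rw [Finset.sum_mul]
  simp_rw [h1]
  rw [parseval_nat]
  have h4 : ∀ n ∈ range D, ‖∑ i ∈ range (I + 1), ga i n * (((Real.sqrt (2 ^ i))⁻¹ : ℝ) : ℂ) * ch i n‖ ^ 2
      ≤ (s + 4) * ∑ i ∈ range (I + 1), if n < 2 ^ i + s + 1 then
          B ^ 2 * ((2 ^ i)⁻¹ * ‖ch i n‖ ^ 2) else 0 := by
    intro n _
    set u : ℕ → ℂ := fun i => ga i n * (((Real.sqrt (2 ^ i))⁻¹ : ℝ) : ℂ) * ch i n with hu
    set T := {i ∈ range (I + 1) | 2 ^ i < 16 * n ∧ n ≤ 2 ^ i + s} with hT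
    have h5 : ∑ i ∈ range (I + 1), u i = ∑ i ∈ T, u i := by
      symm
      apply Finset.sum_subset (filter_subset _ _)
      intro i hi hi2
      have : ga i n = 0 := by
        by_contra h
        apply hi2
        rw [mem_filter]
        exact ⟨hi, hs i n h⟩
      simp only [hu, this, zero_mul]
    have hun : ∀ i ∈ T, ‖u i‖ ^ 2 ≤ if n < 2 ^ i + s + 1 then
          B ^ 2 * ((2 ^ i)⁻¹ * ‖ch i n‖ ^ 2) else 0 := by
      intro i hi
      rw [hT, mem_filter] at hi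
      rw [if_pos (by omega)]
      simp only [hu]
      rw [norm_mul, norm_mul, mul_pow, mul_pow, mul_assoc]
      have e1 : ‖(((Real.sqrt (2 ^ i))⁻¹ : ℝ) : ℂ)‖ ^ 2 = (2 ^ i)⁻¹ := by
        rw [Complex.norm_real, Real.norm_eq_abs, sq_abs, inv_pow, Real.sq_sqrt (by positivity)]
      rw [e1]
      have := hB i n
      gcongr
    calc ‖∑ i ∈ range (I + 1), u i‖ ^ 2 = ‖∑ i ∈ T, u i‖ ^ 2 := by rw [h5]
      _ ≤ (∑ i ∈ T, ‖u i‖) ^ 2 := by gcongr; exact norm_sum_le _ _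
      _ ≤ #T * ∑ i ∈ T, ‖u i‖ ^ 2 := sq_sum_le_card_mul_sum_sq
      _ ≤ (s + 4) * ∑ i ∈ T, ‖u i‖ ^ 2 := by
        gcongr
        have := bs_card s I n
        exact_mod_cast this
      _ ≤ (s + 4) * ∑ i ∈ T, (if n < 2 ^ i + s + 1 then
          B ^ 2 * ((2 ^ i)⁻¹ * ‖ch i n‖ ^ 2) else 0) := by
        gcongr with i hi; exact hun i hi
      _ ≤ _ := by
        gcongr
        exact filter_subset _ _
  calc ∑ n ∈ range D, ‖∑ i ∈ range (I + 1), ga i n * (((Real.sqrt (2 ^ i))⁻¹ : ℝ) : ℂ) * ch i n‖ ^ 2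
      ≤ ∑ n ∈ range D, ((s : ℝ) + 4) * ∑ i ∈ range (I + 1), (if n < 2 ^ i + s + 1 then
          B ^ 2 * ((2 ^ i)⁻¹ * ‖ch i n‖ ^ 2) else 0) := Finset.sum_le_sum h4
    _ = ((s : ℝ) + 4) * ∑ i ∈ range (I + 1), ∑ n ∈ range D, (if n < 2 ^ i + s + 1 then
          B ^ 2 * ((2 ^ i)⁻¹ * ‖ch i n‖ ^ 2) else 0) := by
        rw [← Finset.mul_sum, Finset.sum_comm]
    _ ≤ ((s : ℝ) + 4) * ∑ i ∈ range (I + 1), (B ^ 2 * ((s + 2) * ∑ l ∈ range (2 ^ i), ‖c i l‖ ^ 2)) := by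
        gcongr with i hi
        have h6 : ∑ n ∈ range D, (if n < 2 ^ i + s + 1 then
          B ^ 2 * ((2 ^ i)⁻¹ * ‖ch i n‖ ^ 2) else 0)
            = B ^ 2 * ((2 ^ i)⁻¹ * ∑ n ∈ range (2 ^ i + s + 1), ‖ch i n‖ ^ 2) := by
          rw [← Finset.sum_filter]
          have : ({n ∈ range D | n < 2 ^ i + s + 1}) = range (2 ^ i + s + 1) := by
            ext n
            rw [mem_filter, mem_range, mem_range]
            rw [mem_range] at hi
            have : 2 ^ i ≤ 2 ^ I := Nat.pow_le_pow_right (by norm_num) (by omega)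
            omega
          rw [this, Finset.mul_sum, Finset.mul_sum]
        rw [h6]
        have h7 := bs_period i s (c i)
        have h8 : ((2 : ℝ) ^ i)⁻¹ * ∑ n ∈ range (2 ^ i + s + 1), ‖ch i n‖ ^ 2
            ≤ (2 ^ i)⁻¹ * ((s + 2) * (2 ^ i * ∑ l ∈ range (2 ^ i), ‖c i l‖ ^ 2)) := by
          gcongr
        have h9 : ((2 : ℝ) ^ i)⁻¹ * ((s + 2) * (2 ^ i * ∑ l ∈ range (2 ^ i), ‖c i l‖ ^ 2))
            = (s + 2) * ∑ l ∈ range (2 ^ i), ‖c i l‖ ^ 2 := by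
          field_simp
        rw [h9] at h8
        gcongr
    _ = _ := by
        rw [← Finset.mul_sum, ← Finset.mul_sum]; ring

/-! ### the shifted differences -/

theorem bs_shift (b : ℝ → ℝ) (hsupp : ∀ x, b x ≠ 0 → 1 / 16 < x ∧ x < 1) (i s m : ℕ) (hm : m ≤ s)
    (z : ℂ) :
    z ^ m * ∑ n ∈ range (2 ^ i), (b ((n : ℝ) / 2 ^ i) : ℂ) * z ^ n
      = ∑ n ∈ range (2 ^ i + s + 1), (b (((n : ℝ) - m) / 2 ^ i) : ℂ) * z ^ n := by
  have e : 2 ^ i + s + 1 = m + 2 ^ i + (s + 1 - m) := by omega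
  rw [e, Finset.sum_range_add, Finset.sum_range_add]
  have h1 : ∑ n ∈ range m, (b (((n : ℝ) - m) / 2 ^ i) : ℂ) * z ^ n = 0 := by
    apply Finset.sum_eq_zero
    intro n hn
    rw [mem_range] at hn
    have : b (((n : ℝ) - m) / 2 ^ i) = 0 := by
      by_contra h
      have h2 := (hsupp _ h).1
      have h3 : ((n : ℝ) - m) / 2 ^ i ≤ 0 := by
        apply div_nonpos_of_nonpos_of_nonneg
        · have : (n : ℝ) ≤ m := by exact_mod_cast hn.le
          linarith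
        · positivity
      linarith
    rw [this]; simp
  have h2 : ∑ x ∈ range (s + 1 - m),
      (b ((((m + 2 ^ i + x : ℕ) : ℝ) - m) / 2 ^ i) : ℂ) * z ^ (m + 2 ^ i + x) = 0 := by
    apply Finset.sum_eq_zero
    intro n hn
    have : b ((((m + 2 ^ i + n : ℕ) : ℝ) - m) / 2 ^ i) = 0 := by
      by_contra h
      have h2 := (hsupp _ h).2
      have h3 : 1 ≤ (((m + 2 ^ i + n : ℕ) : ℝ) - m) / 2 ^ i := by
        rw [le_div_iff₀ (by positivity)]
        push_cast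
        have : (0 : ℝ) ≤ n := by positivity
        linarith
      linarith
    rw [this]; simp
  rw [h1, h2, zero_add, add_zero, Finset.mul_sum]
  refine Finset.sum_congr rfl fun n _ => ?_
  have : ((m + n : ℕ) : ℝ) - m = n := by push_cast; ring
  rw [this, pow_add]; ring

/-- The coefficient of the shifted difference. -/
noncomputable def gam (b : ℝ → ℝ) (m k i n : ℕ) : ℝ :=
  ∑ j ∈ range (k + 1), (-1 : ℝ) ^ j * (k.choose j) * b (((n : ℝ) - m) / 2 ^ i - j * (2 ^ i)⁻¹)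

theorem bs_diff (b : ℝ → ℝ) (hsupp : ∀ x, b x ≠ 0 → 1 / 16 < x ∧ x < 1) (i s m k : ℕ)
    (hm : m + k = s) (z : ℂ) :
    z ^ m * (1 - z) ^ k * ∑ n ∈ range (2 ^ i), (b ((n : ℝ) / 2 ^ i) : ℂ) * z ^ n
      = ∑ n ∈ range (2 ^ i + s + 1), (gam b m k i n : ℂ) * z ^ n := by
  have h1 : (1 - z) ^ k = ∑ j ∈ range (k + 1), (-1 : ℂ) ^ j * (k.choose j) * z ^ j := by
    have := add_pow (-z) 1 k
    rw [show (1 - z) = -z + 1 by ring, this]
    refine Finset.sum_congr rfl fun j _ => ?_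
    rw [one_pow, neg_pow]; ring
  rw [h1, Finset.mul_sum (s := range (k + 1)), Finset.sum_mul (s := range (k + 1))]
  have h2 : ∀ j ∈ range (k + 1), z ^ m * ((-1 : ℂ) ^ j * (k.choose j) * z ^ j) *
      ∑ n ∈ range (2 ^ i), (b ((n : ℝ) / 2 ^ i) : ℂ) * z ^ n
      = ∑ n ∈ range (2 ^ i + s + 1), ((-1 : ℂ) ^ j * (k.choose j) *
        (b (((n : ℝ) - m) / 2 ^ i - j * (2 ^ i)⁻¹) : ℂ)) * z ^ n := by
    intro j hj
    rw [mem_range] at hj
    have h3 := bs_shift b hsupp i s (m + j) (by omega) z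
    calc z ^ m * ((-1 : ℂ) ^ j * (k.choose j) * z ^ j) *
          ∑ n ∈ range (2 ^ i), (b ((n : ℝ) / 2 ^ i) : ℂ) * z ^ n
        = ((-1 : ℂ) ^ j * (k.choose j)) * (z ^ (m + j) *
          ∑ n ∈ range (2 ^ i), (b ((n : ℝ) / 2 ^ i) : ℂ) * z ^ n) := by
          rw [pow_add]; ring
      _ = _ := by
        rw [h3, Finset.mul_sum]
        refine Finset.sum_congr rfl fun n _ => ?_
        have : ((n : ℝ) - (m + j : ℕ)) / 2 ^ i = ((n : ℝ) - m) / 2 ^ i - j * (2 ^ i)⁻¹ := by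
          push_cast; ring
        rw [this]; ring
  rw [Finset.sum_congr rfl h2, Finset.sum_comm]
  refine Finset.sum_congr rfl fun n _ => ?_
  rw [← Finset.sum_mul]
  congr 1
  unfold gam
  push_cast; rfl

theorem gam_supp (b : ℝ → ℝ) (hsupp : ∀ x, b x ≠ 0 → 1 / 16 < x ∧ x < 1) (i s m k n : ℕ)
    (hm : m + k = s) (h : gam b m k i n ≠ 0) : 2 ^ i < 16 * n ∧ n ≤ 2 ^ i + s := by
  unfold gam at h
  obtain ⟨j, hj, hj2⟩ := Finset.exists_ne_zero_of_sum_ne_zero h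
  rw [mem_range] at hj
  have h1 : b (((n : ℝ) - m) / 2 ^ i - j * (2 ^ i)⁻¹) ≠ 0 := right_ne_zero_of_mul hj2
  have h2 := hsupp _ h1
  have h3 : ((n : ℝ) - m) / 2 ^ i - j * (2 ^ i)⁻¹ = ((n : ℝ) - m - j) / 2 ^ i := by ring
  rw [h3] at h2
  have hp : (0 : ℝ) < 2 ^ i := by positivity
  rw [lt_div_iff₀ hp, div_lt_iff₀ hp] at h2
  constructor
  · have : (2 : ℝ) ^ i < 16 * n := by
      have hm0 : (0 : ℝ) ≤ m := by positivity
      have hj0 : (0 : ℝ) ≤ j := by positivity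
      linarith [h2.1]
    exact_mod_cast this
  · have h4 : (n : ℝ) < 2 ^ i + s := by
      have : (m : ℝ) + j ≤ s := by
        have : m + j ≤ s := by omega
        exact_mod_cast this
      linarith [h2.2]
    have : n < 2 ^ i + s := by exact_mod_cast h4
    omega

/-- One term of the binomial expansion. -/
theorem bs_term (b : ℝ → ℝ) (hb : ∀ n : ℕ, ContDiff ℝ n b)
    (hsupp : ∀ x, b x ≠ 0 → 1 / 16 < x ∧ x < 1) (m k : ℕ) :
    ∃ C : ℝ, 0 ≤ C ∧ ∀ (i0 I : ℕ) (x0 : TT) (c : ℕ → ℕ → ℂ),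
      (∀ i l, c i l ≠ 0 → i0 ≤ i ∧ ‖om i l - x0‖ ≤ ((2 : ℝ) ^ i0)⁻¹) →
      ∫ x : TT, ‖∑ i ∈ range (I + 1), ∑ l ∈ range (2 ^ i), c i l *
        (((2 : ℂ) ^ i0 * (1 - ee 1 (om i l - x0))) ^ m * (ee 1 (x - om i l) ^ m *
          ((2 : ℂ) ^ i0 * (1 - ee 1 (x - om i l))) ^ k * psi b i l x))‖ ^ 2
        ≤ C * ∑ i ∈ range (I + 1), ∑ l ∈ range (2 ^ i), ‖c i l‖ ^ 2 := by
  have hs0 : ∀ x, b x ≠ 0 → 0 < x ∧ x < 1 := fun x hx => ⟨by linarith [(hsupp x hx).1], (hsupp x hx).2⟩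
  obtain ⟨C1, hC1, hd⟩ := fin_diff b hb hs0 k
  refine ⟨((m + k : ℕ) + 4) * ((m + k : ℕ) + 2) * C1 ^ 2 * (2 * Real.pi) ^ (2 * m), by positivity, ?_⟩
  intro i0 I x0 c hc
  set ga : ℕ → ℕ → ℂ := fun i n => if i0 ≤ i then (((2 : ℝ) ^ i0) ^ k * gam b m k i n : ℝ) else 0
    with hga
  have hB : ∀ i n, ‖ga i n‖ ≤ C1 := by
    intro i n
    simp only [hga]
    split_ifs with hi
    · rw [Complex.norm_real, Real.norm_eq_abs, abs_mul, abs_of_nonneg (by positivity)]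
      have h1 := hd ((2 ^ i)⁻¹) (((n : ℝ) - m) / 2 ^ i) (by positivity)
      have h2 : |gam b m k i n| ≤ C1 * ((2 ^ i)⁻¹) ^ k := h1
      calc ((2 : ℝ) ^ i0) ^ k * |gam b m k i n| ≤ ((2 : ℝ) ^ i) ^ k * (C1 * ((2 ^ i)⁻¹) ^ k) := by
            gcongr
            norm_num
        _ = C1 * ((2 : ℝ) ^ i * (2 ^ i)⁻¹) ^ k := by rw [mul_pow]; ring
        _ = C1 := by rw [mul_inv_cancel₀ (by positivity), one_pow, mul_one]
    · simpa using hC1
  have hsup : ∀ i n, ga i n ≠ 0 → 2 ^ i < 16 * n ∧ n ≤ 2 ^ i + (m + k) := by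
    intro i n h
    simp only [hga] at h
    split_ifs at h with hi
    · apply gam_supp b hsupp i (m + k) m k n rfl
      intro h0; apply h; rw [h0]; simp
    · exact absurd rfl h
  set c' : ℕ → ℕ → ℂ := fun i l => c i l * ((2 : ℂ) ^ i0 * (1 - ee 1 (om i l - x0))) ^ m with hc'
  have h1 := bessel_core (m + k) I ga C1 hB hsup c'
  have h2 : ∀ x : TT, ∀ i ∈ range (I + 1), ∀ l ∈ range (2 ^ i), c i l *
        (((2 : ℂ) ^ i0 * (1 - ee 1 (om i l - x0))) ^ m * (ee 1 (x - om i l) ^ m *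
          ((2 : ℂ) ^ i0 * (1 - ee 1 (x - om i l))) ^ k * psi b i l x))
      = c' i l * ((((Real.sqrt (2 ^ i))⁻¹ : ℝ) : ℂ) *
          ∑ n ∈ range (2 ^ i + (m + k) + 1), ga i n * ee n (x - om i l)) := by
    intro x i _ l _
    by_cases h0 : c i l = 0
    · simp [hc', h0]
    · have hi := (hc i l h0).1
      have h3 := bs_diff b hsupp i (m + k) m k rfl (ee 1 (x - om i l))
      have h4 : ∑ n ∈ range (2 ^ i + (m + k) + 1), ga i n * ee n (x - om i l)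
          = ((2 : ℂ) ^ i0) ^ k * ∑ n ∈ range (2 ^ i + (m + k) + 1),
            (gam b m k i n : ℂ) * (ee 1 (x - om i l)) ^ n := by
        rw [Finset.mul_sum]
        refine Finset.sum_congr rfl fun n _ => ?_
        simp only [hga, if_pos hi]
        rw [ee_nat_pow]; push_cast; ring
      rw [h4, ← h3]
      unfold psi
      simp only [hc']
      simp_rw [ee_nat_pow _ (x - om i l)]
      rw [mul_pow ((2 : ℂ) ^ i0) (1 - ee 1 (x - om i l)) k]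
      ring
  have h3 : ∀ x : TT, ∑ i ∈ range (I + 1), ∑ l ∈ range (2 ^ i), c i l *
        (((2 : ℂ) ^ i0 * (1 - ee 1 (om i l - x0))) ^ m * (ee 1 (x - om i l) ^ m *
          ((2 : ℂ) ^ i0 * (1 - ee 1 (x - om i l))) ^ k * psi b i l x))
      = ∑ i ∈ range (I + 1), ∑ l ∈ range (2 ^ i), c' i l * ((((Real.sqrt (2 ^ i))⁻¹ : ℝ) : ℂ) *
          ∑ n ∈ range (2 ^ i + (m + k) + 1), ga i n * ee n (x - om i l)) := fun x =>
    Finset.sum_congr rfl fun i hi => Finset.sum_congr rfl fun l hl => h2 x i hi l hl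
  simp_rw [h3]
  refine h1.trans ?_
  have h5 : ∑ i ∈ range (I + 1), ∑ l ∈ range (2 ^ i), ‖c' i l‖ ^ 2
      ≤ (2 * Real.pi) ^ (2 * m) * ∑ i ∈ range (I + 1), ∑ l ∈ range (2 ^ i), ‖c i l‖ ^ 2 := by
    rw [Finset.mul_sum]
    apply Finset.sum_le_sum; intro i _
    rw [Finset.mul_sum]
    apply Finset.sum_le_sum; intro l _
    by_cases h0 : c i l = 0
    · simp [hc', h0]
    · have h6 := (hc i l h0).2
      have h7 : ‖(2 : ℂ) ^ i0 * (1 - ee 1 (om i l - x0))‖ ≤ 2 * Real.pi := by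
        rw [norm_mul, norm_pow, Complex.norm_ofNat]
        calc (2 : ℝ) ^ i0 * ‖1 - ee 1 (om i l - x0)‖
            ≤ 2 ^ i0 * (2 * Real.pi * ((2 : ℝ) ^ i0)⁻¹) := by
              gcongr
              refine (norm_one_sub_ee_le _).trans ?_
              have := Real.pi_pos
              gcongr
          _ = 2 * Real.pi := by field_simp
      simp only [hc']
      rw [norm_mul, norm_pow, mul_pow, ← pow_mul, mul_comm m 2, mul_comm]
      gcongr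
  calc _ ≤ ((((m + k : ℕ) : ℝ)) + 4) * (((m + k : ℕ) : ℝ) + 2) * C1 ^ 2 *
      ((2 * Real.pi) ^ (2 * m) * ∑ i ∈ range (I + 1), ∑ l ∈ range (2 ^ i), ‖c i l‖ ^ 2) := by
        gcongr
    _ = _ := by ring

/-- The weighted bound with the smooth weight. -/
theorem bs_weight (b : ℝ → ℝ) (hb : ∀ n : ℕ, ContDiff ℝ n b)
    (hsupp : ∀ x, b x ≠ 0 → 1 / 16 < x ∧ x < 1) (s : ℕ) :
    ∃ C : ℝ, 0 ≤ C ∧ ∀ (i0 I : ℕ) (x0 : TT) (c : ℕ → ℕ → ℂ),
      (∀ i l, c i l ≠ 0 → i0 ≤ i ∧ ‖om i l - x0‖ ≤ ((2 : ℝ) ^ i0)⁻¹) →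
      ∫ x : TT, ‖∑ i ∈ range (I + 1), ∑ l ∈ range (2 ^ i), c i l * psi b i l x‖ ^ 2
          * ‖(2 : ℂ) ^ i0 * (1 - ee 1 (x - x0))‖ ^ (2 * s)
        ≤ C * ∑ i ∈ range (I + 1), ∑ l ∈ range (2 ^ i), ‖c i l‖ ^ 2 := by
  choose C hC0 hC using fun m : ℕ => bs_term b hb hsupp m (s - m)
  refine ⟨(s + 1) * ∑ m ∈ range (s + 1), (s.choose m : ℝ) ^ 2 * C m, by
    have : 0 ≤ ∑ m ∈ range (s + 1), (s.choose m : ℝ) ^ 2 * C m :=
      Finset.sum_nonneg fun m _ => by have := hC0 m; positivity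
    positivity, ?_⟩
  intro i0 I x0 c hc
  set G : ℕ → TT → ℂ := fun m x => ∑ i ∈ range (I + 1), ∑ l ∈ range (2 ^ i), c i l *
        (((2 : ℂ) ^ i0 * (1 - ee 1 (om i l - x0))) ^ m * (ee 1 (x - om i l) ^ m *
          ((2 : ℂ) ^ i0 * (1 - ee 1 (x - om i l))) ^ (s - m) * psi b i l x)) with hG
  have hGc : ∀ m, Continuous (G m) := by
    intro m
    simp only [hG]
    fun_prop
  have h1 : ∀ x : TT, (∑ i ∈ range (I + 1), ∑ l ∈ range (2 ^ i), c i l * psi b i l x) *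
      ((2 : ℂ) ^ i0 * (1 - ee 1 (x - x0))) ^ s = ∑ m ∈ range (s + 1), (s.choose m : ℂ) * G m x := by
    intro x
    have h2 : ∀ i l, ((2 : ℂ) ^ i0 * (1 - ee 1 (x - x0))) ^ s
        = ∑ m ∈ range (s + 1), (s.choose m : ℂ) *
          (((2 : ℂ) ^ i0 * (1 - ee 1 (om i l - x0))) ^ m * (ee 1 (x - om i l) ^ m *
          ((2 : ℂ) ^ i0 * (1 - ee 1 (x - om i l))) ^ (s - m))) := by
      intro i l
      have h3 : (2 : ℂ) ^ i0 * (1 - ee 1 (x - x0))
          = ((2 : ℂ) ^ i0 * (1 - ee 1 (om i l - x0))) * ee 1 (x - om i l)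
            + (2 : ℂ) ^ i0 * (1 - ee 1 (x - om i l)) := by
        have h4 : ee 1 (x - x0) = ee 1 (x - om i l) * ee 1 (om i l - x0) := by
          rw [← ee_add_right]; congr 1; abel
        rw [h4]; ring
      rw [h3, add_pow]
      refine Finset.sum_congr rfl fun m _ => ?_
      rw [mul_pow]; ring
    simp only [hG]
    rw [Finset.sum_mul]
    simp_rw [Finset.mul_sum]
    rw [Finset.sum_comm (s := range (s + 1))]
    refine Finset.sum_congr rfl fun i _ => ?_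
    rw [Finset.sum_comm (s := range (s + 1)), Finset.sum_mul]
    refine Finset.sum_congr rfl fun l _ => ?_
    rw [h2 i l, Finset.mul_sum]
    refine Finset.sum_congr rfl fun m _ => ?_
    ring
  have h2 : ∀ x : TT, ‖∑ i ∈ range (I + 1), ∑ l ∈ range (2 ^ i), c i l * psi b i l x‖ ^ 2
          * ‖(2 : ℂ) ^ i0 * (1 - ee 1 (x - x0))‖ ^ (2 * s)
      ≤ (s + 1) * ∑ m ∈ range (s + 1), (s.choose m : ℝ) ^ 2 * ‖G m x‖ ^ 2 := by
    intro x
    have h3 : ‖∑ i ∈ range (I + 1), ∑ l ∈ range (2 ^ i), c i l * psi b i l x‖ ^ 2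
          * ‖(2 : ℂ) ^ i0 * (1 - ee 1 (x - x0))‖ ^ (2 * s)
        = ‖∑ m ∈ range (s + 1), (s.choose m : ℂ) * G m x‖ ^ 2 := by
      rw [← h1 x, norm_mul _ (((2 : ℂ) ^ i0 * (1 - ee 1 (x - x0))) ^ s), norm_pow _ s,
        mul_pow _ _ 2, ← pow_mul _ s 2, mul_comm s 2]
    rw [h3]
    calc ‖∑ m ∈ range (s + 1), (s.choose m : ℂ) * G m x‖ ^ 2
        ≤ (∑ m ∈ range (s + 1), ‖(s.choose m : ℂ) * G m x‖) ^ 2 := by
          gcongr; exact norm_sum_le _ _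
      _ ≤ #(range (s + 1)) * ∑ m ∈ range (s + 1), ‖(s.choose m : ℂ) * G m x‖ ^ 2 :=
          sq_sum_le_card_mul_sum_sq
      _ = _ := by
        rw [card_range]; push_cast
        congr 1
        refine Finset.sum_congr rfl fun m _ => ?_
        rw [norm_mul, mul_pow, Complex.norm_natCast]
  calc ∫ x : TT, ‖∑ i ∈ range (I + 1), ∑ l ∈ range (2 ^ i), c i l * psi b i l x‖ ^ 2
          * ‖(2 : ℂ) ^ i0 * (1 - ee 1 (x - x0))‖ ^ (2 * s)
      ≤ ∫ x : TT, (s + 1) * ∑ m ∈ range (s + 1), (s.choose m : ℝ) ^ 2 * ‖G m x‖ ^ 2 := by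
        apply integral_mono (integ (by fun_prop)) (integ (by fun_prop))
        intro x; exact h2 x
    _ = (s + 1) * ∑ m ∈ range (s + 1), (s.choose m : ℝ) ^ 2 * ∫ x : TT, ‖G m x‖ ^ 2 := by
        rw [integral_const_mul, integral_finsetSum _ (fun m _ => integ (by fun_prop))]
        simp_rw [integral_const_mul]
    _ ≤ (s + 1) * ∑ m ∈ range (s + 1), (s.choose m : ℝ) ^ 2 *
        (C m * ∑ i ∈ range (I + 1), ∑ l ∈ range (2 ^ i), ‖c i l‖ ^ 2) := by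
        gcongr with m _
        exact hC m i0 I x0 c hc
    _ = _ := by
        rw [mul_assoc, Finset.sum_mul]
        congr 1
        refine Finset.sum_congr rfl fun m _ => ?_
        ring

theorem loc_bessel (b : ℝ → ℝ) (hb : ∀ n : ℕ, ContDiff ℝ n b)
    (hsupp : ∀ x, b x ≠ 0 → 1 / 16 < x ∧ x < 1) (s : ℕ) :
    ∃ C : ℝ, 0 ≤ C ∧ ∀ (i0 I : ℕ) (x0 : TT) (c : ℕ → ℕ → ℂ),
      (∀ i l, c i l ≠ 0 → i0 ≤ i ∧ ‖om i l - x0‖ ≤ ((2 : ℝ) ^ i0)⁻¹) →
      ∫ x : TT, ‖∑ i ∈ range (I + 1), ∑ l ∈ range (2 ^ i), c i l * psi b i l x‖ ^ 2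
          * (1 + 2 ^ i0 * ‖x - x0‖) ^ (2 * s)
        ≤ C * ∑ i ∈ range (I + 1), ∑ l ∈ range (2 ^ i), ‖c i l‖ ^ 2 := by
  obtain ⟨C0, hC0, h0⟩ := bs_weight b hb hsupp 0
  obtain ⟨C1, hC1, h1⟩ := bs_weight b hb hsupp s
  refine ⟨4 ^ s * (C0 + C1), by positivity, ?_⟩
  intro i0 I x0 c hc
  have h2 := h0 i0 I x0 c hc
  have h3 := h1 i0 I x0 c hc
  simp only [mul_zero, pow_zero, mul_one] at h2
  set F : TT → ℂ := fun x => ∑ i ∈ range (I + 1), ∑ l ∈ range (2 ^ i), c i l * psi b i l x with hF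
  have hFc : Continuous F := by simp only [hF]; fun_prop
  have hw : ∀ x : TT, (1 + 2 ^ i0 * ‖x - x0‖) ^ (2 * s)
      ≤ 4 ^ s * (1 + ‖(2 : ℂ) ^ i0 * (1 - ee 1 (x - x0))‖ ^ (2 * s)) := by
    intro x
    set u := ‖(2 : ℂ) ^ i0 * (1 - ee 1 (x - x0))‖ with hu
    have hu0 : 0 ≤ u := norm_nonneg _
    have h4 : 1 + 2 ^ i0 * ‖x - x0‖ ≤ 1 + u := by
      rw [hu, norm_mul, norm_pow, Complex.norm_ofNat]
      have := le_norm_one_sub_ee (x - x0)
      have h5 : ‖x - x0‖ ≤ ‖1 - ee 1 (x - x0)‖ := by linarith [norm_nonneg (x - x0)]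
      gcongr
    calc (1 + 2 ^ i0 * ‖x - x0‖) ^ (2 * s) ≤ (1 + u) ^ (2 * s) := by gcongr
      _ ≤ 4 ^ s * (1 + u ^ (2 * s)) := by
        rcases le_total u 1 with h | h
        · calc (1 + u) ^ (2 * s) ≤ 2 ^ (2 * s) := by gcongr; linarith
            _ = 4 ^ s * 1 := by rw [pow_mul]; norm_num
            _ ≤ 4 ^ s * (1 + u ^ (2 * s)) := by gcongr; linarith [pow_nonneg hu0 (2 * s)]
        · calc (1 + u) ^ (2 * s) ≤ (2 * u) ^ (2 * s) := by gcongr; linarith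
            _ = 4 ^ s * u ^ (2 * s) := by rw [mul_pow, pow_mul]; norm_num
            _ ≤ 4 ^ s * (1 + u ^ (2 * s)) := by gcongr; linarith
  calc ∫ x : TT, ‖F x‖ ^ 2 * (1 + 2 ^ i0 * ‖x - x0‖) ^ (2 * s)
      ≤ ∫ x : TT, 4 ^ s * (‖F x‖ ^ 2 + ‖F x‖ ^ 2 *
        ‖(2 : ℂ) ^ i0 * (1 - ee 1 (x - x0))‖ ^ (2 * s)) := by
        apply integral_mono (integ (by fun_prop)) (integ (by fun_prop))
        intro x
        have := hw x
        calc ‖F x‖ ^ 2 * (1 + 2 ^ i0 * ‖x - x0‖) ^ (2 * s)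
            ≤ ‖F x‖ ^ 2 * (4 ^ s * (1 + ‖(2 : ℂ) ^ i0 * (1 - ee 1 (x - x0))‖ ^ (2 * s))) := by
              gcongr
          _ = _ := by ring
    _ = 4 ^ s * ((∫ x : TT, ‖F x‖ ^ 2) + ∫ x : TT, ‖F x‖ ^ 2 *
        ‖(2 : ℂ) ^ i0 * (1 - ee 1 (x - x0))‖ ^ (2 * s)) := by
        rw [integral_const_mul, integral_add (integ (by fun_prop)) (integ (by fun_prop))]
    _ ≤ 4 ^ s * (C0 * ∑ i ∈ range (I + 1), ∑ l ∈ range (2 ^ i), ‖c i l‖ ^ 2 +
        C1 * ∑ i ∈ range (I + 1), ∑ l ∈ range (2 ^ i), ‖c i l‖ ^ 2) := by gcongr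
    _ = _ := by ring

end MP63
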