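import Pool.Agent.Work.MP_63674d_an.Ker

/-! Rotated blocks, part A: scales, kernels, sizes of the pieces. -/

open MeasureTheory Finset

namespace MP63.Blk

/-- the block ends `2 ^ (j ^ 2)` -/
noncomputable def MM (j : ℕ) : ℝ := 2 ^ (j ^ 2)

/-- the radii `1 - 2 ^ (- j ^ 2)` -/
noncomputable def rr (j : ℕ) : ℝ := 1 - 1 / 2 ^ (j ^ 2)

theorem MM_pos (j : ℕ) : 0 < MM j := by unfold MM; positivity

theorem one_le_MM (j : ℕ) : 1 ≤ MM j := by
  unfold MM; exact one_le_pow₀ (by norm_num)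

theorem MM_add (a b : ℕ) : 2 ^ b * MM a ≤ MM (a + b) := by
  unfold MM
  rw [← pow_add]
  apply pow_le_pow_right₀ (by norm_num)
  nlinarith [Nat.zero_le (a * b), Nat.le_self_pow (two_ne_zero) b]

theorem MM_mono : Monotone MM := by
  apply monotone_nat_of_le_succ
  intro j
  have := MM_add j 1
  have h := MM_pos j
  nlinarith

theorem exists_lt_MM (T : ℝ) : ∃ J, T < MM J := by
  obtain ⟨n, hn⟩ := pow_unbounded_of_one_lt T (one_lt_two)
  refine ⟨n, hn.trans_le ?_⟩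
  unfold MM
  exact pow_le_pow_right₀ (by norm_num) (Nat.le_self_pow two_ne_zero n)

theorem rr_eq (j : ℕ) : rr j = 1 - 1 / MM j := rfl

theorem rr_nonneg (j : ℕ) : 0 ≤ rr j := by
  rw [rr_eq]
  have h := one_le_MM j
  have : 1 / MM j ≤ 1 := by rw [div_le_one (MM_pos j)]; exact h
  linarith

theorem rr_lt_one (j : ℕ) : rr j < 1 := by
  rw [rr_eq]
  have : 0 < 1 / MM j := one_div_pos.mpr (MM_pos j)
  linarith

theorem one_sub_rr (j : ℕ) : 1 - rr j = 1 / MM j := by rw [rr_eq]; ring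

theorem rr_mono : Monotone rr := by
  intro a b hab
  rw [rr_eq, rr_eq]
  have := one_div_le_one_div_of_le (MM_pos a) (MM_mono hab)
  linarith

theorem rr_sub_le (j : ℕ) : rr (j + 1) - rr j ≤ 1 / MM j := by
  have h1 := one_sub_rr j
  have h2 := (rr_lt_one (j + 1)).le
  linarith

/-- the profile of the block weights at size `T` -/
noncomputable def kap (T : ℝ) (j : ℕ) : ℝ := min (min 1 (MM (j + 1) / T)) (T / MM j)

theorem kap_nonneg {T : ℝ} (hT : 0 < T) (j : ℕ) : 0 ≤ kap T j := by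
  unfold kap
  exact le_min (le_min zero_le_one (div_nonneg (MM_pos _).le hT.le)) (div_nonneg hT.le (MM_pos _).le)

theorem geo {w : ℝ} (hw : 0 ≤ w) (hw1 : w < 1) (n : ℕ) : ∑ i ∈ range n, w ^ i ≤ 1 / (1 - w) := by
  rw [le_div_iff₀ (by linarith), geom_sum_mul_neg]
  have : 0 ≤ w ^ n := pow_nonneg hw n
  linarith

theorem kap_sum {q : ℝ} (hq : 0 < q) : ∃ C : ℝ, 0 ≤ C ∧ ∀ T : ℝ, 0 < T → ∀ L : ℕ,
    ∑ j ∈ range L, kap T j ^ q ≤ C := by
  set w : ℝ := (1 / 2) ^ q with hw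
  have hw0 : 0 ≤ w := by positivity
  have hw1 : w < 1 := Real.rpow_lt_one (by norm_num) (by norm_num) hq
  have hden : 0 < 1 - w := by linarith
  refine ⟨2 ^ q * (1 / (1 - w)) + 1 / (1 - w), by positivity, ?_⟩
  intro T hT L
  classical
  have hex := exists_lt_MM T
  set J := Nat.find hex with hJ
  have hJ1 : T < MM J := Nat.find_spec hex
  have hJ2 : ∀ i, i < J → MM i ≤ T := fun i hi => not_lt.mp (Nat.find_min hex hi)
  have hnn : ∀ j, 0 ≤ kap T j ^ q := fun j => Real.rpow_nonneg (kap_nonneg hT j) q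
  have h1 : ∑ j ∈ range L, kap T j ^ q ≤ ∑ j ∈ range (J + L), kap T j ^ q :=
    Finset.sum_le_sum_of_subset_of_nonneg (Finset.range_subset_range.mpr (by omega)) (fun j _ _ => hnn j)
  refine h1.trans ?_
  rw [Finset.sum_range_add]
  have hup : ∀ i, kap T (J + i) ^ q ≤ w ^ i := by
    intro i
    have h2 : kap T (J + i) ≤ (1 / 2) ^ i := by
      refine (min_le_right _ _).trans ?_
      rw [div_le_iff₀ (MM_pos _)]
      have h3 := MM_add J i
      have h4 : (1 / 2 : ℝ) ^ i * (2 ^ i * MM J) = MM J := by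
        rw [← mul_assoc, ← mul_pow]; norm_num
      calc T ≤ MM J := hJ1.le
        _ = (1 / 2 : ℝ) ^ i * (2 ^ i * MM J) := h4.symm
        _ ≤ _ := by gcongr
    calc kap T (J + i) ^ q ≤ ((1 / 2 : ℝ) ^ i) ^ q :=
          Real.rpow_le_rpow (kap_nonneg hT _) h2 hq.le
      _ = w ^ i := by
          rw [hw, ← Real.rpow_natCast, ← Real.rpow_natCast, ← Real.rpow_mul (by norm_num),
            ← Real.rpow_mul (by norm_num), mul_comm]
  have hlow : ∀ i ∈ range J, kap T (J - 1 - i) ^ q ≤ 2 ^ q * w ^ i := by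
    intro i hi
    have hi' := Finset.mem_range.mp hi
    have h2 : kap T (J - 1 - i) ≤ 2 * (1 / 2) ^ i := by
      rcases Nat.eq_zero_or_pos i with h0 | h0
      · subst h0
        refine (min_le_left _ _).trans ((min_le_left _ _).trans ?_)
        norm_num
      · refine (min_le_left _ _).trans ((min_le_right _ _).trans ?_)
        have e1 : J - 1 - i + 1 = J - i := by omega
        rw [e1, div_le_iff₀ hT]
        have h3 := MM_add (J - i) (i - 1)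
        have e2 : J - i + (i - 1) = J - 1 := by omega
        rw [e2] at h3
        have h4 : MM (J - 1) ≤ T := hJ2 _ (by omega)
        have h5 : (2 : ℝ) * (1 / 2) ^ i * (2 ^ (i - 1) * MM (J - i)) = MM (J - i) := by
          obtain ⟨k, rfl⟩ : ∃ k, i = k + 1 := ⟨i - 1, by omega⟩
          simp only [Nat.add_sub_cancel]
          rw [pow_succ]
          have : (1 / 2 : ℝ) ^ k * 2 ^ k = 1 := by rw [← mul_pow]; norm_num
          linear_combination (MM (J - (k + 1))) * this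
        rw [← h5]
        have h6 : (0 : ℝ) ≤ 2 * (1 / 2) ^ i := by positivity
        exact mul_le_mul_of_nonneg_left (h3.trans h4) h6
    calc kap T (J - 1 - i) ^ q ≤ (2 * (1 / 2 : ℝ) ^ i) ^ q :=
          Real.rpow_le_rpow (kap_nonneg hT _) h2 hq.le
      _ = 2 ^ q * w ^ i := by
          rw [Real.mul_rpow (by norm_num) (by positivity), hw, ← Real.rpow_natCast,
            ← Real.rpow_natCast, ← Real.rpow_mul (by norm_num), ← Real.rpow_mul (by norm_num),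
            mul_comm q (i : ℝ)]
  have hA : ∑ j ∈ range J, kap T j ^ q ≤ 2 ^ q * (1 / (1 - w)) := by
    rw [← Finset.sum_range_reflect]
    refine (Finset.sum_le_sum hlow).trans ?_
    rw [← Finset.mul_sum]
    exact mul_le_mul_of_nonneg_left (geo hw0 hw1 J) (by positivity)
  have hB : ∑ i ∈ range L, kap T (J + i) ^ q ≤ 1 / (1 - w) :=
    (Finset.sum_le_sum fun i _ => hup i).trans (geo hw0 hw1 L)
  linarith

/-- the majorant of the kernels -/
noncomputable def DD (a : ℝ) (x : TT) : ℝ := 3 / (a + ‖x‖)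

theorem DD_pos {a : ℝ} (ha : 0 < a) (x : TT) : 0 < DD a x := by
  unfold DD
  have := norm_nonneg x
  positivity

theorem DD_anti {a b : ℝ} (ha : 0 < a) (hab : a ≤ b) (x : TT) : DD b x ≤ DD a x := by
  unfold DD
  have := norm_nonneg x
  apply div_le_div_of_nonneg_left (by norm_num) (by linarith) (by linarith)

theorem continuous_DD {a : ℝ} (ha : 0 < a) (y : TT) : Continuous fun x => DD a (x - y) := by
  unfold DD
  apply Continuous.div (by fun_prop) (by fun_prop)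
  intro x
  have := norm_nonneg (x - y)
  positivity

theorem int_DD (q : ℝ) (hq : 1 < q) : ∃ C : ℝ, 0 ≤ C ∧ ∀ A : ℝ, 0 < A → ∀ y : TT,
    ∫ x : TT, DD (1 / A) (x - y) ^ q ≤ C * A ^ (q - 1) := by
  refine ⟨3 ^ q * (2 / (q - 1)), ?_, ?_⟩
  · apply mul_nonneg (by positivity)
    apply div_nonneg (by norm_num) (by linarith)
  intro A hA y
  rw [integral_sub_right_eq_self (fun x : TT => DD (1 / A) x ^ q) y]
  have h1 : ∀ x : TT, DD (1 / A) x ^ q = (3 * A) ^ q * (1 + A * ‖x‖) ^ (-q) := by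
    intro x
    have hpos : 0 < 1 + A * ‖x‖ := by positivity
    have h2 : DD (1 / A) x = 3 * A * (1 + A * ‖x‖)⁻¹ := by
      unfold DD
      have : 1 / A + ‖x‖ = (1 + A * ‖x‖) / A := by field_simp
      rw [this]
      field_simp
    rw [h2, Real.mul_rpow (by positivity) (by positivity), Real.inv_rpow hpos.le,
      Real.rpow_neg hpos.le]
  simp_rw [h1]
  rw [integral_const_mul]
  calc (3 * A) ^ q * ∫ x : TT, (1 + A * ‖x‖) ^ (-q)
      ≤ (3 * A) ^ q * ((2 / (q - 1)) / A) := by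
        gcongr; exact int_decay q hq A hA
    _ = 3 ^ q * (2 / (q - 1)) * A ^ (q - 1) := by
        rw [Real.mul_rpow (by norm_num) hA.le, Real.rpow_sub hA, Real.rpow_one]; ring

/-- geometric sums -/
noncomputable def PN (N : ℕ) (z : ℂ) : ℂ := ∑ i ∈ range N, z ^ i

theorem PN_le {N : ℕ} {z : ℂ} (hz : ‖z‖ ≤ 1) : ‖PN N z‖ ≤ N := by
  unfold PN
  refine (norm_sum_le _ _).trans ?_
  calc ∑ i ∈ range N, ‖z ^ i‖ ≤ ∑ i ∈ range N, (1 : ℝ) := by
        refine Finset.sum_le_sum fun i _ => ?_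
        rw [norm_pow]; exact pow_le_one₀ (norm_nonneg _) hz
    _ = N := by simp

theorem PN_mul {N : ℕ} {z : ℂ} (hz : ‖z‖ ≤ 1) : ‖PN N z‖ * ‖1 - z‖ ≤ 2 := by
  unfold PN
  rw [← norm_mul, geom_sum_mul_neg]
  refine (norm_sub_le _ _).trans ?_
  rw [norm_one, norm_pow]
  have := pow_le_one₀ (n := N) (norm_nonneg z) hz
  linarith

theorem norm_rho {ρ : ℝ} (h0 : 0 ≤ ρ) (h1 : ρ ≤ 1) (y : TT) : ‖(ρ : ℂ) * ee 1 y‖ ≤ 1 := by
  rw [norm_mul, norm_ee, mul_one, Complex.norm_real, Real.norm_of_nonneg h0]; exact h1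

theorem one_sub_rho_a {ρ : ℝ} (h0 : 0 ≤ ρ) (y : TT) : 1 - ρ ≤ ‖1 - (ρ : ℂ) * ee 1 y‖ := by
  have h := norm_sub_norm_le (1 : ℂ) ((ρ : ℂ) * ee 1 y)
  rw [norm_one, norm_mul, norm_ee, mul_one, Complex.norm_real, Real.norm_of_nonneg h0] at h
  exact h

theorem one_sub_rho_b {ρ : ℝ} (h0 : 0 ≤ ρ) (h1 : ρ ≤ 1) (y : TT) :
    2 * ‖y‖ ≤ ‖1 - (ρ : ℂ) * ee 1 y‖ := by
  have h := one_sub_rho_a h0 y
  have h2 := le_norm_one_sub_ee y
  have h3 : ‖1 - ee 1 y‖ ≤ ‖1 - (ρ : ℂ) * ee 1 y‖ + (1 - ρ) := by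
    have e : 1 - ee 1 y = (1 - (ρ : ℂ) * ee 1 y) + ((ρ - 1 : ℝ) : ℂ) * ee 1 y := by
      push_cast; ring
    calc ‖1 - ee 1 y‖ = ‖(1 - (ρ : ℂ) * ee 1 y) + ((ρ - 1 : ℝ) : ℂ) * ee 1 y‖ := by rw [← e]
      _ ≤ ‖1 - (ρ : ℂ) * ee 1 y‖ + ‖((ρ - 1 : ℝ) : ℂ) * ee 1 y‖ := norm_add_le _ _
      _ = _ := by
        rw [norm_mul, norm_ee, mul_one, Complex.norm_real, Real.norm_of_nonpos (by linarith)]
        ring
  linarith

theorem PN_DD_N {N : ℕ} (hN : 1 ≤ N) {ρ : ℝ} (h0 : 0 ≤ ρ) (h1 : ρ ≤ 1) (y : TT) :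
    ‖PN N ((ρ : ℂ) * ee 1 y)‖ ≤ DD (1 / N) y := by
  have hN0 : (0 : ℝ) < N := by exact_mod_cast hN
  unfold DD
  have hd : 0 < 1 / (N : ℝ) + ‖y‖ := by positivity
  rw [le_div_iff₀ hd, mul_add]
  have h2 := PN_le (N := N) (norm_rho h0 h1 y)
  have h3 := PN_mul (N := N) (norm_rho h0 h1 y)
  have h4 := one_sub_rho_b h0 h1 y
  have h5 : ‖PN N ((ρ : ℂ) * ee 1 y)‖ * (1 / N) ≤ 1 := by
    rw [mul_one_div, div_le_one hN0]; exact h2
  have h6 : ‖PN N ((ρ : ℂ) * ee 1 y)‖ * (2 * ‖y‖) ≤ 2 :=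
    (mul_le_mul_of_nonneg_left h4 (norm_nonneg _)).trans h3
  linarith

theorem PN_DD_rho (N : ℕ) {ρ : ℝ} (h0 : 0 ≤ ρ) (h1 : ρ < 1) (y : TT) :
    ‖PN N ((ρ : ℂ) * ee 1 y)‖ ≤ DD (1 - ρ) y := by
  unfold DD
  have hd : 0 < (1 - ρ) + ‖y‖ := by
    have := norm_nonneg y
    linarith
  rw [le_div_iff₀ hd, mul_add]
  have h3 := PN_mul (N := N) (norm_rho h0 h1.le y)
  have h4 := one_sub_rho_b h0 h1.le y
  have h5 : ‖PN N ((ρ : ℂ) * ee 1 y)‖ * (1 - ρ) ≤ 2 :=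
    (mul_le_mul_of_nonneg_left (one_sub_rho_a h0 y) (norm_nonneg _)).trans h3
  have h6 : ‖PN N ((ρ : ℂ) * ee 1 y)‖ * (2 * ‖y‖) ≤ 2 :=
    (mul_le_mul_of_nonneg_left h4 (norm_nonneg _)).trans h3
  linarith

theorem PN_succ (n : ℕ) (z : ℂ) : PN (n + 1) z = 1 + z * PN n z := by
  unfold PN
  rw [Finset.sum_range_succ', Finset.mul_sum, add_comm]
  simp [pow_succ, mul_comm]

theorem PN_diff {ρ r : ℝ} (h0 : 0 ≤ ρ) (hr : ρ ≤ r) (h1 : r ≤ 1) (y : TT) (B : ℝ) (n : ℕ)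
    (hB : ∀ i, i < n → ‖PN i ((ρ : ℂ) * ee 1 y)‖ ≤ B) :
    ‖PN n ((r : ℂ) * ee 1 y) - PN n ((ρ : ℂ) * ee 1 y)‖ ≤ n * (r - ρ) * B := by
  induction n with
  | zero => simp [PN]
  | succ n ih =>
    have ih' := ih (fun i hi => hB i (by omega))
    rw [PN_succ, PN_succ]
    have e : (1 + (r : ℂ) * ee 1 y * PN n ((r : ℂ) * ee 1 y)) -
        (1 + (ρ : ℂ) * ee 1 y * PN n ((ρ : ℂ) * ee 1 y))
        = ((r : ℂ) * ee 1 y) * (PN n ((r : ℂ) * ee 1 y) - PN n ((ρ : ℂ) * ee 1 y))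
          + (((r - ρ : ℝ) : ℂ) * ee 1 y) * PN n ((ρ : ℂ) * ee 1 y) := by
      push_cast; ring
    rw [e]
    have hB0 : ‖PN n ((ρ : ℂ) * ee 1 y)‖ ≤ B := hB n (by omega)
    have h2 : ‖((r : ℂ) * ee 1 y) * (PN n ((r : ℂ) * ee 1 y) - PN n ((ρ : ℂ) * ee 1 y))‖
        ≤ n * (r - ρ) * B := by
      rw [norm_mul]
      have := norm_rho (h0.trans hr) h1 y
      calc _ ≤ 1 * ‖PN n ((r : ℂ) * ee 1 y) - PN n ((ρ : ℂ) * ee 1 y)‖ := by gcongr
        _ ≤ _ := by rw [one_mul]; exact ih'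
    have h3 : ‖(((r - ρ : ℝ) : ℂ) * ee 1 y) * PN n ((ρ : ℂ) * ee 1 y)‖ ≤ (r - ρ) * B := by
      rw [norm_mul, norm_mul, norm_ee, mul_one, Complex.norm_real,
        Real.norm_of_nonneg (by linarith)]
      exact mul_le_mul_of_nonneg_left hB0 (by linarith)
    calc _ ≤ n * (r - ρ) * B + (r - ρ) * B := (norm_add_le _ _).trans (add_le_add h2 h3)
      _ = _ := by push_cast; ring

theorem PN_diff' {N : ℕ} (hN : 1 ≤ N) {ρ r : ℝ} (h0 : 0 ≤ ρ) (hr : ρ ≤ r) (h1 : r ≤ 1) (y : TT) :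
    ‖PN N ((r : ℂ) * ee 1 y) - PN N ((ρ : ℂ) * ee 1 y)‖ ≤ N * (r - ρ) * DD (1 / N) y := by
  have hN0 : (0 : ℝ) < N := by exact_mod_cast hN
  apply PN_diff h0 hr h1
  intro i hi
  rcases Nat.eq_zero_or_pos i with h | h
  · subst h
    simp only [PN, Finset.range_zero, Finset.sum_empty, norm_zero]
    exact (DD_pos (by positivity) y).le
  · refine (PN_DD_N h h0 (hr.trans h1) y).trans ?_
    apply DD_anti (by positivity)
    apply one_div_le_one_div_of_le (by exact_mod_cast h)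
    exact_mod_cast hi.le

/-- The contribution of block `j` to a window. -/
noncomputable def VV (s N m j : ℕ) (y : TT) : ℂ :=
  ((rr (j + 1) ^ m : ℝ) : ℂ) * PN N ((rr (j + 1) : ℂ) * ee 1 y) ^ s
    - ((rr j ^ m : ℝ) : ℂ) * PN N ((rr j : ℂ) * ee 1 y) ^ s

theorem pow_sub_pow_le {a b : ℂ} {B : ℝ} (ha : ‖a‖ ≤ B) (hb : ‖b‖ ≤ B) (s : ℕ) :
    ‖a ^ s - b ^ s‖ ≤ s * B ^ (s - 1) * ‖a - b‖ := by
  have hB : 0 ≤ B := (norm_nonneg _).trans ha
  rw [← geom_sum₂_mul, norm_mul]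
  apply mul_le_mul_of_nonneg_right _ (norm_nonneg _)
  refine (norm_sum_le _ _).trans ?_
  calc ∑ i ∈ range s, ‖a ^ i * b ^ (s - 1 - i)‖ ≤ ∑ i ∈ range s, B ^ (s - 1) := by
        refine Finset.sum_le_sum fun i hi => ?_
        rw [norm_mul, norm_pow, norm_pow]
        have hi' := Finset.mem_range.mp hi
        calc ‖a‖ ^ i * ‖b‖ ^ (s - 1 - i) ≤ B ^ i * B ^ (s - 1 - i) := by gcongr
          _ = B ^ (s - 1) := by rw [← pow_add]; congr 1; omega
    _ = s * B ^ (s - 1) := by simp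

theorem rpow_sub_le {a b : ℝ} (h0 : 0 ≤ a) (hab : a ≤ b) (h1 : b ≤ 1) (m : ℕ) :
    b ^ m - a ^ m ≤ m * (b - a) := by
  induction m with
  | zero => simp
  | succ n ih =>
    have e : b ^ (n + 1) - a ^ (n + 1) = b * (b ^ n - a ^ n) + (b - a) * a ^ n := by ring
    rw [e]
    have h2 : a ^ n ≤ 1 := pow_le_one₀ h0 (hab.trans h1)
    have h3 : a ^ n ≤ b ^ n := pow_le_pow_left₀ h0 hab n
    have h4 : b * (b ^ n - a ^ n) ≤ 1 * (b ^ n - a ^ n) :=
      mul_le_mul_of_nonneg_right h1 (by linarith)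
    have h5 : (b - a) * a ^ n ≤ (b - a) * 1 := mul_le_mul_of_nonneg_left h2 (by linarith)
    push_cast
    linarith

theorem VV_one {s N : ℕ} (hN : 1 ≤ N) (m j : ℕ) (y : TT) :
    ‖VV s N m j y‖ ≤ (m + s * N) * (rr (j + 1) - rr j) * DD (1 / N) y ^ s := by
  have hN0 : (0 : ℝ) < N := by exact_mod_cast hN
  set r := rr (j + 1)
  set ρ := rr j
  have hρ0 : 0 ≤ ρ := rr_nonneg j
  have hρr : ρ ≤ r := rr_mono (Nat.le_succ j)
  have hr1 : r ≤ 1 := (rr_lt_one _).le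
  have hD := DD_pos (a := 1 / (N : ℝ)) (by positivity) y
  set D := DD (1 / N) y
  have ha : ‖PN N ((r : ℂ) * ee 1 y)‖ ≤ D := PN_DD_N hN (hρ0.trans hρr) hr1 y
  have hb : ‖PN N ((ρ : ℂ) * ee 1 y)‖ ≤ D := PN_DD_N hN hρ0 (hρr.trans hr1) y
  have hd := PN_diff' hN hρ0 hρr hr1 y
  set a := PN N ((r : ℂ) * ee 1 y)
  set b := PN N ((ρ : ℂ) * ee 1 y)
  have e : VV s N m j y = ((r ^ m - ρ ^ m : ℝ) : ℂ) * a ^ s + ((ρ ^ m : ℝ) : ℂ) * (a ^ s - b ^ s) := by
    simp only [VV]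
    push_cast
    ring
  rw [e]
  have h1 : ‖((r ^ m - ρ ^ m : ℝ) : ℂ) * a ^ s‖ ≤ m * (r - ρ) * D ^ s := by
    rw [norm_mul, Complex.norm_real, norm_pow]
    have h2 : ρ ^ m ≤ r ^ m := pow_le_pow_left₀ hρ0 hρr m
    rw [Real.norm_of_nonneg (by linarith)]
    have h3 := rpow_sub_le hρ0 hρr hr1 m
    have h4 : ‖a‖ ^ s ≤ D ^ s := pow_le_pow_left₀ (norm_nonneg _) ha s
    exact mul_le_mul h3 h4 (by positivity) (mul_nonneg (by positivity) (by linarith))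
  have h2 : ‖((ρ ^ m : ℝ) : ℂ) * (a ^ s - b ^ s)‖ ≤ s * N * (r - ρ) * D ^ s := by
    rw [norm_mul, Complex.norm_real, Real.norm_of_nonneg (by positivity)]
    have h3 : ρ ^ m ≤ 1 := pow_le_one₀ hρ0 (hρr.trans hr1)
    have h4 := pow_sub_pow_le ha hb s
    rcases Nat.eq_zero_or_pos s with h0 | h0
    · subst h0; simp
    · have h5 : D ^ (s - 1) * D = D ^ s := by
        rw [← pow_succ]; congr 1; omega
      calc ρ ^ m * ‖a ^ s - b ^ s‖ ≤ 1 * (s * D ^ (s - 1) * (N * (r - ρ) * D)) := by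
            refine mul_le_mul h3 (h4.trans ?_) (norm_nonneg _) zero_le_one
            exact mul_le_mul_of_nonneg_left hd (by positivity)
        _ = s * N * (r - ρ) * (D ^ (s - 1) * D) := by ring
        _ = _ := by rw [h5]
  calc _ ≤ m * (r - ρ) * D ^ s + s * N * (r - ρ) * D ^ s := (norm_add_le _ _).trans (add_le_add h1 h2)
    _ = _ := by ring

theorem VV_aux {s N : ℕ} (m j : ℕ) (y : TT) {B : ℝ}
    (ha : ‖PN N ((rr (j + 1) : ℂ) * ee 1 y)‖ ≤ B) (hb : ‖PN N ((rr j : ℂ) * ee 1 y)‖ ≤ B) :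
    ‖VV s N m j y‖ ≤ 2 * rr (j + 1) ^ m * B ^ s := by
  have hB : 0 ≤ B := (norm_nonneg _).trans ha
  have hρ0 : 0 ≤ rr j := rr_nonneg j
  have hρr : rr j ≤ rr (j + 1) := rr_mono (Nat.le_succ j)
  unfold VV
  refine (norm_sub_le _ _).trans ?_
  rw [norm_mul, norm_mul, Complex.norm_real, Complex.norm_real,
    Real.norm_of_nonneg (pow_nonneg hρ0 m), Real.norm_of_nonneg (pow_nonneg (hρ0.trans hρr) m),
    norm_pow, norm_pow]
  have h1 : rr j ^ m ≤ rr (j + 1) ^ m := pow_le_pow_left₀ hρ0 hρr m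
  have h2 : ‖PN N ((rr (j + 1) : ℂ) * ee 1 y)‖ ^ s ≤ B ^ s :=
    pow_le_pow_left₀ (norm_nonneg _) ha s
  have h3 : ‖PN N ((rr j : ℂ) * ee 1 y)‖ ^ s ≤ B ^ s := pow_le_pow_left₀ (norm_nonneg _) hb s
  have h4 := mul_le_mul_of_nonneg_left h2 (pow_nonneg (hρ0.trans hρr) m)
  have h5 := mul_le_mul h1 h3 (by positivity) (pow_nonneg (hρ0.trans hρr) m)
  linarith

theorem VV_two {s N : ℕ} (hN : 1 ≤ N) (m j : ℕ) (y : TT) :
    ‖VV s N m j y‖ ≤ 2 * rr (j + 1) ^ m * DD (1 / N) y ^ s :=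
  VV_aux m j y (PN_DD_N hN (rr_nonneg _) (rr_lt_one _).le y) (PN_DD_N hN (rr_nonneg _) (rr_lt_one _).le y)

theorem VV_three (s N m j : ℕ) (y : TT) :
    ‖VV s N m j y‖ ≤ 2 * DD (1 / MM (j + 1)) y ^ s := by
  have h1 := PN_DD_rho N (rr_nonneg (j + 1)) (rr_lt_one _) y
  have h2 := PN_DD_rho N (rr_nonneg j) (rr_lt_one _) y
  rw [one_sub_rr] at h1 h2
  have h3 := DD_anti (one_div_pos.mpr (MM_pos (j + 1)))
    (one_div_le_one_div_of_le (MM_pos j) (MM_mono (Nat.le_succ j))) y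
  have h4 := VV_aux (s := s) m j y h1 (h2.trans h3)
  refine h4.trans ?_
  have h5 : rr (j + 1) ^ m ≤ 1 := pow_le_one₀ (rr_nonneg _) (rr_lt_one _).le
  have h6 : 0 ≤ DD (1 / MM (j + 1)) y ^ s :=
    pow_nonneg (DD_pos (one_div_pos.mpr (MM_pos (j + 1))) y).le s
  nlinarith

theorem rr_pow_le (j m : ℕ) (hm : 1 ≤ m) : rr j ^ m ≤ MM j / m := by
  have hm0 : (0 : ℝ) < m := by exact_mod_cast hm
  have hM := MM_pos j
  have h1 : rr j ≤ Real.exp (-(1 / MM j)) := by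
    rw [rr_eq]
    have := Real.add_one_le_exp (-(1 / MM j))
    linarith
  have h2 : rr j ^ m ≤ Real.exp (-(m / MM j)) := by
    calc rr j ^ m ≤ Real.exp (-(1 / MM j)) ^ m := pow_le_pow_left₀ (rr_nonneg j) h1 m
      _ = _ := by rw [← Real.exp_nat_mul]; congr 1; ring
  have h3 : Real.exp (-(m / MM j)) ≤ MM j / m := by
    rw [Real.exp_neg]
    have h4 := Real.add_one_le_exp ((m : ℝ) / MM j)
    have h5 : 0 < (m : ℝ) / MM j := by positivity
    have h6 : MM j / m = ((m : ℝ) / MM j)⁻¹ := by rw [inv_div]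
    rw [h6]
    apply inv_anti₀ h5
    linarith
  exact h2.trans h3

theorem kap_cases (T : ℝ) (j : ℕ) (P : ℝ → Prop) (h1 : P 1) (h2 : P (MM (j + 1) / T))
    (h3 : P (T / MM j)) : P (kap T j) := by
  unfold kap
  rcases min_choice (min 1 (MM (j + 1) / T)) (T / MM j) with h | h
  · rw [h]
    rcases min_choice 1 (MM (j + 1) / T) with h' | h'
    · rw [h']; exact h1
    · rw [h']; exact h2
  · rw [h]; exact h3

/-- High blocks. -/
theorem VV_high {s N : ℕ} (hN : 1 ≤ N) (m j : ℕ) (hj : (N : ℝ) < MM (j + 1)) (y : TT) :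
    ‖VV s N m j y‖ ≤ 2 * (1 + s) * kap (max m N) j * DD (1 / N) y ^ s := by
  have hN0 : (0 : ℝ) < N := by exact_mod_cast hN
  have hT : (0 : ℝ) < max (m : ℝ) N := lt_max_of_lt_right hN0
  have hD : 0 ≤ DD (1 / N) y ^ s := pow_nonneg (DD_pos (by positivity) y).le s
  have hr1 : rr (j + 1) ^ m ≤ 1 := pow_le_one₀ (rr_nonneg _) (rr_lt_one _).le
  have hs : (0 : ℝ) ≤ s := by positivity
  have h2 := VV_two (s := s) hN m j y
  have h1 := VV_one (s := s) hN m j y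
  have key1 : ‖VV s N m j y‖ ≤ 2 * (1 + s) * 1 * DD (1 / N) y ^ s := by
    refine h2.trans (mul_le_mul_of_nonneg_right ?_ hD)
    nlinarith
  apply kap_cases (max m N) j (fun x => ‖VV s N m j y‖ ≤ 2 * (1 + s) * x * DD (1 / N) y ^ s) key1
  · rcases le_total (N : ℝ) m with h | h
    · rw [max_eq_left h]
      have hm : 1 ≤ m := by
        have : (1 : ℝ) ≤ m := le_trans (by exact_mod_cast hN) h
        exact_mod_cast this
      have h3 := rr_pow_le (j + 1) m hm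
      refine h2.trans (mul_le_mul_of_nonneg_right ?_ hD)
      have h4 : 0 ≤ MM (j + 1) / m := div_nonneg (MM_pos _).le (by positivity)
      nlinarith
    · rw [max_eq_right h]
      refine key1.trans (mul_le_mul_of_nonneg_right ?_ hD)
      have h4 : 1 ≤ MM (j + 1) / N := by rw [one_le_div hN0]; exact hj.le
      have h5 : (0 : ℝ) ≤ 2 * (1 + s) := by positivity
      exact mul_le_mul_of_nonneg_left h4 h5
  · refine h1.trans (mul_le_mul_of_nonneg_right ?_ hD)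
    have h3 := rr_sub_le j
    have h4 : (0 : ℝ) ≤ m + s * N := by positivity
    have h5 : (m : ℝ) + s * N ≤ (1 + s) * max (m : ℝ) N := by
      have ha := le_max_left (m : ℝ) N
      have hb := le_max_right (m : ℝ) N
      nlinarith
    calc ((m : ℝ) + s * N) * (rr (j + 1) - rr j) ≤ (m + s * N) * (1 / MM j) :=
          mul_le_mul_of_nonneg_left h3 h4
      _ ≤ ((1 + s) * max (m : ℝ) N) * (1 / MM j) :=
          mul_le_mul_of_nonneg_right h5 (one_div_pos.mpr (MM_pos j)).le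
      _ = (1 + s) * (max (m : ℝ) N / MM j) := by ring
      _ ≤ 2 * (1 + s) * (max (m : ℝ) N / MM j) := by
          have : 0 ≤ (1 + (s : ℝ)) * (max (m : ℝ) N / MM j) :=
            mul_nonneg (by positivity) (div_nonneg hT.le (MM_pos j).le)
          linarith

end MP63.Blk
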