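import Pool.Agent.Work.MP_63674d_an.BlkA

/-! Rotated blocks, part B: the sequence, its windows, single windows. -/

open MeasureTheory Finset Filter Topology

namespace MP63.Blk

/-- the weight of block `j` at `n` -/
noncomputable def gg (n j : ℕ) : ℝ := rr (j + 1) ^ n - rr j ^ n

theorem gg_nonneg (n j : ℕ) : 0 ≤ gg n j := by
  unfold gg
  have := pow_le_pow_left₀ (rr_nonneg j) (rr_mono (Nat.le_succ j)) n
  simp only [Nat.succ_eq_add_one] at this
  linarith

theorem gg_sum (n L : ℕ) : ∑ j ∈ range L, gg n j = rr L ^ n - rr 0 ^ n :=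
  Finset.sum_range_sub (fun j => rr j ^ n) L

theorem gg_sum_le (n L : ℕ) : ∑ j ∈ range L, gg n j ≤ 1 := by
  rw [gg_sum]
  have h1 : rr L ^ n ≤ 1 := pow_le_one₀ (rr_nonneg L) (rr_lt_one L).le
  have h2 : 0 ≤ rr 0 ^ n := pow_nonneg (rr_nonneg 0) n
  linarith

theorem gg_summable (n : ℕ) : Summable (gg n) :=
  summable_of_sum_range_le (gg_nonneg n) (gg_sum_le n)

/-- the rotated blocks -/
noncomputable def lam (τ : ℕ → TT) (n : ℕ) : ℂ := ∑' j, (gg n j : ℂ) * ee (-(n : ℤ)) (τ j)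

/-- partial sums -/
noncomputable def lamL (τ : ℕ → TT) (L n : ℕ) : ℂ :=
  ∑ j ∈ range L, (gg n j : ℂ) * ee (-(n : ℤ)) (τ j)

theorem norm_term (τ : ℕ → TT) (n j : ℕ) : ‖(gg n j : ℂ) * ee (-(n : ℤ)) (τ j)‖ = gg n j := by
  rw [norm_mul, norm_ee, mul_one, Complex.norm_real, Real.norm_of_nonneg (gg_nonneg n j)]

theorem tendsto_lamL (τ : ℕ → TT) (n : ℕ) :
    Tendsto (fun L => lamL τ L n) atTop (𝓝 (lam τ n)) := by
  unfold lamL lam
  apply Summable.tendsto_sum_tsum_nat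
  apply Summable.of_norm
  refine (gg_summable n).congr fun j => ?_
  rw [norm_term]

theorem norm_lamL_le (τ : ℕ → TT) (L n : ℕ) : ‖lamL τ L n‖ ≤ 1 := by
  unfold lamL
  refine (norm_sum_le _ _).trans ?_
  simp_rw [norm_term]
  exact gg_sum_le n L

theorem bc_eval (s M : ℕ) (z : ℂ) :
    ∑ k ∈ range (s * (M - 1) + 1), (bc s M k : ℂ) * z ^ k = PN M z ^ s := by
  have h1 := Polynomial.eval₂_eq_sum_range' (Nat.castRingHom ℂ) (bc_degree s M) z
  have h2 : ∑ k ∈ range (s * (M - 1) + 1), (bc s M k : ℂ) * z ^ k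
      = ∑ i ∈ range (s * (M - 1) + 1), (Nat.castRingHom ℂ)
        (((∑ i ∈ range M, (Polynomial.X : Polynomial ℕ) ^ i) ^ s).coeff i) * z ^ i := by
    refine Finset.sum_congr rfl fun k _ => ?_
    rfl
  rw [h2, ← h1, Polynomial.eval₂_pow, Polynomial.eval₂_finsetSum]
  congr 1
  unfold PN
  refine Finset.sum_congr rfl fun k _ => ?_
  rw [Polynomial.eval₂_pow, Polynomial.eval₂_X]

theorem win_lamL (τ : ℕ → TT) (s N m L : ℕ) (x : TT) :
    win s (lamL τ L) N m x = ∑ j ∈ range L, ee (-(m : ℤ)) (τ j) * VV s N m j (x - τ j) := by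
  unfold win lamL
  simp_rw [Finset.mul_sum, Finset.sum_mul]
  rw [Finset.sum_comm]
  refine Finset.sum_congr rfl fun j _ => ?_
  unfold VV
  rw [← bc_eval, ← bc_eval, Finset.mul_sum, Finset.mul_sum, ← Finset.sum_sub_distrib,
    Finset.mul_sum]
  refine Finset.sum_congr rfl fun k _ => ?_
  have h1 : ee (-((m + k : ℕ) : ℤ)) (τ j) * ee k x
      = ee (-(m : ℤ)) (τ j) * (ee 1 (x - τ j)) ^ k := by
    rw [← ee_nat_pow, ee_sub_right]
    have : (-((m + k : ℕ) : ℤ)) = -(m : ℤ) + -(k : ℤ) := by push_cast; ring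
    rw [this, ee_add]; ring
  unfold gg
  rw [mul_pow, mul_pow]
  simp only [Complex.ofReal_sub, Complex.ofReal_pow]
  rw [pow_add, pow_add]
  linear_combination ((bc s N k : ℂ) * ((rr (j + 1) : ℂ) ^ m * (rr (j + 1) : ℂ) ^ k
    - (rr j : ℂ) ^ m * (rr j : ℂ) ^ k)) * h1

theorem tendsto_win (τ : ℕ → TT) (s N m : ℕ) (x : TT) :
    Tendsto (fun L => win s (lamL τ L) N m x) atTop (𝓝 (win s (lam τ) N m x)) := by
  unfold win
  apply tendsto_finsetSum
  intro k _
  exact ((tendsto_lamL τ (m + k)).const_mul _).mul_const _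

theorem norm_win_le (τ : ℕ → TT) (s N m L : ℕ) (x : TT) :
    ‖win s (lamL τ L) N m x‖ ≤ (N : ℝ) ^ s := by
  unfold win
  refine (norm_sum_le _ _).trans ?_
  rw [← bc_sum]
  refine Finset.sum_le_sum fun k _ => ?_
  rw [norm_mul, norm_mul, norm_ee, mul_one, Complex.norm_natCast]
  have := norm_lamL_le τ L (m + k)
  have h0 : (0 : ℝ) ≤ bc s N k := by positivity
  nlinarith

theorem add_rpow_le {p : ℝ} (hp : 0 < p) (hp1 : p ≤ 1) {x y : ℝ} (hx : 0 ≤ x) (hy : 0 ≤ y) :
    (x + y) ^ p ≤ x ^ p + y ^ p := Real.rpow_add_le_add_rpow hx hy hp.le hp1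

theorem sum_rpow_le {ι : Type*} {p : ℝ} (hp : 0 < p) (hp1 : p ≤ 1) (S : Finset ι) (f : ι → ℝ)
    (hf : ∀ i ∈ S, 0 ≤ f i) : (∑ i ∈ S, f i) ^ p ≤ ∑ i ∈ S, f i ^ p := by
  classical
  induction S using Finset.induction_on with
  | empty => simp [Real.zero_rpow hp.ne']
  | insert a S ha ih =>
    rw [Finset.sum_insert ha, Finset.sum_insert ha]
    have h1 : 0 ≤ ∑ i ∈ S, f i := Finset.sum_nonneg fun i hi => hf i (Finset.mem_insert_of_mem hi)
    have h2 := add_rpow_le hp hp1 (hf a (Finset.mem_insert_self _ _)) h1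
    have h3 := ih (fun i hi => hf i (Finset.mem_insert_of_mem hi))
    linarith

theorem continuous_DD_pow {a : ℝ} (ha : 0 < a) (y : TT) {q : ℝ} :
    Continuous fun x => DD a (x - y) ^ q :=
  (continuous_DD ha y).rpow_const fun _ => Or.inl (DD_pos ha _).ne'

theorem DD_pow_rpow {a : ℝ} (ha : 0 < a) (y : TT) (s : ℕ) (p : ℝ) :
    (DD a y ^ s) ^ p = DD a y ^ (s * p) := by
  rw [← Real.rpow_natCast, ← Real.rpow_mul (DD_pos ha y).le]

theorem kap_low {N : ℕ} (hN : 1 ≤ N) {j : ℕ} (hj : MM (j + 1) ≤ N) :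
    kap N j = MM (j + 1) / N := by
  have hN0 : (0 : ℝ) < N := by exact_mod_cast hN
  unfold kap
  have h1 : MM (j + 1) / N ≤ 1 := by rw [div_le_one hN0]; exact hj
  rw [min_eq_right h1]
  apply min_eq_left
  have h2 : 1 ≤ (N : ℝ) / MM j := by
    rw [one_le_div (MM_pos j)]
    exact (MM_mono (Nat.le_succ j)).trans hj
  linarith

theorem MM_rpow {N : ℕ} (hN : 1 ≤ N) {j : ℕ} (hj : MM (j + 1) ≤ N) (q : ℝ) :
    MM (j + 1) ^ q = (N : ℝ) ^ q * kap N j ^ q := by
  have hN0 : (0 : ℝ) < N := by exact_mod_cast hN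
  rw [kap_low hN hj, ← Real.mul_rpow hN0.le (div_nonneg (MM_pos _).le hN0.le)]
  congr 1
  field_simp

/-- the integral of the `p`-th power of one block -/
theorem int_block {p : ℝ} (hp : 0 < p) {s : ℕ} (hs : 1 < s * p) :
    ∃ C : ℝ, 0 ≤ C ∧ ∀ N : ℕ, 1 ≤ N → ∀ (m j : ℕ) (t : TT),
      ∫ x : TT, ‖VV s N m j (x - t)‖ ^ p
        ≤ C * (N : ℝ) ^ (s * p - 1) * (kap N j ^ (s * p - 1) + kap (max m N) j ^ p) := by
  obtain ⟨C₁, hC₁, hD⟩ := int_DD (s * p) hs
  refine ⟨(2 * (1 + s)) ^ p * C₁, by positivity, ?_⟩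
  intro N hN m j t
  have hN0 : (0 : ℝ) < N := by exact_mod_cast hN
  have hT : (0 : ℝ) < max (m : ℝ) N := lt_max_of_lt_right hN0
  have hNp : 0 < (N : ℝ) ^ (s * p - 1) := Real.rpow_pos_of_pos hN0 _
  have hk1 : 0 ≤ kap N j ^ (s * p - 1) := Real.rpow_nonneg (kap_nonneg hN0 j) _
  have hk2 : 0 ≤ kap (max m N) j ^ p := Real.rpow_nonneg (kap_nonneg hT j) _
  have hcV : Continuous fun x : TT => ‖VV s N m j (x - t)‖ ^ p := by
    apply Continuous.rpow_const _ (fun _ => Or.inr hp.le)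
    unfold VV PN
    fun_prop
  rcases le_or_gt (MM (j + 1)) N with h | h
  · have hA := MM_pos (j + 1)
    have h1 : ∀ x : TT, ‖VV s N m j (x - t)‖ ^ p ≤ 2 ^ p * DD (1 / MM (j + 1)) (x - t) ^ (s * p) := by
      intro x
      have h2 := VV_three s N m j (x - t)
      have h3 := Real.rpow_le_rpow (norm_nonneg _) h2 hp.le
      rw [Real.mul_rpow (by norm_num) (pow_nonneg (DD_pos (one_div_pos.mpr hA) _).le s),
        DD_pow_rpow (one_div_pos.mpr hA)] at h3
      exact h3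
    calc ∫ x : TT, ‖VV s N m j (x - t)‖ ^ p
        ≤ ∫ x : TT, 2 ^ p * DD (1 / MM (j + 1)) (x - t) ^ (s * p) :=
          integral_mono (integ hcV)
            (integ (continuous_const.mul (continuous_DD_pow (one_div_pos.mpr hA) t))) h1
      _ = 2 ^ p * ∫ x : TT, DD (1 / MM (j + 1)) (x - t) ^ (s * p) := integral_const_mul _ _
      _ ≤ 2 ^ p * (C₁ * MM (j + 1) ^ (s * p - 1)) := by
          gcongr; exact hD _ hA t
      _ = 2 ^ p * (C₁ * (N : ℝ) ^ (s * p - 1) * kap N j ^ (s * p - 1)) := by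
          rw [MM_rpow hN h]; ring
      _ ≤ (2 * (1 + s)) ^ p * (C₁ * (N : ℝ) ^ (s * p - 1) * (kap N j ^ (s * p - 1)
            + kap (max m N) j ^ p)) := by
          have h4 : (2 : ℝ) ^ p ≤ (2 * (1 + s)) ^ p := by
            apply Real.rpow_le_rpow (by norm_num) _ hp.le
            have : (0 : ℝ) ≤ s := by positivity
            linarith
          apply mul_le_mul h4 _ (by positivity) (by positivity)
          apply mul_le_mul_of_nonneg_left _ (by positivity)
          linarith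
      _ = _ := by ring
  · have hc0 : (0 : ℝ) < 1 / N := by positivity
    have h1 : ∀ x : TT, ‖VV s N m j (x - t)‖ ^ p
        ≤ ((2 * (1 + s)) ^ p * kap (max m N) j ^ p) * DD (1 / N) (x - t) ^ (s * p) := by
      intro x
      have h2 := VV_high (s := s) hN m j h (x - t)
      have h3 := Real.rpow_le_rpow (norm_nonneg _) h2 hp.le
      rw [Real.mul_rpow (mul_nonneg (by positivity) (kap_nonneg hT j))
          (pow_nonneg (DD_pos hc0 _).le s),
        Real.mul_rpow (by positivity) (kap_nonneg hT j), DD_pow_rpow hc0] at h3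
      exact h3
    calc ∫ x : TT, ‖VV s N m j (x - t)‖ ^ p
        ≤ ∫ x : TT, ((2 * (1 + s)) ^ p * kap (max m N) j ^ p) * DD (1 / N) (x - t) ^ (s * p) :=
          integral_mono (integ hcV) (integ (continuous_const.mul (continuous_DD_pow hc0 t))) h1
      _ = ((2 * (1 + s)) ^ p * kap (max m N) j ^ p) * ∫ x : TT, DD (1 / N) (x - t) ^ (s * p) :=
          integral_const_mul _ _
      _ ≤ ((2 * (1 + s)) ^ p * kap (max m N) j ^ p) * (C₁ * (N : ℝ) ^ (s * p - 1)) := by
          gcongr; exact hD _ hN0 t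
      _ ≤ (2 * (1 + s)) ^ p * C₁ * (N : ℝ) ^ (s * p - 1) * (kap N j ^ (s * p - 1)
            + kap (max m N) j ^ p) := by
          have h5 : 0 ≤ (2 * (1 + (s : ℝ))) ^ p * C₁ * (N : ℝ) ^ (s * p - 1) := by positivity
          nlinarith [mul_nonneg h5 hk1]

/-- **Single windows are bounded for every choice of rotations.** -/
theorem single {p : ℝ} (hp : 0 < p) (hp1 : p < 1) {s : ℕ} (hs : 1 < s * p) :
    ∃ C : ℝ, ∀ (τ : ℕ → TT) (N : ℕ), 1 ≤ N → ∀ m : ℕ,
      ∫ x : TT, ‖win s (lam τ) N m x‖ ^ p ≤ C * (N : ℝ) ^ (s * p - 1) := by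
  obtain ⟨C₁, hC₁, hB⟩ := int_block hp hs
  obtain ⟨K₁, hK₁, hk1⟩ := kap_sum (q := s * p - 1) (by linarith)
  obtain ⟨K₂, hK₂, hk2⟩ := kap_sum hp
  refine ⟨C₁ * (K₁ + K₂), ?_⟩
  intro τ N hN m
  have hN0 : (0 : ℝ) < N := by exact_mod_cast hN
  have hT : (0 : ℝ) < max (m : ℝ) N := lt_max_of_lt_right hN0
  have hNp : 0 < (N : ℝ) ^ (s * p - 1) := Real.rpow_pos_of_pos hN0 _
  have hfin : ∀ L : ℕ, ∫ x : TT, ‖win s (lamL τ L) N m x‖ ^ p
      ≤ C₁ * (K₁ + K₂) * (N : ℝ) ^ (s * p - 1) := by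
    intro L
    have hcV : ∀ j, Continuous fun x : TT => ‖VV s N m j (x - τ j)‖ ^ p := by
      intro j
      apply Continuous.rpow_const _ (fun _ => Or.inr hp.le)
      unfold VV PN
      fun_prop
    have h1 : ∀ x : TT, ‖win s (lamL τ L) N m x‖ ^ p
        ≤ ∑ j ∈ range L, ‖VV s N m j (x - τ j)‖ ^ p := by
      intro x
      have h2 : ‖win s (lamL τ L) N m x‖ ≤ ∑ j ∈ range L, ‖VV s N m j (x - τ j)‖ := by
        rw [win_lamL]
        refine (norm_sum_le _ _).trans (le_of_eq ?_)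
        refine Finset.sum_congr rfl fun j _ => ?_
        rw [norm_mul, norm_ee, one_mul]
      exact (Real.rpow_le_rpow (norm_nonneg _) h2 hp.le).trans
        (sum_rpow_le hp hp1.le _ _ fun _ _ => norm_nonneg _)
    have hcw : Continuous fun x : TT => ‖win s (lamL τ L) N m x‖ ^ p :=
      (continuous_win s _ N m).norm.rpow_const (fun _ => Or.inr hp.le)
    calc ∫ x : TT, ‖win s (lamL τ L) N m x‖ ^ p
        ≤ ∫ x : TT, ∑ j ∈ range L, ‖VV s N m j (x - τ j)‖ ^ p :=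
          integral_mono (integ hcw) (integ (continuous_finsetSum _ fun j _ => hcV j)) h1
      _ = ∑ j ∈ range L, ∫ x : TT, ‖VV s N m j (x - τ j)‖ ^ p :=
          integral_finsetSum _ fun j _ => integ (hcV j)
      _ ≤ ∑ j ∈ range L, C₁ * (N : ℝ) ^ (s * p - 1)
            * (kap N j ^ (s * p - 1) + kap (max m N) j ^ p) :=
          Finset.sum_le_sum fun j _ => hB N hN m j (τ j)
      _ = C₁ * (N : ℝ) ^ (s * p - 1) * (∑ j ∈ range L, kap N j ^ (s * p - 1)
            + ∑ j ∈ range L, kap (max m N) j ^ p) := by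
          rw [← Finset.mul_sum, Finset.sum_add_distrib]
      _ ≤ C₁ * (N : ℝ) ^ (s * p - 1) * (K₁ + K₂) := by
          apply mul_le_mul_of_nonneg_left _ (by positivity)
          exact add_le_add (hk1 _ hN0 L) (hk2 _ hT L)
      _ = _ := by ring
  have hlim : Tendsto (fun L => ∫ x : TT, ‖win s (lamL τ L) N m x‖ ^ p) atTop
      (𝓝 (∫ x : TT, ‖win s (lam τ) N m x‖ ^ p)) := by
    apply tendsto_integral_of_dominated_convergence (fun _ => ((N : ℝ) ^ s) ^ p)
    · intro L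
      exact ((continuous_win s _ N m).norm.rpow_const
        (fun _ => Or.inr hp.le)).aestronglyMeasurable
    · exact integrable_const _
    · intro L
      refine Filter.Eventually.of_forall fun x => ?_
      rw [Real.norm_of_nonneg (by positivity)]
      exact Real.rpow_le_rpow (norm_nonneg _) (norm_win_le τ s N m L x) hp.le
    · refine Filter.Eventually.of_forall fun x => ?_
      exact (tendsto_win τ s N m x).norm.rpow_const (Or.inr hp.le)
  exact le_of_tendsto' hlim hfin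

end MP63.Blk
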