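import Pool.Agent.Work.MP_63674d_an.BlkB

/-! Rotated blocks, part C: the covering condition is sufficient. -/

open MeasureTheory Finset Filter Topology

namespace MP63.Blk

theorem DD_move {N K : ℝ} (hN : 0 < N) (hK : 0 ≤ K) {x y c : TT} (h : ‖y - c‖ ≤ K / N) :
    DD (1 / N) (x - y) ≤ (1 + K) * DD (1 / N) (x - c) := by
  unfold DD
  have h1 : ‖x - c‖ ≤ ‖x - y‖ + K / N := by
    have e : x - c = (x - y) + (y - c) := by abel
    rw [e]
    exact (norm_add_le _ _).trans (by linarith)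
  have h2 : 0 < 1 / N := by positivity
  have h3 := norm_nonneg (x - y)
  have h4 := norm_nonneg (x - c)
  rw [← mul_div_assoc, div_le_div_iff₀ (by linarith) (by linarith)]
  have h5 : K / N = K * (1 / N) := by ring
  rw [h5] at h1
  nlinarith [mul_nonneg hK h3]

theorem suff {p : ℝ} (hp : 0 < p) (hp1 : p < 1) {s : ℕ} (hs : 1 < s * p) (τ : ℕ → TT) (K : ℕ)
    (hcov : ∀ J : ℕ, ∃ S : Finset TT, S.card ≤ K ∧ ∀ j, J ≤ j → ∃ c ∈ S,
      ‖τ j - c‖ ≤ K / MM (J + 1)) : ∃ C : ℝ, VC p s (lam τ) C := by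
  obtain ⟨C₁, hC₁, hD⟩ := int_DD (s * p) hs
  obtain ⟨K₁, hK₁, hk1⟩ := kap_sum (q := s * p - 1) (by linarith)
  obtain ⟨K₂, hK₂, hk2⟩ := kap_sum (q := 1) one_pos
  simp only [Real.rpow_one] at hk2
  set Q : ℝ := 2 * (1 + s) * (1 + K) ^ s * K₂ with hQ
  have hQ0 : 0 ≤ Q := by positivity
  refine ⟨2 ^ p * C₁ * K₁ + Q ^ p * (K * C₁), ?_⟩
  intro N hN T d hd hd1
  have hN0 : (0 : ℝ) < N := by exact_mod_cast hN
  have hNp : 0 < (N : ℝ) ^ (s * p - 1) := Real.rpow_pos_of_pos hN0 _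
  have hc0 : (0 : ℝ) < 1 / N := by positivity
  classical
  have hex : ∃ J, (N : ℝ) < MM (J + 1) := by
    obtain ⟨J, hJ⟩ := exists_lt_MM N
    exact ⟨J, hJ.trans_le (MM_mono (Nat.le_succ J))⟩
  set J := Nat.find hex with hJ
  have hJ1 : (N : ℝ) < MM (J + 1) := Nat.find_spec hex
  have hJ2 : ∀ i, i < J → MM (i + 1) ≤ N := fun i hi => not_lt.mp (Nat.find_min hex hi)
  obtain ⟨S, hS, hSc⟩ := hcov J
  set H : TT → ℝ := fun x => ∑ j ∈ range J, 2 * DD (1 / MM (j + 1)) (x - τ j) ^ s with hH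
  set G : TT → ℝ := fun x => Q * ∑ c ∈ S, DD (1 / N) (x - c) ^ s with hG
  have hA : ∀ j, 0 < 1 / MM (j + 1) := fun j => one_div_pos.mpr (MM_pos _)
  have hH0 : ∀ x, 0 ≤ H x := fun x => Finset.sum_nonneg fun j _ =>
    mul_nonneg (by norm_num) (pow_nonneg (DD_pos (hA j) _).le s)
  have hG0 : ∀ x, 0 ≤ G x := fun x => mul_nonneg hQ0 (Finset.sum_nonneg fun c _ =>
    pow_nonneg (DD_pos hc0 _).le s)
  have hbd : ∀ (m L : ℕ) (x : TT), ‖win s (lamL τ L) N m x‖ ≤ H x + G x := by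
    intro m L x
    have hT : (0 : ℝ) < max (m : ℝ) N := lt_max_of_lt_right hN0
    set Z := ∑ c ∈ S, DD (1 / N) (x - c) ^ s with hZ
    have hZ0 : 0 ≤ Z := Finset.sum_nonneg fun c _ => pow_nonneg (DD_pos hc0 _).le s
    have h1 : ∀ j ∈ range L, ‖ee (-(m : ℤ)) (τ j) * VV s N m j (x - τ j)‖
        ≤ (if j < J then 2 * DD (1 / MM (j + 1)) (x - τ j) ^ s else 0)
          + (2 * (1 + s) * (1 + K) ^ s * Z) * kap (max m N) j := by
      intro j _
      rw [norm_mul, norm_ee, one_mul]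
      have hk := kap_nonneg hT j
      by_cases hj : j < J
      · rw [if_pos hj]
        have h2 := VV_three s N m j (x - τ j)
        have h3 : 0 ≤ (2 * (1 + s) * (1 + K) ^ s * Z) * kap (max m N) j := by positivity
        linarith
      · rw [if_neg hj, zero_add]
        have hj' : J ≤ j := not_lt.mp hj
        have h2 := VV_high (s := s) hN m j (hJ1.trans_le (MM_mono (by omega))) (x - τ j)
        obtain ⟨c, hcS, hc⟩ := hSc j hj'
        have h3 : ‖τ j - c‖ ≤ K / N := by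
          refine hc.trans ?_
          exact div_le_div_of_nonneg_left (by positivity) hN0 hJ1.le
        have h4 := DD_move (x := x) hN0 (by positivity : (0 : ℝ) ≤ K) h3
        have h5 : DD (1 / N) (x - τ j) ^ s ≤ (1 + K) ^ s * Z := by
          calc DD (1 / N) (x - τ j) ^ s ≤ ((1 + K) * DD (1 / N) (x - c)) ^ s :=
                pow_le_pow_left₀ (DD_pos hc0 _).le h4 s
            _ = (1 + K) ^ s * DD (1 / N) (x - c) ^ s := mul_pow _ _ _
            _ ≤ (1 + K) ^ s * Z := by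
                apply mul_le_mul_of_nonneg_left _ (by positivity)
                exact Finset.single_le_sum (f := fun c => DD (1 / (N : ℝ)) (x - c) ^ s)
                  (fun c _ => pow_nonneg (DD_pos hc0 _).le s) hcS
        have h6 : (0 : ℝ) ≤ 2 * (1 + s) * kap (max m N) j := by positivity
        calc ‖VV s N m j (x - τ j)‖ ≤ 2 * (1 + s) * kap (max m N) j * DD (1 / N) (x - τ j) ^ s := h2
          _ ≤ 2 * (1 + s) * kap (max m N) j * ((1 + K) ^ s * Z) := mul_le_mul_of_nonneg_left h5 h6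
          _ = _ := by ring
    rw [win_lamL]
    refine (norm_sum_le _ _).trans ((Finset.sum_le_sum h1).trans ?_)
    rw [Finset.sum_add_distrib, ← Finset.mul_sum]
    apply add_le_add
    · rw [← Finset.sum_filter]
      apply Finset.sum_le_sum_of_subset_of_nonneg
      · intro j hj
        rw [Finset.mem_filter] at hj
        exact Finset.mem_range.mpr hj.2
      · intro j _ _
        exact mul_nonneg (by norm_num) (pow_nonneg (DD_pos (hA j) _).le s)
    · have h7 := hk2 _ hT L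
      have h8 : 0 ≤ 2 * (1 + (s : ℝ)) * (1 + K) ^ s * Z := by positivity
      calc 2 * (1 + (s : ℝ)) * (1 + K) ^ s * Z * ∑ j ∈ range L, kap (max m N) j
          ≤ 2 * (1 + (s : ℝ)) * (1 + K) ^ s * Z * K₂ := mul_le_mul_of_nonneg_left h7 h8
        _ = G x := by simp only [hG, hQ, hZ]; ring
  have hbd' : ∀ (m : ℕ) (x : TT), ‖win s (lam τ) N m x‖ ≤ H x + G x := fun m x =>
    le_of_tendsto' (tendsto_win τ s N m x).norm fun L => hbd m L x
  have hpt : ∀ x : TT, (∑ m ∈ T, d m * ‖win s (lam τ) N m x‖ ^ 2) ^ (p / 2)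
      ≤ ∑ j ∈ range J, 2 ^ p * DD (1 / MM (j + 1)) (x - τ j) ^ (s * p)
        + ∑ c ∈ S, Q ^ p * DD (1 / N) (x - c) ^ (s * p) := by
    intro x
    have hHG : 0 ≤ H x + G x := add_nonneg (hH0 x) (hG0 x)
    have h1 : ∑ m ∈ T, d m * ‖win s (lam τ) N m x‖ ^ 2 ≤ (H x + G x) ^ 2 := by
      calc ∑ m ∈ T, d m * ‖win s (lam τ) N m x‖ ^ 2 ≤ ∑ m ∈ T, d m * (H x + G x) ^ 2 := by
            refine Finset.sum_le_sum fun m hm => ?_
            exact mul_le_mul_of_nonneg_left (pow_le_pow_left₀ (norm_nonneg _) (hbd' m x) 2) (hd m hm)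
        _ = (H x + G x) ^ 2 := by rw [← Finset.sum_mul, hd1, one_mul]
    have h2 : 0 ≤ ∑ m ∈ T, d m * ‖win s (lam τ) N m x‖ ^ 2 :=
      Finset.sum_nonneg fun m hm => mul_nonneg (hd m hm) (by positivity)
    have h3 : (∑ m ∈ T, d m * ‖win s (lam τ) N m x‖ ^ 2) ^ (p / 2) ≤ (H x + G x) ^ p := by
      calc _ ≤ ((H x + G x) ^ 2) ^ (p / 2) := Real.rpow_le_rpow h2 h1 (by positivity)
        _ = (H x + G x) ^ p := by
            rw [← Real.rpow_natCast, ← Real.rpow_mul hHG]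
            congr 1
            push_cast
            ring
    have h4 : (H x) ^ p ≤ ∑ j ∈ range J, 2 ^ p * DD (1 / MM (j + 1)) (x - τ j) ^ (s * p) := by
      refine (sum_rpow_le hp hp1.le _ _ fun j _ =>
        mul_nonneg (by norm_num) (pow_nonneg (DD_pos (hA j) _).le s)).trans (le_of_eq ?_)
      refine Finset.sum_congr rfl fun j _ => ?_
      rw [Real.mul_rpow (by norm_num) (pow_nonneg (DD_pos (hA j) _).le s), DD_pow_rpow (hA j)]
    have h5 : (G x) ^ p ≤ ∑ c ∈ S, Q ^ p * DD (1 / N) (x - c) ^ (s * p) := by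
      have hZ0 : 0 ≤ ∑ c ∈ S, DD (1 / N) (x - c) ^ s :=
        Finset.sum_nonneg fun c _ => pow_nonneg (DD_pos hc0 _).le s
      simp only [hG]
      rw [Real.mul_rpow hQ0 hZ0, ← Finset.mul_sum]
      apply mul_le_mul_of_nonneg_left _ (Real.rpow_nonneg hQ0 p)
      refine (sum_rpow_le hp hp1.le _ _ fun c _ => pow_nonneg (DD_pos hc0 _).le s).trans
        (le_of_eq ?_)
      refine Finset.sum_congr rfl fun c _ => ?_
      rw [DD_pow_rpow hc0]
    have h6 := add_rpow_le hp hp1.le (hH0 x) (hG0 x)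
    linarith
  have hc1 : Continuous fun x : TT => ∑ j ∈ range J, 2 ^ p * DD (1 / MM (j + 1)) (x - τ j) ^ (s * p) :=
    continuous_finsetSum _ fun j _ => continuous_const.mul (continuous_DD_pow (hA j) _)
  have hc2 : Continuous fun x : TT => ∑ c ∈ S, Q ^ p * DD (1 / (N : ℝ)) (x - c) ^ (s * p) :=
    continuous_finsetSum _ fun c _ => continuous_const.mul (continuous_DD_pow hc0 _)
  have hcl : Continuous fun x : TT => (∑ m ∈ T, d m * ‖win s (lam τ) N m x‖ ^ 2) ^ (p / 2) := by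
    apply Continuous.rpow_const _ (fun _ => Or.inr (by positivity))
    apply continuous_finsetSum
    intro m _
    exact continuous_const.mul ((continuous_win s _ N m).norm.pow 2)
  have hI1 : ∫ x : TT, ∑ j ∈ range J, 2 ^ p * DD (1 / MM (j + 1)) (x - τ j) ^ (s * p)
      ≤ 2 ^ p * C₁ * K₁ * (N : ℝ) ^ (s * p - 1) := by
    have hint : ∀ j ∈ range J, Integrable fun x : TT =>
        2 ^ p * DD (1 / MM (j + 1)) (x - τ j) ^ (s * p) := fun j _ =>
      integ (continuous_const.mul (continuous_DD_pow (hA j) _))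
    rw [integral_finsetSum _ hint]
    calc ∑ j ∈ range J, ∫ x : TT, 2 ^ p * DD (1 / MM (j + 1)) (x - τ j) ^ (s * p)
        ≤ ∑ j ∈ range J, 2 ^ p * (C₁ * ((N : ℝ) ^ (s * p - 1) * kap N j ^ (s * p - 1))) := by
          refine Finset.sum_le_sum fun j hj => ?_
          rw [integral_const_mul, ← MM_rpow hN (hJ2 j (Finset.mem_range.mp hj))]
          exact mul_le_mul_of_nonneg_left (hD _ (MM_pos _) _) (by positivity)
      _ = 2 ^ p * C₁ * (N : ℝ) ^ (s * p - 1) * ∑ j ∈ range J, kap N j ^ (s * p - 1) := by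
          rw [Finset.mul_sum]
          refine Finset.sum_congr rfl fun j _ => ?_
          ring
      _ ≤ 2 ^ p * C₁ * (N : ℝ) ^ (s * p - 1) * K₁ :=
          mul_le_mul_of_nonneg_left (hk1 _ hN0 J) (by positivity)
      _ = _ := by ring
  have hI2 : ∫ x : TT, ∑ c ∈ S, Q ^ p * DD (1 / (N : ℝ)) (x - c) ^ (s * p)
      ≤ Q ^ p * (K * C₁) * (N : ℝ) ^ (s * p - 1) := by
    have hint : ∀ c ∈ S, Integrable fun x : TT =>
        Q ^ p * DD (1 / (N : ℝ)) (x - c) ^ (s * p) := fun c _ =>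
      integ (continuous_const.mul (continuous_DD_pow hc0 _))
    rw [integral_finsetSum _ hint]
    calc ∑ c ∈ S, ∫ x : TT, Q ^ p * DD (1 / (N : ℝ)) (x - c) ^ (s * p)
        ≤ ∑ c ∈ S, Q ^ p * (C₁ * (N : ℝ) ^ (s * p - 1)) := by
          refine Finset.sum_le_sum fun c _ => ?_
          rw [integral_const_mul]
          exact mul_le_mul_of_nonneg_left (hD _ hN0 _) (by positivity)
      _ = (S.card : ℝ) * (Q ^ p * (C₁ * (N : ℝ) ^ (s * p - 1))) := by simp
      _ ≤ K * (Q ^ p * (C₁ * (N : ℝ) ^ (s * p - 1))) := by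
          apply mul_le_mul_of_nonneg_right _ (by positivity)
          exact_mod_cast hS
      _ = _ := by ring
  calc ∫ x : TT, (∑ m ∈ T, d m * ‖win s (lam τ) N m x‖ ^ 2) ^ (p / 2)
      ≤ ∫ x : TT, (∑ j ∈ range J, 2 ^ p * DD (1 / MM (j + 1)) (x - τ j) ^ (s * p)
        + ∑ c ∈ S, Q ^ p * DD (1 / (N : ℝ)) (x - c) ^ (s * p)) :=
        integral_mono (integ hcl) (integ (hc1.add hc2)) hpt
    _ = _ := integral_add (integ hc1) (integ hc2)
    _ ≤ 2 ^ p * C₁ * K₁ * (N : ℝ) ^ (s * p - 1) + Q ^ p * (K * C₁) * (N : ℝ) ^ (s * p - 1) :=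
        add_le_add hI1 hI2
    _ = _ := by ring

end MP63.Blk
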