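import Pool.Agent.Work.MP_63674d_an.BlkC

/-! Rotated blocks, part D: the covering condition is necessary. -/

open MeasureTheory Finset Filter Topology

namespace MP63.Blk

theorem lam_close (τ : ℕ → TT) (n j : ℕ) :
    ‖lam τ n - ee (-(n : ℤ)) (τ j)‖ ≤ 2 * (1 - gg n j) := by
  have h1 : ∀ᶠ L in atTop, ‖lamL τ L n - ee (-(n : ℤ)) (τ j)‖ ≤ 2 * (1 - gg n j) := by
    filter_upwards [eventually_gt_atTop j] with L hL
    have hj : j ∈ range L := Finset.mem_range.mpr hL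
    have h2 := gg_sum_le n L
    rw [← Finset.add_sum_erase _ _ hj] at h2
    have e : lamL τ L n - ee (-(n : ℤ)) (τ j)
        = -((1 - gg n j : ℝ) : ℂ) * ee (-(n : ℤ)) (τ j)
          + ∑ i ∈ (range L).erase j, (gg n i : ℂ) * ee (-(n : ℤ)) (τ i) := by
      unfold lamL
      rw [← Finset.add_sum_erase _ _ hj]
      push_cast
      ring
    rw [e]
    have h3 : 0 ≤ ∑ i ∈ (range L).erase j, gg n i := Finset.sum_nonneg fun i _ => gg_nonneg n i
    have h4 : ‖-((1 - gg n j : ℝ) : ℂ) * ee (-(n : ℤ)) (τ j)‖ = 1 - gg n j := by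
      rw [norm_mul, norm_ee, mul_one, norm_neg, Complex.norm_real, Real.norm_of_nonneg (by linarith)]
    have h5 : ‖∑ i ∈ (range L).erase j, (gg n i : ℂ) * ee (-(n : ℤ)) (τ i)‖
        ≤ ∑ i ∈ (range L).erase j, gg n i := by
      refine (norm_sum_le _ _).trans (le_of_eq ?_)
      exact Finset.sum_congr rfl fun i _ => norm_term τ n i
    have h6 := norm_add_le (-((1 - gg n j : ℝ) : ℂ) * ee (-(n : ℤ)) (τ j))
      (∑ i ∈ (range L).erase j, (gg n i : ℂ) * ee (-(n : ℤ)) (τ i))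
    linarith
  have h2 : Tendsto (fun L => ‖lamL τ L n - ee (-(n : ℤ)) (τ j)‖) atTop
      (𝓝 ‖lam τ n - ee (-(n : ℤ)) (τ j)‖) := ((tendsto_lamL τ n).sub_const _).norm
  exact le_of_tendsto h2 h1

theorem one_sub_gg (n j : ℕ) (hn : 1 ≤ n) : 1 - gg n j ≤ n / MM (j + 1) + MM j / n := by
  have h1 := rr_pow_le j n hn
  have h2 : 1 - n / MM (j + 1) ≤ rr (j + 1) ^ n := by
    have h3 := one_add_mul_le_pow (a := -(1 / MM (j + 1))) (by
      have := one_sub_rr (j + 1)
      have h4 := rr_nonneg (j + 1)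
      linarith) n
    have e : rr (j + 1) = 1 + -(1 / MM (j + 1)) := by rw [rr_eq]; ring
    rw [e]
    calc 1 - n / MM (j + 1) = 1 + n * -(1 / MM (j + 1)) := by ring
      _ ≤ _ := h3
  unfold gg
  linarith

theorem sum_id_le (N : ℕ) : ∑ i ∈ range N, (i : ℝ) ≤ (N : ℝ) ^ 2 / 2 := by
  induction N with
  | zero => simp
  | succ n ih =>
    rw [Finset.sum_range_succ]
    push_cast
    nlinarith

theorem PN_lower {N : ℕ} (hN : 1 ≤ N) {z : ℂ} (hz : ‖z‖ ≤ 1) (h : ‖z - 1‖ ≤ 1 / N) :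
    (N : ℝ) / 2 ≤ ‖PN N z‖ := by
  have hN0 : (0 : ℝ) < N := by exact_mod_cast hN
  have h1 : ‖PN N z - N‖ ≤ (N : ℝ) / 2 := by
    have e : PN N z - N = ∑ i ∈ range N, (z ^ i - 1 ^ i) := by
      unfold PN; simp
    rw [e]
    refine (norm_sum_le _ _).trans ?_
    calc ∑ i ∈ range N, ‖z ^ i - 1 ^ i‖ ≤ ∑ i ∈ range N, (i : ℝ) * (1 / N) := by
          refine Finset.sum_le_sum fun i _ => ?_
          have h2 := pow_sub_pow_le (a := z) (b := 1) (B := 1) hz (by simp) i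
          simp only [one_pow, mul_one] at h2 ⊢
          exact h2.trans (mul_le_mul_of_nonneg_left h (by positivity))
      _ = (∑ i ∈ range N, (i : ℝ)) * (1 / N) := by rw [Finset.sum_mul]
      _ ≤ ((N : ℝ) ^ 2 / 2) * (1 / N) := mul_le_mul_of_nonneg_right (sum_id_le N) (by positivity)
      _ = N / 2 := by field_simp
  have h2 : ‖(N : ℂ)‖ ≤ ‖PN N z‖ + ‖PN N z - N‖ := by
    have e : (N : ℂ) = PN N z - (PN N z - N) := by ring
    calc ‖(N : ℂ)‖ = ‖PN N z - (PN N z - N)‖ := by rw [← e]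
      _ ≤ _ := norm_sub_le _ _
  rw [Complex.norm_natCast] at h2
  linarith

/-- windows inside block `j` -/
theorem win_lower (τ : ℕ → TT) {s N m j : ℕ} (hN : 1 ≤ N) {δ : ℝ}
    (hδ : ∀ k, k ≤ s * (N - 1) → ‖lam τ (m + k) - ee (-((m + k : ℕ) : ℤ)) (τ j)‖ ≤ δ)
    {x : TT} (hx : ‖ee 1 (x - τ j) - 1‖ ≤ 1 / N) :
    (N : ℝ) ^ s * (1 / 2 ^ s - δ) ≤ ‖win s (lam τ) N m x‖ := by
  have h1 := PN_lower hN (norm_ee 1 (x - τ j)).le hx
  have h2 : ‖win s (lam τ) N m x - ee (-(m : ℤ)) (τ j) * PN N (ee 1 (x - τ j)) ^ s‖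
      ≤ δ * (N : ℝ) ^ s := by
    rw [← bc_eval, Finset.mul_sum]
    unfold win
    rw [← Finset.sum_sub_distrib]
    refine (norm_sum_le _ _).trans ?_
    rw [← bc_sum, Finset.mul_sum]
    refine Finset.sum_le_sum fun k hk => ?_
    have h3 : ee (-((m + k : ℕ) : ℤ)) (τ j) * ee k x
        = ee (-(m : ℤ)) (τ j) * (ee 1 (x - τ j)) ^ k := by
      rw [← ee_nat_pow, ee_sub_right]
      have : (-((m + k : ℕ) : ℤ)) = -(m : ℤ) + -(k : ℤ) := by push_cast; ring
      rw [this, ee_add]; ring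
    have e : (bc s N k : ℂ) * lam τ (m + k) * ee k x
        - ee (-(m : ℤ)) (τ j) * ((bc s N k : ℂ) * ee 1 (x - τ j) ^ k)
        = (bc s N k : ℂ) * ((lam τ (m + k) - ee (-((m + k : ℕ) : ℤ)) (τ j)) * ee k x) := by
      linear_combination (-(bc s N k : ℂ)) * (-1) * h3
    rw [e, norm_mul, norm_mul, norm_ee, mul_one, Complex.norm_natCast, mul_comm]
    apply mul_le_mul_of_nonneg_right _ (by positivity)
    exact hδ k (by have := Finset.mem_range.mp hk; omega)
  have h3 : ‖ee (-(m : ℤ)) (τ j) * PN N (ee 1 (x - τ j)) ^ s‖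
      ≤ ‖win s (lam τ) N m x‖
        + ‖win s (lam τ) N m x - ee (-(m : ℤ)) (τ j) * PN N (ee 1 (x - τ j)) ^ s‖ := by
    set a := ee (-(m : ℤ)) (τ j) * PN N (ee 1 (x - τ j)) ^ s
    set b := win s (lam τ) N m x
    calc ‖a‖ = ‖b - (b - a)‖ := by congr 1; ring
      _ ≤ _ := norm_sub_le _ _
  rw [norm_mul, norm_ee, one_mul, norm_pow] at h3
  have h4 : ((N : ℝ) / 2) ^ s ≤ ‖PN N (ee 1 (x - τ j))‖ ^ s :=
    pow_le_pow_left₀ (by positivity) h1 s
  rw [div_pow] at h4
  have h5 : (N : ℝ) ^ s / 2 ^ s = (N : ℝ) ^ s * (1 / 2 ^ s) := by ring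
  rw [h5] at h4
  linarith

/-- the bump -/
noncomputable def bump (N : ℕ) (x : TT) : ℝ := max 0 (1 - N * ‖ee 1 x - 1‖)

theorem continuous_bump (N : ℕ) (c : TT) : Continuous fun x => bump N (x - c) := by
  unfold bump; fun_prop

theorem bump_nonneg (N : ℕ) (x : TT) : 0 ≤ bump N x := le_max_left _ _

theorem bump_le (N : ℕ) (x : TT) : bump N x ≤ 1 := by
  unfold bump
  apply max_le zero_le_one
  have : 0 ≤ (N : ℝ) * ‖ee 1 x - 1‖ := by positivity
  linarith

theorem bump_pos {N : ℕ} (hN : 1 ≤ N) {x : TT} (h : 0 < bump N x) : ‖ee 1 x - 1‖ < 1 / N := by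
  have hN0 : (0 : ℝ) < N := by exact_mod_cast hN
  unfold bump at h
  rcases lt_max_iff.mp h with h | h
  · exact absurd h (lt_irrefl _)
  · rw [lt_div_iff₀ hN0]
    linarith

theorem int_bump {N : ℕ} (hN : 1 ≤ N) (c : TT) : 1 / (32 * N) ≤ ∫ x : TT, bump N (x - c) := by
  have hN0 : (0 : ℝ) < N := by exact_mod_cast hN
  have hN1 : (1 : ℝ) ≤ N := by exact_mod_cast hN
  rw [integral_sub_right_eq_self (fun x : TT => bump N x) c]
  have h := AddCircle.intervalIntegral_preimage (1 : ℝ) 0 (fun x : TT => bump N x)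
  rw [← h, zero_add]
  have hcb : Continuous fun y : ℝ => bump N (y : TT) := by
    have h0 : Continuous fun x : TT => bump N x := by
      unfold bump; fun_prop
    exact h0.comp (AddCircle.continuous_mk' 1)
  set w : ℝ := 1 / (4 * Real.pi * N) with hw
  have hw0 : 0 < w := by positivity
  have hw1 : w ≤ 1 := by
    rw [hw, div_le_one (by positivity)]
    have := Real.pi_gt_three
    nlinarith
  have h1 : ∫ y in (0 : ℝ)..w, (1 / 2 : ℝ) ≤ ∫ y in (0 : ℝ)..w, bump N (y : TT) := by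
    apply intervalIntegral.integral_mono_on hw0.le (by simp) (hcb.intervalIntegrable _ _)
    intro y hy
    have h2 : ‖(y : TT)‖ ≤ |y| := by
      have := QuotientAddGroup.norm_mk_le_norm (S := AddSubgroup.zmultiples (1 : ℝ)) (m := y)
      simpa using this
    have h3 := norm_one_sub_ee_le (y : TT)
    rw [abs_of_nonneg hy.1] at h2
    have h4 : ‖ee 1 (y : TT) - 1‖ ≤ 1 / (2 * N) := by
      rw [norm_sub_rev]
      calc ‖1 - ee 1 (y : TT)‖ ≤ 2 * Real.pi * ‖(y : TT)‖ := h3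
        _ ≤ 2 * Real.pi * w := by
            apply mul_le_mul_of_nonneg_left (h2.trans hy.2) (by positivity)
        _ = 1 / (2 * N) := by rw [hw]; field_simp; ring
    unfold bump
    refine le_trans ?_ (le_max_right _ _)
    have h5 : (N : ℝ) * ‖ee 1 (y : TT) - 1‖ ≤ N * (1 / (2 * N)) :=
      mul_le_mul_of_nonneg_left h4 hN0.le
    have h6 : (N : ℝ) * (1 / (2 * N)) = 1 / 2 := by field_simp
    linarith
  have h2 : ∫ y in (0 : ℝ)..w, bump N (y : TT) ≤ ∫ y in (0 : ℝ)..1, bump N (y : TT) := by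
    rw [← intervalIntegral.integral_add_adjacent_intervals (b := w)
      (hcb.intervalIntegrable 0 w) (hcb.intervalIntegrable w 1)]
    have : 0 ≤ ∫ y in w..1, bump N (y : TT) :=
      intervalIntegral.integral_nonneg hw1 fun y _ => bump_nonneg N _
    linarith
  have h3 : ∫ y in (0 : ℝ)..w, (1 / 2 : ℝ) = w / 2 := by simp; ring
  have h4 : 1 / (32 * (N : ℝ)) ≤ w / 2 := by
    rw [hw, div_div]
    apply one_div_le_one_div_of_le (by positivity)
    have := Real.pi_le_four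
    nlinarith
  linarith

theorem ee_sub_norm (x c : TT) : ‖ee 1 (x - c) - 1‖ = ‖ee 1 x - ee 1 c‖ := by
  have e : ee 1 x - ee 1 c = ee 1 c * (ee 1 (x - c) - 1) := by
    have : ee 1 x = ee 1 c * ee 1 (x - c) := by
      rw [← ee_add_right]; congr 1; abel
    rw [this]; ring
  rw [e, norm_mul, norm_ee, one_mul]

/-- the counting estimate for separated rotations -/
theorem count {p : ℝ} (hp : 0 < p) {s : ℕ} (hs : 1 < s * p) (τ : ℕ → TT) {C : ℝ}
    (hV : VC p s (lam τ) C) {N : ℕ} (hN : 1 ≤ N) (F : Finset ℕ) (pos : ℕ → ℕ)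
    (hinj : Set.InjOn pos F) (hF : F.Nonempty)
    (hw : ∀ j ∈ F, ∀ x : TT, ‖ee 1 (x - τ j) - 1‖ ≤ 1 / N →
      (N : ℝ) ^ s * (1 / 2 ^ (s + 1)) ≤ ‖win s (lam τ) N (pos j) x‖)
    (hsep : ∀ j ∈ F, ∀ k ∈ F, j ≠ k → 2 / (N : ℝ) ≤ ‖ee 1 (τ j) - ee 1 (τ k)‖) :
    (F.card : ℝ) ^ (1 - p / 2) ≤ 32 * C * (2 ^ (s + 1)) ^ p := by
  classical
  have hN0 : (0 : ℝ) < N := by exact_mod_cast hN
  have hn : 0 < F.card := hF.card_pos
  have hn0 : (0 : ℝ) < F.card := by exact_mod_cast hn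
  set n : ℝ := (F.card : ℝ) with hndef
  set S := F.image pos with hS
  have hsum : ∀ f : ℕ → ℝ, ∑ m ∈ S, f m = ∑ j ∈ F, f (pos j) := fun f =>
    Finset.sum_image fun a ha b hb hab => hinj ha hb hab
  have hup := hV N hN S (fun _ => 1 / n) (fun _ _ => by positivity) (by
    rw [hsum]; simp [hndef]; field_simp)
  set κ : ℝ := (1 / n * ((N : ℝ) ^ s * (1 / 2 ^ (s + 1))) ^ 2) ^ (p / 2) with hκ
  have hκ0 : 0 ≤ κ := by positivity
  have hlow : ∀ x : TT, ∑ j ∈ F, κ * bump N (x - τ j)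
      ≤ (∑ m ∈ S, 1 / n * ‖win s (lam τ) N m x‖ ^ 2) ^ (p / 2) := by
    intro x
    by_cases hz : ∀ j ∈ F, bump N (x - τ j) = 0
    · rw [Finset.sum_eq_zero fun j hj => by rw [hz j hj, mul_zero]]
      apply Real.rpow_nonneg
      exact Finset.sum_nonneg fun m _ => by positivity
    · push Not at hz
      obtain ⟨j, hj, hjb⟩ := hz
      have hjp : 0 < bump N (x - τ j) := lt_of_le_of_ne (bump_nonneg _ _) (Ne.symm hjb)
      have hj1 := bump_pos hN hjp
      have hoth : ∀ k ∈ F, k ≠ j → κ * bump N (x - τ k) = 0 := by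
        intro k hk hkj
        by_contra hne
        have hkp : 0 < bump N (x - τ k) := by
          refine lt_of_le_of_ne (bump_nonneg _ _) ?_
          intro h0
          apply hne
          rw [← h0, mul_zero]
        have hk1 := bump_pos hN hkp
        rw [ee_sub_norm] at hj1 hk1
        have h1 := hsep j hj k hk hkj.symm
        have h2 : ‖ee 1 (τ j) - ee 1 (τ k)‖ ≤ ‖ee 1 x - ee 1 (τ j)‖ + ‖ee 1 x - ee 1 (τ k)‖ := by
          have e : ee 1 (τ j) - ee 1 (τ k)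
              = -(ee 1 x - ee 1 (τ j)) + (ee 1 x - ee 1 (τ k)) := by ring
          rw [e]
          refine (norm_add_le _ _).trans ?_
          rw [norm_neg]
        have h3 : 2 / (N : ℝ) = 1 / N + 1 / N := by ring
        linarith
      rw [Finset.sum_eq_single_of_mem j hj hoth]
      have h4 : κ * bump N (x - τ j) ≤ κ * 1 := mul_le_mul_of_nonneg_left (bump_le _ _) hκ0
      rw [mul_one] at h4
      refine h4.trans ?_
      apply Real.rpow_le_rpow (by positivity) _ (by positivity)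
      have h5 := hw j hj x hj1.le
      calc 1 / n * ((N : ℝ) ^ s * (1 / 2 ^ (s + 1))) ^ 2
          ≤ 1 / n * ‖win s (lam τ) N (pos j) x‖ ^ 2 := by
            apply mul_le_mul_of_nonneg_left _ (by positivity)
            exact pow_le_pow_left₀ (by positivity) h5 2
        _ ≤ ∑ m ∈ S, 1 / n * ‖win s (lam τ) N m x‖ ^ 2 :=
            Finset.single_le_sum (f := fun m => 1 / n * ‖win s (lam τ) N m x‖ ^ 2)
              (fun m _ => by positivity) (Finset.mem_image_of_mem pos hj)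
  have hcb : Continuous fun x : TT => ∑ j ∈ F, κ * bump N (x - τ j) :=
    continuous_finsetSum _ fun j _ => continuous_const.mul (continuous_bump N _)
  have hcl : Continuous fun x : TT =>
      (∑ m ∈ S, 1 / n * ‖win s (lam τ) N m x‖ ^ 2) ^ (p / 2) := by
    apply Continuous.rpow_const _ (fun _ => Or.inr (by positivity))
    apply continuous_finsetSum
    intro m _
    exact continuous_const.mul ((continuous_win s _ N m).norm.pow 2)
  have h1 : n * (κ * (1 / (32 * N))) ≤ C * (N : ℝ) ^ (s * p - 1) := by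
    have hint : ∀ j ∈ F, Integrable fun x : TT => κ * bump N (x - τ j) := fun j _ =>
      integ (continuous_const.mul (continuous_bump N _))
    calc n * (κ * (1 / (32 * N))) = ∑ j ∈ F, κ * (1 / (32 * N)) := by simp [hndef]
      _ ≤ ∑ j ∈ F, ∫ x : TT, κ * bump N (x - τ j) := by
          refine Finset.sum_le_sum fun j _ => ?_
          rw [integral_const_mul]
          exact mul_le_mul_of_nonneg_left (int_bump hN _) hκ0
      _ = ∫ x : TT, ∑ j ∈ F, κ * bump N (x - τ j) := (integral_finsetSum _ hint).symm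
      _ ≤ ∫ x : TT, (∑ m ∈ S, 1 / n * ‖win s (lam τ) N m x‖ ^ 2) ^ (p / 2) :=
          integral_mono (integ hcb) (integ hcl) hlow
      _ ≤ _ := hup
  have h2 : κ = n ^ (-(p / 2)) * ((N : ℝ) ^ (s * p) * ((2 ^ (s + 1)) ^ p)⁻¹) := by
    rw [hκ, Real.mul_rpow (by positivity) (by positivity)]
    congr 1
    · rw [one_div, Real.inv_rpow hn0.le, Real.rpow_neg hn0.le]
    · rw [← Real.rpow_natCast (((N : ℝ) ^ s * (1 / 2 ^ (s + 1)))) 2,
        ← Real.rpow_mul (by positivity)]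
      have : ((2 : ℕ) : ℝ) * (p / 2) = p := by push_cast; ring
      rw [this, Real.mul_rpow (by positivity) (by positivity), one_div,
        Real.inv_rpow (by positivity)]
      congr 1
      rw [← Real.rpow_natCast, ← Real.rpow_mul hN0.le]
  rw [h2] at h1
  have hP : 0 < (N : ℝ) ^ (s * p - 1) := Real.rpow_pos_of_pos hN0 _
  have h3 : (N : ℝ) ^ (s * p) = (N : ℝ) ^ (s * p - 1) * N := by
    rw [← Real.rpow_add_one hN0.ne']; congr 1; ring
  have h4 : n ^ (1 - p / 2) = n * n ^ (-(p / 2)) := by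
    rw [sub_eq_add_neg, Real.rpow_add hn0, Real.rpow_one]
  have h5 : n * (n ^ (-(p / 2)) * ((N : ℝ) ^ (s * p) * ((2 ^ (s + 1)) ^ p)⁻¹) * (1 / (32 * N)))
      = (n ^ (1 - p / 2) * (((2 : ℝ) ^ (s + 1)) ^ p)⁻¹ * (1 / 32)) * (N : ℝ) ^ (s * p - 1) := by
    rw [h3, h4]
    field_simp
  rw [h5] at h1
  have h6 := le_of_mul_le_mul_right h1 hP
  have hQ : (0 : ℝ) < ((2 : ℝ) ^ (s + 1)) ^ p := by positivity
  have h7 : n ^ (1 - p / 2) = (n ^ (1 - p / 2) * (((2 : ℝ) ^ (s + 1)) ^ p)⁻¹ * (1 / 32))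
      * (32 * ((2 : ℝ) ^ (s + 1)) ^ p) := by
    field_simp
  rw [h7]
  calc _ ≤ C * (32 * ((2 : ℝ) ^ (s + 1)) ^ p) := mul_le_mul_of_nonneg_right h6 (by positivity)
    _ = _ := by ring

end MP63.Blk
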