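import Pool.Agent.Work.MP_63674d_an.PolyHp

/-! Module L: multipliers of `H^p` are exactly the bounded ones on polynomials (gliding hump). -/

open MeasureTheory Finset

namespace MP63

/-- `a` is the coefficient sequence of a function in `H^p` of the unit disc. -/
def MemHp (p : ℝ) (a : ℕ → ℂ) : Prop :=
  (∀ z : ℂ, ‖z‖ < 1 → Summable fun n => a n * z ^ n) ∧
  ∃ C : ℝ, ∀ r : ℝ, 0 < r → r < 1 →
    ∫ θ in (0 : ℝ)..(2 * Real.pi),
      ‖∑' n, a n * ((r : ℂ) * Complex.exp (θ * Complex.I)) ^ n‖ ^ p ≤ C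

/-- coefficient multipliers of `H^p` into itself -/
def IsMult (p : ℝ) (l : ℕ → ℂ) : Prop := ∀ a, MemHp p a → MemHp p (fun n => l n * a n)

/-- The sum of the Fourier series with coefficients `a`. -/
noncomputable def ev (a : ℕ → ℂ) (x : TT) : ℂ := ∑' n : ℕ, a n * ee n x

/-- The `p`-mean of `ev a`. -/
noncomputable def np (p : ℝ) (a : ℕ → ℂ) : ℝ := ∫ x : TT, ‖ev a x‖ ^ p

/-- The dilated coefficients. -/
noncomputable def sc (r : ℝ) (a : ℕ → ℂ) (n : ℕ) : ℂ := a n * (r : ℂ) ^ n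

theorem norm_sc {r : ℝ} (hr : 0 ≤ r) (a : ℕ → ℂ) (n : ℕ) : ‖sc r a n‖ = ‖a n‖ * r ^ n := by
  unfold sc
  rw [norm_mul, norm_pow, Complex.norm_real, Real.norm_of_nonneg hr]

theorem np_nonneg (p : ℝ) (a : ℕ → ℂ) : 0 ≤ np p a := integral_nonneg fun _ => by positivity

theorem continuous_ev {a : ℕ → ℂ} (ha : Summable fun n => ‖a n‖) : Continuous (ev a) := by
  unfold ev
  refine continuous_tsum (fun n => by fun_prop) ha ?_
  intro n x
  rw [norm_mul, norm_ee, mul_one]

theorem continuous_ev_rpow {p : ℝ} (hp : 0 < p) {a : ℕ → ℂ} (ha : Summable fun n => ‖a n‖) :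
    Continuous fun x => ‖ev a x‖ ^ p :=
  (continuous_ev ha).norm.rpow_const (fun _ => Or.inr hp.le)

theorem summable_ev {a : ℕ → ℂ} (ha : Summable fun n => ‖a n‖) (x : TT) :
    Summable fun n : ℕ => a n * ee n x := by
  refine Summable.of_norm ?_
  refine ha.congr fun n => ?_
  rw [norm_mul, norm_ee, mul_one]

theorem norm_ev_le {a : ℕ → ℂ} {G : ℕ → ℝ} (hG : Summable G) (h : ∀ n, ‖a n‖ ≤ G n) (x : TT) :
    ‖ev a x‖ ≤ ∑' n, G n := by
  unfold ev
  refine tsum_of_norm_bounded hG.hasSum ?_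
  intro n
  rw [norm_mul, norm_ee, mul_one]
  exact h n

theorem ev_eq_tp {D : ℕ} {a : ℕ → ℂ} (ha : ∀ n, D ≤ n → a n = 0) (x : TT) : ev a x = tp D a x := by
  unfold ev tp
  refine tsum_eq_sum ?_
  intro n hn
  rw [ha n (by simpa using hn), zero_mul]

/-- truncation -/
noncomputable def trunc (D : ℕ) (a : ℕ → ℂ) (n : ℕ) : ℂ := if n < D then a n else 0

theorem ev_trunc (D : ℕ) (a : ℕ → ℂ) (x : TT) : ev (trunc D a) x = tp D a x := by
  rw [ev_eq_tp (D := D)]
  · unfold tp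
    refine Finset.sum_congr rfl fun n hn => ?_
    unfold trunc
    rw [if_pos (by simpa using hn)]
  · intro n hn
    unfold trunc
    rw [if_neg (by omega)]

theorem np_trunc (p : ℝ) (D : ℕ) (a : ℕ → ℂ) : np p (trunc D a) = ∫ x : TT, ‖tp D a x‖ ^ p := by
  unfold np
  simp_rw [ev_trunc]

theorem np_eq {p : ℝ} {D : ℕ} {a : ℕ → ℂ} (ha : ∀ n, D ≤ n → a n = 0) :
    np p a = ∫ x : TT, ‖tp D a x‖ ^ p := by
  unfold np
  simp_rw [ev_eq_tp ha]

theorem summable_fin {D : ℕ} {a : ℕ → ℂ} (ha : ∀ n, D ≤ n → a n = 0) : Summable fun n => ‖a n‖ := by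
  refine summable_of_ne_finset_zero (s := range D) ?_
  intro n hn
  rw [ha n (by simpa using hn), norm_zero]

/-- dominated convergence -/
theorem tendsto_np {p : ℝ} (hp : 0 < p) {A : ℕ → ℕ → ℂ} {a : ℕ → ℂ} {G : ℕ → ℝ} (hG : Summable G)
    (h : ∀ m n, ‖A m n‖ ≤ G n)
    (hl : ∀ n, Filter.Tendsto (fun m => A m n) Filter.atTop (nhds (a n))) :
    Filter.Tendsto (fun m => np p (A m)) Filter.atTop (nhds (np p a)) := by
  have hG0 : ∀ n, 0 ≤ G n := fun n => (norm_nonneg _).trans (h 0 n)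
  have hsA : ∀ m, Summable fun n => ‖A m n‖ := fun m =>
    Summable.of_nonneg_of_le (fun n => norm_nonneg _) (h m) hG
  refine tendsto_integral_of_dominated_convergence (fun _ => (∑' n, G n) ^ p) ?_ ?_ ?_ ?_
  · intro m
    exact (continuous_ev_rpow hp (hsA m)).aestronglyMeasurable
  · exact integrable_const _
  · intro m
    refine Filter.Eventually.of_forall fun x => ?_
    rw [Real.norm_of_nonneg (by positivity)]
    exact Real.rpow_le_rpow (norm_nonneg _) (norm_ev_le hG (h m) x) hp.le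
  · refine Filter.Eventually.of_forall fun x => ?_
    have h1 : Filter.Tendsto (fun m => ev (A m) x) Filter.atTop (nhds (ev a x)) := by
      unfold ev
      refine tendsto_tsum_of_dominated_convergence hG ?_ ?_
      · intro n
        exact (hl n).mul_const _
      · refine Filter.Eventually.of_forall fun m n => ?_
        rw [norm_mul, norm_ee, mul_one]
        exact h m n
    exact (h1.norm).rpow_const (Or.inr hp.le)

theorem add_rpow_le_add {p : ℝ} (hp : 0 < p) (hp1 : p ≤ 1) {x y : ℝ} (hx : 0 ≤ x) (hy : 0 ≤ y) :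
    (x + y) ^ p ≤ x ^ p + y ^ p := Real.rpow_add_le_add_rpow hx hy hp.le hp1

theorem ev_add {a b : ℕ → ℂ} (ha : Summable fun n => ‖a n‖) (hb : Summable fun n => ‖b n‖) (x : TT) :
    ev (fun n => a n + b n) x = ev a x + ev b x := by
  unfold ev
  rw [← (summable_ev ha x).tsum_add (summable_ev hb x)]
  congr 1; ext n; ring

theorem ev_smul (c : ℂ) (a : ℕ → ℂ) (x : TT) : ev (fun n => c * a n) x = c * ev a x := by
  unfold ev
  rw [← tsum_mul_left]
  congr 1; ext n; ring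

theorem np_smul {p : ℝ} (c : ℂ) (a : ℕ → ℂ) : np p (fun n => c * a n) = ‖c‖ ^ p * np p a := by
  unfold np
  rw [← integral_const_mul]
  congr 1; ext x
  rw [ev_smul, norm_mul, Real.mul_rpow (norm_nonneg _) (norm_nonneg _)]

theorem np_add {p : ℝ} (hp : 0 < p) (hp1 : p ≤ 1) {a b : ℕ → ℂ} (ha : Summable fun n => ‖a n‖)
    (hb : Summable fun n => ‖b n‖) : np p (fun n => a n + b n) ≤ np p a + np p b := by
  have hab : Summable fun n => ‖a n + b n‖ :=
    Summable.of_nonneg_of_le (fun n => norm_nonneg _) (fun n => norm_add_le _ _) (ha.add hb)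
  unfold np
  rw [← integral_add (integ (continuous_ev_rpow hp ha)) (integ (continuous_ev_rpow hp hb))]
  apply integral_mono (integ (continuous_ev_rpow hp hab))
    (integ ((continuous_ev_rpow hp ha).add (continuous_ev_rpow hp hb)))
  intro x
  simp only
  rw [ev_add ha hb]
  calc ‖ev a x + ev b x‖ ^ p ≤ (‖ev a x‖ + ‖ev b x‖) ^ p :=
        Real.rpow_le_rpow (norm_nonneg _) (norm_add_le _ _) hp.le
    _ ≤ _ := add_rpow_le_add hp hp1 (norm_nonneg _) (norm_nonneg _)

theorem np_neg {p : ℝ} (a : ℕ → ℂ) : np p (fun n => -a n) = np p a := by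
  have := np_smul (p := p) (-1) a
  simpa using this

theorem memHp_iff (p : ℝ) (a : ℕ → ℂ) : MemHp p a ↔
    (∀ z : ℂ, ‖z‖ < 1 → Summable fun n => a n * z ^ n) ∧
      ∃ C : ℝ, ∀ r : ℝ, 0 < r → r < 1 → np p (sc r a) ≤ C := by
  have key : ∀ r : ℝ, ∫ θ in (0 : ℝ)..(2 * Real.pi),
      ‖∑' n, a n * ((r : ℂ) * Complex.exp (θ * Complex.I)) ^ n‖ ^ p
      = 2 * Real.pi * np p (sc r a) := by
    intro r
    unfold np
    rw [← integral_circle_eq (fun x => ‖ev (sc r a) x‖ ^ p)]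
    congr 1; ext θ
    congr 2
    unfold ev sc
    congr 1; ext n
    rw [ee_theta, mul_pow, ← Complex.exp_nat_mul]
    push_cast
    ring_nf
  have hpi := Real.pi_pos
  unfold MemHp
  refine and_congr Iff.rfl ⟨?_, ?_⟩
  · rintro ⟨C, hC⟩
    refine ⟨C / (2 * Real.pi), fun r h0 h1 => ?_⟩
    have := hC r h0 h1
    rw [key] at this
    rw [le_div_iff₀ (by positivity)]
    linarith
  · rintro ⟨C, hC⟩
    refine ⟨2 * Real.pi * C, fun r h0 h1 => ?_⟩
    rw [key]
    exact mul_le_mul_of_nonneg_left (hC r h0 h1) (by positivity)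

theorem summable_of_growth {a : ℕ → ℂ}
    (h : ∀ s : ℝ, 0 < s → s < 1 → ∃ B : ℝ, ∀ n, ‖a n‖ * s ^ n ≤ B) (z : ℂ) (hz : ‖z‖ < 1) :
    Summable fun n => a n * z ^ n := by
  obtain ⟨s, hs1, hs2⟩ := exists_between hz
  have hs0 : 0 < s := lt_of_le_of_lt (norm_nonneg _) hs1
  obtain ⟨B, hB⟩ := h s hs0 hs2
  have hq : ‖z‖ / s < 1 := by rw [div_lt_one hs0]; exact hs1
  refine Summable.of_norm_bounded (g := fun n => B * (‖z‖ / s) ^ n)
    ((summable_geometric_of_lt_one (by positivity) hq).mul_left B) ?_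
  intro n
  rw [norm_mul, norm_pow]
  calc ‖a n‖ * ‖z‖ ^ n = (‖a n‖ * s ^ n) * (‖z‖ / s) ^ n := by
        rw [div_pow]; field_simp
    _ ≤ B * (‖z‖ / s) ^ n := by
        gcongr
        exact hB n

theorem growth_of_summable {a : ℕ → ℂ} (h : ∀ z : ℂ, ‖z‖ < 1 → Summable fun n => a n * z ^ n)
    (s : ℝ) (hs : 0 < s) (hs1 : s < 1) : ∃ B : ℝ, 0 ≤ B ∧ ∀ n, ‖a n‖ * s ^ n ≤ B := by
  have h1 := h s (by rw [Complex.norm_real, Real.norm_of_nonneg hs.le]; exact hs1)
  have h2 := h1.norm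
  refine ⟨∑' n, ‖a n * (s : ℂ) ^ n‖, tsum_nonneg fun _ => norm_nonneg _, fun n => ?_⟩
  have := h2.le_tsum n (fun _ _ => norm_nonneg _)
  rw [norm_mul, norm_pow, Complex.norm_real, Real.norm_of_nonneg hs.le] at this
  exact this

theorem isMult_of_bdd {p : ℝ} (hp : 0 < p) (hp1 : p < 1) (l : ℕ → ℂ) (C : ℝ)
    (h : ∀ (D : ℕ) (a : ℕ → ℂ),
      ∫ x : TT, ‖tp D (fun n => l n * a n) x‖ ^ p ≤ C * ∫ x : TT, ‖tp D a x‖ ^ p) :
    IsMult p l := by
  -- the multiplier sequence is bounded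
  have hl : ∀ n, ‖l n‖ ^ p ≤ C := by
    intro n
    have h1 := h (n + 1) (fun k => if k = n then 1 else 0)
    have e1 : ∀ x : TT, tp (n + 1) (fun k => if k = n then (1 : ℂ) else 0) x = ee n x := by
      intro x
      unfold tp
      simp
    have e2 : ∀ x : TT, tp (n + 1) (fun k => l k * if k = n then (1 : ℂ) else 0) x
        = l n * ee n x := by
      intro x
      unfold tp
      simp
    simp_rw [e1, e2, norm_mul, norm_ee] at h1
    simpa using h1
  have hC : 0 ≤ C := (Real.rpow_nonneg (norm_nonneg _) p).trans (hl 0)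
  have hl2 : ∀ n, ‖l n‖ ≤ C ^ (1 / p) := by
    intro n
    have := Real.rpow_le_rpow (by positivity) (hl n) (by positivity : 0 ≤ 1 / p)
    rwa [← Real.rpow_mul (norm_nonneg _), mul_one_div_cancel hp.ne', Real.rpow_one] at this
  intro a ha
  rw [memHp_iff] at ha ⊢
  obtain ⟨ha1, B, hB⟩ := ha
  constructor
  · intro z hz
    refine Summable.of_norm_bounded (g := fun n => C ^ (1 / p) * ‖a n * z ^ n‖)
      ((ha1 z hz).norm.mul_left _) ?_
    intro n
    rw [mul_assoc, norm_mul]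
    gcongr
    exact hl2 n
  · refine ⟨C * B, fun r hr0 hr1 => ?_⟩
    have hs : Summable fun n => ‖sc r a n‖ := by
      have := (ha1 r (by rw [Complex.norm_real, Real.norm_of_nonneg hr0.le]; exact hr1)).norm
      exact this
    have hs2 : Summable fun n => C ^ (1 / p) * ‖sc r a n‖ := hs.mul_left _
    have t1 : Filter.Tendsto (fun D => np p (trunc D (sc r a))) Filter.atTop
        (nhds (np p (sc r a))) := by
      refine tendsto_np hp hs ?_ ?_
      · intro D n
        unfold trunc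
        split_ifs
        · exact le_rfl
        · simp
      · intro n
        refine tendsto_const_nhds.congr' ?_
        filter_upwards [Filter.eventually_gt_atTop n] with D hD
        unfold trunc
        rw [if_pos hD]
    have t2 : Filter.Tendsto (fun D => np p (trunc D (sc r fun n => l n * a n))) Filter.atTop
        (nhds (np p (sc r fun n => l n * a n))) := by
      refine tendsto_np hp hs2 ?_ ?_
      · intro D n
        unfold trunc
        split_ifs
        · unfold sc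
          rw [mul_assoc, norm_mul]
          gcongr
          exact hl2 n
        · simp only [norm_zero]
          positivity
      · intro n
        refine tendsto_const_nhds.congr' ?_
        filter_upwards [Filter.eventually_gt_atTop n] with D hD
        unfold trunc
        rw [if_pos hD]
    have t3 : np p (sc r fun n => l n * a n) ≤ C * np p (sc r a) := by
      refine le_of_tendsto_of_tendsto' t2 (t1.const_mul C) ?_
      intro D
      rw [np_trunc, np_trunc]
      have := h D (sc r a)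
      have e : (fun n => l n * sc r a n) = sc r fun n => l n * a n := by
        funext n
        unfold sc
        ring
      rw [e] at this
      exact this
    exact t3.trans (mul_le_mul_of_nonneg_left (hB r hr0 hr1) hC)

/-- finitely supported sequences -/
def Fin' (a : ℕ → ℂ) : Prop := ∃ D : ℕ, ∀ n, D ≤ n → a n = 0

theorem Fin'.summable {a : ℕ → ℂ} (h : Fin' a) : Summable fun n => ‖a n‖ := by
  obtain ⟨D, hD⟩ := h
  exact summable_fin hD

theorem Fin'.mul {a : ℕ → ℂ} (h : Fin' a) (l : ℕ → ℂ) : Fin' fun n => l n * a n := by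
  obtain ⟨D, hD⟩ := h
  exact ⟨D, fun n hn => by simp [hD n hn]⟩

theorem Fin'.sc {a : ℕ → ℂ} (h : Fin' a) (r : ℝ) : Fin' (MP63.sc r a) := by
  obtain ⟨D, hD⟩ := h
  exact ⟨D, fun n hn => by unfold MP63.sc; rw [hD n hn, zero_mul]⟩

theorem Fin'.add {a b : ℕ → ℂ} (h : Fin' a) (h' : Fin' b) : Fin' fun n => a n + b n := by
  obtain ⟨D, hD⟩ := h
  obtain ⟨D', hD'⟩ := h'
  refine ⟨max D D', fun n hn => ?_⟩
  simp [hD n (le_trans (le_max_left _ _) hn), hD' n (le_trans (le_max_right _ _) hn)]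

theorem Fin'.neg {a : ℕ → ℂ} (h : Fin' a) : Fin' fun n => -a n := by
  obtain ⟨D, hD⟩ := h
  exact ⟨D, fun n hn => by simp [hD n hn]⟩

theorem Fin'.sub {a b : ℕ → ℂ} (h : Fin' a) (h' : Fin' b) : Fin' fun n => a n - b n := by
  simpa [sub_eq_add_neg] using h.add h'.neg

/-- growth of multiplier sequences -/
theorem growth_mult {p : ℝ} (hp : 0 < p) (l : ℕ → ℂ) (h : IsMult p l) (s : ℝ) (hs : 0 < s)
    (hs1 : s < 1) : ∃ B : ℝ, 0 ≤ B ∧ ∀ n, ‖l n‖ * s ^ n ≤ B := by
  let a : ℕ → ℂ := fun n => ((((n : ℝ) + 1) ^ 2)⁻¹ : ℝ)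
  have hna : ∀ n, ‖a n‖ = (((n : ℝ) + 1) ^ 2)⁻¹ := by
    intro n
    simp only [a]
    rw [Complex.norm_real, Real.norm_of_nonneg (by positivity)]
  have hsa : Summable fun n : ℕ => (((n : ℝ) + 1) ^ 2)⁻¹ := by
    have h1 : Summable fun n : ℕ => (((n : ℝ)) ^ 2)⁻¹ := by
      exact Real.summable_nat_pow_inv.mpr (by norm_num)
    have h2 := (summable_nat_add_iff 1).mpr h1
    refine h2.congr fun n => ?_
    push_cast
    rfl
  have ha : MemHp p a := by
    rw [memHp_iff]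
    constructor
    · intro z hz
      refine Summable.of_norm_bounded hsa ?_
      intro n
      rw [norm_mul, norm_pow, hna]
      calc (((n : ℝ) + 1) ^ 2)⁻¹ * ‖z‖ ^ n ≤ (((n : ℝ) + 1) ^ 2)⁻¹ * 1 := by
            gcongr
            exact pow_le_one₀ (norm_nonneg _) hz.le
        _ = _ := mul_one _
    · refine ⟨(∑' n : ℕ, (((n : ℝ) + 1) ^ 2)⁻¹) ^ p, fun r hr0 hr1 => ?_⟩
      have hb : ∀ n, ‖sc r a n‖ ≤ (((n : ℝ) + 1) ^ 2)⁻¹ := by
        intro n
        rw [norm_sc hr0.le, hna]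
        calc (((n : ℝ) + 1) ^ 2)⁻¹ * r ^ n ≤ (((n : ℝ) + 1) ^ 2)⁻¹ * 1 := by
              gcongr
              exact pow_le_one₀ hr0.le hr1.le
          _ = _ := mul_one _
      have hs' : Summable fun n => ‖sc r a n‖ :=
        Summable.of_nonneg_of_le (fun n => norm_nonneg _) hb hsa
      calc np p (sc r a) ≤ ∫ _x : TT, (∑' n : ℕ, (((n : ℝ) + 1) ^ 2)⁻¹) ^ p := by
            apply integral_mono (integ (continuous_ev_rpow hp hs')) (integrable_const _)
            intro x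
            exact Real.rpow_le_rpow (norm_nonneg _) (norm_ev_le hsa hb x) hp.le
        _ = _ := by simp
  have h1 := (memHp_iff _ _).mp (h a ha)
  obtain ⟨t, ht1, ht2⟩ := exists_between hs1
  have ht0 : 0 < t := hs.trans ht1
  obtain ⟨B, hB0, hB⟩ := growth_of_summable h1.1 t ht0 ht2
  -- (n+1)^2 (s/t)^n is bounded
  have hq0 : 0 < s / t := by positivity
  have hq : s / t < 1 := by rw [div_lt_one ht0]; exact ht1
  have h2 : ∃ E : ℝ, ∀ n : ℕ, ((n : ℝ) + 1) ^ 2 * (s / t) ^ n ≤ E := by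
    have t1 : Filter.Tendsto (fun n : ℕ => (n : ℝ) ^ 2 * (s / t) ^ n) Filter.atTop (nhds 0) :=
      tendsto_pow_const_mul_const_pow_of_lt_one 2 hq0.le hq
    obtain ⟨E, hE⟩ := t1.bddAbove_range
    refine ⟨E / (s / t), fun n => ?_⟩
    rw [le_div_iff₀ hq0]
    have := hE (Set.mem_range_self (n + 1))
    push_cast at this
    calc ((n : ℝ) + 1) ^ 2 * (s / t) ^ n * (s / t) = ((n : ℝ) + 1) ^ 2 * (s / t) ^ (n + 1) := by
          rw [pow_succ]; ring
      _ ≤ E := this
  obtain ⟨E, hE⟩ := h2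
  refine ⟨B * E, ?_, fun n => ?_⟩
  · apply mul_nonneg hB0
    have := hE 0
    simp at this
    linarith
  · have h3 := hB n
    rw [norm_mul, hna] at h3
    have h4 := hE n
    have hn : (0 : ℝ) < ((n : ℝ) + 1) ^ 2 := by positivity
    calc ‖l n‖ * s ^ n = (‖l n‖ * (((n : ℝ) + 1) ^ 2)⁻¹ * t ^ n)
          * (((n : ℝ) + 1) ^ 2 * (s / t) ^ n) := by
          rw [div_pow]; field_simp
      _ ≤ B * E := by
          apply mul_le_mul h3 h4 (by positivity) hB0

/-- coefficient bound -/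
theorem coeff_bound {p : ℝ} (hp : 0 < p) (hp1 : p < 1) (s : ℝ) (hs : 0 < s) (hs1 : s < 1) :
    ∃ C : ℝ, 0 ≤ C ∧ ∀ g, Fin' g → ∀ n, ‖g n‖ * s ^ n ≤ (C * np p g) ^ (1 / p) := by
  obtain ⟨C, hC, h⟩ := poly_pt hp hp1 s hs.le hs1
  refine ⟨C, hC, fun g hg n => ?_⟩
  obtain ⟨D, hD⟩ := hg
  have h0 : 0 ≤ (C * np p g) ^ (1 / p) := Real.rpow_nonneg (mul_nonneg hC (np_nonneg _ _)) _
  by_cases hn : n < D
  · have h1 : ∀ x : TT, ‖tp D (sc s g) x‖ ≤ (C * np p g) ^ (1 / p) := by
      intro x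
      have h2 := h D g ((s : ℂ) * ee 1 x) (by
        rw [norm_mul, norm_ee, Complex.norm_real, Real.norm_of_nonneg hs.le, mul_one])
      rw [← eval_polyOf, ← tp_scale_eq_eval, ← np_eq hD] at h2
      have h3 := Real.rpow_le_rpow (by positivity) h2 (by positivity : 0 ≤ 1 / p)
      rwa [← Real.rpow_mul (norm_nonneg _), mul_one_div_cancel hp.ne', Real.rpow_one] at h3
    have h4 : ∑ k ∈ range D, ‖sc s g k‖ ^ 2 ≤ ((C * np p g) ^ (1 / p)) ^ 2 := by
      rw [← parseval_nat]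
      calc ∫ x : TT, ‖∑ n ∈ range D, sc s g n * ee n x‖ ^ 2
          ≤ ∫ _x : TT, ((C * np p g) ^ (1 / p)) ^ 2 := by
            apply integral_mono (integ (by fun_prop)) (integrable_const _)
            intro x
            have := h1 x
            unfold tp at this
            simp only
            gcongr
        _ = _ := by simp
    have h5 : ‖sc s g n‖ ^ 2 ≤ ∑ k ∈ range D, ‖sc s g k‖ ^ 2 :=
      Finset.single_le_sum (f := fun k => ‖sc s g k‖ ^ 2) (fun _ _ => by positivity)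
        (by simpa using hn)
    rw [norm_sc hs.le] at h5
    exact le_of_sq_le_sq (h5.trans h4) h0
  · rw [hD n (by omega), norm_zero, zero_mul]
    exact h0

/-- cube roots -/
theorem exists_cube_root (r : ℝ) (hr : 0 < r) (hr1 : r < 1) : ∃ s : ℝ, 0 < s ∧ s < 1 ∧ s ^ 3 = r := by
  refine ⟨r ^ (1 / 3 : ℝ), by positivity, Real.rpow_lt_one hr.le hr1 (by norm_num), ?_⟩
  rw [← Real.rpow_natCast, ← Real.rpow_mul hr.le]
  norm_num

/-- domination of the dilated sequences -/
theorem dom_bound {p : ℝ} (hp : 0 < p) (hp1 : p < 1) (l : ℕ → ℂ)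
    (hl : ∀ s : ℝ, 0 < s → s < 1 → ∃ B : ℝ, 0 ≤ B ∧ ∀ n, ‖l n‖ * s ^ n ≤ B)
    (r : ℝ) (hr : 0 < r) (hr1 : r < 1) :
    ∃ K s : ℝ, 0 ≤ K ∧ 0 < s ∧ s < 1 ∧ ∀ g, Fin' g → ∀ n,
      ‖sc r (fun n => l n * g n) n‖ ≤ K * (np p g) ^ (1 / p) * s ^ n := by
  obtain ⟨s, hs0, hs1, hs⟩ := exists_cube_root r hr hr1
  obtain ⟨B, hB0, hB⟩ := hl s hs0 hs1
  obtain ⟨C, hC0, hC⟩ := coeff_bound hp hp1 s hs0 hs1
  refine ⟨B * C ^ (1 / p), s, by positivity, hs0, hs1, fun g hg n => ?_⟩
  rw [norm_sc hr.le, norm_mul, ← hs, ← pow_mul, mul_comm 3 n, pow_mul]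
  have h1 := hB n
  have h2 := hC g hg n
  rw [Real.mul_rpow hC0 (np_nonneg _ _)] at h2
  calc ‖l n‖ * ‖g n‖ * (s ^ n) ^ 3 = (‖l n‖ * s ^ n) * (‖g n‖ * s ^ n) * s ^ n := by ring
    _ ≤ B * (C ^ (1 / p) * np p g ^ (1 / p)) * s ^ n := by gcongr
    _ = _ := by ring

theorem np_dom {p : ℝ} (hp : 0 < p) (hp1 : p < 1) (l : ℕ → ℂ)
    (hl : ∀ s : ℝ, 0 < s → s < 1 → ∃ B : ℝ, 0 ≤ B ∧ ∀ n, ‖l n‖ * s ^ n ≤ B)
    (r : ℝ) (hr : 0 < r) (hr1 : r < 1) :
    ∃ K : ℝ, 0 ≤ K ∧ ∀ g, Fin' g → np p (sc r (fun n => l n * g n)) ≤ K * np p g := by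
  obtain ⟨K, s, hK, hs0, hs1, h⟩ := dom_bound hp hp1 l hl r hr hr1
  refine ⟨(K * ∑' n, s ^ n) ^ p, by positivity, fun g hg => ?_⟩
  have hsum : Summable fun n => K * (np p g) ^ (1 / p) * s ^ n :=
    (summable_geometric_of_lt_one hs0.le hs1).mul_left _
  have hn := np_nonneg p g
  calc np p (sc r (fun n => l n * g n))
      ≤ ∫ _x : TT, (∑' n, K * (np p g) ^ (1 / p) * s ^ n) ^ p := by
        apply integral_mono (integ (continuous_ev_rpow hp ((hg.mul l).sc r).summable))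
          (integrable_const _)
        intro x
        exact Real.rpow_le_rpow (norm_nonneg _) (norm_ev_le hsum (h g hg) x) hp.le
    _ = (∑' n, K * (np p g) ^ (1 / p) * s ^ n) ^ p := by simp
    _ = (K * ∑' n, s ^ n) ^ p * np p g := by
        rw [tsum_mul_left]
        have e : K * np p g ^ (1 / p) * ∑' n, s ^ n = (K * ∑' n, s ^ n) * np p g ^ (1 / p) := by
          ring
        rw [e, Real.mul_rpow (by positivity) (by positivity), ← Real.rpow_mul hn,
          one_div_mul_cancel hp.ne', Real.rpow_one]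

/-- If `T` is not bounded on polynomials there are small polynomials with large image. -/
theorem exists_large {p : ℝ} (hp : 0 < p) (l : ℕ → ℂ)
    (h : ¬ ∃ C : ℝ, ∀ (D : ℕ) (a : ℕ → ℂ),
      ∫ x : TT, ‖tp D (fun n => l n * a n) x‖ ^ p ≤ C * ∫ x : TT, ‖tp D a x‖ ^ p)
    (δ K : ℝ) (hδ : 0 < δ) (hK : 0 < K) :
    ∃ g, Fin' g ∧ np p g ≤ δ ∧ K ≤ np p (fun n => l n * g n) := by
  push Not at h
  obtain ⟨D, a, ha⟩ := h (K / δ)
  have e1 : ∫ x : TT, ‖tp D (fun n => l n * a n) x‖ ^ p = np p (fun n => l n * trunc D a n) := by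
    rw [← np_trunc]
    congr 1
    funext n
    unfold trunc
    split_ifs <;> simp
  rw [← np_trunc, e1] at ha
  set A := np p (trunc D a) with hA
  set B := np p (fun n => l n * trunc D a n) with hB
  have hA0 : 0 ≤ A := np_nonneg _ _
  have hB0 : 0 < B := lt_of_le_of_lt (by positivity) ha
  let c : ℝ := (K / B) ^ (1 / p)
  have hc : ‖(c : ℂ)‖ ^ p = K / B := by
    rw [Complex.norm_real, Real.norm_of_nonneg (by positivity)]
    simp only [c]
    rw [← Real.rpow_mul (by positivity), one_div_mul_cancel hp.ne', Real.rpow_one]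
  refine ⟨fun n => (c : ℂ) * trunc D a n, ?_, ?_, ?_⟩
  · refine ⟨D, fun n hn => ?_⟩
    have : ¬ n < D := by omega
    simp [trunc, this]
  · rw [np_smul, hc, ← hA]
    rw [div_mul_eq_mul_div, div_le_iff₀ hB0]
    have := ha.le
    rw [div_mul_eq_mul_div, div_le_iff₀ hδ] at this
    linarith
  · have e2 : (fun n => l n * ((c : ℂ) * trunc D a n)) = fun n => (c : ℂ) * (l n * trunc D a n) := by
      funext n; ring
    rw [e2, np_smul, hc, ← hB]
    rw [div_mul_cancel₀ _ hB0.ne']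

/-- radial limit for polynomials -/
theorem exists_radius {p : ℝ} (hp : 0 < p) {a : ℕ → ℂ} (ha : Fin' a) (K : ℝ) (hK : K < np p a) :
    ∃ r : ℝ, 0 < r ∧ r < 1 ∧ K < np p (sc r a) := by
  have t : Filter.Tendsto (fun m : ℕ => np p (sc (1 - 1 / ((m : ℝ) + 1 + 1)) a)) Filter.atTop
      (nhds (np p a)) := by
    refine tendsto_np hp ha.summable ?_ ?_
    · intro m n
      have h1 : 0 ≤ 1 - 1 / ((m : ℝ) + 1 + 1) := by
        rw [sub_nonneg, div_le_one (by positivity)]
        linarith [Nat.cast_nonneg (α := ℝ) m]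
      have h2 : 1 - 1 / ((m : ℝ) + 1 + 1) ≤ 1 := by
        have : 0 ≤ 1 / ((m : ℝ) + 1 + 1) := by positivity
        linarith
      rw [norm_sc h1]
      calc ‖a n‖ * (1 - 1 / ((m : ℝ) + 1 + 1)) ^ n ≤ ‖a n‖ * 1 := by
            gcongr
            exact pow_le_one₀ h1 h2
        _ = _ := mul_one _
    · intro n
      have t1 : Filter.Tendsto (fun m : ℕ => 1 - 1 / ((m : ℝ) + 1 + 1)) Filter.atTop
          (nhds (1 - 0)) := by
        refine tendsto_const_nhds.sub ?_
        have := (tendsto_one_div_add_atTop_nhds_zero_nat (𝕜 := ℝ)).comp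
          (Filter.tendsto_add_atTop_nat 1)
        refine this.congr fun m => ?_
        simp
      rw [sub_zero] at t1
      have t2 : Filter.Tendsto (fun m : ℕ => a n * (((1 - 1 / ((m : ℝ) + 1 + 1) : ℝ) : ℂ)) ^ n)
          Filter.atTop (nhds (a n * ((1 : ℝ) : ℂ) ^ n)) := by
        refine Filter.Tendsto.const_mul _ ?_
        exact ((Complex.continuous_ofReal.tendsto _).comp t1).pow n
      have e0 : a n * ((1 : ℝ) : ℂ) ^ n = a n := by simp
      rw [e0] at t2
      exact t2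
  have := (t.eventually (lt_mem_nhds hK)).exists
  obtain ⟨m, hm⟩ := this
  refine ⟨_, ?_, ?_, hm⟩
  · rw [sub_pos, div_lt_one (by positivity)]
    linarith [Nat.cast_nonneg (α := ℝ) m]
  · have : 0 < 1 / ((m : ℝ) + 1 + 1) := by positivity
    linarith

theorem np_sub_ge {p : ℝ} (hp : 0 < p) (hp1 : p ≤ 1) {a b : ℕ → ℂ} (ha : Fin' a) (hb : Fin' b) :
    np p b - np p (fun n => a n - b n) ≤ np p a := by
  have h1 := np_add hp hp1 ha.summable (ha.sub hb).neg.summable
  have e : (fun n => a n + -(a n - b n)) = b := by funext n; ring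
  rw [e, np_neg] at h1
  linarith

/-- The state of the gliding hump construction. -/
structure St where
  /-- current polynomial -/
  F : ℕ → ℂ
  /-- current radius -/
  r : ℝ
  /-- current tolerance -/
  δ : ℝ

theorem step {p : ℝ} (hp : 0 < p) (hp1 : p < 1) (l : ℕ → ℂ)
    (hl : ∀ s : ℝ, 0 < s → s < 1 → ∃ B : ℝ, 0 ≤ B ∧ ∀ n, ‖l n‖ * s ^ n ≤ B)
    (h : ¬ ∃ C : ℝ, ∀ (D : ℕ) (a : ℕ → ℂ),
      ∫ x : TT, ‖tp D (fun n => l n * a n) x‖ ^ p ≤ C * ∫ x : TT, ‖tp D a x‖ ^ p)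
    (k : ℕ) (S : St) (hF : Fin' S.F) (hδ : 0 < S.δ) :
    ∃ S' : St, Fin' S'.F ∧ 0 < S'.δ ∧ 0 < S'.r ∧ S'.r < 1 ∧ np p (fun n => S'.F n - S.F n) ≤ S.δ ∧
      (k : ℝ) ≤ np p (sc S'.r (fun n => l n * S'.F n)) ∧ S'.δ ≤ S.δ / 2 ∧
      ∀ g, Fin' g → np p g ≤ 2 * S'.δ → np p (sc S'.r (fun n => l n * g n)) ≤ 1 := by
  set T0 := np p (fun n => l n * S.F n) with hT0
  have hT0' : 0 ≤ T0 := np_nonneg _ _
  obtain ⟨g, hg, hg1, hg2⟩ := exists_large hp l h S.δ (T0 + k + 1) hδ (by positivity)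
  have hFg : Fin' fun n => S.F n + g n := hF.add hg
  have h1 : (k : ℝ) < np p (fun n => l n * (S.F n + g n)) := by
    have h2 := np_sub_ge hp hp1.le (hFg.mul l) (hg.mul l)
    have e : (fun n => l n * (S.F n + g n) - l n * g n) = fun n => l n * S.F n := by
      funext n; ring
    rw [e, ← hT0] at h2
    linarith
  obtain ⟨r, hr0, hr1, hr⟩ := exists_radius hp (hFg.mul l) k h1
  obtain ⟨K, hK0, hK⟩ := np_dom hp hp1 l hl r hr0 hr1
  refine ⟨⟨fun n => S.F n + g n, r, min (S.δ / 2) (1 / (2 * (K + 1)))⟩, hFg, ?_, hr0, hr1, ?_,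
    hr.le, min_le_left _ _, ?_⟩
  · simp only
    exact lt_min (by positivity) (by positivity)
  · simp only
    have e : (fun n => S.F n + g n - S.F n) = g := by funext n; ring
    rw [e]
    exact hg1
  · intro f hf hf1
    simp only at hf1 ⊢
    have h3 : np p f ≤ 2 * (1 / (2 * (K + 1))) := hf1.trans (by gcongr; exact min_le_right _ _)
    calc np p (sc r (fun n => l n * f n)) ≤ K * np p f := hK f hf
      _ ≤ K * (2 * (1 / (2 * (K + 1)))) := by gcongr
      _ ≤ 1 := by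
          have : K * (2 * (1 / (2 * (K + 1)))) = K / (K + 1) := by field_simp
          rw [this, div_le_one (by positivity)]
          linarith

theorem bdd_of_isMult {p : ℝ} (hp : 0 < p) (hp1 : p < 1) (l : ℕ → ℂ) (h : IsMult p l) :
    ∃ C : ℝ, ∀ (D : ℕ) (a : ℕ → ℂ),
      ∫ x : TT, ‖tp D (fun n => l n * a n) x‖ ^ p ≤ C * ∫ x : TT, ‖tp D a x‖ ^ p := by
  by_contra hcon
  have hl := growth_mult hp l h
  -- the sequence of states
  have hstep : ∀ (k : ℕ) (S : {S : St // Fin' S.F ∧ 0 < S.δ}), ∃ S' : {S : St // Fin' S.F ∧ 0 < S.δ},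
      0 < S'.1.r ∧ S'.1.r < 1 ∧ np p (fun n => S'.1.F n - S.1.F n) ≤ S.1.δ ∧
      (k : ℝ) ≤ np p (sc S'.1.r (fun n => l n * S'.1.F n)) ∧ S'.1.δ ≤ S.1.δ / 2 ∧
      ∀ g, Fin' g → np p g ≤ 2 * S'.1.δ → np p (sc S'.1.r (fun n => l n * g n)) ≤ 1 := by
    rintro k ⟨S, hF, hδ⟩
    obtain ⟨S', h1, h2, h3⟩ := step hp hp1 l hl hcon k S hF hδ
    exact ⟨⟨S', h1, h2⟩, h3⟩
  choose next hn using hstep
  let S0 : {S : St // Fin' S.F ∧ 0 < S.δ} := ⟨⟨fun _ => 0, 0, 1⟩, ⟨0, fun _ _ => rfl⟩, one_pos⟩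
  let seq : ℕ → {S : St // Fin' S.F ∧ 0 < S.δ} := fun k => Nat.rec S0 (fun k s => next k s) k
  have hseq : ∀ k, seq (k + 1) = next k (seq k) := fun k => rfl
  let F : ℕ → ℕ → ℂ := fun k => (seq k).1.F
  let δ : ℕ → ℝ := fun k => (seq k).1.δ
  let r : ℕ → ℝ := fun k => (seq (k + 1)).1.r
  have hF : ∀ k, Fin' (F k) := fun k => (seq k).2.1
  have hδ : ∀ k, 0 < δ k := fun k => (seq k).2.2
  have hr0 : ∀ k, 0 < r k := fun k => by
    simp only [r]; rw [hseq]; exact (hn k (seq k)).1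
  have hr1 : ∀ k, r k < 1 := fun k => by
    simp only [r]; rw [hseq]; exact (hn k (seq k)).2.1
  have hd : ∀ k, np p (fun n => F (k + 1) n - F k n) ≤ δ k := fun k => by
    simp only [F, δ]; rw [hseq]; exact (hn k (seq k)).2.2.1
  have hbig : ∀ k : ℕ, (k : ℝ) ≤ np p (sc (r k) (fun n => l n * F (k + 1) n)) := fun k => by
    simp only [F, r]; rw [hseq]; exact (hn k (seq k)).2.2.2.1
  have hδ2 : ∀ k, δ (k + 1) ≤ δ k / 2 := fun k => by
    simp only [δ]; rw [hseq]; exact (hn k (seq k)).2.2.2.2.1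
  have hsmall : ∀ k, ∀ g, Fin' g → np p g ≤ 2 * δ (k + 1) →
      np p (sc (r k) (fun n => l n * g n)) ≤ 1 := fun k => by
    simp only [δ, r]; rw [hseq]; exact (hn k (seq k)).2.2.2.2.2
  have hF0 : F 0 = fun _ => 0 := rfl
  have hδ0 : δ 0 = 1 := rfl
  -- telescoping
  have htel : ∀ k i, np p (fun n => F (k + i) n - F k n) ≤ 2 * δ k - 2 * δ (k + i) := by
    intro k i
    induction i with
    | zero =>
      simp only [add_zero, sub_self]
      have : np p (fun _ => (0 : ℂ)) = 0 := by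
        unfold np ev
        simp [Real.zero_rpow hp.ne']
      rw [this]
    | succ i ih =>
      have h1 := np_add hp hp1.le ((hF (k + i + 1)).sub (hF (k + i))).summable
        ((hF (k + i)).sub (hF k)).summable
      have e : (fun n => F (k + i + 1) n - F (k + i) n + (F (k + i) n - F k n))
          = fun n => F (k + (i + 1)) n - F k n := by
        funext n
        rw [← add_assoc]
        ring
      rw [e] at h1
      have h2 := hd (k + i)
      have h3 := hδ2 (k + i)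
      have h4 : δ (k + (i + 1)) = δ (k + i + 1) := by rw [add_assoc]
      rw [h4]
      linarith
  have htel' : ∀ k m, k ≤ m → np p (fun n => F m n - F k n) ≤ 2 * δ k := by
    intro k m hkm
    obtain ⟨i, rfl⟩ := Nat.exists_eq_add_of_le hkm
    have := htel k i
    have := hδ (k + i)
    linarith
  have hnp2 : ∀ m, np p (F m) ≤ 2 := by
    intro m
    have := htel' 0 m (Nat.zero_le _)
    rw [hF0, hδ0] at this
    simpa using this
  have hδpow : ∀ k, δ k ≤ (1 / 2) ^ k := by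
    intro k
    induction k with
    | zero => simp [hδ0]
    | succ k ih =>
      have := hδ2 k
      rw [pow_succ]
      linarith
  -- coefficientwise convergence
  have hconv : ∀ n, ∃ c : ℂ, Filter.Tendsto (fun m => F m n) Filter.atTop (nhds c) := by
    intro n
    obtain ⟨C, hC0, hC⟩ := coeff_bound hp hp1 (1 / 2) (by norm_num) (by norm_num)
    have hcau : CauchySeq fun m => F m n := by
      refine cauchySeq_of_le_geometric (1 / 2) (C ^ (1 / p) * 2 ^ n) (by norm_num) ?_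
      intro m
      rw [dist_comm, dist_eq_norm]
      have h1 := hC _ ((hF (m + 1)).sub (hF m)) n
      rw [Real.mul_rpow hC0 (np_nonneg _ _)] at h1
      have h2 : np p (fun n => F (m + 1) n - F m n) ^ (1 / p) ≤ (1 / 2) ^ m := by
        have h3 : np p (fun n => F (m + 1) n - F m n) ≤ (1 / 2) ^ m := (hd m).trans (hδpow m)
        have h4 : ((1 / 2 : ℝ) ^ m) ^ (1 / p) ≤ (1 / 2 : ℝ) ^ m := by
          have h5 : ((1 / 2 : ℝ) ^ m) ≤ 1 := pow_le_one₀ (by norm_num) (by norm_num)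
          have h6 : (1 : ℝ) ≤ 1 / p := by rw [le_div_iff₀ hp]; linarith
          calc ((1 / 2 : ℝ) ^ m) ^ (1 / p) ≤ ((1 / 2 : ℝ) ^ m) ^ (1 : ℝ) :=
                Real.rpow_le_rpow_of_exponent_ge (by positivity) h5 h6
            _ = _ := Real.rpow_one _
        exact (Real.rpow_le_rpow (np_nonneg _ _) h3 (by positivity)).trans h4
      have h7 : ‖F (m + 1) n - F m n‖ * (1 / 2) ^ n ≤ C ^ (1 / p) * (1 / 2) ^ m :=
        h1.trans (by gcongr)
      calc ‖F (m + 1) n - F m n‖ = ‖F (m + 1) n - F m n‖ * (1 / 2) ^ n * 2 ^ n := by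
            rw [mul_assoc, ← mul_pow]; norm_num
        _ ≤ C ^ (1 / p) * (1 / 2) ^ m * 2 ^ n := by gcongr
        _ = _ := by ring
    exact cauchySeq_tendsto_of_complete hcau
  choose f hf using hconv
  -- growth of f
  have hgrow : ∀ s : ℝ, 0 < s → s < 1 → ∃ B : ℝ, ∀ n, ‖f n‖ * s ^ n ≤ B := by
    intro s hs0 hs1
    obtain ⟨C, hC0, hC⟩ := coeff_bound hp hp1 s hs0 hs1
    refine ⟨(C * 2) ^ (1 / p), fun n => ?_⟩
    refine le_of_tendsto ((hf n).norm.mul_const (s ^ n)) (Filter.Eventually.of_forall fun m => ?_)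
    refine (hC _ (hF m) n).trans ?_
    exact Real.rpow_le_rpow (mul_nonneg hC0 (np_nonneg _ _)) (by gcongr; exact hnp2 m)
      (by positivity)
  -- general dominated convergence for the sequence F
  have hdom : ∀ (l' : ℕ → ℂ),
      (∀ s : ℝ, 0 < s → s < 1 → ∃ B : ℝ, 0 ≤ B ∧ ∀ n, ‖l' n‖ * s ^ n ≤ B) →
      ∀ ρ : ℝ, 0 < ρ → ρ < 1 →
      Filter.Tendsto (fun m => np p (sc ρ (fun n => l' n * F m n))) Filter.atTop
        (nhds (np p (sc ρ (fun n => l' n * f n)))) := by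
    intro l' hl' ρ hρ0 hρ1
    obtain ⟨K, s, hK0, hs0, hs1, hK⟩ := dom_bound hp hp1 l' hl' ρ hρ0 hρ1
    refine tendsto_np hp (G := fun n => K * 2 ^ (1 / p) * s ^ n)
      ((summable_geometric_of_lt_one hs0.le hs1).mul_left _) ?_ ?_
    · intro m n
      refine (hK _ (hF m) n).trans ?_
      gcongr
      · exact np_nonneg _ _
      · exact hnp2 m
    · intro n
      unfold sc
      exact ((hf n).const_mul _).mul_const _
  have hfHp : MemHp p f := by
    rw [memHp_iff]
    refine ⟨summable_of_growth hgrow, 2, fun ρ hρ0 hρ1 => ?_⟩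
    have t := hdom (fun _ => 1) (fun s hs0 hs1 => ⟨1, zero_le_one, fun n => by
      rw [norm_one, one_mul]
      exact pow_le_one₀ hs0.le hs1.le⟩) ρ hρ0 hρ1
    simp only [one_mul] at t
    refine le_of_tendsto t (Filter.Eventually.of_forall fun m => ?_)
    obtain ⟨D, hD⟩ := hF m
    have h1 := poly_mono hp hp1 D (F m) ρ hρ0.le hρ1.le
    have e : np p (sc ρ (F m)) = ∫ x : TT, ‖tp D (fun n => F m n * (ρ : ℂ) ^ n) x‖ ^ p := by
      refine np_eq (fun n hn => ?_)
      unfold sc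
      rw [hD n hn, zero_mul]
    have e2 := np_eq (p := p) hD
    have h2 := hnp2 m
    have e3 : np p (sc ρ fun n => F m n) = np p (sc ρ (F m)) := rfl
    rw [e3, e]
    linarith
  obtain ⟨-, C, hC⟩ := (memHp_iff _ _).mp (h f hfHp)
  obtain ⟨k, hk⟩ := exists_nat_gt (C + 1)
  have h1 := hC (r k) (hr0 k) (hr1 k)
  have h2 : (k : ℝ) - 1 ≤ np p (sc (r k) (fun n => l n * f n)) := by
    refine ge_of_tendsto (hdom l hl (r k) (hr0 k) (hr1 k)) ?_
    filter_upwards [Filter.eventually_ge_atTop (k + 1)] with m hm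
    have h3 := htel' (k + 1) m hm
    have h4 := hsmall k _ ((hF m).sub (hF (k + 1))) h3
    have h5 := hbig k
    have h6 := np_sub_ge hp hp1.le (((hF m).mul l).sc (r k)) (((hF (k + 1)).mul l).sc (r k))
    have e : (fun n => sc (r k) (fun n => l n * F m n) n
        - sc (r k) (fun n => l n * F (k + 1) n) n)
        = sc (r k) (fun n => l n * (F m n - F (k + 1) n)) := by
      funext n
      unfold sc
      ring
    rw [e] at h6
    linarith
  linarith

end MP63
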