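import Mathlib

/-! Khinchine's inequality (lower bound) for complex coefficients and exponents below two. -/

open Finset

namespace MP63

theorem sum_bool_succ {n : ℕ} (F : (Fin (n + 1) → Bool) → ℝ) :
    ∑ σ : Fin (n + 1) → Bool, F σ
      = ∑ σ : Fin n → Bool, (F (Fin.cons true σ) + F (Fin.cons false σ)) := by
  rw [← (Fin.consEquiv (fun _ => Bool)).sum_comp, Fintype.sum_prod_type, Fintype.sum_bool,
    ← Finset.sum_add_distrib]
  rfl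

theorem sgn_cons {n : ℕ} (a : Fin (n + 1) → ℂ) (b : Bool) (σ : Fin n → Bool) :
    ∑ i, (if (Fin.cons b σ : Fin (n + 1) → Bool) i then (1 : ℂ) else -1) * a i
      = (if b then (1 : ℂ) else -1) * a 0
        + ∑ i : Fin n, (if σ i then (1 : ℂ) else -1) * a i.succ := by
  rw [Fin.sum_univ_succ]
  simp [Fin.cons_zero, Fin.cons_succ]

theorem two_pt (w a : ℂ) : ‖w + a‖ ^ 2 + ‖w - a‖ ^ 2 = 2 * (‖w‖ ^ 2 + ‖a‖ ^ 2) := by
  rw [← Complex.normSq_eq_norm_sq, ← Complex.normSq_eq_norm_sq, ← Complex.normSq_eq_norm_sq,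
    ← Complex.normSq_eq_norm_sq]
  simp only [Complex.normSq_apply, Complex.add_re, Complex.add_im, Complex.sub_re, Complex.sub_im]
  ring

theorem two_pt4 (w a : ℂ) : ‖w + a‖ ^ 4 + ‖w - a‖ ^ 4
    ≤ 2 * (‖w‖ ^ 4 + 6 * ‖w‖ ^ 2 * ‖a‖ ^ 2 + ‖a‖ ^ 4) := by
  have e : ∀ z : ℂ, ‖z‖ ^ 4 = (‖z‖ ^ 2) ^ 2 := fun z => by ring
  rw [e, e, e, e]
  rw [← Complex.normSq_eq_norm_sq, ← Complex.normSq_eq_norm_sq, ← Complex.normSq_eq_norm_sq,
    ← Complex.normSq_eq_norm_sq]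
  simp only [Complex.normSq_apply, Complex.add_re, Complex.add_im, Complex.sub_re, Complex.sub_im]
  have := sq_nonneg (w.re * a.im - w.im * a.re)
  nlinarith [sq_nonneg (w.re * a.im - w.im * a.re), sq_nonneg (w.re * a.re + w.im * a.im)]

theorem sq_mean (n : ℕ) : ∀ (a : Fin n → ℂ) (z : ℂ),
    ∑ σ : Fin n → Bool, ‖z + ∑ i, (if σ i then (1 : ℂ) else -1) * a i‖ ^ 2
      = 2 ^ n * (‖z‖ ^ 2 + ∑ i, ‖a i‖ ^ 2) := by
  induction n with
  | zero => intro a z; simp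
  | succ n ih =>
    intro a z
    rw [sum_bool_succ]
    have h1 : ∀ σ : Fin n → Bool,
        ‖z + ∑ i, (if (Fin.cons true σ : Fin (n + 1) → Bool) i then (1 : ℂ) else -1) * a i‖ ^ 2
        + ‖z + ∑ i, (if (Fin.cons false σ : Fin (n + 1) → Bool) i then (1 : ℂ) else -1) * a i‖ ^ 2
        = ‖(z + a 0) + ∑ i : Fin n, (if σ i then (1 : ℂ) else -1) * a i.succ‖ ^ 2
        + ‖(z - a 0) + ∑ i : Fin n, (if σ i then (1 : ℂ) else -1) * a i.succ‖ ^ 2 := by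
      intro σ
      rw [sgn_cons, sgn_cons]
      congr 2
      · congr 1; simp; ring
      · congr 1; simp; ring
    rw [Finset.sum_congr rfl fun σ _ => h1 σ, Finset.sum_add_distrib, ih, ih, Fin.sum_univ_succ]
    have := two_pt z (a 0)
    rw [pow_succ]
    linear_combination (2 : ℝ) ^ n * this

theorem four_mean (n : ℕ) : ∀ (a : Fin n → ℂ) (z : ℂ),
    ∑ σ : Fin n → Bool, ‖z + ∑ i, (if σ i then (1 : ℂ) else -1) * a i‖ ^ 4
      ≤ 2 ^ n * (‖z‖ ^ 4 + 6 * ‖z‖ ^ 2 * (∑ i, ‖a i‖ ^ 2) + 3 * (∑ i, ‖a i‖ ^ 2) ^ 2) := by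
  induction n with
  | zero => intro a z; simp
  | succ n ih =>
    intro a z
    rw [sum_bool_succ]
    have h1 : ∀ σ : Fin n → Bool,
        ‖z + ∑ i, (if (Fin.cons true σ : Fin (n + 1) → Bool) i then (1 : ℂ) else -1) * a i‖ ^ 4
        + ‖z + ∑ i, (if (Fin.cons false σ : Fin (n + 1) → Bool) i then (1 : ℂ) else -1) * a i‖ ^ 4
        = ‖(z + a 0) + ∑ i : Fin n, (if σ i then (1 : ℂ) else -1) * a i.succ‖ ^ 4
        + ‖(z - a 0) + ∑ i : Fin n, (if σ i then (1 : ℂ) else -1) * a i.succ‖ ^ 4 := by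
      intro σ
      rw [sgn_cons, sgn_cons]
      congr 2
      · congr 1; simp; ring
      · congr 1; simp; ring
    rw [Finset.sum_congr rfl fun σ _ => h1 σ, Finset.sum_add_distrib, Fin.sum_univ_succ]
    have h2 := ih (fun i => a i.succ) (z + a 0)
    have h3 := ih (fun i => a i.succ) (z - a 0)
    have h4 := two_pt z (a 0)
    have h5 := two_pt4 z (a 0)
    set v := ∑ i : Fin n, ‖a i.succ‖ ^ 2 with hv
    have hv0 : 0 ≤ v := Finset.sum_nonneg fun i _ => by positivity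
    have h6 : (0 : ℝ) < 2 ^ n := by positivity
    calc _ ≤ _ := add_le_add h2 h3
      _ = 2 ^ n * ((‖z + a 0‖ ^ 4 + ‖z - a 0‖ ^ 4) + 6 * (‖z + a 0‖ ^ 2 + ‖z - a 0‖ ^ 2) * v
          + 6 * v ^ 2) := by ring
      _ ≤ 2 ^ n * (2 * (‖z‖ ^ 4 + 6 * ‖z‖ ^ 2 * ‖a 0‖ ^ 2 + ‖a 0‖ ^ 4)
          + 6 * (2 * (‖z‖ ^ 2 + ‖a 0‖ ^ 2)) * v + 6 * v ^ 2) := by
          rw [h4]; gcongr
      _ ≤ 2 ^ (n + 1) * (‖z‖ ^ 4 + 6 * ‖z‖ ^ 2 * (‖a 0‖ ^ 2 + v) + 3 * (‖a 0‖ ^ 2 + v) ^ 2) := by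
          have e : (2 : ℝ) ^ (n + 1) * (‖z‖ ^ 4 + 6 * ‖z‖ ^ 2 * (‖a 0‖ ^ 2 + v)
              + 3 * (‖a 0‖ ^ 2 + v) ^ 2) = 2 ^ n * (2 * (‖z‖ ^ 4 + 6 * ‖z‖ ^ 2 * (‖a 0‖ ^ 2 + v)
              + 3 * (‖a 0‖ ^ 2 + v) ^ 2)) := by ring
          rw [e]
          apply mul_le_mul_of_nonneg_left _ h6.le
          nlinarith [sq_nonneg (‖a 0‖ ^ 2)]

theorem khinchine {p : ℝ} (hp : 0 < p) (hp2 : p < 2) : ∃ c : ℝ, 0 < c ∧ ∀ (n : ℕ) (a : Fin n → ℂ),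
    c * (∑ i, ‖a i‖ ^ 2) ^ (p / 2) ≤
      ((2 : ℝ) ^ n)⁻¹ * ∑ σ : Fin n → Bool, ‖∑ i, (if σ i then (1 : ℂ) else -1) * a i‖ ^ p := by
  refine ⟨(1 / 2) * (6 : ℝ) ^ (p / 2 - 1), by positivity, ?_⟩
  intro n a
  set v := ∑ i, ‖a i‖ ^ 2 with hv
  have hv0 : 0 ≤ v := Finset.sum_nonneg fun i _ => by positivity
  rcases hv0.eq_or_lt with h0 | hvpos
  · rw [← h0, Real.zero_rpow (by positivity), mul_zero]
    positivity
  set X : (Fin n → Bool) → ℝ := fun σ => ‖∑ i, (if σ i then (1 : ℂ) else -1) * a i‖ with hX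
  have h2 : ∑ σ, X σ ^ 2 = 2 ^ n * v := by
    have := sq_mean n a 0
    simp only [zero_add, norm_zero] at this
    rw [hX, this]; ring
  have h4 : ∑ σ, X σ ^ 4 ≤ 2 ^ n * (3 * v ^ 2) := by
    have := four_mean n a 0
    simp only [zero_add, norm_zero] at this
    refine this.trans (le_of_eq ?_)
    rw [hv]; ring
  have hpt : ∀ σ, X σ ^ 2 ≤ (6 * v) ^ (1 - p / 2) * X σ ^ p + X σ ^ 4 / (6 * v) := by
    intro σ
    have hx : 0 ≤ X σ := norm_nonneg _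
    rcases le_or_gt (X σ ^ 2) (6 * v) with hle | hgt
    · rcases hx.eq_or_lt with hx0 | hxpos
      · rw [← hx0, Real.zero_rpow hp.ne']
        simp
      · have e1 : X σ ^ 2 = (X σ ^ 2) ^ (1 - p / 2) * X σ ^ p := by
          have : (X σ ^ 2) ^ (1 - p / 2) = X σ ^ (2 - p) := by
            rw [← Real.rpow_natCast, ← Real.rpow_mul hx]; congr 1; push_cast; ring
          rw [this, ← Real.rpow_add hxpos]
          have : 2 - p + p = ((2 : ℕ) : ℝ) := by push_cast; ring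
          rw [this, Real.rpow_natCast]
        have e2 : (X σ ^ 2) ^ (1 - p / 2) ≤ (6 * v) ^ (1 - p / 2) :=
          Real.rpow_le_rpow (by positivity) hle (by linarith)
        have e3 : 0 ≤ X σ ^ 4 / (6 * v) := by positivity
        calc X σ ^ 2 = (X σ ^ 2) ^ (1 - p / 2) * X σ ^ p := e1
          _ ≤ (6 * v) ^ (1 - p / 2) * X σ ^ p := by gcongr
          _ ≤ _ := by linarith
    · have e3 : X σ ^ 2 ≤ X σ ^ 4 / (6 * v) := by
        rw [le_div_iff₀ (by positivity)]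
        nlinarith
      have e4 : 0 ≤ (6 * v) ^ (1 - p / 2) * X σ ^ p := by positivity
      linarith
  have hsum : 2 ^ n * v ≤ (6 * v) ^ (1 - p / 2) * (∑ σ, X σ ^ p) + 2 ^ n * (v / 2) := by
    calc 2 ^ n * v = ∑ σ, X σ ^ 2 := h2.symm
      _ ≤ ∑ σ, ((6 * v) ^ (1 - p / 2) * X σ ^ p + X σ ^ 4 / (6 * v)) :=
          Finset.sum_le_sum fun σ _ => hpt σ
      _ = (6 * v) ^ (1 - p / 2) * (∑ σ, X σ ^ p) + (∑ σ, X σ ^ 4) / (6 * v) := by
          rw [Finset.sum_add_distrib, ← Finset.mul_sum, ← Finset.sum_div]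
      _ ≤ (6 * v) ^ (1 - p / 2) * (∑ σ, X σ ^ p) + (2 ^ n * (3 * v ^ 2)) / (6 * v) := by gcongr
      _ = _ := by field_simp; ring
  have h6v : 0 < (6 * v) ^ (1 - p / 2) := by positivity
  have e5 : (6 : ℝ) ^ (p / 2 - 1) * v ^ (p / 2) * (6 * v) ^ (1 - p / 2) = v := by
    rw [Real.mul_rpow (by norm_num) hvpos.le]
    have e6 : (6 : ℝ) ^ (p / 2 - 1) * (6 : ℝ) ^ (1 - p / 2) = 1 := by
      rw [← Real.rpow_add (by norm_num)]; simp
    have e7 : v ^ (p / 2) * v ^ (1 - p / 2) = v := by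
      rw [← Real.rpow_add hvpos]; simp
    calc _ = ((6 : ℝ) ^ (p / 2 - 1) * (6 : ℝ) ^ (1 - p / 2)) * (v ^ (p / 2) * v ^ (1 - p / 2)) := by
          ring
      _ = v := by rw [e6, e7, one_mul]
  have hn : (0 : ℝ) < 2 ^ n := by positivity
  rw [← mul_le_mul_iff_left₀ (mul_pos hn h6v)]
  have e8 : ((2 : ℝ) ^ n)⁻¹ * (∑ σ, X σ ^ p) * (2 ^ n * (6 * v) ^ (1 - p / 2))
      = (6 * v) ^ (1 - p / 2) * (∑ σ, X σ ^ p) := by field_simp
  have e9 : 1 / 2 * (6 : ℝ) ^ (p / 2 - 1) * v ^ (p / 2) * (2 ^ n * (6 * v) ^ (1 - p / 2))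
      = 2 ^ n * (v / 2) := by
    calc _ = 2 ^ n * (1 / 2) * ((6 : ℝ) ^ (p / 2 - 1) * v ^ (p / 2) * (6 * v) ^ (1 - p / 2)) := by
          ring
      _ = _ := by rw [e5]; ring
  rw [e8, e9]
  linarith

end MP63
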