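import Pool.Agent.Work.MP_63674d_an.Ker
import Pool.Agent.Work.MP_63674d_an.Khin

open MeasureTheory Finset

namespace MP63

namespace NecAux

/-- sign -/
noncomputable def sg (b : Bool) : ℂ := if b then 1 else -1

theorem second_moment (n : ℕ) (z : Fin n → ℂ) :
    ∑ σ : Fin n → Bool, ‖∑ i, (if σ i then (1 : ℂ) else -1) * z i‖ ^ 2 =
      (2 : ℝ) ^ n * ∑ i, ‖z i‖ ^ 2 := by
  suffices H : ∀ (n : ℕ) (z : Fin n → ℂ) (w : ℂ),
      ∑ σ : Fin n → Bool, ‖w + ∑ i, (if σ i then (1 : ℂ) else -1) * z i‖ ^ 2 =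
      (2 : ℝ) ^ n * (‖w‖ ^ 2 + ∑ i, ‖z i‖ ^ 2) by
    have := H n z 0
    simpa using this
  intro n
  induction n with
  | zero => intro z w; simp
  | succ n ih =>
    intro z w
    rw [← (Fin.consEquiv (fun _ => Bool)).sum_comp, Fintype.sum_prod_type]
    simp only [Fin.consEquiv_apply, Fin.sum_univ_succ, Fin.cons_zero, Fin.cons_succ,
      Fintype.sum_bool, if_true]
    have e1 : ∀ σ : Fin n → Bool, w + (1 * z 0 + ∑ x : Fin n,
        (if σ x = true then (1 : ℂ) else -1) * z x.succ) = (w + z 0) + ∑ x : Fin n,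
        (if σ x = true then (1 : ℂ) else -1) * z x.succ := fun σ => by ring
    have e2 : ∀ σ : Fin n → Bool, w + ((if false = true then (1 : ℂ) else -1) * z 0 + ∑ x : Fin n,
        (if σ x = true then (1 : ℂ) else -1) * z x.succ) = (w - z 0) + ∑ x : Fin n,
        (if σ x = true then (1 : ℂ) else -1) * z x.succ := fun σ => by
      simp only [Bool.false_eq_true, if_false]
      ring
    simp only [e1, e2]
    rw [ih, ih]
    have hpar : ‖w + z 0‖ ^ 2 + ‖w - z 0‖ ^ 2 = 2 * (‖w‖ ^ 2 + ‖z 0‖ ^ 2) := by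
      have := parallelogram_law_with_norm ℝ w (z 0)
      nlinarith
    rw [pow_succ]
    linear_combination (2 : ℝ) ^ n * hpar

theorem avg_rpow {p : ℝ} (hp : 0 < p) (hp2 : p ≤ 2) (n : ℕ) (z : Fin n → ℂ) :
    ((2 : ℝ) ^ n)⁻¹ * ∑ σ : Fin n → Bool, ‖∑ i, (if σ i then (1 : ℂ) else -1) * z i‖ ^ p ≤
      (∑ i, ‖z i‖ ^ 2) ^ (p / 2) := by
  have hconc := Real.concaveOn_rpow (p := p / 2) (by positivity) (by linarith)
  have h := hconc.le_map_sum (t := (Finset.univ : Finset (Fin n → Bool)))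
    (w := fun _ => ((2 : ℝ) ^ n)⁻¹)
    (p := fun σ => ‖∑ i, (if σ i then (1 : ℂ) else -1) * z i‖ ^ 2)
    (fun _ _ => by positivity)
    (by
      rw [Finset.sum_const, nsmul_eq_mul]
      simp)
    (fun σ _ => by
      simp only [Set.mem_Ici]
      positivity)
  simp only [smul_eq_mul] at h
  rw [← Finset.mul_sum, ← Finset.mul_sum, second_moment] at h
  have h2 : ((2 : ℝ) ^ n)⁻¹ * ((2 : ℝ) ^ n * ∑ i, ‖z i‖ ^ 2) = ∑ i, ‖z i‖ ^ 2 := by
    field_simp
  rw [h2] at h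
  refine le_of_eq_of_le ?_ h
  congr 1
  apply Finset.sum_congr rfl
  intro σ _
  rw [← Real.rpow_natCast, ← Real.rpow_mul (norm_nonneg _)]
  congr 1
  push_cast
  ring

/-- the test polynomial -/
noncomputable def co (s N n : ℕ) (mi : Fin n → ℕ) (c : Fin n → ℂ) (j : ℕ) : ℂ :=
  ∑ i, c i * (if mi i ≤ j ∧ j < mi i + (s * (N - 1) + 1) then (bc s N (j - mi i) : ℂ) else 0)

theorem tp_co (s N n : ℕ) (mi : Fin n → ℕ) (c : Fin n → ℂ) (l : ℕ → ℂ) (D : ℕ)
    (hD : ∀ i, mi i + (s * (N - 1) + 1) ≤ D) (x : TT) :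
    tp D (fun j => l j * co s N n mi c j) x = ∑ i, c i * (ee (mi i) x * win s l N (mi i) x) := by
  unfold tp co
  simp only [Finset.mul_sum, Finset.sum_mul]
  rw [Finset.sum_comm]
  apply Finset.sum_congr rfl
  intro i _
  have h1 : ∑ j ∈ range D, l j * (c i * (if mi i ≤ j ∧ j < mi i + (s * (N - 1) + 1) then
      (bc s N (j - mi i) : ℂ) else 0)) * ee j x =
      ∑ j ∈ Finset.Ico (mi i) (mi i + (s * (N - 1) + 1)),
        l j * (c i * (bc s N (j - mi i) : ℂ)) * ee j x := by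
    symm
    apply Finset.sum_subset_zero_on_sdiff
    · intro j hj
      rw [Finset.mem_Ico] at hj
      rw [Finset.mem_range]
      exact hj.2.trans_le (hD i)
    · intro j hj
      rw [Finset.mem_sdiff, Finset.mem_Ico] at hj
      rw [if_neg hj.2]
      simp
    · intro j hj
      rw [Finset.mem_Ico] at hj
      rw [if_pos hj]
  rw [h1, Finset.sum_Ico_eq_sum_range]
  unfold win
  simp only [add_tsub_cancel_left, Finset.mul_sum]
  apply Finset.sum_congr rfl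
  intro k _
  rw [Nat.cast_add, ee_add]
  ring

theorem win_one (s N m : ℕ) (hN : 1 ≤ N) (x : TT) :
    win s (fun _ => 1) N m x = (∑ k ∈ range N, ee k x) ^ s := by
  rw [← bc_gen s N hN x]
  unfold win
  simp

theorem main {p : ℝ} (hp : 0 < p) (hp1 : p < 1) {s : ℕ} (hs : 1 < s * p) (l : ℕ → ℂ) (C : ℝ)
    (hC : 0 ≤ C)
    (hb : ∀ (D : ℕ) (a : ℕ → ℂ),
      ∫ x : TT, ‖tp D (fun n => l n * a n) x‖ ^ p ≤ C * ∫ x : TT, ‖tp D a x‖ ^ p) :
    ∃ C' : ℝ, ∀ N : ℕ, 1 ≤ N → ∀ (n : ℕ) (mi : Fin n → ℕ) (di : Fin n → ℝ), (∀ i, 0 ≤ di i) →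
      ∑ i, di i = 1 →
      ∫ x : TT, (∑ i, di i * ‖win s l N (mi i) x‖ ^ 2) ^ (p / 2) ≤ C' * (N : ℝ) ^ (s * p - 1) := by
  obtain ⟨c, hc, hkh⟩ := khinchine hp (show p < 2 by linarith)
  obtain ⟨C1, hC1, hdir⟩ := int_dir (s * p) hs
  refine ⟨c⁻¹ * (C * C1), ?_⟩
  intro N hN n mi di hdi hsum
  set D := (∑ i, mi i) + (s * (N - 1) + 1) with hDdef
  have hD : ∀ i, mi i + (s * (N - 1) + 1) ≤ D := by
    intro i
    rw [hDdef]
    have := Finset.single_le_sum (f := mi) (s := Finset.univ) (fun _ _ => Nat.zero_le _)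
      (Finset.mem_univ i)
    omega
  set cc : (Fin n → Bool) → Fin n → ℂ := fun σ i =>
    (if σ i then (1 : ℂ) else -1) * ((Real.sqrt (di i) : ℝ) : ℂ) with hcc
  have hcont : Continuous fun x : TT => (∑ i, di i * ‖win s l N (mi i) x‖ ^ 2) ^ (p / 2) := by
    apply Continuous.rpow_const
    · fun_prop
    · intro x; right; positivity
  have hcont1 : ∀ (D : ℕ) (a : ℕ → ℂ), Continuous fun x : TT => ‖tp D a x‖ ^ p := by
    intro D a
    apply Continuous.rpow_const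
    · fun_prop
    · intro x; right; exact hp.le
  have hnsq : ∀ i, ‖((Real.sqrt (di i) : ℝ) : ℂ)‖ ^ 2 = di i := by
    intro i
    rw [Complex.norm_real, Real.norm_of_nonneg (Real.sqrt_nonneg _), Real.sq_sqrt (hdi i)]
  -- lower bound
  have hlow : ∀ x : TT, c * (∑ i, di i * ‖win s l N (mi i) x‖ ^ 2) ^ (p / 2) ≤
      ((2 : ℝ) ^ n)⁻¹ * ∑ σ : Fin n → Bool,
        ‖tp D (fun j => l j * co s N n mi (cc σ) j) x‖ ^ p := by
    intro x
    have h := hkh n (fun i => ((Real.sqrt (di i) : ℝ) : ℂ) * (ee (mi i) x * win s l N (mi i) x))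
    have e1 : ∑ i, ‖((Real.sqrt (di i) : ℝ) : ℂ) * (ee (mi i) x * win s l N (mi i) x)‖ ^ 2 =
        ∑ i, di i * ‖win s l N (mi i) x‖ ^ 2 := by
      apply Finset.sum_congr rfl
      intro i _
      rw [norm_mul, norm_mul, norm_ee, one_mul, mul_pow, hnsq]
    rw [e1] at h
    refine h.trans (le_of_eq ?_)
    congr 1
    apply Finset.sum_congr rfl
    intro σ _
    rw [tp_co s N n mi (cc σ) l D hD x]
    congr 2
    apply Finset.sum_congr rfl
    intro i _
    rw [hcc]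
    ring
  -- upper bound
  have hupp : ∀ x : TT, ((2 : ℝ) ^ n)⁻¹ * ∑ σ : Fin n → Bool, ‖tp D (co s N n mi (cc σ)) x‖ ^ p ≤
      ‖∑ k ∈ range N, ee k x‖ ^ (s * p) := by
    intro x
    have h := avg_rpow hp (show p ≤ 2 by linarith) n
      (fun i => ((Real.sqrt (di i) : ℝ) : ℂ) * ee (mi i) x)
    have e1 : ∑ i, ‖((Real.sqrt (di i) : ℝ) : ℂ) * ee (mi i) x‖ ^ 2 = 1 := by
      rw [← hsum]
      apply Finset.sum_congr rfl
      intro i _
      rw [norm_mul, norm_ee, mul_one, hnsq]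
    rw [e1, Real.one_rpow] at h
    have e2 : ∀ σ : Fin n → Bool, ‖tp D (co s N n mi (cc σ)) x‖ ^ p =
        ‖∑ k ∈ range N, ee k x‖ ^ (s * p) *
          ‖∑ i, (if σ i then (1 : ℂ) else -1) *
            (((Real.sqrt (di i) : ℝ) : ℂ) * ee (mi i) x)‖ ^ p := by
      intro σ
      have h3 := tp_co s N n mi (cc σ) (fun _ => 1) D hD x
      simp only [one_mul, win_one s N _ hN] at h3
      have h4 : tp D (co s N n mi (cc σ)) x = (∑ k ∈ range N, ee k x) ^ s *
          ∑ i, (if σ i then (1 : ℂ) else -1) * (((Real.sqrt (di i) : ℝ) : ℂ) * ee (mi i) x) := by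
        have h5 : (fun j => co s N n mi (cc σ) j) = co s N n mi (cc σ) := rfl
        rw [← h5, h3, Finset.mul_sum]
        apply Finset.sum_congr rfl
        intro i _
        rw [hcc]
        ring
      rw [h4, norm_mul, norm_pow, Real.mul_rpow (by positivity) (by positivity),
        ← Real.rpow_natCast, ← Real.rpow_mul (norm_nonneg _)]
    calc ((2 : ℝ) ^ n)⁻¹ * ∑ σ : Fin n → Bool, ‖tp D (co s N n mi (cc σ)) x‖ ^ p
        = ‖∑ k ∈ range N, ee k x‖ ^ (s * p) * (((2 : ℝ) ^ n)⁻¹ * ∑ σ : Fin n → Bool,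
          ‖∑ i, (if σ i then (1 : ℂ) else -1) *
            (((Real.sqrt (di i) : ℝ) : ℂ) * ee (mi i) x)‖ ^ p) := by
          simp only [e2]
          rw [← Finset.mul_sum]
          ring
      _ ≤ ‖∑ k ∈ range N, ee k x‖ ^ (s * p) * 1 := by
          apply mul_le_mul_of_nonneg_left h
          positivity
      _ = _ := mul_one _
  have hint1 : c * ∫ x : TT, (∑ i, di i * ‖win s l N (mi i) x‖ ^ 2) ^ (p / 2) ≤
      ((2 : ℝ) ^ n)⁻¹ * ∑ σ : Fin n → Bool,
        ∫ x : TT, ‖tp D (fun j => l j * co s N n mi (cc σ) j) x‖ ^ p := by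
    rw [← integral_const_mul, ← integral_finsetSum _ (fun σ _ => integ (hcont1 _ _)),
      ← integral_const_mul]
    apply integral_mono
    · exact integ (by fun_prop)
    · apply integ
      apply Continuous.mul continuous_const
      exact continuous_finsetSum _ (fun σ _ => hcont1 _ _)
    · exact hlow
  have hint2 : ((2 : ℝ) ^ n)⁻¹ * ∑ σ : Fin n → Bool,
        ∫ x : TT, ‖tp D (fun j => co s N n mi (cc σ) j) x‖ ^ p ≤ C1 * (N : ℝ) ^ (s * p - 1) := by
    refine le_trans ?_ (hdir N hN)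
    rw [← integral_finsetSum _ (fun σ _ => integ (hcont1 _ _)),
      ← integral_const_mul]
    apply integral_mono
    · apply integ
      apply Continuous.mul continuous_const
      exact continuous_finsetSum _ (fun σ _ => hcont1 _ _)
    · apply integ
      apply Continuous.rpow_const
      · fun_prop
      · intro x; right; positivity
    · exact hupp
  have hmid : ((2 : ℝ) ^ n)⁻¹ * ∑ σ : Fin n → Bool,
        ∫ x : TT, ‖tp D (fun j => l j * co s N n mi (cc σ) j) x‖ ^ p ≤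
      C * (((2 : ℝ) ^ n)⁻¹ * ∑ σ : Fin n → Bool,
        ∫ x : TT, ‖tp D (fun j => co s N n mi (cc σ) j) x‖ ^ p) := by
    rw [Finset.mul_sum, Finset.mul_sum, Finset.mul_sum]
    apply Finset.sum_le_sum
    intro σ _
    have := hb D (co s N n mi (cc σ))
    have h2 : (0 : ℝ) ≤ ((2 : ℝ) ^ n)⁻¹ := by positivity
    calc ((2 : ℝ) ^ n)⁻¹ * ∫ x : TT, ‖tp D (fun j => l j * co s N n mi (cc σ) j) x‖ ^ p
        ≤ ((2 : ℝ) ^ n)⁻¹ * (C * ∫ x : TT, ‖tp D (fun j => co s N n mi (cc σ) j) x‖ ^ p) :=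
          mul_le_mul_of_nonneg_left this h2
      _ = _ := by ring
  have hfin : c * ∫ x : TT, (∑ i, di i * ‖win s l N (mi i) x‖ ^ 2) ^ (p / 2) ≤
      C * (C1 * (N : ℝ) ^ (s * p - 1)) :=
    hint1.trans (hmid.trans (mul_le_mul_of_nonneg_left hint2 hC))
  have : ∫ x : TT, (∑ i, di i * ‖win s l N (mi i) x‖ ^ 2) ^ (p / 2) =
      c⁻¹ * (c * ∫ x : TT, (∑ i, di i * ‖win s l N (mi i) x‖ ^ 2) ^ (p / 2)) := by
    rw [← mul_assoc, inv_mul_cancel₀ hc.ne', one_mul]
  rw [this]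
  calc c⁻¹ * (c * ∫ x : TT, (∑ i, di i * ‖win s l N (mi i) x‖ ^ 2) ^ (p / 2))
      ≤ c⁻¹ * (C * (C1 * (N : ℝ) ^ (s * p - 1))) :=
        mul_le_mul_of_nonneg_left hfin (inv_nonneg.2 hc.le)
    _ = _ := by ring

end NecAux

theorem necessity {p : ℝ} (hp : 0 < p) (hp1 : p < 1) {s : ℕ} (hs : 1 < s * p) (l : ℕ → ℂ) (C : ℝ)
    (hb : ∀ (D : ℕ) (a : ℕ → ℂ),
      ∫ x : TT, ‖tp D (fun n => l n * a n) x‖ ^ p ≤ C * ∫ x : TT, ‖tp D a x‖ ^ p) :
    ∃ C', VC p s l C' := by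
  obtain ⟨C', hC'⟩ := NecAux.main hp hp1 hs l (max C 0) (le_max_right _ _) (by
    intro D a
    refine (hb D a).trans ?_
    apply mul_le_mul_of_nonneg_right (le_max_left _ _)
    apply integral_nonneg
    intro x
    positivity)
  refine ⟨C', ?_⟩
  intro N hN S d hd hsum
  let e := S.equivFin
  have hconv : ∀ F : ℕ → ℝ, ∑ m ∈ S, F m = ∑ i : Fin #S, F (e.symm i : ℕ) := by
    intro F
    rw [← Finset.sum_coe_sort, ← e.symm.sum_comp]
  have h := hC' N hN #S (fun i => (e.symm i : ℕ)) (fun i => d (e.symm i : ℕ))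
    (fun i => hd _ (e.symm i).2) (by rw [← hconv]; exact hsum)
  refine le_of_eq_of_le ?_ h
  congr 1
  ext x
  rw [hconv]

end MP63
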