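import Pool.Agent.Work.MP_63674d_an.Suff
import Pool.Agent.Work.MP_63674d_an.Nec
import Pool.Agent.Work.MP_63674d_an.Mult

/-! The characterisation of the coefficient multipliers of `H^p`, `0 < p < 1`. -/

open MeasureTheory Finset

namespace MP63

theorem cond_integral (p : ℝ) (s : ℕ) (l : ℕ → ℂ) (N : ℕ) (S : Finset ℕ) (d : ℕ → ℝ) :
    ∫ θ in (0 : ℝ)..(2 * Real.pi), (∑ m ∈ S, d m *
        ‖∑ k ∈ range (s * (N - 1) + 1),
          (bc s N k : ℂ) * l (m + k) * Complex.exp (k * θ * Complex.I)‖ ^ 2) ^ (p / 2)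
      = 2 * Real.pi * ∫ x : TT, (∑ m ∈ S, d m * ‖win s l N m x‖ ^ 2) ^ (p / 2) := by
  rw [← integral_circle_eq]
  congr 1
  ext θ
  congr 1
  refine Finset.sum_congr rfl fun m _ => ?_
  congr 3
  unfold win
  refine Finset.sum_congr rfl fun k _ => ?_
  rw [ee_theta]; simp

theorem main_iff {p : ℝ} (hp : 0 < p) (hp1 : p < 1) {s : ℕ} (hs : 1 < s * p) (l : ℕ → ℂ) :
    IsMult p l ↔ ∃ C : ℝ, ∀ N : ℕ, 1 ≤ N → ∀ (S : Finset ℕ) (d : ℕ → ℝ), (∀ m ∈ S, 0 ≤ d m) →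
      ∑ m ∈ S, d m = 1 →
      ∫ θ in (0 : ℝ)..(2 * Real.pi), (∑ m ∈ S, d m *
        ‖∑ k ∈ range (s * (N - 1) + 1),
          (bc s N k : ℂ) * l (m + k) * Complex.exp (k * θ * Complex.I)‖ ^ 2) ^ (p / 2)
        ≤ C * (N : ℝ) ^ (s * p - 1) := by
  have hpi : 0 < 2 * Real.pi := by positivity
  constructor
  · intro h
    obtain ⟨C, hC⟩ := bdd_of_isMult hp hp1 l h
    obtain ⟨C', hC'⟩ := necessity hp hp1 hs l C hC
    refine ⟨2 * Real.pi * C', ?_⟩
    intro N hN S d hd hd1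
    rw [cond_integral]
    have h2 := mul_le_mul_of_nonneg_left (hC' N hN S d hd hd1) hpi.le
    linarith
  · rintro ⟨C, hC⟩
    have hV : VC p s l (C / (2 * Real.pi)) := by
      intro N hN S d hd hd1
      have h := hC N hN S d hd hd1
      rw [cond_integral] at h
      rw [div_mul_eq_mul_div, le_div_iff₀ hpi]
      linarith
    obtain ⟨C', hC'⟩ := sufficiency hp hp1 hs l _ hV
    exact isMult_of_bdd hp hp1 l C' hC'

end MP63
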