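import Pool.Agent.Work.MP_63674d_an.BlkD
import Pool.Agent.Work.MP_63674d_an.Final

/-! Rotated blocks, part E: assembly. -/

open MeasureTheory Finset Filter Topology

namespace MP63.Blk

theorem card_bound {n p B : ℝ} (hn : 1 ≤ n) (hp1 : p < 1) (h : n ^ (1 - p / 2) ≤ B) : n ≤ B ^ 2 := by
  have h1 : n ^ (1 / 2 : ℝ) ≤ n ^ (1 - p / 2) := Real.rpow_le_rpow_of_exponent_le hn (by linarith)
  have h2 : n = (n ^ (1 / 2 : ℝ)) ^ 2 := by
    rw [← Real.rpow_natCast, ← Real.rpow_mul (by linarith)]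
    norm_num
  rw [h2]
  exact pow_le_pow_left₀ (by positivity) (h1.trans h) 2

/-- the covering condition is necessary -/
theorem nec {p : ℝ} (hp : 0 < p) (hp1 : p < 1) {s : ℕ} (hs : 1 < s * p) (τ : ℕ → TT) {C : ℝ}
    (hV : VC p s (lam τ) C) : ∃ K : ℕ, ∀ J : ℕ, ∃ S : Finset TT, S.card ≤ K ∧
      ∀ j, J ≤ j → ∃ c ∈ S, ‖ee 1 (τ j) - ee 1 c‖ ≤ K / MM (J + 1) := by
  classical
  set e := s + 4 with he
  set B : ℝ := 32 * C * (2 ^ (s + 1)) ^ p with hB
  set n₀ : ℕ := ⌈B ^ 2⌉₊ with hn₀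
  refine ⟨n₀ + 2 ^ (2 * e + 1) + 2 ^ (e ^ 2 + 1) + 1, ?_⟩
  intro J
  have hM := MM_pos (J + 1)
  rcases lt_or_ge J e with hJ | hJ
  · refine ⟨{0}, by simp, ?_⟩
    intro j _
    refine ⟨0, by simp, ?_⟩
    rw [le_div_iff₀ hM]
    have h1 : ‖ee 1 (τ j) - ee 1 0‖ ≤ 2 := by
      refine (norm_sub_le _ _).trans ?_
      rw [norm_ee, norm_ee]; norm_num
    have h2 : MM (J + 1) ≤ 2 ^ (e ^ 2) := MM_mono (by omega : J + 1 ≤ e)
    calc ‖ee 1 (τ j) - ee 1 0‖ * MM (J + 1) ≤ 2 * 2 ^ (e ^ 2) :=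
          mul_le_mul h1 h2 hM.le (by norm_num)
      _ = 2 ^ (e ^ 2 + 1) := by rw [pow_succ]; ring
      _ ≤ _ := by
          push_cast
          have h3 : (0 : ℝ) ≤ n₀ := by positivity
          have h4 : (0 : ℝ) ≤ 2 ^ (2 * e + 1) := by positivity
          linarith
  set N : ℕ := 2 ^ ((J + 1) ^ 2 - 2 * e) with hNdef
  have hN : 1 ≤ N := Nat.one_le_two_pow
  have hN0 : (0 : ℝ) < N := by exact_mod_cast hN
  have hJe : 2 * e ≤ (J + 1) ^ 2 := by nlinarith
  have hNM : (N : ℝ) * 2 ^ (2 * e) = MM (J + 1) := by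
    rw [hNdef]; push_cast
    unfold MM
    rw [← pow_add]; congr 1; omega
  set pos : ℕ → ℕ := fun j => 2 ^ ((j + 1) ^ 2 - e) with hpos
  have hposM : ∀ j, J ≤ j → (pos j : ℝ) * 2 ^ e = MM (j + 1) := by
    intro j hj
    simp only [hpos]; push_cast
    unfold MM
    rw [← pow_add]; congr 1
    have : e ≤ (j + 1) ^ 2 := by nlinarith
    omega
  have hposinj : ∀ i j, J ≤ i → J ≤ j → pos i = pos j → i = j := by
    intro i j hi hj hij
    have h1 := Nat.pow_right_injective (le_refl 2) hij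
    have h2 : e ≤ (i + 1) ^ 2 := by nlinarith
    have h3 : e ≤ (j + 1) ^ 2 := by nlinarith
    have h4 : (i + 1) ^ 2 = (j + 1) ^ 2 := by omega
    have h5 := Nat.pow_left_injective two_ne_zero h4
    omega
  have hclose : ∀ j, J ≤ j → ∀ k, k ≤ s * (N - 1) →
      ‖lam τ (pos j + k) - ee (-((pos j + k : ℕ) : ℤ)) (τ j)‖ ≤ 1 / 2 ^ (s + 1) := by
    intro j hj k hk
    have hp1' : 1 ≤ pos j := Nat.one_le_two_pow
    have hp0 : (0 : ℝ) < pos j := by exact_mod_cast hp1'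
    have hMj := MM_pos (j + 1)
    have h1 := lam_close τ (pos j + k) j
    have h2 := one_sub_gg (pos j + k) j (by omega)
    have hkN : (k : ℝ) ≤ s * N := by
      have : k ≤ s * N := hk.trans (Nat.mul_le_mul_left s (Nat.sub_le N 1))
      exact_mod_cast this
    have hs2 : (s : ℝ) ≤ 2 ^ e := by
      have h3 : s < 2 ^ s := Nat.lt_two_pow_self
      have h4 : 2 ^ s ≤ 2 ^ e := Nat.pow_le_pow_right (by norm_num) (by omega)
      exact_mod_cast (h3.le.trans h4)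
    have hE : (0 : ℝ) < 2 ^ e := by positivity
    have hMJ : MM (J + 1) ≤ MM (j + 1) := MM_mono (by omega)
    have h5 : ((pos j + k : ℕ) : ℝ) / MM (j + 1) ≤ 2 / 2 ^ e := by
      rw [div_le_div_iff₀ hMj hE]
      push_cast
      have h6 : (k : ℝ) * 2 ^ e ≤ MM (j + 1) := by
        calc (k : ℝ) * 2 ^ e ≤ (s * N) * 2 ^ e := mul_le_mul_of_nonneg_right hkN hE.le
          _ ≤ (2 ^ e * N) * 2 ^ e := by gcongr
          _ = N * 2 ^ (2 * e) := by rw [two_mul, pow_add]; ring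
          _ = MM (J + 1) := hNM
          _ ≤ _ := hMJ
      rw [add_mul, hposM j hj]
      linarith
    have h7 : MM j / ((pos j + k : ℕ) : ℝ) ≤ 1 / 2 ^ e := by
      rw [div_le_div_iff₀ (by positivity) hE]
      have h8 : MM j * 2 ^ (2 * j + 1) = MM (j + 1) := by
        unfold MM; rw [← pow_add]; congr 1; ring
      have h9 : (2 : ℝ) ^ (2 * e) ≤ 2 ^ (2 * j + 1) :=
        pow_le_pow_right₀ (by norm_num) (by omega)
      have h10 : MM j * 2 ^ (2 * e) ≤ pos j * 2 ^ e := by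
        rw [hposM j hj, ← h8]
        exact mul_le_mul_of_nonneg_left h9 (MM_pos j).le
      have h11 : MM j * 2 ^ e ≤ pos j := by
        have : (MM j * 2 ^ e) * 2 ^ e ≤ pos j * 2 ^ e := by
          calc (MM j * 2 ^ e) * 2 ^ e = MM j * 2 ^ (2 * e) := by rw [two_mul, pow_add]; ring
            _ ≤ _ := h10
        exact le_of_mul_le_mul_right this hE
      push_cast
      have : (0 : ℝ) ≤ k := by positivity
      linarith
    have h12 : (2 : ℝ) ^ e = 8 * 2 ^ (s + 1) := by rw [he]; ring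
    have h13 : 2 * (2 / (2 : ℝ) ^ e + 1 / 2 ^ e) ≤ 1 / 2 ^ (s + 1) := by
      rw [h12]
      have : (0 : ℝ) < 1 / 2 ^ (s + 1) := by positivity
      have e1 : 2 * (2 / (8 * (2 : ℝ) ^ (s + 1)) + 1 / (8 * 2 ^ (s + 1)))
          = (3 / 4) * (1 / 2 ^ (s + 1)) := by
        field_simp; norm_num
      rw [e1]; linarith
    calc _ ≤ 2 * (1 - gg (pos j + k) j) := h1
      _ ≤ 2 * (2 / (2 : ℝ) ^ e + 1 / 2 ^ e) := by linarith
      _ ≤ _ := h13
  have hwin : ∀ j, J ≤ j → ∀ x : TT, ‖ee 1 (x - τ j) - 1‖ ≤ 1 / N →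
      (N : ℝ) ^ s * (1 / 2 ^ (s + 1)) ≤ ‖win s (lam τ) N (pos j) x‖ := by
    intro j hj x hx
    have h1 := win_lower τ hN (hclose j hj) hx
    have h2 : (1 : ℝ) / 2 ^ s - 1 / 2 ^ (s + 1) = 1 / 2 ^ (s + 1) := by
      rw [pow_succ]; field_simp; norm_num
    rw [h2] at h1
    exact h1
  set P : Finset ℕ → Prop := fun F => (∀ j ∈ F, J ≤ j) ∧ ∀ j ∈ F, ∀ k ∈ F, j ≠ k →
    2 / (N : ℝ) ≤ ‖ee 1 (τ j) - ee 1 (τ k)‖ with hP
  have hcard : ∀ F, P F → F.card ≤ n₀ := by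
    intro F hF
    rcases F.eq_empty_or_nonempty with h0 | h0
    · subst h0; simp
    have h1 := count hp hs τ hV hN F pos
      (fun i hi j hj hij => hposinj i j (hF.1 i hi) (hF.1 j hj) hij) h0
      (fun j hj => hwin j (hF.1 j hj)) hF.2
    have h2 : (1 : ℝ) ≤ F.card := by exact_mod_cast h0.card_pos
    have h3 := card_bound h2 hp1 h1
    have h4 : (F.card : ℝ) ≤ n₀ := h3.trans (Nat.le_ceil _)
    exact_mod_cast h4
  have hP0 : ∃ F, P F ∧ F.card = 0 := ⟨∅, ⟨by simp, by simp⟩, rfl⟩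
  set q := Nat.findGreatest (fun n => ∃ F, P F ∧ F.card = n) n₀ with hq
  obtain ⟨F, hF, hFq⟩ : ∃ F, P F ∧ F.card = q := by
    have := Nat.findGreatest_spec (P := fun n => ∃ F, P F ∧ F.card = n) (Nat.zero_le n₀) hP0
    exact this
  refine ⟨F.image τ, ?_, ?_⟩
  · have h1 : (F.image τ).card ≤ F.card := Finset.card_image_le
    have h2 := hcard F hF
    calc (F.image τ).card ≤ n₀ := h1.trans h2
      _ ≤ n₀ + 2 ^ (2 * e + 1) := Nat.le_add_right _ _
      _ ≤ n₀ + 2 ^ (2 * e + 1) + 2 ^ (e ^ 2 + 1) := Nat.le_add_right _ _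
      _ ≤ _ := Nat.le_add_right _ _
  intro j hj
  by_cases hcov : ∃ k ∈ F, ‖ee 1 (τ j) - ee 1 (τ k)‖ < 2 / (N : ℝ)
  · obtain ⟨k, hk, hkj⟩ := hcov
    refine ⟨τ k, Finset.mem_image_of_mem τ hk, hkj.le.trans ?_⟩
    rw [div_le_div_iff₀ hN0 hM, ← hNM]
    push_cast
    have h1 : (2 : ℝ) ^ (2 * e + 1) = 2 * 2 ^ (2 * e) := by rw [pow_succ]; ring
    rw [h1]
    have h2 : (0 : ℝ) ≤ n₀ := by positivity
    have h3 : (0 : ℝ) ≤ 2 ^ (e ^ 2 + 1) := by positivity
    have h4 : 0 ≤ ((n₀ : ℝ) + 2 ^ (e ^ 2 + 1) + 1) * N := by positivity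
    nlinarith
  · exfalso
    push Not at hcov
    have hjF : j ∉ F := by
      intro hjF
      have h1 := hcov j hjF
      rw [sub_self, norm_zero] at h1
      have : (0 : ℝ) < 2 / N := by positivity
      linarith
    have hF' : P (insert j F) := by
      refine ⟨?_, ?_⟩
      · intro i hi
        rcases Finset.mem_insert.mp hi with h | h
        · subst h; exact hj
        · exact hF.1 i h
      · intro i hi k hk hik
        rcases Finset.mem_insert.mp hi with h | h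
        · rcases Finset.mem_insert.mp hk with h' | h'
          · exact absurd (h.trans h'.symm) hik
          · rw [h]; exact hcov k h'
        · rcases Finset.mem_insert.mp hk with h' | h'
          · rw [h', norm_sub_rev]; exact hcov i h
          · exact hF.2 i h k h' hik
    have hc' : (insert j F).card = q + 1 := by rw [Finset.card_insert_of_notMem hjF, hFq]
    have hle : q + 1 ≤ n₀ := by rw [← hc']; exact hcard _ hF'
    have h1 := Nat.le_findGreatest (P := fun n => ∃ F, P F ∧ F.card = n) hle ⟨_, hF', hc'⟩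
    omega

/-- The sequence of rotated blocks in terms of angles. -/
noncomputable def rot (t : ℕ → ℝ) (n : ℕ) : ℂ :=
  ∑' j : ℕ, (((1 - 1 / 2 ^ ((j + 1) ^ 2)) ^ n - (1 - 1 / 2 ^ (j ^ 2)) ^ n : ℝ) : ℂ) *
    Complex.exp (-(n * t j * Complex.I))

noncomputable def ang (t : ℕ → ℝ) (j : ℕ) : TT := ((t j / (2 * Real.pi) : ℝ) : TT)

theorem rot_eq (t : ℕ → ℝ) : rot t = lam (ang t) := by
  funext n
  unfold rot lam
  refine tsum_congr fun j => ?_
  unfold ang gg rr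
  rw [ee_theta]
  congr 2
  push_cast
  ring

theorem ee_ang (t : ℕ → ℝ) (j : ℕ) : ee 1 (ang t j) = Complex.exp (t j * Complex.I) := by
  unfold ang
  rw [ee_theta]
  congr 1
  push_cast
  ring

theorem win_integral (p : ℝ) (s : ℕ) (l : ℕ → ℂ) (N m : ℕ) :
    ∫ θ in (0 : ℝ)..(2 * Real.pi),
        ‖∑ k ∈ range (s * (N - 1) + 1),
          (bc s N k : ℂ) * l (m + k) * Complex.exp (k * θ * Complex.I)‖ ^ p
      = 2 * Real.pi * ∫ x : TT, ‖win s l N m x‖ ^ p := by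
  rw [← integral_circle_eq]
  congr 1
  ext θ
  congr 2
  unfold win
  refine Finset.sum_congr rfl fun k _ => ?_
  rw [ee_theta]; simp

/-- the covering condition -/
def Cov (t : ℕ → ℝ) : Prop := ∃ K : ℕ, ∀ J : ℕ, ∃ S : Finset ℂ, S.card ≤ K ∧
  ∀ j, J ≤ j → ∃ c ∈ S, ‖Complex.exp (t j * Complex.I) - c‖ ≤ K / 2 ^ ((J + 1) ^ 2)

theorem cov_tt (t : ℕ → ℝ) {K : ℕ} {J : ℕ} {S : Finset ℂ} (hS : S.card ≤ K)
    (h : ∀ j, J ≤ j → ∃ c ∈ S, ‖Complex.exp (t j * Complex.I) - c‖ ≤ K / 2 ^ ((J + 1) ^ 2)) :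
    ∃ S : Finset TT, S.card ≤ K ∧ ∀ j, J ≤ j → ∃ c ∈ S, ‖ang t j - c‖ ≤ K / MM (J + 1) := by
  classical
  set R : ℝ := K / 2 ^ ((J + 1) ^ 2) with hR
  set f : ℂ → TT := fun c => if hc : ∃ i, J ≤ i ∧ ‖Complex.exp (t i * Complex.I) - c‖ ≤ R then
    ang t hc.choose else 0 with hf
  refine ⟨S.image f, Finset.card_image_le.trans hS, ?_⟩
  intro j hj
  obtain ⟨c, hc, hcR⟩ := h j hj
  refine ⟨f c, Finset.mem_image_of_mem f hc, ?_⟩
  have hex : ∃ i, J ≤ i ∧ ‖Complex.exp (t i * Complex.I) - c‖ ≤ R := ⟨j, hj, hcR⟩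
  have hfc : f c = ang t hex.choose := by simp only [hf]; rw [dif_pos hex]
  rw [hfc]
  have h1 := hex.choose_spec.2
  set i := hex.choose
  have h2 := le_norm_one_sub_ee (ang t j - ang t i)
  rw [norm_sub_rev (1 : ℂ), ee_sub_norm, ee_ang, ee_ang] at h2
  have h3 : ‖Complex.exp (t j * Complex.I) - Complex.exp (t i * Complex.I)‖ ≤ R + R := by
    have e : Complex.exp (t j * Complex.I) - Complex.exp (t i * Complex.I)
        = (Complex.exp (t j * Complex.I) - c) - (Complex.exp (t i * Complex.I) - c) := by ring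
    rw [e]
    exact (norm_sub_le _ _).trans (add_le_add hcR h1)
  have hR0 : 0 ≤ R := by positivity
  have h4 : R = K / MM (J + 1) := rfl
  rw [← h4]
  linarith

theorem isMult_iff {p : ℝ} (hp : 0 < p) (hp1 : p < 1) (t : ℕ → ℝ) :
    IsMult p (rot t) ↔ Cov t := by
  obtain ⟨s, hs⟩ := exists_nat_gt (1 / p)
  have hs' : 1 < s * p := by
    rw [div_lt_iff₀ hp] at hs; exact hs
  rw [rot_eq]
  constructor
  · intro h
    obtain ⟨C, hC⟩ := bdd_of_isMult hp hp1 _ h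
    obtain ⟨C', hC'⟩ := necessity hp hp1 hs' _ C hC
    obtain ⟨K, hK⟩ := nec hp hp1 hs' (ang t) hC'
    refine ⟨K, fun J => ?_⟩
    classical
    obtain ⟨S, hS, hSc⟩ := hK J
    refine ⟨S.image (ee 1), Finset.card_image_le.trans hS, ?_⟩
    intro j hj
    obtain ⟨c, hc, hcj⟩ := hSc j hj
    refine ⟨ee 1 c, Finset.mem_image_of_mem _ hc, ?_⟩
    rw [← ee_ang]
    exact hcj
  · rintro ⟨K, hK⟩
    have hcov : ∀ J : ℕ, ∃ S : Finset TT, S.card ≤ K ∧ ∀ j, J ≤ j → ∃ c ∈ S,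
        ‖ang t j - c‖ ≤ K / MM (J + 1) := by
      intro J
      obtain ⟨S, hS, hSc⟩ := hK J
      exact cov_tt t hS hSc
    obtain ⟨C, hC⟩ := suff hp hp1 hs' (ang t) K hcov
    obtain ⟨C', hC'⟩ := sufficiency hp hp1 hs' _ _ hC
    exact isMult_of_bdd hp hp1 _ C' hC'

theorem single_theta {p : ℝ} (hp : 0 < p) (hp1 : p < 1) {s : ℕ} (hs : 1 < s * p) :
    ∃ C : ℝ, ∀ (t : ℕ → ℝ) (N m : ℕ), 1 ≤ N →
      ∫ θ in (0 : ℝ)..(2 * Real.pi),
        ‖∑ k ∈ range (s * (N - 1) + 1),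
          (bc s N k : ℂ) * rot t (m + k) * Complex.exp (k * θ * Complex.I)‖ ^ p
        ≤ C * (N : ℝ) ^ (s * p - 1) := by
  obtain ⟨C, hC⟩ := single hp hp1 hs
  refine ⟨2 * Real.pi * C, ?_⟩
  intro t N m hN
  rw [win_integral, rot_eq]
  have h := mul_le_mul_of_nonneg_left (hC (ang t) N hN m) (by positivity : (0 : ℝ) ≤ 2 * Real.pi)
  linarith

theorem exp_ne {a b : ℕ} (hab : a ≠ b) :
    Complex.exp ((a : ℝ) * Complex.I) ≠ Complex.exp ((b : ℝ) * Complex.I) := by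
  intro h
  rw [Complex.exp_eq_exp_iff_exists_int] at h
  obtain ⟨n, hn⟩ := h
  have h1 : ((a : ℝ) : ℂ) = (b : ℝ) + n * (2 * Real.pi) := by
    have hI : Complex.I ≠ 0 := Complex.I_ne_zero
    apply mul_right_cancel₀ hI
    rw [hn]; ring
  have h2 : (a : ℝ) = b + n * (2 * Real.pi) := by exact_mod_cast h1
  by_cases hn0 : n = 0
  · subst hn0
    simp at h2
    exact hab h2
  · have hn0' : (n : ℝ) ≠ 0 := by exact_mod_cast hn0
    apply irrational_pi
    refine ⟨((a : ℚ) - b) / (2 * n), ?_⟩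
    push_cast
    rw [h2]
    field_simp
    ring

/-- Not covered: rotations by the integers. -/
theorem not_cov : ¬ Cov (fun j => (j : ℝ)) := by
  rintro ⟨K, hK⟩
  classical
  obtain ⟨δ, hδ, hδ'⟩ : ∃ δ : ℝ, 0 < δ ∧ ∀ a b : ℕ, a ≤ K → b ≤ K → a ≠ b →
      δ ≤ ‖Complex.exp ((a : ℝ) * Complex.I) - Complex.exp ((b : ℝ) * Complex.I)‖ := by
    set T := (range (K + 1)).offDiag with hT
    rcases T.eq_empty_or_nonempty with h0 | h0
    · refine ⟨1, one_pos, ?_⟩
      intro a b ha hb hab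
      have : (a, b) ∈ T := by
        rw [hT, Finset.mem_offDiag]
        exact ⟨Finset.mem_range.mpr (by omega), Finset.mem_range.mpr (by omega), hab⟩
      rw [h0] at this
      simp at this
    · obtain ⟨x, hx, hmin⟩ := Finset.exists_min_image T (fun x : ℕ × ℕ =>
        ‖Complex.exp ((x.1 : ℝ) * Complex.I) - Complex.exp ((x.2 : ℝ) * Complex.I)‖) h0
      refine ⟨_, ?_, fun a b ha hb hab => hmin (a, b) ?_⟩
      · rw [hT, Finset.mem_offDiag] at hx
        exact norm_pos_iff.mpr (sub_ne_zero.mpr (exp_ne hx.2.2))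
      · rw [hT, Finset.mem_offDiag]
        exact ⟨Finset.mem_range.mpr (by omega), Finset.mem_range.mpr (by omega), hab⟩
  obtain ⟨J, hJ⟩ := exists_lt_MM (2 * K / δ)
  have hM := MM_pos (J + 1)
  have hJ' : 2 * (K / MM (J + 1)) < δ := by
    have h1 := hJ.trans_le (MM_mono (Nat.le_succ J))
    rw [div_lt_iff₀ hδ] at h1
    rw [← mul_div_assoc, div_lt_iff₀ hM]
    simp only [Nat.succ_eq_add_one] at h1
    linarith
  obtain ⟨S, hS, hSc⟩ := hK J
  choose! f hf hf' using hSc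
  have hpig : ∃ a ∈ range (K + 1), ∃ b ∈ range (K + 1), a ≠ b ∧ f (J + a) = f (J + b) := by
    apply Finset.exists_ne_map_eq_of_card_lt_of_maps_to (t := S)
    · rw [Finset.card_range]; omega
    · intro a _
      exact hf (J + a) (by omega)
  obtain ⟨a, ha, b, hb, hab, hfab⟩ := hpig
  have h1 := hf' (J + a) (by omega)
  have h2 := hf' (J + b) (by omega)
  rw [← hfab] at h2
  have h3 : ‖Complex.exp ((a : ℝ) * Complex.I) - Complex.exp ((b : ℝ) * Complex.I)‖
      ≤ K / MM (J + 1) + K / MM (J + 1) := by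
    have e : Complex.exp (((J + a : ℕ) : ℝ) * Complex.I) - Complex.exp (((J + b : ℕ) : ℝ) * Complex.I)
        = Complex.exp ((J : ℝ) * Complex.I) * (Complex.exp ((a : ℝ) * Complex.I)
          - Complex.exp ((b : ℝ) * Complex.I)) := by
      rw [mul_sub, ← Complex.exp_add, ← Complex.exp_add]
      push_cast
      ring_nf
    have h4 : ‖Complex.exp (((J + a : ℕ) : ℝ) * Complex.I)
        - Complex.exp (((J + b : ℕ) : ℝ) * Complex.I)‖ ≤ K / MM (J + 1) + K / MM (J + 1) := by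
      have e2 : Complex.exp (((J + a : ℕ) : ℝ) * Complex.I)
          - Complex.exp (((J + b : ℕ) : ℝ) * Complex.I)
          = (Complex.exp (((J + a : ℕ) : ℝ) * Complex.I) - f (J + a))
            - (Complex.exp (((J + b : ℕ) : ℝ) * Complex.I) - f (J + a)) := by ring
      rw [e2]
      exact (norm_sub_le _ _).trans (add_le_add h1 h2)
    rw [e, norm_mul, Complex.norm_exp_ofReal_mul_I, one_mul] at h4
    exact h4
  have h5 := hδ' a b (by have := Finset.mem_range.mp ha; omega)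
    (by have := Finset.mem_range.mp hb; omega) hab
  linarith

end MP63.Blk
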