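import Pool.Agent.Work.MP_63674d_an.Base

open MeasureTheory Finset

namespace MP63

/-- the `L`-th backward difference -/
noncomputable def bd (L : ℕ) (g : ℝ → ℝ) (h x : ℝ) : ℝ :=
  ∑ j ∈ range (L + 1), (-1 : ℝ) ^ j * (L.choose j) * g (x - j * h)

theorem bd_succ (L : ℕ) (g : ℝ → ℝ) (h x : ℝ) :
    bd (L + 1) g h x = bd L g h x - bd L g h (x - h) := by
  unfold bd
  have e1 : ∑ j ∈ range (L + 1 + 1), (-1 : ℝ) ^ j * ((L + 1).choose j) * g (x - j * h)
      = ∑ j ∈ range (L + 1), (-1 : ℝ) ^ (j + 1) * ((L + 1).choose (j + 1)) *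
          g (x - ((j + 1 : ℕ) : ℝ) * h) + g x := by
    rw [Finset.sum_range_succ' _ (L + 1)]
    simp
  have e2 : ∑ j ∈ range (L + 1), (-1 : ℝ) ^ j * (L.choose j) * g (x - j * h)
      = ∑ j ∈ range (L + 1), (-1 : ℝ) ^ (j + 1) * (L.choose (j + 1)) *
          g (x - ((j + 1 : ℕ) : ℝ) * h) + g x := by
    rw [Finset.sum_range_succ' _ L, Finset.sum_range_succ _ L]
    simp
  have e3 : ∑ j ∈ range (L + 1), (-1 : ℝ) ^ j * (L.choose j) * g (x - h - j * h)
      = ∑ j ∈ range (L + 1), (-1 : ℝ) ^ j * (L.choose j) * g (x - ((j + 1 : ℕ) : ℝ) * h) := by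
    refine Finset.sum_congr rfl fun j _ => ?_
    congr 2; push_cast; ring
  rw [e1, e2, e3, add_sub_right_comm, ← Finset.sum_sub_distrib]
  congr 1
  refine Finset.sum_congr rfl fun j _ => ?_
  rw [Nat.choose_succ_succ]; push_cast; ring

theorem hasDerivAt_bd (L : ℕ) (g : ℝ → ℝ) (hg : ContDiff ℝ 1 g) (h x : ℝ) :
    HasDerivAt (fun y => bd L g h y) (bd L (deriv g) h x) x := by
  unfold bd
  apply HasDerivAt.fun_sum
  intro j _
  apply HasDerivAt.const_mul
  have h1 : HasDerivAt g (deriv g (x - j * h)) (x - j * h) :=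
    (hg.differentiable (by norm_num)).differentiableAt.hasDerivAt
  exact h1.comp_sub_const x (j * h)

theorem bd_bound (L : ℕ) : ∀ g : ℝ → ℝ, (∀ n : ℕ, ContDiff ℝ n g) → HasCompactSupport g →
    ∃ C : ℝ, 0 ≤ C ∧ ∀ h x : ℝ, 0 ≤ h → |bd L g h x| ≤ C * h ^ L := by
  induction L with
  | zero =>
    intro g hg hc
    obtain ⟨C, hC⟩ := hc.exists_bound_of_continuous (hg 0).continuous
    refine ⟨max C 0, le_max_right _ _, fun h x _ => ?_⟩
    have : bd 0 g h x = g x := by simp [bd]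
    rw [this, pow_zero, mul_one]
    exact (hC x).trans (le_max_left _ _)
  | succ L ih =>
    intro g hg hc
    have hg' : ∀ n : ℕ, ContDiff ℝ n (deriv g) := by
      intro n
      have h1 : ContDiff ℝ ((n : ℕ∞) + 1) g := by exact_mod_cast hg (n + 1)
      exact (contDiff_succ_iff_deriv.mp h1).2.2
    obtain ⟨C, hC0, hC⟩ := ih (deriv g) hg' hc.deriv
    refine ⟨C, hC0, fun h x hh => ?_⟩
    rw [bd_succ]
    have h1 : ContDiff ℝ 1 g := by exact_mod_cast hg 1
    have h2 := Convex.norm_image_sub_le_of_norm_hasDerivWithin_le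
      (f := fun y => bd L g h y) (f' := fun y => bd L (deriv g) h y) (C := C * h ^ L)
      (s := Set.univ) (x := x - h) (y := x)
      (fun y _ => (hasDerivAt_bd L g h1 h y).hasDerivWithinAt)
      (fun y _ => hC h y hh) convex_univ (Set.mem_univ _) (Set.mem_univ _)
    simp only [Real.norm_eq_abs] at h2
    calc _ ≤ C * h ^ L * |x - (x - h)| := h2
      _ = C * h ^ (L + 1) := by
        have : x - (x - h) = h := by ring
        rw [this, abs_of_nonneg hh, pow_succ]; ring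

theorem hcs_of_supp (g : ℝ → ℝ) (hs : ∀ x, g x ≠ 0 → 0 < x ∧ x < 1) : HasCompactSupport g := by
  apply HasCompactSupport.intro (isCompact_Icc (a := (0 : ℝ)) (b := 1))
  intro x hx
  by_contra h
  exact hx ⟨(hs x h).1.le, (hs x h).2.le⟩

theorem fin_diff (g : ℝ → ℝ) (hg : ∀ n : ℕ, ContDiff ℝ n g) (hs : ∀ x, g x ≠ 0 → 0 < x ∧ x < 1)
    (L : ℕ) : ∃ C : ℝ, 0 ≤ C ∧ ∀ h x : ℝ, 0 ≤ h →
      |∑ j ∈ range (L + 1), (-1 : ℝ) ^ j * (L.choose j) * g (x - j * h)| ≤ C * h ^ L :=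
  bd_bound L g hg (hcs_of_supp g hs)

theorem cutoffs : ∃ al be : ℝ → ℝ, (∀ n : ℕ, ContDiff ℝ n al) ∧ (∀ n : ℕ, ContDiff ℝ n be) ∧
    (∀ x, al x ≠ 0 → 1 / 8 < x ∧ x < 1 / 2) ∧ (∀ x, be x ≠ 0 → 1 / 16 < x ∧ x < 1) ∧
    (∀ x, 1 / 8 ≤ x → x ≤ 1 / 2 → be x = 1) ∧
    (∀ n I : ℕ, 1 ≤ n → 4 * n ≤ 2 ^ I → ∑ i ∈ range (I + 1), al ((n : ℝ) / 2 ^ i) = 1) := by
  refine ⟨fun x => Real.smoothTransition (2 - 4 * x) - Real.smoothTransition (2 - 8 * x),
    fun x => Real.smoothTransition (16 * x - 1) * Real.smoothTransition (2 - 2 * x),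
    ?_, ?_, ?_, ?_, ?_, ?_⟩
  · intro n
    exact (Real.smoothTransition.contDiff.comp (by fun_prop)).sub
      (Real.smoothTransition.contDiff.comp (by fun_prop))
  · intro n
    exact (Real.smoothTransition.contDiff.comp (by fun_prop)).mul
      (Real.smoothTransition.contDiff.comp (by fun_prop))
  · intro x hx
    by_contra hcon
    apply hx
    simp only
    by_cases h1 : 1 / 8 < x
    · have h2 : 1 / 2 ≤ x := by
        by_contra h; exact hcon ⟨h1, by linarith⟩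
      rw [Real.smoothTransition.zero_of_nonpos (by linarith),
        Real.smoothTransition.zero_of_nonpos (by linarith)]; simp
    · rw [Real.smoothTransition.one_of_one_le (by linarith),
        Real.smoothTransition.one_of_one_le (by linarith)]; simp
  · intro x hx
    have h1 : Real.smoothTransition (16 * x - 1) ≠ 0 := left_ne_zero_of_mul hx
    have h2 : Real.smoothTransition (2 - 2 * x) ≠ 0 := right_ne_zero_of_mul hx
    constructor
    · by_contra h
      exact h1 (Real.smoothTransition.zero_of_nonpos (by linarith))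
    · by_contra h
      exact h2 (Real.smoothTransition.zero_of_nonpos (by linarith))
  · intro x h1 h2
    simp only
    rw [Real.smoothTransition.one_of_one_le (by linarith),
      Real.smoothTransition.one_of_one_le (by linarith)]; simp
  · intro n I hn hI
    simp only
    have key : ∀ J : ℕ, ∑ i ∈ range (J + 1),
        (Real.smoothTransition (2 - 4 * ((n : ℝ) / 2 ^ i)) -
          Real.smoothTransition (2 - 8 * ((n : ℝ) / 2 ^ i)))
        = Real.smoothTransition (2 - 4 * ((n : ℝ) / 2 ^ J)) -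
          Real.smoothTransition (2 - 8 * (n : ℝ)) := by
      intro J
      induction J with
      | zero => simp
      | succ J ih =>
        rw [Finset.sum_range_succ, ih]
        have : 8 * ((n : ℝ) / 2 ^ (J + 1)) = 4 * ((n : ℝ) / 2 ^ J) := by
          rw [pow_succ]; field_simp; ring
        rw [this]; ring
    rw [key I]
    have hn' : (1 : ℝ) ≤ n := by exact_mod_cast hn
    have hI' : (4 : ℝ) * n ≤ 2 ^ I := by exact_mod_cast hI
    have h3 : 4 * ((n : ℝ) / 2 ^ I) ≤ 1 := by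
      rw [← mul_div_assoc, div_le_one (by positivity)]; exact hI'
    rw [Real.smoothTransition.one_of_one_le (by linarith),
      Real.smoothTransition.zero_of_nonpos (by linarith)]; simp

theorem shift_sum (g : ℝ → ℝ) (hs : ∀ x, g x ≠ 0 → 0 < x ∧ x < 1) (N L j : ℕ) (hN : 0 < N)
    (hj : j ≤ L) (z : ℂ) :
    ∑ n ∈ range (N + L), (g (((n : ℝ) - j) / N) : ℂ) * z ^ n
      = z ^ j * ∑ n ∈ range N, (g ((n : ℝ) / N) : ℂ) * z ^ n := by
  have hN' : (0 : ℝ) < N := by exact_mod_cast hN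
  obtain ⟨M, rfl⟩ := Nat.exists_eq_add_of_le hj
  have e : N + (j + M) = j + (N + M) := by ring
  rw [e, Finset.sum_range_add]
  have h0 : ∑ n ∈ range j, (g (((n : ℝ) - j) / N) : ℂ) * z ^ n = 0 := by
    apply Finset.sum_eq_zero
    intro n hn
    have hlt : (n : ℝ) < j := by exact_mod_cast Finset.mem_range.mp hn
    have : g (((n : ℝ) - j) / N) = 0 := by
      by_contra h
      have := (hs _ h).1
      have h2 : ((n : ℝ) - j) / N ≤ 0 := div_nonpos_of_nonpos_of_nonneg (by linarith) hN'.le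
      linarith
    rw [this]; simp
  rw [h0, zero_add, Finset.sum_range_add]
  have h1 : ∑ n ∈ range M, (g ((((j + (N + n) : ℕ) : ℝ) - j) / N) : ℂ) * z ^ (j + (N + n)) = 0 := by
    apply Finset.sum_eq_zero
    intro n hn
    have : g ((((j + (N + n) : ℕ) : ℝ) - j) / N) = 0 := by
      by_contra h
      have h3 := (hs _ h).2
      rw [div_lt_one hN'] at h3
      push_cast at h3
      have : (0 : ℝ) ≤ n := by positivity
      linarith
    rw [this]; simp
  rw [h1, add_zero, Finset.mul_sum]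
  refine Finset.sum_congr rfl fun n _ => ?_
  have : (((j + n : ℕ) : ℝ) - j) / N = (n : ℝ) / N := by push_cast; ring
  rw [this, pow_add]; ring

theorem diff_sum (g : ℝ → ℝ) (hs : ∀ x, g x ≠ 0 → 0 < x ∧ x < 1) (N L : ℕ) (hN : 0 < N) (z : ℂ) :
    (1 - z) ^ L * ∑ n ∈ range N, (g ((n : ℝ) / N) : ℂ) * z ^ n
      = ∑ n ∈ range (N + L), ((bd L g ((N : ℝ)⁻¹) ((n : ℝ) / N) : ℝ) : ℂ) * z ^ n := by
  have h1 : (1 - z) ^ L = ∑ j ∈ range (L + 1), (-1 : ℂ) ^ j * (L.choose j) * z ^ j := by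
    rw [sub_eq_add_neg, add_comm, add_pow]
    refine Finset.sum_congr rfl fun j _ => ?_
    rw [one_pow, neg_pow]; ring
  rw [h1, Finset.sum_mul]
  have h2 : ∀ n ∈ range (N + L), ((bd L g ((N : ℝ)⁻¹) ((n : ℝ) / N) : ℝ) : ℂ) * z ^ n
      = ∑ j ∈ range (L + 1), (-1 : ℂ) ^ j * (L.choose j) *
        ((g (((n : ℝ) - j) / N) : ℂ) * z ^ n) := by
    intro n _
    unfold bd
    rw [Complex.ofReal_sum, Finset.sum_mul]
    refine Finset.sum_congr rfl fun j _ => ?_
    have : (n : ℝ) / N - j * (N : ℝ)⁻¹ = ((n : ℝ) - j) / N := by ring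
    rw [this]; push_cast; ring
  rw [Finset.sum_congr rfl h2, Finset.sum_comm]
  refine Finset.sum_congr rfl fun j hj => ?_
  rw [← Finset.mul_sum, shift_sum g hs N L j hN (by have := Finset.mem_range.mp hj; omega)]
  ring

theorem kernel_decay (g : ℝ → ℝ) (hg : ∀ n : ℕ, ContDiff ℝ n g)
    (hs : ∀ x, g x ≠ 0 → 0 < x ∧ x < 1) (L : ℕ) : ∃ C : ℝ, 0 ≤ C ∧ ∀ (i : ℕ) (x : TT),
      ‖∑ n ∈ range (2 ^ i), (g ((n : ℝ) / 2 ^ i) : ℂ) * ee n x‖ * (1 + 2 ^ i * ‖x‖) ^ L
        ≤ C * 2 ^ i := by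
  obtain ⟨C0, hC0, hb0⟩ := bd_bound 0 g hg (hcs_of_supp g hs)
  obtain ⟨C1, hC1, hb1⟩ := bd_bound L g hg (hcs_of_supp g hs)
  refine ⟨2 ^ L * (C0 + (1 + L) * C1), by positivity, fun i x => ?_⟩
  set N : ℕ := 2 ^ i with hNdef
  have hN : 0 < N := by positivity
  have hN' : (0 : ℝ) < N := by exact_mod_cast hN
  have hN1 : (1 : ℝ) ≤ N := by exact_mod_cast hN
  have hcast : (2 : ℝ) ^ i = (N : ℝ) := by rw [hNdef]; push_cast; rfl
  rw [hcast]
  set K : ℂ := ∑ n ∈ range N, (g ((n : ℝ) / N) : ℂ) * ee n x with hK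
  have hKz : K = ∑ n ∈ range N, (g ((n : ℝ) / N) : ℂ) * (ee 1 x) ^ n := by
    rw [hK]; exact Finset.sum_congr rfl fun n _ => by rw [ee_nat_pow]
  have hg0 : ∀ y, |g y| ≤ C0 := by
    intro y
    have := hb0 1 y (by norm_num)
    simpa [bd] using this
  have hA : ‖K‖ ≤ C0 * N := by
    rw [hK]
    calc _ ≤ ∑ n ∈ range N, ‖(g ((n : ℝ) / N) : ℂ) * ee n x‖ := norm_sum_le _ _
      _ ≤ ∑ n ∈ range N, C0 := by
        apply Finset.sum_le_sum
        intro n _
        rw [norm_mul, norm_ee, mul_one, Complex.norm_real]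
        exact hg0 _
      _ = C0 * N := by simp [mul_comm]
  have hB : ‖K‖ * (N * ‖x‖) ^ L ≤ (1 + L) * C1 * N := by
    have h1 : ‖1 - ee 1 x‖ ^ L * ‖K‖ ≤ (N + L) * (C1 * ((N : ℝ)⁻¹) ^ L) := by
      rw [← norm_pow, ← norm_mul, hKz, diff_sum g hs N L hN]
      calc _ ≤ ∑ n ∈ range (N + L), ‖((bd L g ((N : ℝ)⁻¹) ((n : ℝ) / N) : ℝ) : ℂ) * (ee 1 x) ^ n‖ :=
            norm_sum_le _ _
        _ ≤ ∑ n ∈ range (N + L), C1 * ((N : ℝ)⁻¹) ^ L := by
          apply Finset.sum_le_sum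
          intro n _
          rw [norm_mul, norm_pow, norm_ee, one_pow, mul_one, Complex.norm_real]
          exact hb1 _ _ (by positivity)
        _ = _ := by simp
    have h2 : ‖x‖ ≤ ‖1 - ee 1 x‖ := by
      have := le_norm_one_sub_ee x
      have := norm_nonneg x
      linarith
    have h3 : ‖x‖ ^ L * ‖K‖ ≤ ‖1 - ee 1 x‖ ^ L * ‖K‖ := by gcongr
    have h4 : ‖K‖ * (N * ‖x‖) ^ L = (N : ℝ) ^ L * (‖x‖ ^ L * ‖K‖) := by rw [mul_pow]; ring
    rw [h4]
    calc _ ≤ (N : ℝ) ^ L * ((N + L) * (C1 * ((N : ℝ)⁻¹) ^ L)) :=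
          mul_le_mul_of_nonneg_left (h3.trans h1) (by positivity)
      _ = (N + L) * C1 * ((N : ℝ) ^ L * ((N : ℝ)⁻¹) ^ L) := by ring
      _ = (N + L) * C1 := by rw [← mul_pow, mul_inv_cancel₀ hN'.ne', one_pow, mul_one]
      _ ≤ (N + L * N) * C1 := by
          gcongr
          have : (0 : ℝ) ≤ L := by positivity
          nlinarith
      _ = (1 + L) * C1 * N := by ring
  have hC : (1 + N * ‖x‖) ^ L ≤ 2 ^ L * (1 + (N * ‖x‖) ^ L) := by
    have hx : 0 ≤ N * ‖x‖ := by positivity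
    by_cases h : N * ‖x‖ ≤ 1
    · calc (1 + N * ‖x‖) ^ L ≤ 2 ^ L := by gcongr; linarith
        _ ≤ 2 ^ L * (1 + (N * ‖x‖) ^ L) := by
          have : 0 ≤ (N * ‖x‖) ^ L := by positivity
          have : (0 : ℝ) < 2 ^ L := by positivity
          nlinarith
    · push Not at h
      calc (1 + N * ‖x‖) ^ L ≤ (2 * (N * ‖x‖)) ^ L := by gcongr; linarith
        _ = 2 ^ L * (N * ‖x‖) ^ L := by rw [mul_pow]
        _ ≤ 2 ^ L * (1 + (N * ‖x‖) ^ L) := by gcongr; linarith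
  calc ‖K‖ * (1 + N * ‖x‖) ^ L ≤ ‖K‖ * (2 ^ L * (1 + (N * ‖x‖) ^ L)) := by gcongr
    _ = 2 ^ L * (‖K‖ + ‖K‖ * (N * ‖x‖) ^ L) := by ring
    _ ≤ 2 ^ L * (C0 * N + (1 + L) * C1 * N) := by gcongr
    _ = _ := by ring

end MP63
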