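import Mathlib

/-!
Module F: factorisation `P = Ψ G` with `|G| = |Φ|^{2/p-1}`, `|Φ|^2 = |Ψ|^2 = |P|^p` on the circle.
-/

open Metric Complex

namespace MP63

/-- `f = Ψ G` in the open disc, with `‖G‖ = ‖Φ‖^{2/p-1}` and `‖Ψ‖ ≤ ‖Φ‖`. -/
structure GoodF (p : ℝ) (f Φ Ψ G : ℂ → ℂ) : Prop where
  dΦ : DiffContOnCl ℂ Φ (ball 0 1)
  dΨ : DiffContOnCl ℂ Ψ (ball 0 1)
  dG : DifferentiableOn ℂ G (ball 0 1)
  fac : ∀ z, ‖z‖ < 1 → f z = Ψ z * G z
  nG : ∀ z, ‖z‖ < 1 → ‖G z‖ = ‖Φ z‖ ^ (2 / p - 1)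
  dGΦ : ∀ z, ‖z‖ < 1 → deriv G z * Φ z = ((2 - p) / p : ℝ) * (deriv Φ z * G z)
  le : ∀ z, ‖z‖ < 1 → ‖Ψ z‖ ≤ ‖Φ z‖
  circΦ : ∀ z, ‖z‖ = 1 → ‖Φ z‖ ^ 2 = ‖f z‖ ^ p
  circΨ : ∀ z, ‖z‖ = 1 → ‖Ψ z‖ ^ 2 = ‖f z‖ ^ p

theorem GoodF.diffAt {p : ℝ} {f Φ Ψ G : ℂ → ℂ} (h : GoodF p f Φ Ψ G) {z : ℂ} (hz : ‖z‖ < 1) :
    DifferentiableAt ℂ Φ z ∧ DifferentiableAt ℂ Ψ z ∧ DifferentiableAt ℂ G z := by
  have hz' : z ∈ ball (0 : ℂ) 1 := by simpa using hz
  have hm : ball (0 : ℂ) 1 ∈ nhds z := isOpen_ball.mem_nhds hz'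
  exact ⟨h.dΦ.differentiableAt isOpen_ball hz', h.dΨ.differentiableAt isOpen_ball hz',
    h.dG.differentiableAt hm⟩

theorem GoodF.mul {p : ℝ} {f Φ Ψ G f' Φ' Ψ' G' : ℂ → ℂ} (h : GoodF p f Φ Ψ G)
    (h' : GoodF p f' Φ' Ψ' G') :
    GoodF p (fun z => f z * f' z) (fun z => Φ z * Φ' z) (fun z => Ψ z * Ψ' z)
      (fun z => G z * G' z) where
  dΦ := h.dΦ.smul h'.dΦ
  dΨ := h.dΨ.smul h'.dΨ
  dG := h.dG.mul h'.dG
  fac z hz := by rw [h.fac z hz, h'.fac z hz]; ring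
  nG z hz := by
    rw [norm_mul, norm_mul, h.nG z hz, h'.nG z hz, Real.mul_rpow (norm_nonneg _) (norm_nonneg _)]
  dGΦ z hz := by
    obtain ⟨a1, -, a3⟩ := h.diffAt hz
    obtain ⟨b1, -, b3⟩ := h'.diffAt hz
    have e1 := h.dGΦ z hz
    have e2 := h'.dGΦ z hz
    have d1 : deriv (fun z => G z * G' z) z = deriv G z * G' z + G z * deriv G' z :=
      deriv_mul a3 b3
    have d2 : deriv (fun z => Φ z * Φ' z) z = deriv Φ z * Φ' z + Φ z * deriv Φ' z :=
      deriv_mul a1 b1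
    rw [d1, d2]
    linear_combination G' z * Φ' z * e1 + G z * Φ z * e2
  le z hz := by
    rw [norm_mul, norm_mul]
    exact mul_le_mul (h.le z hz) (h'.le z hz) (norm_nonneg _) (norm_nonneg _)
  circΦ z hz := by
    rw [norm_mul, norm_mul, mul_pow, h.circΦ z hz, h'.circΦ z hz,
      Real.mul_rpow (norm_nonneg _) (norm_nonneg _)]
  circΨ z hz := by
    rw [norm_mul, norm_mul, mul_pow, h.circΨ z hz, h'.circΨ z hz,
      Real.mul_rpow (norm_nonneg _) (norm_nonneg _)]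

/-- multiplication by an inner factor -/
theorem GoodF.inner {p : ℝ} {f Φ Ψ G B : ℂ → ℂ} (h : GoodF p f Φ Ψ G)
    (hB : DiffContOnCl ℂ B (ball 0 1)) (h1 : ∀ z, ‖z‖ < 1 → ‖B z‖ ≤ 1)
    (h2 : ∀ z, ‖z‖ = 1 → ‖B z‖ = 1) :
    GoodF p (fun z => B z * f z) Φ (fun z => B z * Ψ z) G where
  dΦ := h.dΦ
  dΨ := hB.smul h.dΨ
  dG := h.dG
  fac z hz := by rw [h.fac z hz]; ring
  nG := h.nG
  dGΦ := h.dGΦ
  le z hz := by
    rw [norm_mul]
    calc ‖B z‖ * ‖Ψ z‖ ≤ 1 * ‖Ψ z‖ := by gcongr; exact h1 z hz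
      _ ≤ ‖Φ z‖ := by rw [one_mul]; exact h.le z hz
  circΦ z hz := by rw [h.circΦ z hz, norm_mul, h2 z hz, one_mul]
  circΨ z hz := by rw [norm_mul, norm_mul, h2 z hz, one_mul, one_mul, h.circΨ z hz]

theorem GoodF.const {p : ℝ} (hp : 0 < p) {c : ℂ} (hc : c ≠ 0) :
    GoodF p (fun _ => c) (fun _ => ((‖c‖ ^ (p / 2) : ℝ) : ℂ)) (fun _ => ((‖c‖ ^ (p / 2) : ℝ) : ℂ))
      (fun _ => c * ((‖c‖ ^ (-(p / 2)) : ℝ) : ℂ)) where
  dΦ := diffContOnCl_const
  dΨ := diffContOnCl_const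
  dG := differentiableOn_const _
  fac z hz := by
    have hc' : 0 < ‖c‖ := norm_pos_iff.mpr hc
    have : ((‖c‖ ^ (p / 2) : ℝ) : ℂ) * ((‖c‖ ^ (-(p / 2)) : ℝ) : ℂ) = 1 := by
      rw [← Complex.ofReal_mul, ← Real.rpow_add hc']
      simp
    linear_combination (-c) * this
  nG z hz := by
    have hc' : 0 < ‖c‖ := norm_pos_iff.mpr hc
    rw [norm_mul, Complex.norm_real, Complex.norm_real, Real.norm_of_nonneg (by positivity),
      Real.norm_of_nonneg (by positivity), ← Real.rpow_mul hc'.le]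
    nth_rewrite 1 [← Real.rpow_one ‖c‖]
    rw [← Real.rpow_add hc']
    congr 1
    field_simp
    ring
  dGΦ z hz := by simp
  le z hz := le_refl _
  circΦ z hz := by
    rw [Complex.norm_real, Real.norm_of_nonneg (by positivity), ← Real.rpow_natCast,
      ← Real.rpow_mul (norm_nonneg _)]
    congr 1
    push_cast
    ring
  circΨ z hz := by
    rw [Complex.norm_real, Real.norm_of_nonneg (by positivity), ← Real.rpow_natCast,
      ← Real.rpow_mul (norm_nonneg _)]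
    congr 1
    push_cast
    ring

theorem re_one_sub_pos {c z : ℂ} (hc : ‖c‖ ≤ 1) (hz : ‖z‖ < 1) : 0 < (1 - c * z).re := by
  have : ‖c * z‖ < 1 := by
    rw [norm_mul]
    calc ‖c‖ * ‖z‖ ≤ 1 * ‖z‖ := by gcongr
      _ < 1 := by simpa using hz
  have h2 := Complex.re_le_norm (c * z)
  simp only [Complex.sub_re, Complex.one_re]
  linarith

theorem re_one_sub_nonneg {c z : ℂ} (hc : ‖c‖ ≤ 1) (hz : ‖z‖ ≤ 1) : 0 ≤ (1 - c * z).re := by
  have : ‖c * z‖ ≤ 1 := by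
    rw [norm_mul]
    calc ‖c‖ * ‖z‖ ≤ 1 * 1 := by gcongr
      _ = 1 := by simp
  have h2 := Complex.re_le_norm (c * z)
  simp only [Complex.sub_re, Complex.one_re]
  linarith

theorem diffCont_cpow {c : ℂ} (hc : ‖c‖ ≤ 1) {w : ℝ} (hw : 0 < w) :
    DiffContOnCl ℂ (fun z => (1 - c * z) ^ (w : ℂ)) (ball 0 1) := by
  refine DiffContOnCl.mk_ball ?_ ?_
  · intro z hz
    have hz' : ‖z‖ < 1 := by simpa using hz
    have hs : (1 - c * z) ∈ Complex.slitPlane := Or.inl (re_one_sub_pos hc hz')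
    have h1 : DifferentiableAt ℂ (fun z : ℂ => 1 - c * z) z := by fun_prop
    exact (h1.cpow_const hs).differentiableWithinAt
  · intro z hz
    have hz' : ‖z‖ ≤ 1 := by simpa using hz
    have h1 : ContinuousAt (fun z : ℂ => 1 - c * z) z := by fun_prop
    have h2 : ContinuousAt (fun x : ℂ => x ^ (w : ℂ)) (1 - c * z) :=
      Complex.continuousAt_cpow_const_of_re_pos (Or.inl (re_one_sub_nonneg hc hz')) (by simpa using hw)
    exact (ContinuousAt.comp (f := fun z : ℂ => 1 - c * z) (g := fun x : ℂ => x ^ (w : ℂ)) h2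
      h1).continuousWithinAt

theorem deriv_cpow_lin {c z : ℂ} (hc : ‖c‖ ≤ 1) (hz : ‖z‖ < 1) (w : ℂ) :
    deriv (fun z => (1 - c * z) ^ w) z = w * (1 - c * z) ^ (w - 1) * (-c) := by
  have hs : (1 - c * z) ∈ Complex.slitPlane := Or.inl (re_one_sub_pos hc hz)
  have h1 : HasDerivAt (fun z : ℂ => 1 - c * z) (-c) z := by
    simpa using ((hasDerivAt_id z).const_mul c).const_sub 1
  exact (h1.cpow_const hs).deriv

theorem GoodF.lin {p : ℝ} (hp : 0 < p) (hp1 : p < 1) {c : ℂ} (hc : ‖c‖ ≤ 1) :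
    GoodF p (fun z => 1 - c * z) (fun z => (1 - c * z) ^ ((p / 2 : ℝ) : ℂ))
      (fun z => (1 - c * z) ^ ((p / 2 : ℝ) : ℂ)) (fun z => (1 - c * z) ^ ((1 - p / 2 : ℝ) : ℂ)) where
  dΦ := diffCont_cpow hc (by positivity)
  dΨ := diffCont_cpow hc (by positivity)
  dG := (diffCont_cpow hc (w := 1 - p / 2) (by linarith)).differentiableOn
  fac z hz := by
    have hs : (1 - c * z) ≠ 0 := by
      intro h0
      have := re_one_sub_pos hc hz
      rw [h0] at this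
      simp at this
    rw [← Complex.cpow_add _ _ hs]
    push_cast
    ring_nf
    simp
  nG z hz := by
    rw [Complex.norm_cpow_real, Complex.norm_cpow_real, ← Real.rpow_mul (norm_nonneg _)]
    congr 1
    field_simp
  dGΦ z hz := by
    have hs : (1 - c * z) ≠ 0 := by
      intro h0
      have := re_one_sub_pos hc hz
      rw [h0] at this
      simp at this
    rw [deriv_cpow_lin hc hz, deriv_cpow_lin hc hz]
    have e1 : (1 - c * z) ^ ((1 - p / 2 : ℝ) - 1 : ℂ) * (1 - c * z) ^ ((p / 2 : ℝ) : ℂ) = 1 := by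
      rw [← Complex.cpow_add _ _ hs]
      push_cast
      ring_nf
      simp
    have e2 : (1 - c * z) ^ ((p / 2 : ℝ) - 1 : ℂ) * (1 - c * z) ^ ((1 - p / 2 : ℝ) : ℂ) = 1 := by
      rw [← Complex.cpow_add _ _ hs]
      push_cast
      ring_nf
      simp
    have hpc : (p : ℂ) ≠ 0 := by exact_mod_cast hp.ne'
    have e3 : (((2 - p) / p : ℝ) : ℂ) * ((p / 2 : ℝ) : ℂ) = ((1 - p / 2 : ℝ) : ℂ) := by
      push_cast
      field_simp
    linear_combination (-c) * ((1 - p / 2 : ℝ) : ℂ) * e1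
      + c * (((2 - p) / p : ℝ) : ℂ) * ((p / 2 : ℝ) : ℂ) * e2 + c * e3
  le z hz := le_refl _
  circΦ z hz := by
    rw [Complex.norm_cpow_real, ← Real.rpow_natCast, ← Real.rpow_mul (norm_nonneg _)]
    congr 1
    push_cast
    ring
  circΨ z hz := by
    rw [Complex.norm_cpow_real, ← Real.rpow_natCast, ← Real.rpow_mul (norm_nonneg _)]
    congr 1
    push_cast
    ring

theorem norm_sq_blaschke (a z : ℂ) :
    ‖1 - (starRingEnd ℂ) a * z‖ ^ 2 - ‖z - a‖ ^ 2 = (1 - ‖a‖ ^ 2) * (1 - ‖z‖ ^ 2) := by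
  simp only [← Complex.normSq_eq_norm_sq, Complex.normSq_apply]
  simp
  ring

theorem exists_good_sub {p : ℝ} (hp : 0 < p) (hp1 : p < 1) (a : ℂ) :
    ∃ Φ Ψ G, GoodF p (fun z => z - a) Φ Ψ G := by
  rcases lt_or_ge ‖a‖ 1 with ha | ha
  · have hca : ‖(starRingEnd ℂ) a‖ ≤ 1 := by simpa using ha.le
    have hlin := GoodF.lin hp hp1 hca
    have hne : ∀ z : ℂ, ‖z‖ ≤ 1 → 1 - (starRingEnd ℂ) a * z ≠ 0 := by
      intro z hz h0
      have h1 : ‖(starRingEnd ℂ) a * z‖ < 1 := by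
        rw [norm_mul]
        calc ‖(starRingEnd ℂ) a‖ * ‖z‖ ≤ ‖(starRingEnd ℂ) a‖ * 1 := by gcongr
          _ < 1 := by simpa using ha
      have h2 : (starRingEnd ℂ) a * z = 1 := by linear_combination -h0
      rw [h2] at h1
      simp at h1
    have hB : DiffContOnCl ℂ (fun z => (z - a) / (1 - (starRingEnd ℂ) a * z)) (ball 0 1) := by
      refine DiffContOnCl.mk_ball ?_ ?_
      · intro z hz
        have hz' : ‖z‖ < 1 := by simpa using hz
        have := hne z hz'.le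
        have hd : DifferentiableAt ℂ (fun z => (z - a) / (1 - (starRingEnd ℂ) a * z)) z := by
          refine DifferentiableAt.div (by fun_prop) (by fun_prop) this
        exact hd.differentiableWithinAt
      · intro z hz
        have hz' : ‖z‖ ≤ 1 := by simpa using hz
        have := hne z hz'
        have hd : DifferentiableAt ℂ (fun z => (z - a) / (1 - (starRingEnd ℂ) a * z)) z := by
          refine DifferentiableAt.div (by fun_prop) (by fun_prop) this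
        exact hd.continuousAt.continuousWithinAt
    have hcmp : ∀ z : ℂ, ‖z‖ ≤ 1 → ‖z - a‖ ≤ ‖1 - (starRingEnd ℂ) a * z‖ := by
      intro z hz
      have h := norm_sq_blaschke a z
      have h2 : 0 ≤ (1 - ‖a‖ ^ 2) * (1 - ‖z‖ ^ 2) := by
        apply mul_nonneg
        · nlinarith [norm_nonneg a]
        · nlinarith [norm_nonneg z]
      exact le_of_sq_le_sq (by linarith) (norm_nonneg _)
    have hall := hlin.inner hB
      (by
        intro z hz
        rw [norm_div]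
        exact div_le_one_of_le₀ (hcmp z hz.le) (norm_nonneg _))
      (by
        intro z hz
        have h := norm_sq_blaschke a z
        rw [hz] at h
        have h1 : ‖z - a‖ = ‖1 - (starRingEnd ℂ) a * z‖ := by
          have : ‖z - a‖ ^ 2 = ‖1 - (starRingEnd ℂ) a * z‖ ^ 2 := by linarith
          exact (sq_eq_sq₀ (norm_nonneg _) (norm_nonneg _)).mp this
        rw [norm_div, h1]
        exact div_self (norm_ne_zero_iff.mpr (hne z hz.le)))
    refine ⟨_, _, _, ⟨hall.dΦ, hall.dΨ, hall.dG, ?_, hall.nG, hall.dGΦ, hall.le, ?_, ?_⟩⟩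
    · intro z hz
      rw [← hall.fac z hz]
      exact (div_mul_cancel₀ _ (hne z hz.le)).symm
    · intro z hz
      rw [hall.circΦ z hz, div_mul_cancel₀ _ (hne z hz.le)]
    · intro z hz
      rw [hall.circΨ z hz, div_mul_cancel₀ _ (hne z hz.le)]
  · have ha0 : a ≠ 0 := by
      intro h
      rw [h] at ha
      simp at ha
      linarith
    have hca : ‖a⁻¹‖ ≤ 1 := by
      rw [norm_inv]
      exact inv_le_one_of_one_le₀ ha
    have h1 := (GoodF.const hp (neg_ne_zero.mpr ha0)).mul (GoodF.lin hp hp1 hca)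
    have e : (fun z : ℂ => -a * (1 - a⁻¹ * z)) = fun z => z - a := by
      funext z
      field_simp
      ring
    rw [e] at h1
    exact ⟨_, _, _, h1⟩

theorem exists_good_prod {p : ℝ} (hp : 0 < p) (hp1 : p < 1) (s : Multiset ℂ) :
    ∃ Φ Ψ G, GoodF p (fun z => (s.map (fun a => z - a)).prod) Φ Ψ G := by
  induction s using Multiset.induction_on with
  | empty =>
    simp only [Multiset.map_zero, Multiset.prod_zero]
    exact ⟨_, _, _, GoodF.const hp one_ne_zero⟩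
  | cons a s ih =>
    obtain ⟨Φ, Ψ, G, h⟩ := ih
    obtain ⟨Φ', Ψ', G', h'⟩ := exists_good_sub hp hp1 a
    simp only [Multiset.map_cons, Multiset.prod_cons]
    exact ⟨_, _, _, h'.mul h⟩

theorem exists_good {p : ℝ} (hp : 0 < p) (hp1 : p < 1) (P : Polynomial ℂ) (hP : P ≠ 0) :
    ∃ Φ Ψ G, GoodF p (fun z => P.eval z) Φ Ψ G := by
  obtain ⟨Φ, Ψ, G, h⟩ := exists_good_prod hp hp1 P.roots
  have h1 := (GoodF.const hp (Polynomial.leadingCoeff_ne_zero.mpr hP)).mul h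
  have e : (fun z : ℂ => P.leadingCoeff * (P.roots.map (fun a => z - a)).prod)
      = fun z => P.eval z := by
    funext z
    have hs := (IsAlgClosed.splits P).eq_prod_roots
    conv_rhs => rw [hs]
    rw [Polynomial.eval_mul, Polynomial.eval_C, Polynomial.eval_multiset_prod, Multiset.map_map]
    simp
  rw [e] at h1
  exact ⟨_, _, _, h1⟩

theorem factor {p : ℝ} (hp : 0 < p) (hp1 : p < 1) (P : Polynomial ℂ) (hP : P ≠ 0) :
    ∃ Φ Ψ : ℂ → ℂ, DiffContOnCl ℂ Φ (Metric.ball 0 1) ∧ DiffContOnCl ℂ Ψ (Metric.ball 0 1) ∧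
      (∀ z, ‖z‖ = 1 → ‖Φ z‖ ^ 2 = ‖P.eval z‖ ^ p ∧ ‖Ψ z‖ ^ 2 = ‖P.eval z‖ ^ p) ∧
      (∀ z, ‖z‖ < 1 → ‖P.eval z‖ ^ p ≤ ‖Φ z‖ ^ 2 ∧
        ‖P.derivative.eval z‖ ≤ ‖Φ z‖ ^ (2 / p - 1) * (‖deriv Ψ z‖ + 2 / p * ‖deriv Φ z‖)) := by
  obtain ⟨Φ, Ψ, G, h⟩ := exists_good hp hp1 P hP
  refine ⟨Φ, Ψ, h.dΦ, h.dΨ, fun z hz => ⟨h.circΦ z hz, h.circΨ z hz⟩, fun z hz => ⟨?_, ?_⟩⟩
  · have h1 : P.eval z = Ψ z * G z := h.fac z hz
    rw [h1, norm_mul, Real.mul_rpow (norm_nonneg _) (norm_nonneg _), h.nG z hz,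
      ← Real.rpow_mul (norm_nonneg _)]
    have e : (2 / p - 1) * p = 2 - p := by field_simp
    rw [e]
    rcases (norm_nonneg (Φ z)).eq_or_lt with h0 | h0
    · have : ‖Ψ z‖ = 0 := le_antisymm ((h.le z hz).trans h0.symm.le) (norm_nonneg _)
      rw [this, ← h0, Real.zero_rpow hp.ne']
      simp
    · calc ‖Ψ z‖ ^ p * ‖Φ z‖ ^ (2 - p) ≤ ‖Φ z‖ ^ p * ‖Φ z‖ ^ (2 - p) := by
            gcongr
            exact h.le z hz
        _ = ‖Φ z‖ ^ 2 := by
            rw [← Real.rpow_add h0, ← Real.rpow_natCast]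
            congr 1
            push_cast
            ring
  · obtain ⟨a1, a2, a3⟩ := h.diffAt hz
    have hm : ball (0 : ℂ) 1 ∈ nhds z := isOpen_ball.mem_nhds (by simpa using hz)
    have e1 : (fun z => P.eval z) =ᶠ[nhds z] fun z => Ψ z * G z := by
      filter_upwards [hm] with w hw
      exact h.fac w (by simpa using hw)
    have e2 : P.derivative.eval z = deriv Ψ z * G z + Ψ z * deriv G z := by
      rw [← Polynomial.deriv, e1.deriv_eq]
      exact deriv_mul a2 a3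
    have e3 : ‖Ψ z * deriv G z‖ ≤ (2 - p) / p * (‖deriv Φ z‖ * ‖G z‖) := by
      have := congrArg norm (h.dGΦ z hz)
      rw [norm_mul, norm_mul, norm_mul, Complex.norm_real, Real.norm_of_nonneg
        (div_nonneg (by linarith) hp.le)] at this
      rw [norm_mul, ← this, mul_comm]
      gcongr
      exact h.le z hz
    have e4 : (2 - p) / p ≤ 2 / p := by gcongr; linarith
    rw [e2]
    calc ‖deriv Ψ z * G z + Ψ z * deriv G z‖ ≤ ‖deriv Ψ z * G z‖ + ‖Ψ z * deriv G z‖ :=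
          norm_add_le _ _
      _ ≤ ‖deriv Ψ z‖ * ‖G z‖ + 2 / p * (‖deriv Φ z‖ * ‖G z‖) := by
          rw [norm_mul]
          refine add_le_add le_rfl (e3.trans ?_)
          gcongr
      _ = ‖G z‖ * (‖deriv Ψ z‖ + 2 / p * ‖deriv Φ z‖) := by ring
      _ = _ := by rw [h.nG z hz]

end MP63
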