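import Pool.Agent.Work.MP_63674d_an.Base

/-! Kernel estimates for the Dirichlet kernels and their powers. -/

open MeasureTheory Finset

namespace MP63

theorem dir_bound (M : ℕ) (x : TT) : ‖∑ k ∈ range M, ee k x‖ * (1 + M * ‖x‖) ≤ 2 * M := by
  have h1 : ‖∑ k ∈ range M, ee k x‖ ≤ M := by
    refine (norm_sum_le _ _).trans ?_
    simp [norm_ee]
  have h2 : ‖∑ k ∈ range M, ee k x‖ * (4 * ‖x‖) ≤ 2 := by
    have h3 : (∑ k ∈ range M, ee k x) * (1 - ee 1 x) = 1 - ee M x := by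
      have : ∀ k ∈ range M, ee (k : ℤ) x = (ee 1 x) ^ k := fun k _ => ee_nat_pow k x
      rw [Finset.sum_congr rfl this, ee_nat_pow M x]
      exact geom_sum_mul_neg (ee 1 x) M
    calc ‖∑ k ∈ range M, ee k x‖ * (4 * ‖x‖) ≤ ‖∑ k ∈ range M, ee k x‖ * ‖1 - ee 1 x‖ := by
          gcongr; exact le_norm_one_sub_ee x
      _ = ‖1 - ee M x‖ := by rw [← norm_mul, h3]
      _ ≤ ‖(1 : ℂ)‖ + ‖ee M x‖ := norm_sub_le _ _
      _ = 2 := by rw [norm_ee]; norm_num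
  have h4 : (0 : ℝ) ≤ M := by positivity
  nlinarith

theorem int_dir (q : ℝ) (hq : 1 < q) : ∃ C : ℝ, 0 ≤ C ∧ ∀ M : ℕ, 1 ≤ M →
    ∫ x : TT, ‖∑ k ∈ range M, ee k x‖ ^ q ≤ C * (M : ℝ) ^ (q - 1) := by
  refine ⟨2 ^ q * (2 / (q - 1)), ?_, ?_⟩
  · apply mul_nonneg (by positivity)
    apply div_nonneg (by norm_num) (by linarith)
  intro M hM
  have hM0 : (0 : ℝ) < M := by exact_mod_cast hM
  have hc : Continuous fun x : TT => (1 + (M : ℝ) * ‖x‖) ^ (-q) := by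
    apply Continuous.rpow_const (by fun_prop)
    intro x; left; positivity
  have h1 : ∀ x : TT, ‖∑ k ∈ range M, ee k x‖ ^ q ≤ (2 * M) ^ q * (1 + (M : ℝ) * ‖x‖) ^ (-q) := by
    intro x
    have hpos : 0 < 1 + (M : ℝ) * ‖x‖ := by positivity
    have h2 : ‖∑ k ∈ range M, ee k x‖ ≤ (2 * M) * (1 + (M : ℝ) * ‖x‖)⁻¹ := by
      rw [← div_eq_mul_inv, le_div_iff₀ hpos]; exact dir_bound M x
    calc ‖∑ k ∈ range M, ee k x‖ ^ q ≤ ((2 * M) * (1 + (M : ℝ) * ‖x‖)⁻¹) ^ q := by gcongr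
      _ = _ := by
        rw [Real.mul_rpow (by positivity) (by positivity), Real.inv_rpow hpos.le,
          Real.rpow_neg hpos.le]
  calc ∫ x : TT, ‖∑ k ∈ range M, ee k x‖ ^ q
      ≤ ∫ x : TT, (2 * M) ^ q * (1 + (M : ℝ) * ‖x‖) ^ (-q) := by
        apply integral_mono _ (integ (continuous_const.mul hc)) h1
        apply integ
        apply Continuous.rpow_const (by fun_prop)
        intro x; right; linarith
    _ = (2 * M) ^ q * ∫ x : TT, (1 + (M : ℝ) * ‖x‖) ^ (-q) := integral_const_mul _ _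
    _ ≤ (2 * M) ^ q * ((2 / (q - 1)) / M) := by
        gcongr; exact int_decay q hq M hM0
    _ = 2 ^ q * (2 / (q - 1)) * (M : ℝ) ^ (q - 1) := by
        rw [Real.mul_rpow (by norm_num) hM0.le, Real.rpow_sub hM0, Real.rpow_one]; ring

theorem bc_degree (s M : ℕ) :
    ((∑ i ∈ range M, (Polynomial.X : Polynomial ℕ) ^ i) ^ s).natDegree < s * (M - 1) + 1 := by
  refine Nat.lt_succ_of_le ?_
  refine (Polynomial.natDegree_pow_le).trans ?_
  apply Nat.mul_le_mul_left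
  apply Polynomial.natDegree_sum_le_of_forall_le
  intro i hi
  refine (Polynomial.natDegree_X_pow_le i).trans ?_
  have := Finset.mem_range.mp hi
  omega

theorem bc_gen (s M : ℕ) (_hM : 1 ≤ M) (x : TT) :
    ∑ k ∈ range (s * (M - 1) + 1), (bc s M k : ℂ) * ee k x = (∑ k ∈ range M, ee k x) ^ s := by
  have h1 := Polynomial.eval₂_eq_sum_range' (Nat.castRingHom ℂ) (bc_degree s M) (ee 1 x)
  have h2 : ∑ k ∈ range (s * (M - 1) + 1), (bc s M k : ℂ) * ee k x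
      = ∑ i ∈ range (s * (M - 1) + 1), (Nat.castRingHom ℂ)
        (((∑ i ∈ range M, (Polynomial.X : Polynomial ℕ) ^ i) ^ s).coeff i) * ee 1 x ^ i := by
    refine Finset.sum_congr rfl fun k _ => ?_
    rw [ee_nat_pow]; rfl
  rw [h2, ← h1, Polynomial.eval₂_pow, Polynomial.eval₂_finsetSum]
  congr 1
  refine Finset.sum_congr rfl fun k _ => ?_
  rw [Polynomial.eval₂_pow, Polynomial.eval₂_X, ee_nat_pow]

theorem bc_sum (s M : ℕ) :
    ∑ k ∈ range (s * (M - 1) + 1), (bc s M k : ℝ) = (M : ℝ) ^ s := by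
  have h1 := Polynomial.eval₂_eq_sum_range' (Nat.castRingHom ℝ) (bc_degree s M) 1
  have h2 : ∑ k ∈ range (s * (M - 1) + 1), (bc s M k : ℝ)
      = ∑ i ∈ range (s * (M - 1) + 1), (Nat.castRingHom ℝ)
        (((∑ i ∈ range M, (Polynomial.X : Polynomial ℕ) ^ i) ^ s).coeff i) * (1 : ℝ) ^ i := by
    refine Finset.sum_congr rfl fun k _ => ?_
    simp [bc]
  rw [h2, ← h1, Polynomial.eval₂_pow, Polynomial.eval₂_finsetSum]
  simp

theorem bc_four (s M : ℕ) (hs : 1 ≤ s) (hM : 1 ≤ M) :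
    (M : ℝ) ^ (4 * s) ≤
      ((s : ℝ) * M) ^ 3 * ∑ k ∈ range (s * (M - 1) + 1), (bc s M k : ℝ) ^ 4 := by
  have h2 := pow_sum_div_card_le_sum_pow (s := range (s * (M - 1) + 1))
    (f := fun k => (bc s M k : ℝ)) (fun k _ => by positivity) 3
  rw [bc_sum, card_range] at h2
  have hL : (0 : ℝ) < ((s * (M - 1) + 1 : ℕ) : ℝ) := by positivity
  rw [div_le_iff₀ (by positivity)] at h2
  have h3 : ((s * (M - 1) + 1 : ℕ) : ℝ) ≤ (s : ℝ) * M := by
    have : s * (M - 1) + 1 ≤ s * M := by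
      obtain ⟨m, rfl⟩ : ∃ m, M = m + 1 := ⟨M - 1, by omega⟩
      simp only [Nat.add_sub_cancel]
      nlinarith
    exact_mod_cast this
  calc (M : ℝ) ^ (4 * s) = ((M : ℝ) ^ s) ^ (3 + 1) := by rw [← pow_mul]; congr 1; ring
    _ ≤ (∑ k ∈ range (s * (M - 1) + 1), (bc s M k : ℝ) ^ (3 + 1)) *
        ((s * (M - 1) + 1 : ℕ) : ℝ) ^ 3 := h2
    _ ≤ (∑ k ∈ range (s * (M - 1) + 1), (bc s M k : ℝ) ^ (3 + 1)) * ((s : ℝ) * M) ^ 3 := by
        gcongr
        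
    _ = _ := by ring

end MP63
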