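import Pool.Agent.Work.MP_63674d_an.Poisson
import Pool.Agent.Work.MP_63674d_an.Factor

/-! Module P: monotonicity of `p`-means of polynomials and the pointwise bound. -/

open MeasureTheory Finset

namespace MP63

/-- The polynomial with coefficients `a n`, `n < D`. -/
noncomputable def polyOf (D : ℕ) (a : ℕ → ℂ) : Polynomial ℂ :=
  ∑ n ∈ range D, Polynomial.monomial n (a n)

theorem eval_polyOf (D : ℕ) (a : ℕ → ℂ) (z : ℂ) :
    (polyOf D a).eval z = ∑ n ∈ range D, a n * z ^ n := by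
  unfold polyOf
  rw [Polynomial.eval_finsetSum]
  simp

theorem tp_eq_eval (D : ℕ) (a : ℕ → ℂ) (x : TT) : tp D a x = (polyOf D a).eval (ee 1 x) := by
  rw [eval_polyOf]
  unfold tp
  exact Finset.sum_congr rfl fun n _ => by rw [ee_nat_pow]

theorem tp_scale_eq_eval (D : ℕ) (a : ℕ → ℂ) (r : ℝ) (x : TT) :
    tp D (fun n => a n * (r : ℂ) ^ n) x = (polyOf D a).eval ((r : ℂ) * ee 1 x) := by
  rw [eval_polyOf]
  unfold tp
  exact Finset.sum_congr rfl fun n _ => by rw [ee_nat_pow, mul_pow, mul_assoc]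

theorem poly_mono {p : ℝ} (hp : 0 < p) (hp1 : p < 1) (D : ℕ) (a : ℕ → ℂ) (r : ℝ) (hr : 0 ≤ r)
    (hr1 : r ≤ 1) :
    ∫ x : TT, ‖tp D (fun n => a n * (r : ℂ) ^ n) x‖ ^ p ≤ ∫ x : TT, ‖tp D a x‖ ^ p := by
  rcases hr1.eq_or_lt with rfl | hr1
  · simp
  by_cases hP : polyOf D a = 0
  · simp_rw [tp_scale_eq_eval, tp_eq_eval, hP]
    simp
  obtain ⟨Φ, Ψ, hΦ, hΨ, hc, hd⟩ := factor hp hp1 (polyOf D a) hP
  have hc2 : Continuous fun y : TT => Φ (r * ee 1 y) :=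
    hΦ.continuousOn.comp_continuous (by fun_prop) (fun x => subset_closure (mem_ball_of hr hr1 x))
  calc ∫ x : TT, ‖tp D (fun n => a n * (r : ℂ) ^ n) x‖ ^ p
      ≤ ∫ x : TT, ‖Φ (r * ee 1 x)‖ ^ 2 := by
        apply integral_mono (integ ?_) (integ (hc2.norm.pow 2))
        · intro x
          simp only [tp_scale_eq_eval]
          exact (hd _ (by simpa using mem_ball_of hr hr1 x)).1
        · exact (continuous_tp _ _).norm.rpow_const (fun _ => Or.inr hp.le)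
    _ ≤ ∫ x : TT, ‖Φ (ee 1 x)‖ ^ 2 := mean_sq_mono hΦ hr hr1
    _ = ∫ x : TT, ‖tp D a x‖ ^ p := by
        congr 1; ext x
        rw [(hc _ (norm_ee 1 x)).1, tp_eq_eval]

theorem exists_polar (z : ℂ) : ∃ y : TT, z = (‖z‖ : ℝ) * ee 1 y := by
  refine ⟨((z.arg / (2 * Real.pi) : ℝ) : TT), ?_⟩
  rw [ee_theta]
  simp

theorem pk_le {r : ℝ} (hr : 0 ≤ r) (hr1 : r < 1) (x : TT) : pk r x ≤ 2 / (1 - r) := by
  unfold pk
  have h1 : 1 - r ≤ ‖1 - (r : ℂ) * ee 1 x‖ := by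
    have := norm_sub_norm_le (1 : ℂ) ((r : ℂ) * ee 1 x)
    rw [norm_mul, norm_ee, Complex.norm_real, Real.norm_of_nonneg hr] at this
    simpa using this
  have h0 : 0 < 1 - r := by linarith
  have h2 : (1 - r) ^ 2 ≤ ‖1 - (r : ℂ) * ee 1 x‖ ^ 2 := by gcongr
  rw [div_le_div_iff₀ (by nlinarith) h0]
  nlinarith

theorem poly_pt {p : ℝ} (hp : 0 < p) (hp1 : p < 1) (r : ℝ) (hr : 0 ≤ r) (hr1 : r < 1) :
    ∃ C : ℝ, 0 ≤ C ∧ ∀ (D : ℕ) (a : ℕ → ℂ) (z : ℂ), ‖z‖ ≤ r →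
      ‖∑ n ∈ range D, a n * z ^ n‖ ^ p ≤ C * ∫ x : TT, ‖tp D a x‖ ^ p := by
  refine ⟨2 / (1 - r), by
    apply div_nonneg (by norm_num)
    linarith, ?_⟩
  intro D a z hz
  rw [← eval_polyOf]
  by_cases hP : polyOf D a = 0
  · rw [hP]
    simp only [Polynomial.eval_zero, norm_zero]
    rw [Real.zero_rpow hp.ne']
    apply mul_nonneg
    · apply div_nonneg (by norm_num)
      linarith
    · exact integral_nonneg fun x => by positivity
  obtain ⟨Φ, Ψ, hΦ, hΨ, hc, hd⟩ := factor hp hp1 (polyOf D a) hP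
  obtain ⟨y, hy⟩ := exists_polar z
  have hz0 : (0 : ℝ) ≤ ‖z‖ := norm_nonneg _
  have hz1 : ‖z‖ < 1 := lt_of_le_of_lt hz hr1
  have hcb := continuous_boundary hΦ
  have hcp : Continuous fun w : TT => pk ‖z‖ (y - w) := (continuous_pk hz0 hz1).comp (by fun_prop)
  calc ‖(polyOf D a).eval z‖ ^ p ≤ ‖Φ z‖ ^ 2 := (hd z hz1).1
    _ = ‖Φ ((‖z‖ : ℝ) * ee 1 y)‖ ^ 2 := by rw [← hy]
    _ ≤ ∫ w : TT, pk ‖z‖ (y - w) * ‖Φ (ee 1 w)‖ ^ 2 := poisson_le_sq hΦ hz0 hz1 y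
    _ ≤ ∫ w : TT, 2 / (1 - r) * ‖Φ (ee 1 w)‖ ^ 2 := by
        apply integral_mono (integ (hcp.mul (hcb.norm.pow 2)))
          (integ (continuous_const.mul (hcb.norm.pow 2)))
        intro w
        have h1 : pk ‖z‖ (y - w) ≤ 2 / (1 - ‖z‖) := pk_le hz0 hz1 _
        have h2 : 2 / (1 - ‖z‖) ≤ 2 / (1 - r) := by
          apply div_le_div_of_nonneg_left (by norm_num) (by linarith) (by linarith)
        exact mul_le_mul_of_nonneg_right (h1.trans h2) (sq_nonneg _)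
    _ = 2 / (1 - r) * ∫ x : TT, ‖tp D a x‖ ^ p := by
        rw [integral_const_mul]
        congr 2
        ext x
        rw [(hc _ (norm_ee 1 x)).1, tp_eq_eval]

end MP63
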