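import Pool.Agent.Work.MP_63674d_an.Square
import Pool.Agent.Work.MP_63674d_an.Area

/-! The discrete square function estimate. -/

open MeasureTheory Finset

namespace MP63

theorem sq_area_nonneg (D : ℕ) (a : ℕ → ℂ) (I L : ℕ) (x : TT) : 0 ≤ area D a I L x := by
  unfold area
  apply intervalIntegral.integral_nonneg
  · apply inv_le_one_of_one_le₀
    exact one_le_pow₀ (by norm_num)
  · intro t ht
    have ht0 : 0 ≤ t := le_trans (by positivity) ht.1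
    apply integral_nonneg
    intro w
    positivity

theorem norm_coe_le (u : ℝ) : ‖(u : TT)‖ ≤ |u| := by
  rw [UnitAddCircle.norm_eq]
  have := round_le u 0
  simpa using this

theorem node_dist (I x i : ℕ) (hi : i ≤ I) (u : ℝ) (h1 : (x : ℝ) / 2 ^ I ≤ u)
    (h2 : u ≤ ((x + 1 : ℕ) : ℝ) / 2 ^ I) :
    ‖(u : TT) - om i (x / 2 ^ (I - i))‖ ≤ ((2 : ℝ) ^ i)⁻¹ := by
  unfold om
  rw [← AddCircle.coe_sub]
  refine (norm_coe_le _).trans ?_
  set l := x / 2 ^ (I - i) with hl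
  have hpow : (2 : ℝ) ^ I = 2 ^ (I - i) * 2 ^ i := by rw [← pow_add]; congr 1; omega
  have a1 : l * 2 ^ (I - i) ≤ x := Nat.div_mul_le_self _ _
  have a2 : x + 1 ≤ (l + 1) * 2 ^ (I - i) := by
    have := Nat.lt_succ_of_le (le_refl (x / 2 ^ (I - i)))
    rw [Nat.div_lt_iff_lt_mul (by positivity)] at this
    exact this
  have b1 : (l : ℝ) * 2 ^ (I - i) ≤ x := by exact_mod_cast a1
  have b2 : ((x + 1 : ℕ) : ℝ) ≤ (l + 1) * 2 ^ (I - i) := by exact_mod_cast a2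
  have c1 : (l : ℝ) / 2 ^ i ≤ (x : ℝ) / 2 ^ I := by
    rw [hpow, div_le_div_iff₀ (by positivity) (by positivity)]
    nlinarith [pow_pos (show (0:ℝ) < 2 by norm_num) i]
  have c2 : ((x + 1 : ℕ) : ℝ) / 2 ^ I ≤ ((l : ℝ) + 1) / 2 ^ i := by
    rw [hpow, div_le_div_iff₀ (by positivity) (by positivity)]
    nlinarith [pow_pos (show (0:ℝ) < 2 by norm_num) i]
  have c3 : ((l : ℝ) + 1) / 2 ^ i = (l : ℝ) / 2 ^ i + (2 ^ i)⁻¹ := by ring
  rw [abs_le]
  constructor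
  · have : (0 : ℝ) < (2 ^ i)⁻¹ := by positivity
    linarith
  · linarith

theorem square_function {p : ℝ} (hp : 0 < p) (hp1 : p < 1) (al : ℝ → ℝ)
    (hal : ∀ n : ℕ, ContDiff ℝ n al) (hsupp : ∀ x, al x ≠ 0 → 1 / 8 < x ∧ x < 1 / 2) :
    ∃ C : ℝ, 0 ≤ C ∧ ∀ (D I : ℕ) (a : ℕ → ℂ),
      ((2 : ℝ) ^ I)⁻¹ * ∑ x ∈ range (2 ^ I), (∑ i ∈ range (I + 1),
          ‖tp D (fun n => (al ((n : ℝ) / 2 ^ i) : ℂ) * a n) (om i (x / 2 ^ (I - i)))‖ ^ 2) ^ (p / 2)
        ≤ C * ∫ x : TT, ‖tp D a x‖ ^ p := by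
  obtain ⟨L, C2, hL, hC2, h2⟩ := area_le hp hp1
  obtain ⟨C1, hC1, h1⟩ := square_le_area al hal hsupp L hL
  refine ⟨C1 ^ (p / 2) * C2, by positivity, ?_⟩
  intro D I a
  set A := fun u : ℝ => (area D a I L (u : TT)) ^ (p / 2) with hA
  have hAc : Continuous A := by
    apply Continuous.rpow_const
    · exact (continuous_area D a I L).comp (AddCircle.continuous_mk' 1)
    · intro u; right; positivity
  set G := fun x : ℕ => (∑ i ∈ range (I + 1),
    ‖tp D (fun n => (al ((n : ℝ) / 2 ^ i) : ℂ) * a n) (om i (x / 2 ^ (I - i)))‖ ^ 2) with hG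
  have hG0 : ∀ x, 0 ≤ G x := fun x => Finset.sum_nonneg fun i _ => by positivity
  have key : ∀ x : ℕ, ((2 : ℝ) ^ I)⁻¹ * (G x) ^ (p / 2)
      ≤ C1 ^ (p / 2) * ∫ u in ((x : ℝ) / 2 ^ I)..(((x + 1 : ℕ) : ℝ) / 2 ^ I), A u := by
    intro x
    have hle : (x : ℝ) / 2 ^ I ≤ ((x + 1 : ℕ) : ℝ) / 2 ^ I := by
      gcongr; push_cast; linarith
    have hpt : ∀ u ∈ Set.Icc ((x : ℝ) / 2 ^ I) (((x + 1 : ℕ) : ℝ) / 2 ^ I),
        (G x) ^ (p / 2) ≤ C1 ^ (p / 2) * A u := by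
      intro u hu
      have := h1 D I a (u : TT) (fun i => om i (x / 2 ^ (I - i)))
        (fun i hi => node_dist I x i hi u hu.1 hu.2)
      calc (G x) ^ (p / 2) ≤ (C1 * area D a I L (u : TT)) ^ (p / 2) := by
            apply Real.rpow_le_rpow (hG0 x) this (by positivity)
        _ = C1 ^ (p / 2) * A u := by
            rw [Real.mul_rpow hC1 (sq_area_nonneg _ _ _ _ _)]
    have hint := intervalIntegral.integral_mono_on (μ := volume) hle
      (f := fun _ => (G x) ^ (p / 2)) (g := fun u => C1 ^ (p / 2) * A u)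
      (continuous_const.intervalIntegrable _ _)
      ((continuous_const.mul hAc).intervalIntegrable _ _) hpt
    rw [intervalIntegral.integral_const, intervalIntegral.integral_const_mul] at hint
    have e1 : ((x + 1 : ℕ) : ℝ) / 2 ^ I - (x : ℝ) / 2 ^ I = ((2 : ℝ) ^ I)⁻¹ := by
      push_cast; ring
    rw [e1, smul_eq_mul] at hint
    exact hint
  have hsum : ∑ x ∈ range (2 ^ I), ∫ u in ((x : ℝ) / 2 ^ I)..(((x + 1 : ℕ) : ℝ) / 2 ^ I), A u
      = ∫ y : TT, (area D a I L y) ^ (p / 2) := by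
    have e := intervalIntegral.sum_integral_adjacent_intervals (μ := volume) (f := A)
      (a := fun x : ℕ => (x : ℝ) / 2 ^ I) (n := 2 ^ I)
      (fun k _ => hAc.intervalIntegrable _ _)
    rw [e]
    have e2 := AddCircle.intervalIntegral_preimage (1 : ℝ) 0
      (fun y : TT => (area D a I L y) ^ (p / 2))
    rw [← e2]
    congr 1
    · simp
    · push_cast; field_simp; norm_num
  calc ((2 : ℝ) ^ I)⁻¹ * ∑ x ∈ range (2 ^ I), (G x) ^ (p / 2)
      = ∑ x ∈ range (2 ^ I), ((2 : ℝ) ^ I)⁻¹ * (G x) ^ (p / 2) := by rw [Finset.mul_sum]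
    _ ≤ ∑ x ∈ range (2 ^ I), C1 ^ (p / 2) *
        ∫ u in ((x : ℝ) / 2 ^ I)..(((x + 1 : ℕ) : ℝ) / 2 ^ I), A u :=
        Finset.sum_le_sum fun x _ => key x
    _ = C1 ^ (p / 2) * ∫ y : TT, (area D a I L y) ^ (p / 2) := by rw [← Finset.mul_sum, hsum]
    _ ≤ C1 ^ (p / 2) * (C2 * ∫ x : TT, ‖tp D a x‖ ^ p) := by gcongr; exact h2 D I a
    _ = _ := by ring

end MP63
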