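import Mathlib

open Finset

namespace MP63

namespace TreeAux

theorem geo (q : ℝ) (hq : 1 < q) (K : Finset ℤ) : ∀ t : ℝ, 0 ≤ t → (∀ k ∈ K, q ^ k ≤ t) →
    ∑ k ∈ K, q ^ k ≤ t * (q / (q - 1)) := by
  have hq0 : 0 < q := by linarith
  have hq1 : 0 < q - 1 := by linarith
  induction K using Finset.induction_on_max with
  | empty =>
    intro t ht _
    simp only [Finset.sum_empty]
    positivity
  | insert a s ha ih =>
    intro t ht h
    have hna : a ∉ s := fun h => lt_irrefl _ (ha a h)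
    rw [Finset.sum_insert hna]
    have h1 : ∑ k ∈ s, q ^ k ≤ q ^ (a - 1) * (q / (q - 1)) := by
      apply ih
      · positivity
      · intro k hk
        have := ha k hk
        exact zpow_le_zpow_right₀ hq.le (by omega)
    have h2 : q ^ (a - 1) = q ^ a / q := by
      rw [zpow_sub_one₀ hq0.ne']
      rfl
    have h3 : q ^ a ≤ t := h a (Finset.mem_insert_self _ _)
    have h4 : q ^ (a - 1) * (q / (q - 1)) = q ^ a / (q - 1) := by
      rw [h2]
      field_simp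
    have h5 : q ^ a + q ^ a / (q - 1) = q ^ a * (q / (q - 1)) := by
      field_simp
      ring
    calc q ^ a + ∑ k ∈ s, q ^ k ≤ q ^ a + q ^ a / (q - 1) := by linarith
      _ = q ^ a * (q / (q - 1)) := h5
      _ ≤ t * (q / (q - 1)) := by
        apply mul_le_mul_of_nonneg_right h3
        positivity

/-- the dyadic arc `(i,l)` at resolution `I` -/
def arc (I i l : ℕ) : Finset ℕ := (range (2 ^ I)).filter (fun x => x / 2 ^ (I - i) = l)

theorem mem_arc {I i l x : ℕ} : x ∈ arc I i l ↔ x < 2 ^ I ∧ x / 2 ^ (I - i) = l := by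
  simp [arc]

theorem card_arc {I i l : ℕ} (hi : i ≤ I) (hl : l < 2 ^ i) : #(arc I i l) = 2 ^ (I - i) := by
  have : arc I i l = Finset.Ico (l * 2 ^ (I - i)) ((l + 1) * 2 ^ (I - i)) := by
    ext x
    rw [mem_arc, Finset.mem_Ico]
    have hpos : 0 < 2 ^ (I - i) := by positivity
    constructor
    · rintro ⟨_, h⟩
      constructor
      · rw [← Nat.le_div_iff_mul_le hpos, h]
      · rw [← Nat.div_lt_iff_lt_mul hpos, h]
        omega
    · rintro ⟨h1, h2⟩
      rw [← Nat.le_div_iff_mul_le hpos] at h1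
      have h3 := h2
      rw [← Nat.div_lt_iff_lt_mul hpos] at h2
      refine ⟨?_, by omega⟩
      calc x < (l + 1) * 2 ^ (I - i) := h3
        _ ≤ 2 ^ i * 2 ^ (I - i) := Nat.mul_le_mul_right _ hl
        _ = 2 ^ I := by rw [← pow_add]; congr 1; omega
  rw [this, Nat.card_Ico, ← Nat.sub_mul]
  simp

theorem anc {I i j : ℕ} (hi : i ≤ I) (hj : j ≤ i) (x : ℕ) :
    x / 2 ^ (I - j) = (x / 2 ^ (I - i)) / 2 ^ (i - j) := by
  rw [Nat.div_div_eq_div_mul, ← pow_add]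
  congr 2
  omega

theorem div_lt_pow {I i x : ℕ} (hi : i ≤ I) (hx : x < 2 ^ I) : x / 2 ^ (I - i) < 2 ^ i := by
  rw [Nat.div_lt_iff_lt_mul (by positivity), ← pow_add]
  convert hx using 2
  omega

/-- more than half of the arc lies in the level set -/
def Big (I : ℕ) (g : ℕ → ℝ) (k : ℤ) (i l : ℕ) : Prop :=
  (2 : ℝ) ^ (I - i) < 2 * #((arc I i l).filter (fun x => (4 : ℝ) ^ k < g x))

theorem Big_anti {I : ℕ} {g : ℕ → ℝ} {k k' : ℤ} (h : k' ≤ k) {i l : ℕ} (hb : Big I g k i l) :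
    Big I g k' i l := by
  unfold Big at *
  refine hb.trans_le ?_
  have : #((arc I i l).filter (fun x => (4 : ℝ) ^ k < g x)) ≤
      #((arc I i l).filter (fun x => (4 : ℝ) ^ k' < g x)) := by
    apply Finset.card_le_card
    intro x hx
    rw [Finset.mem_filter] at hx ⊢
    refine ⟨hx.1, lt_of_le_of_lt ?_ hx.2⟩
    exact zpow_le_zpow_right₀ (by norm_num) h
  have : (#((arc I i l).filter (fun x => (4 : ℝ) ^ k < g x)) : ℝ) ≤
      #((arc I i l).filter (fun x => (4 : ℝ) ^ k' < g x)) := by exact_mod_cast this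
  linarith

theorem exists_lab {I : ℕ} {g : ℕ → ℝ} {i l : ℕ} (hi : i ≤ I) (hl : l < 2 ^ i) {c : ℝ} (hc : 0 < c)
    (hg : ∀ x ∈ arc I i l, c ≤ g x) :
    ∃ (k : ℤ) (r : ℕ), Big I g k i l ∧ ¬ Big I g (k + 1) i l ∧ r ≤ i ∧
      Big I g k r (l / 2 ^ (i - r)) ∧ ∀ j < r, ¬ Big I g k j (l / 2 ^ (i - j)) := by
  classical
  have hex : ∃ k : ℤ, Big I g k i l := by
    obtain ⟨n, hn⟩ := exists_pow_lt_of_lt_one hc (show (1 / 4 : ℝ) < 1 by norm_num)
    refine ⟨-(n : ℤ), ?_⟩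
    unfold Big
    have : (arc I i l).filter (fun x => (4 : ℝ) ^ (-(n : ℤ)) < g x) = arc I i l := by
      apply Finset.filter_true_of_mem
      intro x hx
      refine lt_of_lt_of_le ?_ (hg x hx)
      rw [zpow_neg, zpow_natCast, ← inv_pow]
      simpa using hn
    rw [this, card_arc hi hl]
    push_cast
    have : (0 : ℝ) < 2 ^ (I - i) := by positivity
    linarith
  have hbd : ∃ b : ℤ, ∀ z : ℤ, Big I g z i l → z ≤ b := by
    obtain ⟨n, hn⟩ := pow_unbounded_of_one_lt (∑ x ∈ arc I i l, |g x|) (show (1 : ℝ) < 4 by norm_num)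
    refine ⟨n, fun z hz => ?_⟩
    by_contra hlt
    push Not at hlt
    have hz' : Big I g (n : ℤ) i l := Big_anti hlt.le hz
    unfold Big at hz'
    have : (arc I i l).filter (fun x => (4 : ℝ) ^ (n : ℤ) < g x) = ∅ := by
      apply Finset.filter_false_of_mem
      intro x hx h4
      rw [zpow_natCast] at h4
      have h5 : |g x| ≤ ∑ x ∈ arc I i l, |g x| :=
        Finset.single_le_sum (f := fun x => |g x|) (fun y _ => abs_nonneg _) hx
      have h6 := le_abs_self (g x)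
      linarith
    rw [this] at hz'
    simp only [Finset.card_empty, Nat.cast_zero, mul_zero] at hz'
    have : (0 : ℝ) < 2 ^ (I - i) := by positivity
    linarith
  obtain ⟨k, hk, hkmax⟩ := Int.exists_greatest_of_bdd hbd hex
  have hex2 : ∃ j : ℕ, j ≤ i ∧ Big I g k j (l / 2 ^ (i - j)) := ⟨i, le_rfl, by simpa using hk⟩
  refine ⟨k, Nat.find hex2, hk, ?_, (Nat.find_spec hex2).1, (Nat.find_spec hex2).2, ?_⟩
  · intro h
    have := hkmax _ h
    omega
  · intro j hj hb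
    exact Nat.find_min hex2 hj ⟨hj.le.trans (Nat.find_spec hex2).1, hb⟩

theorem enum {α : Type*} [DecidableEq α] [Inhabited α] (S : Finset α) :
    ∃ (f : ℕ → α) (idx : α → ℕ), (∀ s ∈ S, idx s < #S ∧ f (idx s) = s) ∧
      (∀ j < #S, f j ∈ S ∧ idx (f j) = j) := by
  classical
  let e := S.equivFin
  refine ⟨fun j => if h : j < #S then (e.symm ⟨j, h⟩ : α) else default,
    fun s => if h : s ∈ S then (e ⟨s, h⟩ : ℕ) else #S, ?_, ?_⟩
  · intro s hs
    simp [hs]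
  · intro j hj
    simp [hj]

/-- step 1: sum over a class -/
theorem class_sum {I : ℕ} {a : ℕ → ℕ → ℝ} (ha : ∀ i l, 0 ≤ a i l) (g : ℕ → ℝ)
    (hg : g = fun x => ∑ i ∈ range (I + 1), a i (x / 2 ^ (I - i)) * 2 ^ i)
    (P : ℕ → ℕ → Prop) [∀ i l, Decidable (P i l)] (k : ℤ) (r l' : ℕ) (hr : r ≤ I) (hl' : l' < 2 ^ r)
    (hP : ∀ i l, P i l → i ≤ I ∧ l < 2 ^ i ∧ ¬ Big I g (k + 1) i l ∧ r ≤ i ∧ l / 2 ^ (i - r) = l') :
    ∑ i ∈ range (I + 1), ∑ l ∈ range (2 ^ i), (if P i l then a i l else 0) ≤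
      8 * (4 : ℝ) ^ k * ((2 : ℝ) ^ r)⁻¹ := by
  set X : Finset ℕ := (arc I r l').filter (fun x => g x ≤ (4 : ℝ) ^ (k + 1)) with hX
  have hXlt : ∀ x ∈ X, x < 2 ^ I := by
    intro x hx
    rw [hX, Finset.mem_filter, mem_arc] at hx
    exact hx.1.1
  have step : ∀ i ∈ range (I + 1), ∑ l ∈ range (2 ^ i), (if P i l then a i l else 0) ≤
      ∑ x ∈ X, 2 * ((2 : ℝ) ^ I)⁻¹ * (a i (x / 2 ^ (I - i)) * 2 ^ i) := by
    intro i hi
    have hiI : i ≤ I := by simpa [Nat.lt_succ_iff] using hi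
    rw [← Finset.sum_fiberwise_of_maps_to (s := X) (t := range (2 ^ i))
      (g := fun x => x / 2 ^ (I - i))
      (fun x hx => by
        rw [Finset.mem_range]
        exact div_lt_pow hiI (hXlt x hx))]
    apply Finset.sum_le_sum
    intro l hl
    rw [Finset.mem_range] at hl
    split_ifs with hPl
    · obtain ⟨_, _, hnb, hri, hrl⟩ := hP i l hPl
      have hcard : (2 : ℝ) ^ (I - i) ≤ 2 * #(X.filter (fun x => x / 2 ^ (I - i) = l)) := by
        have hsplit := Finset.card_filter_add_card_filter_not (s := arc I i l)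
          (fun x => (4 : ℝ) ^ (k + 1) < g x)
        rw [card_arc hiI hl] at hsplit
        have heq : (arc I i l).filter (fun x => ¬ (4 : ℝ) ^ (k + 1) < g x) ⊆
            X.filter (fun x => x / 2 ^ (I - i) = l) := by
          intro x hx
          rw [Finset.mem_filter, mem_arc, not_lt] at hx
          rw [Finset.mem_filter, hX, Finset.mem_filter, mem_arc]
          refine ⟨⟨⟨hx.1.1, ?_⟩, hx.2⟩, hx.1.2⟩
          rw [anc hiI hri, hx.1.2, hrl]
        have h1 := Finset.card_le_card heq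
        unfold Big at hnb
        rw [not_lt] at hnb
        have h2 : ((#((arc I i l).filter (fun x => (4 : ℝ) ^ (k + 1) < g x)) : ℕ) : ℝ) +
            ((#((arc I i l).filter (fun x => ¬ (4 : ℝ) ^ (k + 1) < g x)) : ℕ) : ℝ) =
            (2 : ℝ) ^ (I - i) := by exact_mod_cast hsplit
        have h3 : ((#((arc I i l).filter (fun x => ¬ (4 : ℝ) ^ (k + 1) < g x)) : ℕ) : ℝ) ≤
            #(X.filter (fun x => x / 2 ^ (I - i) = l)) := by exact_mod_cast h1
        linarith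
      have hconst : ∑ x ∈ X.filter (fun x => x / 2 ^ (I - i) = l),
          2 * ((2 : ℝ) ^ I)⁻¹ * (a i (x / 2 ^ (I - i)) * 2 ^ i) =
          #(X.filter (fun x => x / 2 ^ (I - i) = l)) * (2 * ((2 : ℝ) ^ I)⁻¹ * (a i l * 2 ^ i)) := by
        rw [← nsmul_eq_mul, ← Finset.sum_const]
        apply Finset.sum_congr rfl
        intro x hx
        rw [Finset.mem_filter] at hx
        rw [hx.2]
      rw [hconst]
      have hpow : (2 : ℝ) ^ I = 2 ^ (I - i) * 2 ^ i := by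
        rw [← pow_add]; congr 1; omega
      have hp1 : (0 : ℝ) < 2 ^ (I - i) := by positivity
      have hp2 : (0 : ℝ) < 2 ^ i := by positivity
      have : #(X.filter (fun x => x / 2 ^ (I - i) = l)) * (2 * ((2 : ℝ) ^ I)⁻¹ * (a i l * 2 ^ i)) =
          (2 * #(X.filter (fun x => x / 2 ^ (I - i) = l))) / 2 ^ (I - i) * a i l := by
        rw [hpow]
        field_simp
      rw [this]
      have h1 : 1 ≤ (2 * #(X.filter (fun x => x / 2 ^ (I - i) = l)) : ℝ) / 2 ^ (I - i) := by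
        rw [le_div_iff₀ hp1]
        linarith
      nlinarith [ha i l]
    · apply Finset.sum_nonneg
      intro x _
      have := ha i (x / 2 ^ (I - i))
      positivity
  calc ∑ i ∈ range (I + 1), ∑ l ∈ range (2 ^ i), (if P i l then a i l else 0)
      ≤ ∑ i ∈ range (I + 1), ∑ x ∈ X, 2 * ((2 : ℝ) ^ I)⁻¹ * (a i (x / 2 ^ (I - i)) * 2 ^ i) :=
        Finset.sum_le_sum step
    _ = ∑ x ∈ X, 2 * ((2 : ℝ) ^ I)⁻¹ * g x := by
        rw [Finset.sum_comm]
        apply Finset.sum_congr rfl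
        intro x _
        rw [hg, Finset.mul_sum]
    _ ≤ ∑ x ∈ X, 2 * ((2 : ℝ) ^ I)⁻¹ * (4 : ℝ) ^ (k + 1) := by
        apply Finset.sum_le_sum
        intro x hx
        rw [hX, Finset.mem_filter] at hx
        apply mul_le_mul_of_nonneg_left hx.2
        positivity
    _ = #X * (2 * ((2 : ℝ) ^ I)⁻¹ * (4 : ℝ) ^ (k + 1)) := by
        rw [Finset.sum_const, nsmul_eq_mul]
    _ ≤ (2 : ℝ) ^ (I - r) * (2 * ((2 : ℝ) ^ I)⁻¹ * (4 : ℝ) ^ (k + 1)) := by
        apply mul_le_mul_of_nonneg_right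
        · have : #X ≤ 2 ^ (I - r) := by
            rw [← card_arc hr hl']
            exact Finset.card_filter_le _ _
          exact_mod_cast this
        · positivity
    _ = 8 * (4 : ℝ) ^ k * ((2 : ℝ) ^ r)⁻¹ := by
        have hpow : (2 : ℝ) ^ I = 2 ^ (I - r) * 2 ^ r := by
          rw [← pow_add]; congr 1; omega
        rw [hpow, zpow_add_one₀ (by norm_num)]
        field_simp
        norm_num

/-- step 3: sum over the labels -/
theorem label_sum {I : ℕ} (g : ℕ → ℝ) (hg : ∀ x, 0 ≤ g x) (p : ℝ) (hp : 0 < p)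
    (S : Finset (ℤ × ℕ × ℕ))
    (hS : ∀ s ∈ S, s.2.1 ≤ I ∧ s.2.2 < 2 ^ s.2.1 ∧ Big I g s.1 s.2.1 s.2.2 ∧
      ∀ j < s.2.1, ¬ Big I g s.1 j (s.2.2 / 2 ^ (s.2.1 - j))) :
    ∑ s ∈ S, ((4 : ℝ) ^ (p / 2)) ^ s.1 * ((2 : ℝ) ^ s.2.1)⁻¹ ≤
      2 * ((4 : ℝ) ^ (p / 2) / ((4 : ℝ) ^ (p / 2) - 1)) *
        (((2 : ℝ) ^ I)⁻¹ * ∑ x ∈ range (2 ^ I), g x ^ (p / 2)) := by
  classical
  set q : ℝ := (4 : ℝ) ^ (p / 2) with hq
  have hq1 : 1 < q := Real.one_lt_rpow (by norm_num) (by positivity)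
  have hq0 : 0 < q := by linarith
  have hqz : ∀ k : ℤ, q ^ k = ((4 : ℝ) ^ k) ^ (p / 2) := by
    intro k
    rw [hq, ← Real.rpow_intCast, ← Real.rpow_mul (by norm_num), ← Real.rpow_intCast,
      ← Real.rpow_mul (by norm_num), mul_comm]
  have h1 : ∀ s ∈ S, q ^ s.1 * ((2 : ℝ) ^ s.2.1)⁻¹ ≤
      ∑ x ∈ range (2 ^ I), (if x ∈ arc I s.2.1 s.2.2 ∧ (4 : ℝ) ^ s.1 < g x then
        2 * ((2 : ℝ) ^ I)⁻¹ * q ^ s.1 else 0) := by
    intro s hs
    obtain ⟨hrI, hl, hb, _⟩ := hS s hs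
    have heq : (range (2 ^ I)).filter (fun x => x ∈ arc I s.2.1 s.2.2 ∧ (4 : ℝ) ^ s.1 < g x) =
        (arc I s.2.1 s.2.2).filter (fun x => (4 : ℝ) ^ s.1 < g x) := by
      ext x
      simp only [Finset.mem_filter, mem_arc, Finset.mem_range]
      tauto
    rw [← Finset.sum_filter, heq, Finset.sum_const, nsmul_eq_mul]
    unfold Big at hb
    have hpow : (2 : ℝ) ^ I = 2 ^ (I - s.2.1) * 2 ^ s.2.1 := by
      rw [← pow_add]; congr 1; omega
    have hp1 : (0 : ℝ) < 2 ^ (I - s.2.1) := by positivity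
    have hp2 : (0 : ℝ) < 2 ^ s.2.1 := by positivity
    have hqk : 0 < q ^ s.1 := by positivity
    have : (#((arc I s.2.1 s.2.2).filter (fun x => (4 : ℝ) ^ s.1 < g x)) : ℝ) *
        (2 * ((2 : ℝ) ^ I)⁻¹ * q ^ s.1) =
        (2 * #((arc I s.2.1 s.2.2).filter (fun x => (4 : ℝ) ^ s.1 < g x))) / 2 ^ (I - s.2.1) *
          (q ^ s.1 * ((2 : ℝ) ^ s.2.1)⁻¹) := by
      rw [hpow]
      field_simp
    rw [this]
    have h1 : 1 ≤ (2 * #((arc I s.2.1 s.2.2).filter (fun x => (4 : ℝ) ^ s.1 < g x)) : ℝ) /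
        2 ^ (I - s.2.1) := by
      rw [le_div_iff₀ hp1]
      linarith
    have h2 : 0 ≤ q ^ s.1 * ((2 : ℝ) ^ s.2.1)⁻¹ := by positivity
    nlinarith
  calc ∑ s ∈ S, q ^ s.1 * ((2 : ℝ) ^ s.2.1)⁻¹
      ≤ ∑ s ∈ S, ∑ x ∈ range (2 ^ I), (if x ∈ arc I s.2.1 s.2.2 ∧ (4 : ℝ) ^ s.1 < g x then
        2 * ((2 : ℝ) ^ I)⁻¹ * q ^ s.1 else 0) := Finset.sum_le_sum h1
    _ = ∑ x ∈ range (2 ^ I), ∑ s ∈ S, (if x ∈ arc I s.2.1 s.2.2 ∧ (4 : ℝ) ^ s.1 < g x then
        2 * ((2 : ℝ) ^ I)⁻¹ * q ^ s.1 else 0) := Finset.sum_comm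
    _ ≤ ∑ x ∈ range (2 ^ I), 2 * (q / (q - 1)) * ((2 : ℝ) ^ I)⁻¹ * g x ^ (p / 2) := by
        apply Finset.sum_le_sum
        intro x _
        rw [← Finset.sum_filter]
        set Sx := S.filter (fun s => x ∈ arc I s.2.1 s.2.2 ∧ (4 : ℝ) ^ s.1 < g x) with hSx
        have hinj : Set.InjOn (fun s : ℤ × ℕ × ℕ => s.1) Sx := by
          intro s hs t ht hst
          rw [hSx, Finset.mem_coe, Finset.mem_filter, mem_arc] at hs ht
          obtain ⟨hsS, ⟨_, hsx⟩, _⟩ := hs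
          obtain ⟨htS, ⟨_, htx⟩, _⟩ := ht
          obtain ⟨hsI, _, hsb, hsm⟩ := hS s hsS
          obtain ⟨htI, _, htb, htm⟩ := hS t htS
          simp only at hst
          have hr : s.2.1 = t.2.1 := by
            rcases lt_trichotomy s.2.1 t.2.1 with h | h | h
            · exfalso
              apply htm _ h
              rw [← htx, ← anc htI h.le, hsx, ← hst]
              exact hsb
            · exact h
            · exfalso
              apply hsm _ h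
              rw [← hsx, ← anc hsI h.le, htx, hst]
              exact htb
          have hl : s.2.2 = t.2.2 := by rw [← hsx, ← htx, hr]
          exact Prod.ext hst (Prod.ext hr hl)
        have himg : ∑ s ∈ Sx, q ^ s.1 = ∑ k ∈ Sx.image (fun s => s.1), q ^ k :=
          (Finset.sum_image (f := fun k : ℤ => q ^ k) hinj).symm
        have hgeo : ∑ k ∈ Sx.image (fun s => s.1), q ^ k ≤ g x ^ (p / 2) * (q / (q - 1)) := by
          apply geo q hq1
          · exact Real.rpow_nonneg (hg x) _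
          · intro k hk
            rw [Finset.mem_image] at hk
            obtain ⟨s, hs, rfl⟩ := hk
            rw [hSx, Finset.mem_filter] at hs
            rw [hqz]
            exact Real.rpow_le_rpow (by positivity) hs.2.2.le (by positivity)
        rw [← Finset.mul_sum, himg]
        have hpos : (0 : ℝ) ≤ 2 * ((2 : ℝ) ^ I)⁻¹ := by positivity
        calc 2 * ((2 : ℝ) ^ I)⁻¹ * ∑ k ∈ Sx.image (fun s => s.1), q ^ k
            ≤ 2 * ((2 : ℝ) ^ I)⁻¹ * (g x ^ (p / 2) * (q / (q - 1))) :=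
              mul_le_mul_of_nonneg_left hgeo hpos
          _ = 2 * (q / (q - 1)) * ((2 : ℝ) ^ I)⁻¹ * g x ^ (p / 2) := by ring
    _ = 2 * (q / (q - 1)) * (((2 : ℝ) ^ I)⁻¹ * ∑ x ∈ range (2 ^ I), g x ^ (p / 2)) := by
        rw [← Finset.mul_sum]
        ring

end TreeAux

open TreeAux in
theorem tree_decomp (p : ℝ) (hp : 0 < p) (hp2 : p < 2) : ∃ C : ℝ, 0 ≤ C ∧
    ∀ (I : ℕ) (a : ℕ → ℕ → ℝ), (∀ i l, 0 ≤ a i l) →
    ∃ (m : ℕ) (ri rl : ℕ → ℕ) (lab : ℕ → ℕ → ℕ),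
      (∀ i ≤ I, ∀ l < 2 ^ i, a i l ≠ 0 →
        lab i l < m ∧ ri (lab i l) ≤ i ∧ l / 2 ^ (i - ri (lab i l)) = rl (lab i l)) ∧
      ∑ j ∈ range m, ((2 : ℝ) ^ (ri j)) ^ (p / 2 - 1) *
          (∑ i ∈ range (I + 1), ∑ l ∈ range (2 ^ i), if lab i l = j then a i l else 0) ^ (p / 2)
        ≤ C * (((2 : ℝ) ^ I)⁻¹ * ∑ x ∈ range (2 ^ I),
            (∑ i ∈ range (I + 1), a i (x / 2 ^ (I - i)) * 2 ^ i) ^ (p / 2)) := by
  classical
  have hq1 : 1 < (4 : ℝ) ^ (p / 2) := Real.one_lt_rpow (by norm_num) (by positivity)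
  refine ⟨(8 : ℝ) ^ (p / 2) * (2 * ((4 : ℝ) ^ (p / 2) / ((4 : ℝ) ^ (p / 2) - 1))), ?_, ?_⟩
  · have : 0 < (4 : ℝ) ^ (p / 2) - 1 := by linarith
    positivity
  intro I a ha
  set g : ℕ → ℝ := fun x => ∑ i ∈ range (I + 1), a i (x / 2 ^ (I - i)) * 2 ^ i with hg
  have hg0 : ∀ x, 0 ≤ g x := by
    intro x
    apply Finset.sum_nonneg
    intro i _
    have := ha i (x / 2 ^ (I - i))
    positivity
  have hex : ∀ i l : ℕ, ∃ s : ℤ × ℕ, i ≤ I → l < 2 ^ i → a i l ≠ 0 →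
      Big I g s.1 i l ∧ ¬ Big I g (s.1 + 1) i l ∧ s.2 ≤ i ∧
      Big I g s.1 s.2 (l / 2 ^ (i - s.2)) ∧ ∀ j < s.2, ¬ Big I g s.1 j (l / 2 ^ (i - j)) := by
    intro i l
    by_cases h : i ≤ I ∧ l < 2 ^ i ∧ a i l ≠ 0
    · obtain ⟨hi, hl, hne⟩ := h
      have hc : 0 < a i l * 2 ^ i := by
        have := lt_of_le_of_ne (ha i l) (Ne.symm hne)
        positivity
      obtain ⟨k, r, h1⟩ := exists_lab (g := g) hi hl hc (by
        intro x hx
        rw [mem_arc] at hx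
        rw [hg]
        have := Finset.single_le_sum (f := fun i => a i (x / 2 ^ (I - i)) * 2 ^ i)
          (s := range (I + 1)) (fun j _ => by
            have := ha j (x / 2 ^ (I - j))
            positivity) (Finset.mem_range.2 (Nat.lt_succ_of_le hi))
        simp only [hx.2] at this
        exact this)
      exact ⟨(k, r), fun _ _ _ => h1⟩
    · refine ⟨(0, 0), fun h1 h2 h3 => absurd ⟨h1, h2, h3⟩ h⟩
  choose F hF using hex
  set Lab : ℕ → ℕ → ℤ × ℕ × ℕ := fun i l => ((F i l).1, (F i l).2, l / 2 ^ (i - (F i l).2))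
    with hLab
  set T : Finset (ℕ × ℕ) := ((range (I + 1)) ×ˢ (range (2 ^ I))).filter
    (fun q => q.2 < 2 ^ q.1 ∧ a q.1 q.2 ≠ 0) with hT
  have hmemT : ∀ i l, (i, l) ∈ T ↔ i ≤ I ∧ l < 2 ^ i ∧ a i l ≠ 0 := by
    intro i l
    rw [hT, Finset.mem_filter, Finset.mem_product, Finset.mem_range, Finset.mem_range]
    constructor
    · rintro ⟨⟨h1, _⟩, h2, h3⟩
      exact ⟨by simpa [Nat.lt_succ_iff] using h1, h2, h3⟩
    · rintro ⟨h1, h2, h3⟩
      refine ⟨⟨Nat.lt_succ_of_le h1, ?_⟩, h2, h3⟩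
      exact h2.trans_le (Nat.pow_le_pow_right (by norm_num) h1)
  set S : Finset (ℤ × ℕ × ℕ) := T.image (fun q => Lab q.1 q.2) with hSdef
  obtain ⟨f, idx, hf1, hf2⟩ := enum S
  have hLabS : ∀ i l, (i, l) ∈ T → Lab i l ∈ S := by
    intro i l h
    exact Finset.mem_image_of_mem (fun q : ℕ × ℕ => Lab q.1 q.2) h
  set lab : ℕ → ℕ → ℕ := fun i l => if (i, l) ∈ T then idx (Lab i l) else #S with hlab
  have hlabT : ∀ i l, (i, l) ∈ T → lab i l = idx (Lab i l) := by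
    intro i l h
    simp only [hlab, if_pos h]
  have hS : ∀ s ∈ S, s.2.1 ≤ I ∧ s.2.2 < 2 ^ s.2.1 ∧ Big I g s.1 s.2.1 s.2.2 ∧
      ∀ j < s.2.1, ¬ Big I g s.1 j (s.2.2 / 2 ^ (s.2.1 - j)) := by
    intro s hs
    rw [hSdef, Finset.mem_image] at hs
    obtain ⟨⟨i, l⟩, hq, rfl⟩ := hs
    obtain ⟨hi, hl, hne⟩ := (hmemT i l).1 hq
    obtain ⟨_, _, h3, h4, h5⟩ := hF i l hi hl hne
    simp only [hLab]
    refine ⟨h3.trans hi, ?_, h4, ?_⟩
    · exact div_lt_pow h3 hl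
    · intro j hj
      have := h5 j hj
      rw [anc h3 hj.le] at this
      exact this
  refine ⟨#S, fun j => (f j).2.1, fun j => (f j).2.2, lab, ?_, ?_⟩
  · intro i hi l hl hne
    have hmT : (i, l) ∈ T := (hmemT i l).2 ⟨hi, hl, hne⟩
    obtain ⟨h1, h2⟩ := hf1 _ (hLabS i l hmT)
    rw [hlabT i l hmT]
    simp only [h2]
    exact ⟨h1, (hF i l hi hl hne).2.2.1, rfl⟩
  · have hiff : ∀ j < #S, ∀ i l, lab i l = j ↔ ((i, l) ∈ T ∧ Lab i l = f j) := by
      intro j hj i l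
      constructor
      · intro h
        by_cases hm : (i, l) ∈ T
        · refine ⟨hm, ?_⟩
          rw [hlabT i l hm] at h
          rw [← h, (hf1 _ (hLabS i l hm)).2]
        · simp only [hlab, if_neg hm] at h
          omega
      · rintro ⟨hm, h⟩
        rw [hlabT i l hm, h, (hf2 j hj).2]
    have hterm : ∀ j ∈ range #S, ((2 : ℝ) ^ ((f j).2.1)) ^ (p / 2 - 1) *
          (∑ i ∈ range (I + 1), ∑ l ∈ range (2 ^ i), if lab i l = j then a i l else 0) ^ (p / 2)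
        ≤ (8 : ℝ) ^ (p / 2) * (((4 : ℝ) ^ (p / 2)) ^ (f j).1 * ((2 : ℝ) ^ (f j).2.1)⁻¹) := by
      intro j hj
      rw [Finset.mem_range] at hj
      obtain ⟨hrI, hl', hbig, hmax⟩ := hS _ (hf2 j hj).1
      have hcs := class_sum ha g hg (fun i l => lab i l = j) (f j).1 (f j).2.1 (f j).2.2 hrI hl'
        (by
          intro i l h
          rw [hiff j hj] at h
          obtain ⟨hm, h⟩ := h
          obtain ⟨hi, hl, hne⟩ := (hmemT i l).1 hm
          obtain ⟨_, h2, h3, _, _⟩ := hF i l hi hl hne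
          rw [← h]
          exact ⟨hi, hl, h2, h3, rfl⟩)
      have hnn : 0 ≤ ∑ i ∈ range (I + 1), ∑ l ∈ range (2 ^ i),
          (if lab i l = j then a i l else 0) := by
        apply Finset.sum_nonneg
        intro i _
        apply Finset.sum_nonneg
        intro l _
        split_ifs
        · exact ha i l
        · exact le_rfl
      have h2r : (0 : ℝ) < 2 ^ (f j).2.1 := by positivity
      calc ((2 : ℝ) ^ ((f j).2.1)) ^ (p / 2 - 1) *
          (∑ i ∈ range (I + 1), ∑ l ∈ range (2 ^ i), if lab i l = j then a i l else 0) ^ (p / 2)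
          ≤ ((2 : ℝ) ^ ((f j).2.1)) ^ (p / 2 - 1) *
            (8 * (4 : ℝ) ^ (f j).1 * ((2 : ℝ) ^ (f j).2.1)⁻¹) ^ (p / 2) := by
            apply mul_le_mul_of_nonneg_left _ (by positivity)
            exact Real.rpow_le_rpow hnn hcs (by positivity)
        _ = (8 : ℝ) ^ (p / 2) * (((4 : ℝ) ^ (p / 2)) ^ (f j).1 * ((2 : ℝ) ^ (f j).2.1)⁻¹) := by
            have hqz : ((4 : ℝ) ^ (p / 2)) ^ (f j).1 = ((4 : ℝ) ^ (f j).1) ^ (p / 2) := by
              rw [← Real.rpow_intCast, ← Real.rpow_mul (by norm_num), ← Real.rpow_intCast,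
                ← Real.rpow_mul (by norm_num), mul_comm]
            rw [hqz, Real.mul_rpow (by positivity) (by positivity),
              Real.mul_rpow (by positivity) (by positivity), Real.inv_rpow h2r.le]
            have h5 : ((2 : ℝ) ^ (f j).2.1) ^ (p / 2) * (((2 : ℝ) ^ (f j).2.1) ^ (p / 2))⁻¹ = 1 :=
              mul_inv_cancel₀ (Real.rpow_pos_of_pos h2r _).ne'
            have h6 : ((2 : ℝ) ^ (f j).2.1) ^ (p / 2 - 1) =
                ((2 : ℝ) ^ (f j).2.1) ^ (p / 2) * ((2 : ℝ) ^ (f j).2.1)⁻¹ := by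
              rw [Real.rpow_sub h2r, Real.rpow_one]
              rfl
            rw [h6]
            calc ((2 : ℝ) ^ (f j).2.1) ^ (p / 2) * ((2 : ℝ) ^ (f j).2.1)⁻¹ *
                (8 ^ (p / 2) * ((4 : ℝ) ^ (f j).1) ^ (p / 2) * (((2 : ℝ) ^ (f j).2.1) ^ (p / 2))⁻¹)
                = (((2 : ℝ) ^ (f j).2.1) ^ (p / 2) * (((2 : ℝ) ^ (f j).2.1) ^ (p / 2))⁻¹) *
                  (8 ^ (p / 2) * (((4 : ℝ) ^ (f j).1) ^ (p / 2) * ((2 : ℝ) ^ (f j).2.1)⁻¹)) := by
                  ring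
              _ = _ := by rw [h5, one_mul]
    calc ∑ j ∈ range #S, ((2 : ℝ) ^ ((f j).2.1)) ^ (p / 2 - 1) *
          (∑ i ∈ range (I + 1), ∑ l ∈ range (2 ^ i), if lab i l = j then a i l else 0) ^ (p / 2)
        ≤ ∑ j ∈ range #S,
          (8 : ℝ) ^ (p / 2) * (((4 : ℝ) ^ (p / 2)) ^ (f j).1 * ((2 : ℝ) ^ (f j).2.1)⁻¹) :=
          Finset.sum_le_sum hterm
      _ = ∑ s ∈ S, (8 : ℝ) ^ (p / 2) * (((4 : ℝ) ^ (p / 2)) ^ s.1 * ((2 : ℝ) ^ s.2.1)⁻¹) := by
          apply Finset.sum_nbij' f idx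
          · intro j hj
            exact (hf2 j (Finset.mem_range.1 hj)).1
          · intro s hs
            exact Finset.mem_range.2 (hf1 s hs).1
          · intro j hj
            exact (hf2 j (Finset.mem_range.1 hj)).2
          · intro s hs
            exact (hf1 s hs).2
          · intro j _
            rfl
      _ = (8 : ℝ) ^ (p / 2) * ∑ s ∈ S, ((4 : ℝ) ^ (p / 2)) ^ s.1 * ((2 : ℝ) ^ s.2.1)⁻¹ := by
          rw [← Finset.mul_sum]
      _ ≤ (8 : ℝ) ^ (p / 2) * (2 * ((4 : ℝ) ^ (p / 2) / ((4 : ℝ) ^ (p / 2) - 1)) *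
          (((2 : ℝ) ^ I)⁻¹ * ∑ x ∈ range (2 ^ I), g x ^ (p / 2))) := by
          apply mul_le_mul_of_nonneg_left _ (by positivity)
          exact label_sum g hg0 p hp S hS
      _ = _ := by
          rw [hg]
          ring

end MP63
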