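import Pool.Agent.Work.MP_63674d_an.SqFun
import Pool.Agent.Work.MP_63674d_an.Ker
import Pool.Agent.Work.MP_63674d_an.Cut
import Pool.Agent.Work.MP_63674d_an.Tree
import Pool.Agent.Work.MP_63674d_an.PolyHp
import Pool.Agent.Work.MP_63674d_an.Atom
import Pool.Agent.Work.MP_63674d_an.Bessel

/-! Sufficiency of the testing condition: boundedness on analytic polynomials. -/

open MeasureTheory Finset

namespace MP63

theorem rpow_add_le' {p : ℝ} (hp : 0 < p) (hp1 : p ≤ 1) {x y : ℝ} (hx : 0 ≤ x) (hy : 0 ≤ y) :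
    (x + y) ^ p ≤ x ^ p + y ^ p := by
  have := NNReal.rpow_add_le_add_rpow (⟨x, hx⟩ : NNReal) ⟨y, hy⟩ hp.le hp1
  exact_mod_cast this

theorem norm_sum_rpow_le {ι : Type*} {p : ℝ} (hp : 0 < p) (hp1 : p ≤ 1) (S : Finset ι)
    (f : ι → ℂ) : ‖∑ i ∈ S, f i‖ ^ p ≤ ∑ i ∈ S, ‖f i‖ ^ p := by
  classical
  induction S using Finset.induction_on with
  | empty => simp [Real.zero_rpow hp.ne']
  | insert a S ha ih =>
    rw [Finset.sum_insert ha, Finset.sum_insert ha]
    calc ‖f a + ∑ i ∈ S, f i‖ ^ p ≤ (‖f a‖ + ‖∑ i ∈ S, f i‖) ^ p := by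
          gcongr; exact norm_add_le _ _
      _ ≤ ‖f a‖ ^ p + ‖∑ i ∈ S, f i‖ ^ p := rpow_add_le' hp hp1 (norm_nonneg _) (norm_nonneg _)
      _ ≤ _ := by gcongr

/-- Fourier coefficients of `∑ c i l * psi b i l`. -/
noncomputable def co (b : ℝ → ℝ) (I : ℕ) (c : ℕ → ℕ → ℂ) (n : ℕ) : ℂ :=
  ∑ i ∈ range (I + 1), ∑ l ∈ range (2 ^ i), c i l *
    ((((Real.sqrt (2 ^ i))⁻¹ : ℝ) : ℂ) * (b ((n : ℝ) / 2 ^ i) : ℂ) * ee (-n) (om i l))

theorem sum_psi (b : ℝ → ℝ) (hsupp : ∀ x, b x ≠ 0 → 1 / 16 < x ∧ x < 1) (I : ℕ)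
    (c : ℕ → ℕ → ℂ) (x : TT) :
    ∑ i ∈ range (I + 1), ∑ l ∈ range (2 ^ i), c i l * psi b i l x = tp (2 ^ I) (co b I c) x := by
  unfold tp co
  simp_rw [Finset.sum_mul]
  rw [Finset.sum_comm]
  refine Finset.sum_congr rfl fun i hi => ?_
  rw [Finset.sum_comm]
  refine Finset.sum_congr rfl fun l _ => ?_
  unfold psi
  have hiI : i ≤ I := Nat.lt_succ_iff.mp (Finset.mem_range.mp hi)
  have hsub : range (2 ^ i) ⊆ range (2 ^ I) :=
    Finset.range_subset_range.mpr (Nat.pow_le_pow_right (by norm_num) hiI)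
  have h1 : ∑ n ∈ range (2 ^ i), (b ((n : ℝ) / 2 ^ i) : ℂ) * ee n (x - om i l)
      = ∑ n ∈ range (2 ^ I), (b ((n : ℝ) / 2 ^ i) : ℂ) * ee n (x - om i l) := by
    apply Finset.sum_subset hsub
    intro n _ hn
    have hn' : 2 ^ i ≤ n := by
      by_contra h; exact hn (Finset.mem_range.mpr (by omega))
    have : b ((n : ℝ) / 2 ^ i) = 0 := by
      by_contra hb
      have h2 := (hsupp _ hb).2
      rw [div_lt_one (by positivity)] at h2
      have : ((2 ^ i : ℕ) : ℝ) ≤ n := by exact_mod_cast hn'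
      push_cast at this
      linarith
    rw [this]; simp
  rw [h1, Finset.mul_sum, Finset.mul_sum]
  refine Finset.sum_congr rfl fun n _ => ?_
  rw [ee_sub_right]; ring

theorem om_sum (i : ℕ) (k : ℤ) :
    ∑ l ∈ range (2 ^ i), ee k (om i l) = if ((2 ^ i : ℕ) : ℤ) ∣ k then ((2 ^ i : ℕ) : ℂ) else 0 := by
  rw [← sum_roots (2 ^ i) (by positivity) k]
  refine Finset.sum_congr rfl fun l _ => ?_
  unfold om; push_cast; rfl

theorem co_sampling (al be : ℝ → ℝ) (hal : ∀ x, al x ≠ 0 → 1 / 8 < x ∧ x < 1 / 2)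
    (hbe : ∀ x, be x ≠ 0 → 1 / 16 < x ∧ x < 1) (hbe1 : ∀ x, 1 / 8 ≤ x → x ≤ 1 / 2 → be x = 1)
    (hsum : ∀ n I : ℕ, 1 ≤ n → 4 * n ≤ 2 ^ I → ∑ i ∈ range (I + 1), al ((n : ℝ) / 2 ^ i) = 1)
    (D I : ℕ) (hD : 4 * D ≤ 2 ^ I) (a : ℕ → ℂ) (n : ℕ) :
    co be I (fun i l => (((Real.sqrt (2 ^ i))⁻¹ : ℝ) : ℂ) *
      tp D (fun n => (al ((n : ℝ) / 2 ^ i) : ℂ) * a n) (om i l)) n
      = if 1 ≤ n ∧ n < D then a n else 0 := by
  unfold co
  have key : ∀ i : ℕ, ∑ l ∈ range (2 ^ i), ((((Real.sqrt (2 ^ i))⁻¹ : ℝ) : ℂ) *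
      tp D (fun n => (al ((n : ℝ) / 2 ^ i) : ℂ) * a n) (om i l)) *
      ((((Real.sqrt (2 ^ i))⁻¹ : ℝ) : ℂ) * (be ((n : ℝ) / 2 ^ i) : ℂ) * ee (-n) (om i l))
      = if n < D then (al ((n : ℝ) / 2 ^ i) : ℂ) * a n else 0 := by
    intro i
    have hs : (((Real.sqrt (2 ^ i))⁻¹ : ℝ) : ℂ) * (((Real.sqrt (2 ^ i))⁻¹ : ℝ) : ℂ)
        = ((2 ^ i : ℕ) : ℂ)⁻¹ := by
      rw [← Complex.ofReal_mul, ← mul_inv, Real.mul_self_sqrt (by positivity)]
      push_cast; rfl
    have h1 : ∀ l ∈ range (2 ^ i), ((((Real.sqrt (2 ^ i))⁻¹ : ℝ) : ℂ) *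
        tp D (fun n => (al ((n : ℝ) / 2 ^ i) : ℂ) * a n) (om i l)) *
        ((((Real.sqrt (2 ^ i))⁻¹ : ℝ) : ℂ) * (be ((n : ℝ) / 2 ^ i) : ℂ) * ee (-n) (om i l))
        = ∑ k ∈ range D, ((2 ^ i : ℕ) : ℂ)⁻¹ * (be ((n : ℝ) / 2 ^ i) : ℂ) *
          ((al ((k : ℝ) / 2 ^ i) : ℂ) * a k) * ee ((k : ℤ) - n) (om i l) := by
      intro l _
      unfold tp
      rw [← hs, Finset.mul_sum, Finset.sum_mul]
      refine Finset.sum_congr rfl fun k _ => ?_
      rw [sub_eq_add_neg, ee_add]; ring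
    rw [Finset.sum_congr rfl h1, Finset.sum_comm]
    have h2 : ∀ k ∈ range D, ∑ l ∈ range (2 ^ i), ((2 ^ i : ℕ) : ℂ)⁻¹ *
        (be ((n : ℝ) / 2 ^ i) : ℂ) * ((al ((k : ℝ) / 2 ^ i) : ℂ) * a k) * ee ((k : ℤ) - n) (om i l)
        = if k = n then (al ((n : ℝ) / 2 ^ i) : ℂ) * a n else 0 := by
      intro k _
      rw [← Finset.mul_sum, om_sum]
      by_cases hkn : k = n
      · subst hkn
        simp only [sub_self, dvd_zero, if_true]
        by_cases hal0 : al ((k : ℝ) / 2 ^ i) = 0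
        · rw [hal0]; simp
        · have hb := hal _ hal0
          rw [hbe1 _ hb.1.le hb.2.le]
          have : ((2 ^ i : ℕ) : ℂ) ≠ 0 := by
            have h9 : (2 ^ i : ℕ) ≠ 0 := by positivity
            exact_mod_cast h9
          field_simp
          simp
      · simp only [hkn, if_false]
        by_cases hb0 : be ((n : ℝ) / 2 ^ i) = 0
        · rw [hb0]; simp
        by_cases hal0 : al ((k : ℝ) / 2 ^ i) = 0
        · rw [hal0]; simp
        have hb := hbe _ hb0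
        have ha := hal _ hal0
        have hp2 : (0 : ℝ) < 2 ^ i := by positivity
        rw [lt_div_iff₀ hp2, div_lt_iff₀ hp2] at hb ha
        have hndvd : ¬ (((2 ^ i : ℕ) : ℤ) ∣ (k : ℤ) - n) := by
          intro hdvd
          have hn1 : (n : ℤ) < ((2 ^ i : ℕ) : ℤ) := by
            have h3 : (n : ℝ) < ((2 ^ i : ℕ) : ℝ) := by push_cast; linarith
            exact_mod_cast h3
          have hk1 : (k : ℤ) < ((2 ^ i : ℕ) : ℤ) := by
            have h3 : (k : ℝ) < ((2 ^ i : ℕ) : ℝ) := by push_cast; linarith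
            exact_mod_cast h3
          have h4 : (k : ℤ) - n = 0 := by
            apply Int.eq_zero_of_abs_lt_dvd hdvd
            rw [abs_lt]; constructor <;> omega
          omega
        rw [if_neg hndvd]; simp
    rw [Finset.sum_congr rfl h2, Finset.sum_ite_eq' (range D) n]
    simp only [Finset.mem_range]
  rw [Finset.sum_congr rfl fun i _ => key i]
  by_cases hn : n < D
  · simp only [hn, if_true, and_true]
    rw [← Finset.sum_mul]
    by_cases hn1 : 1 ≤ n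
    · simp only [hn1, if_true]
      have := hsum n I hn1 (by omega)
      have h3 : ∑ i ∈ range (I + 1), (al ((n : ℝ) / 2 ^ i) : ℂ) = 1 := by
        rw [← Complex.ofReal_sum, this]; simp
      rw [h3, one_mul]
    · simp only [hn1, if_false]
      have hn0 : n = 0 := by omega
      subst hn0
      have hal0 : al 0 = 0 := by
        by_contra h; have := (hal _ h).1; norm_num at this
      simp [hal0]
  · simp [hn]

theorem sufficiency {p : ℝ} (hp : 0 < p) (hp1 : p < 1) {s : ℕ} (hs : 1 < s * p) (l : ℕ → ℂ) (C : ℝ)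
    (hV : VC p s l C) :
    ∃ C' : ℝ, ∀ (D : ℕ) (a : ℕ → ℂ),
      ∫ x : TT, ‖tp D (fun n => l n * a n) x‖ ^ p ≤ C' * ∫ x : TT, ‖tp D a x‖ ^ p := by
  have hs1 : 1 ≤ s := by
    rcases Nat.eq_zero_or_pos s with h | h
    · subst h; simp at hs; linarith
    · exact h
  obtain ⟨al, be, hal, hbe, hals, hbes, hbe1, hsum⟩ := cutoffs
  obtain ⟨Ca, hCa, hat⟩ := atom_bound hp hp1 hs l C hV
  obtain ⟨Cb, hCb, hbes2⟩ := loc_bessel be hbe hbes s
  obtain ⟨Ct, hCt, htree⟩ := tree_decomp p hp (by linarith)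
  obtain ⟨Cs, hCs, hsq⟩ := square_function hp hp1 al hal hals
  obtain ⟨Cp, hCp, hpt⟩ := poly_pt hp hp1 0 le_rfl (by norm_num)
  set K := Ca * (16 * (s : ℝ)) ^ (1 - p / 2) * (4 ^ s * Cb) ^ (p / 2) with hK
  have hK0 : 0 ≤ K := by positivity
  refine ⟨‖l 0‖ ^ p * Cp + K * (Ct * Cs), ?_⟩
  intro D a
  set I := D + 2 with hI
  have hD : 4 * D ≤ 2 ^ I := by
    have : D < 2 ^ D := Nat.lt_two_pow_self
    rw [hI, pow_add]; omega
  have hDI : D ≤ 2 ^ I := by omega
  set sq : ℕ → ℕ → ℂ := fun i k => (((Real.sqrt (2 ^ i))⁻¹ : ℝ) : ℂ) *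
      tp D (fun n => (al ((n : ℝ) / 2 ^ i) : ℂ) * a n) (om i k) with hsqd
  obtain ⟨m, ri, rl, lab, hlab, hbound⟩ := htree I (fun i k => ‖sq i k‖ ^ 2)
    (fun i k => by positivity)
  -- the pieces
  set c : ℕ → ℕ → ℕ → ℂ := fun j i k => if i ≤ I ∧ k < 2 ^ i ∧ lab i k = j then sq i k else 0
    with hc
  have hcsum : ∀ i ∈ range (I + 1), ∀ k ∈ range (2 ^ i), sq i k = ∑ j ∈ range m, c j i k := by
    intro i hi k hk
    have hi' : i ≤ I := Nat.lt_succ_iff.mp (Finset.mem_range.mp hi)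
    have hk' := Finset.mem_range.mp hk
    simp only [hc, hi', hk', true_and]
    rw [Finset.sum_ite_eq (range m) (lab i k)]
    by_cases h0 : sq i k = 0
    · simp [h0]
    · have := (hlab i hi' k hk' (by simpa using h0)).1
      simp [this]
  have hco : ∀ n, co be I sq n = ∑ j ∈ range m, co be I (c j) n := by
    intro n
    unfold co
    rw [Finset.sum_comm]
    refine Finset.sum_congr rfl fun i hi => ?_
    rw [Finset.sum_comm]
    refine Finset.sum_congr rfl fun k hk => ?_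
    rw [hcsum i hi k hk, Finset.sum_mul]
  have hcoef : ∀ n, co be I sq n = if 1 ≤ n ∧ n < D then a n else 0 :=
    co_sampling al be hals hbes hbe1 hsum D I hD a
  -- the decomposition of the image
  have hT : ∀ x : TT, tp D (fun n => l n * a n) x
      = (if 0 < D then l 0 * a 0 else 0)
        + ∑ j ∈ range m, tp (2 ^ I) (fun n => l n * co be I (c j) n) x := by
    intro x
    have e1 : ∑ j ∈ range m, tp (2 ^ I) (fun n => l n * co be I (c j) n) x
        = ∑ n ∈ range (2 ^ I), l n * (if 1 ≤ n ∧ n < D then a n else 0) * ee n x := by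
      unfold tp
      rw [Finset.sum_comm]
      refine Finset.sum_congr rfl fun n _ => ?_
      rw [← hcoef n, hco n, Finset.mul_sum, Finset.sum_mul]
    rw [e1]
    have e2 : ∑ n ∈ range (2 ^ I), l n * (if 1 ≤ n ∧ n < D then a n else 0) * ee n x
        = ∑ n ∈ range D, l n * (if 1 ≤ n ∧ n < D then a n else 0) * ee n x := by
      symm
      apply Finset.sum_subset (Finset.range_subset_range.mpr hDI)
      intro n _ hn
      have : ¬ n < D := fun h => hn (Finset.mem_range.mpr h)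
      simp [this]
    rw [e2]
    unfold tp
    rcases Nat.eq_zero_or_pos D with h | h
    · subst h; simp
    · obtain ⟨E, rfl⟩ : ∃ E, D = E + 1 := ⟨D - 1, by omega⟩
      rw [Finset.sum_range_succ' _ E, Finset.sum_range_succ' _ E]
      simp only [h, if_true]
      have e3 : ∀ k ∈ range E, l (k + 1) * (if 1 ≤ k + 1 ∧ k + 1 < E + 1 then a (k + 1) else 0)
          * ee ((k + 1 : ℕ) : ℤ) x = l (k + 1) * a (k + 1) * ee ((k + 1 : ℕ) : ℤ) x := by
        intro k hk
        have := Finset.mem_range.mp hk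
        have h4 : 1 ≤ k + 1 ∧ k + 1 < E + 1 := by omega
        simp [h4]
      rw [Finset.sum_congr rfl e3]
      simp [ee_zero]
      ring
  -- each piece
  have hpiece : ∀ j, ∫ x : TT, ‖tp (2 ^ I) (fun n => l n * co be I (c j) n) x‖ ^ p
      ≤ K * (((2 : ℝ) ^ (ri j)) ^ (p / 2 - 1) *
        (∑ i ∈ range (I + 1), ∑ k ∈ range (2 ^ i), if lab i k = j then ‖sq i k‖ ^ 2 else 0)
          ^ (p / 2)) := by
    intro j
    set i0 := ri j with hi0
    set x0 := om i0 (rl j) with hx0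
    set M := 2 ^ i0 / (16 * s) + 1 with hM
    have hprop : ∀ i k, c j i k ≠ 0 → i0 ≤ i ∧ ‖om i k - x0‖ ≤ ((2 : ℝ) ^ i0)⁻¹ := by
      intro i k hne
      simp only [hc] at hne
      split_ifs at hne with hcond
      · obtain ⟨h1, h2, h3⟩ := hcond
        have h4 := hlab i h1 k h2 (by simpa using hne)
        rw [h3] at h4
        refine ⟨h4.2.1, ?_⟩
        have h5 := node_dist i k i0 h4.2.1 ((k : ℝ) / 2 ^ i) le_rfl
          (by gcongr; push_cast; linarith)
        rw [hx0, ← h4.2.2]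
        exact h5
      · exact absurd rfl hne
    have hbess := hbes2 i0 I x0 (c j) hprop
    have hsumc : ∑ i ∈ range (I + 1), ∑ k ∈ range (2 ^ i), ‖c j i k‖ ^ 2
        = ∑ i ∈ range (I + 1), ∑ k ∈ range (2 ^ i), if lab i k = j then ‖sq i k‖ ^ 2 else 0 := by
      refine Finset.sum_congr rfl fun i hi => Finset.sum_congr rfl fun k hk => ?_
      have hi' : i ≤ I := Nat.lt_succ_iff.mp (Finset.mem_range.mp hi)
      have hk' := Finset.mem_range.mp hk
      simp only [hc, hi', hk', true_and]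
      split_ifs <;> simp
    rw [hsumc] at hbess
    set Q := ∑ i ∈ range (I + 1), ∑ k ∈ range (2 ^ i), (if lab i k = j then ‖sq i k‖ ^ 2 else 0)
      with hQ
    have hQ0 : 0 ≤ Q := Finset.sum_nonneg fun i _ => Finset.sum_nonneg fun k _ => by
      split_ifs <;> positivity
    simp_rw [sum_psi be hbes I (c j)] at hbess
    have h16 : 0 < 16 * s := by omega
    have hM1 : 1 ≤ M := Nat.le_add_left 1 _
    have hvan : ∀ k < s * (M - 1), co be I (c j) k = 0 := by
      intro k hk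
      have hk2 : 16 * k < 2 ^ i0 := by
        have h1 : M - 1 = 2 ^ i0 / (16 * s) := Nat.add_sub_cancel _ _
        rw [h1] at hk
        have h2 : 16 * s * (2 ^ i0 / (16 * s)) ≤ 2 ^ i0 := Nat.mul_div_le _ _
        nlinarith
      unfold co
      refine Finset.sum_eq_zero fun i _ => Finset.sum_eq_zero fun q _ => ?_
      by_cases hcz : c j i q = 0
      · rw [hcz]; simp
      · have hi := (hprop i q hcz).1
        have hb0 : be ((k : ℝ) / 2 ^ i) = 0 := by
          by_contra hb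
          have h3 := (hbes _ hb).1
          rw [lt_div_iff₀ (by positivity)] at h3
          have h4 : (16 : ℝ) * k < 2 ^ i0 := by exact_mod_cast hk2
          have h5 : (2 : ℝ) ^ i0 ≤ 2 ^ i := pow_le_pow_right₀ (by norm_num) hi
          linarith
        rw [hb0]; simp
    have hatom := hat M hM1 (2 ^ I) (co be I (c j)) hvan x0
    have hMle : (M : ℝ) ≤ 2 * 2 ^ i0 := by
      have h1 : M ≤ 2 * 2 ^ i0 := by
        have h2 : 2 ^ i0 / (16 * s) ≤ 2 ^ i0 := Nat.div_le_self _ _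
        have h3 : 1 ≤ 2 ^ i0 := Nat.one_le_two_pow
        omega
      exact_mod_cast h1
    have hMge : (2 : ℝ) ^ i0 / (16 * s) ≤ M := by
      have h1 : 2 ^ i0 < 16 * s * M := by
        have := Nat.lt_mul_div_succ (2 ^ i0) h16
        exact this
      have h2 : (2 : ℝ) ^ i0 < 16 * s * M := by exact_mod_cast h1
      rw [div_le_iff₀ (by positivity)]
      linarith
    have hMpow : (M : ℝ) ^ (p / 2 - 1) ≤ (16 * (s : ℝ)) ^ (1 - p / 2) * ((2 : ℝ) ^ i0) ^ (p / 2 - 1) := by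
      have hs0 : (0 : ℝ) < 16 * s := by positivity
      calc (M : ℝ) ^ (p / 2 - 1) ≤ ((2 : ℝ) ^ i0 / (16 * s)) ^ (p / 2 - 1) := by
            apply Real.rpow_le_rpow_of_nonpos (by positivity) hMge (by linarith)
        _ = _ := by
            rw [Real.div_rpow (by positivity) hs0.le]
            have : (16 * (s : ℝ)) ^ (1 - p / 2) = ((16 * (s : ℝ)) ^ (p / 2 - 1))⁻¹ := by
              rw [← Real.rpow_neg hs0.le]; congr 1; ring
            rw [this]; field_simp
    have hW : ∫ x : TT, ‖tp (2 ^ I) (co be I (c j)) x‖ ^ 2 * (1 + M * ‖x - x0‖) ^ (2 * s)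
        ≤ 4 ^ s * Cb * Q := by
      calc ∫ x : TT, ‖tp (2 ^ I) (co be I (c j)) x‖ ^ 2 * (1 + M * ‖x - x0‖) ^ (2 * s)
          ≤ ∫ x : TT, 4 ^ s * (‖tp (2 ^ I) (co be I (c j)) x‖ ^ 2
              * (1 + 2 ^ i0 * ‖x - x0‖) ^ (2 * s)) := by
            apply integral_mono (integ (by fun_prop)) (integ (by fun_prop))
            intro x
            have h1 : (1 + (M : ℝ) * ‖x - x0‖) ^ (2 * s)
                ≤ 4 ^ s * (1 + 2 ^ i0 * ‖x - x0‖) ^ (2 * s) := by
              have h2 : (4 : ℝ) ^ s = 2 ^ (2 * s) := by rw [pow_mul]; norm_num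
              rw [h2, ← mul_pow]
              have h3 : 1 + (M : ℝ) * ‖x - x0‖ ≤ 2 * (1 + 2 ^ i0 * ‖x - x0‖) := by
                have := mul_le_mul_of_nonneg_right hMle (norm_nonneg (x - x0))
                nlinarith
              gcongr
            calc ‖tp (2 ^ I) (co be I (c j)) x‖ ^ 2 * (1 + (M : ℝ) * ‖x - x0‖) ^ (2 * s)
                ≤ ‖tp (2 ^ I) (co be I (c j)) x‖ ^ 2 *
                  (4 ^ s * (1 + 2 ^ i0 * ‖x - x0‖) ^ (2 * s)) := by gcongr
              _ = _ := by ring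
        _ = 4 ^ s * ∫ x : TT, ‖tp (2 ^ I) (co be I (c j)) x‖ ^ 2
              * (1 + 2 ^ i0 * ‖x - x0‖) ^ (2 * s) := integral_const_mul _ _
        _ ≤ 4 ^ s * (Cb * Q) := by gcongr
        _ = _ := by ring
    have hW0 : 0 ≤ ∫ x : TT, ‖tp (2 ^ I) (co be I (c j)) x‖ ^ 2 * (1 + M * ‖x - x0‖) ^ (2 * s) :=
      integral_nonneg fun x => by positivity
    calc ∫ x : TT, ‖tp (2 ^ I) (fun n => l n * co be I (c j) n) x‖ ^ p
        ≤ Ca * (M : ℝ) ^ (p / 2 - 1) *
          (∫ x : TT, ‖tp (2 ^ I) (co be I (c j)) x‖ ^ 2 * (1 + M * ‖x - x0‖) ^ (2 * s))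
            ^ (p / 2) := hatom
      _ ≤ Ca * ((16 * (s : ℝ)) ^ (1 - p / 2) * ((2 : ℝ) ^ i0) ^ (p / 2 - 1)) *
          (4 ^ s * Cb * Q) ^ (p / 2) := by gcongr
      _ = _ := by
          rw [Real.mul_rpow (by positivity) hQ0]
          rw [hK]; ring
  have hmain : ∑ j ∈ range m, ∫ x : TT, ‖tp (2 ^ I) (fun n => l n * co be I (c j) n) x‖ ^ p
      ≤ K * (Ct * (Cs * ∫ x : TT, ‖tp D a x‖ ^ p)) := by
    calc ∑ j ∈ range m, ∫ x : TT, ‖tp (2 ^ I) (fun n => l n * co be I (c j) n) x‖ ^ p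
        ≤ ∑ j ∈ range m, K * (((2 : ℝ) ^ (ri j)) ^ (p / 2 - 1) *
        (∑ i ∈ range (I + 1), ∑ k ∈ range (2 ^ i), if lab i k = j then ‖sq i k‖ ^ 2 else 0)
          ^ (p / 2)) := Finset.sum_le_sum fun j _ => hpiece j
      _ = K * ∑ j ∈ range m, (((2 : ℝ) ^ (ri j)) ^ (p / 2 - 1) *
        (∑ i ∈ range (I + 1), ∑ k ∈ range (2 ^ i), if lab i k = j then ‖sq i k‖ ^ 2 else 0)
          ^ (p / 2)) := by rw [Finset.mul_sum]
      _ ≤ K * (Ct * (((2 : ℝ) ^ I)⁻¹ * ∑ x ∈ range (2 ^ I),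
            (∑ i ∈ range (I + 1), ‖sq i (x / 2 ^ (I - i))‖ ^ 2 * 2 ^ i) ^ (p / 2))) := by
          gcongr
      _ ≤ K * (Ct * (Cs * ∫ x : TT, ‖tp D a x‖ ^ p)) := by
          have hh := hsq D I a
          have e : ∀ x ∈ range (2 ^ I), (∑ i ∈ range (I + 1), ‖sq i (x / 2 ^ (I - i))‖ ^ 2 * 2 ^ i)
              ^ (p / 2) = (∑ i ∈ range (I + 1),
              ‖tp D (fun n => (al ((n : ℝ) / 2 ^ i) : ℂ) * a n) (om i (x / 2 ^ (I - i)))‖ ^ 2)
                ^ (p / 2) := by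
            intro x _
            congr 1
            refine Finset.sum_congr rfl fun i _ => ?_
            simp only [hsqd]
            rw [norm_mul, mul_pow, Complex.norm_real, Real.norm_of_nonneg (by positivity), inv_pow,
              Real.sq_sqrt (by positivity)]
            field_simp
          rw [Finset.sum_congr rfl e]
          gcongr
  -- constant term
  have hconst : ‖(if 0 < D then l 0 * a 0 else 0 : ℂ)‖ ^ p ≤ ‖l 0‖ ^ p * Cp * ∫ x : TT, ‖tp D a x‖ ^ p := by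
    have hI0 : 0 ≤ ∫ x : TT, ‖tp D a x‖ ^ p := integral_nonneg fun x => by positivity
    split_ifs with h
    · rw [norm_mul, Real.mul_rpow (norm_nonneg _) (norm_nonneg _)]
      have := hpt D a 0 (by simp)
      have e : ∑ n ∈ range D, a n * (0 : ℂ) ^ n = a 0 := by
        rw [Finset.sum_eq_single_of_mem 0 (Finset.mem_range.mpr h)]
        · simp
        · intro b _ hb; simp [hb]
      rw [e] at this
      calc ‖l 0‖ ^ p * ‖a 0‖ ^ p ≤ ‖l 0‖ ^ p * (Cp * ∫ x : TT, ‖tp D a x‖ ^ p) := by gcongr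
        _ = _ := by ring
    · rw [norm_zero, Real.zero_rpow hp.ne']
      positivity
  have hcontp : ∀ g : TT → ℂ, Continuous g → Integrable fun x => ‖g x‖ ^ p := by
    intro g hg
    apply integ
    exact hg.norm.rpow_const fun x => Or.inr hp.le
  calc ∫ x : TT, ‖tp D (fun n => l n * a n) x‖ ^ p
      ≤ ∫ x : TT, (‖(if 0 < D then l 0 * a 0 else 0 : ℂ)‖ ^ p
        + ∑ j ∈ range m, ‖tp (2 ^ I) (fun n => l n * co be I (c j) n) x‖ ^ p) := by
        apply integral_mono (hcontp _ (continuous_tp _ _))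
        · apply Integrable.add (integrable_const _)
          apply integrable_finsetSum
          intro j _
          exact hcontp _ (continuous_tp _ _)
        · intro x
          simp only
          rw [hT x]
          calc _ ≤ (‖(if 0 < D then l 0 * a 0 else 0 : ℂ)‖
                + ‖∑ j ∈ range m, tp (2 ^ I) (fun n => l n * co be I (c j) n) x‖) ^ p := by
                gcongr; exact norm_add_le _ _
            _ ≤ _ := rpow_add_le' hp hp1.le (norm_nonneg _) (norm_nonneg _)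
            _ ≤ _ := by gcongr; exact norm_sum_rpow_le hp hp1.le _ _
    _ = ‖(if 0 < D then l 0 * a 0 else 0 : ℂ)‖ ^ p
        + ∑ j ∈ range m, ∫ x : TT, ‖tp (2 ^ I) (fun n => l n * co be I (c j) n) x‖ ^ p := by
        rw [integral_add (integrable_const _)
          (integrable_finsetSum _ fun j _ => hcontp _ (continuous_tp _ _)),
          integral_finsetSum _ (fun j _ => hcontp _ (continuous_tp _ _))]
        simp
    _ ≤ ‖l 0‖ ^ p * Cp * (∫ x : TT, ‖tp D a x‖ ^ p)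
        + K * (Ct * (Cs * ∫ x : TT, ‖tp D a x‖ ^ p)) := add_le_add hconst hmain
    _ = _ := by ring

end MP63
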