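import Pool.Agent.Work.MP_63674d_an.Final

/-! The common weight form of the characterisation of the coefficient multipliers of `H^p`. -/

open MeasureTheory Finset

namespace MP63

/-- The window of `l` as a function of the angle. -/
noncomputable def wn (s : ℕ) (l : ℕ → ℂ) (N m : ℕ) (θ : ℝ) : ℂ :=
  ∑ k ∈ range (s * (N - 1) + 1), (bc s N k : ℂ) * l (m + k) * Complex.exp (k * θ * Complex.I)

theorem continuous_wn (s : ℕ) (l : ℕ → ℂ) (N m : ℕ) : Continuous (wn s l N m) := by
  unfold wn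
  fun_prop

/-- quadratic averages of the windows -/
noncomputable def qa (s : ℕ) (l : ℕ → ℂ) (N : ℕ) (S : Finset ℕ) (d : ℕ → ℝ) (θ : ℝ) : ℝ :=
  ∑ m ∈ S, d m * ‖wn s l N m θ‖ ^ 2

theorem continuous_qa (s : ℕ) (l : ℕ → ℂ) (N : ℕ) (S : Finset ℕ) (d : ℕ → ℝ) :
    Continuous (qa s l N S d) := by
  unfold qa
  refine continuous_finsetSum _ fun m _ => continuous_const.mul ?_
  exact ((continuous_wn s l N m).norm).pow 2

theorem qa_nonneg (s : ℕ) (l : ℕ → ℂ) (N : ℕ) (S : Finset ℕ) (d : ℕ → ℝ)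
    (hd : ∀ m ∈ S, 0 ≤ d m) (θ : ℝ) : 0 ≤ qa s l N S d θ :=
  Finset.sum_nonneg fun m hm => mul_nonneg (hd m hm) (sq_nonneg _)

/-- tangent line inequality for `x ^ q` -/
theorem rpow_tangent {q x y : ℝ} (hq : 0 ≤ q) (hq1 : q ≤ 1) (hx : 0 ≤ x) (hy : 0 < y) :
    x ^ q ≤ y ^ q + q * y ^ (q - 1) * (x - y) := by
  have h1 : -1 ≤ x / y - 1 := by
    have : 0 ≤ x / y := by positivity
    linarith
  have h2 := rpow_one_add_le_one_add_mul_self h1 hq hq1
  rw [add_sub_cancel, Real.div_rpow hx hy.le, div_le_iff₀ (Real.rpow_pos_of_pos hy q)] at h2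
  refine h2.trans (le_of_eq ?_)
  have h3 : y ^ q = y ^ (q - 1) * y := by
    rw [← Real.rpow_add_one hy.ne', sub_add_cancel]
  rw [h3]
  field_simp

/-- a lower bound with a quadratic error -/
theorem rpow_quad {q x y : ℝ} (hq : 0 ≤ q) (hq1 : q ≤ 1) (hx : 1 ≤ x) (hy : 1 ≤ y) :
    x ^ q + q * x ^ (q - 1) * (y - x) - (y - x) ^ 2 ≤ y ^ q := by
  have hx0 : 0 < x := by linarith
  have hy0 : 0 < y := by linarith
  have h1 := rpow_tangent hq hq1 hx0.le hy0
  -- Lipschitz bound for `x ^ (q - 1)`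
  have lip : ∀ a b : ℝ, 1 ≤ a → a ≤ b → a ^ (q - 1) - b ^ (q - 1) ≤ b - a := by
    intro a b ha hab
    have ha0 : 0 < a := by linarith
    have hb0 : 0 < b := by linarith
    have e1 : b ^ (q - 1) = a ^ (q - 1) * (a / b) ^ (1 - q) := by
      rw [Real.div_rpow ha0.le hb0.le, ← mul_div_assoc, ← Real.rpow_add ha0]
      rw [show q - 1 + (1 - q) = 0 by ring, Real.rpow_zero, one_div, ← Real.rpow_neg hb0.le]
      congr 1
      ring
    have e2 : a ^ (q - 1) ≤ 1 := Real.rpow_le_one_of_one_le_of_nonpos ha (by linarith)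
    have e3 : 0 ≤ a / b := by positivity
    have e4 : a / b ≤ 1 := by
      rw [div_le_one hb0]
      exact hab
    have e5 : a / b ≤ (a / b) ^ (1 - q) := by
      calc a / b = (a / b) ^ (1 : ℝ) := (Real.rpow_one _).symm
        _ ≤ (a / b) ^ (1 - q) :=
          Real.rpow_le_rpow_of_exponent_ge (by positivity) e4 (by linarith)
    have e6 : 0 ≤ a ^ (q - 1) := Real.rpow_nonneg ha0.le _
    have e7 : 1 - (a / b) ^ (1 - q) ≤ b - a := by
      have e8 : 1 - a / b ≤ b - a := by
        rw [one_sub_div hb0.ne', div_le_iff₀ hb0]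
        nlinarith
      linarith
    have e9 : 0 ≤ 1 - (a / b) ^ (1 - q) := by
      have : (a / b) ^ (1 - q) ≤ 1 := Real.rpow_le_one e3 e4 (by linarith)
      linarith
    rw [e1]
    calc a ^ (q - 1) - a ^ (q - 1) * (a / b) ^ (1 - q) =
          a ^ (q - 1) * (1 - (a / b) ^ (1 - q)) := by ring
      _ ≤ 1 * (1 - (a / b) ^ (1 - q)) := mul_le_mul_of_nonneg_right e2 e9
      _ ≤ _ := by linarith
  have h2 : x ^ (q - 1) * (y - x) - y ^ (q - 1) * (y - x) ≤ (y - x) ^ 2 := by
    rcases le_total x y with h | h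
    · have := lip x y hx h
      nlinarith
    · have := lip y x hy h
      nlinarith
  have h3 : q * (x ^ (q - 1) * (y - x) - y ^ (q - 1) * (y - x)) ≤ (y - x) ^ 2 := by
    rcases le_total 0 (x ^ (q - 1) * (y - x) - y ^ (q - 1) * (y - x)) with h | h
    · calc q * (x ^ (q - 1) * (y - x) - y ^ (q - 1) * (y - x)) ≤
          1 * (x ^ (q - 1) * (y - x) - y ^ (q - 1) * (y - x)) := mul_le_mul_of_nonneg_right hq1 h
        _ ≤ _ := by rw [one_mul]; exact h2
    · have h4 : q * (x ^ (q - 1) * (y - x) - y ^ (q - 1) * (y - x)) ≤ 0 :=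
        mul_nonpos_of_nonneg_of_nonpos hq h
      exact h4.trans (sq_nonneg _)
  nlinarith

/-- averages over the positions are closed under mixing with a single window -/
theorem qa_mix (s : ℕ) (l : ℕ → ℂ) (N : ℕ) (S : Finset ℕ) (d : ℕ → ℝ) (hd : ∀ m ∈ S, 0 ≤ d m)
    (hd1 : ∑ m ∈ S, d m = 1) (m : ℕ) (t : ℝ) (ht : 0 ≤ t) (ht1 : t ≤ 1) :
    ∃ (S' : Finset ℕ) (d' : ℕ → ℝ), (∀ n ∈ S', 0 ≤ d' n) ∧ ∑ n ∈ S', d' n = 1 ∧
      ∀ θ, qa s l N S' d' θ = (1 - t) * qa s l N S d θ + t * ‖wn s l N m θ‖ ^ 2 := by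
  classical
  have key : ∀ g : ℕ → ℝ, ∑ n ∈ insert m S, ((1 - t) * (if n ∈ S then d n else 0) +
      t * (if n = m then 1 else 0)) * g n = (1 - t) * ∑ n ∈ S, d n * g n + t * g m := by
    intro g
    have e1 : ∀ n, ((1 - t) * (if n ∈ S then d n else 0) + t * (if n = m then 1 else 0)) * g n =
        (1 - t) * (if n ∈ S then d n * g n else 0) + t * (if n = m then g n else 0) := by
      intro n
      split_ifs <;> ring
    simp only [e1]
    rw [Finset.sum_add_distrib, ← Finset.mul_sum, ← Finset.mul_sum,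
      Finset.sum_ite_eq' (insert m S) m, if_pos (mem_insert_self m S)]
    congr 2
    rw [← Finset.sum_filter]
    congr 1
    ext n
    rw [mem_filter, mem_insert]
    constructor
    · exact fun h => h.2
    · exact fun h => ⟨Or.inr h, h⟩
  refine ⟨insert m S, fun n => (1 - t) * (if n ∈ S then d n else 0) +
      t * (if n = m then 1 else 0), ?_, ?_, ?_⟩
  · intro n _
    have h1 : 0 ≤ (if n ∈ S then d n else 0) := by
      split_ifs with h
      · exact hd n h
      · exact le_rfl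
    have h2 : (0 : ℝ) ≤ (if n = m then 1 else 0) := by
      split_ifs
      · exact zero_le_one
      · exact le_rfl
    have h3 : 0 ≤ 1 - t := by linarith
    positivity
  · have h := key (fun _ => 1)
    simp only [mul_one] at h
    rw [h, hd1]
    ring
  · intro θ
    unfold qa
    exact key (fun n => ‖wn s l N n θ‖ ^ 2)

/-- **Characterisation by common weights.** -/
theorem weight_iff {p : ℝ} (hp : 0 < p) (hp1 : p < 1) {s : ℕ} (hs : 1 < s * p) (l : ℕ → ℂ) :
    IsMult p l ↔ ∃ C : ℝ, ∀ N : ℕ, 1 ≤ N → ∃ v : ℝ → ℝ, Continuous v ∧ (∀ θ, 0 < v θ) ∧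
      ∫ θ in (0 : ℝ)..(2 * Real.pi), v θ = 1 ∧
      ∀ m : ℕ, ∫ θ in (0 : ℝ)..(2 * Real.pi), ‖wn s l N m θ‖ ^ 2 * v θ ^ (1 - 2 / p) ≤
        C * (N : ℝ) ^ (2 * s - 2 / p) := by
  have hpi : 0 < 2 * Real.pi := by positivity
  have hpi0 : (0 : ℝ) ≤ 2 * Real.pi := hpi.le
  set q := p / 2 with hq
  have hq0 : 0 < q := by positivity
  have hq1 : q < 1 := by
    rw [hq]
    linarith
  have hqi : 1 - 2 / p = 1 - 1 / q := by
    rw [hq]
    field_simp
  rw [main_iff hp hp1 hs l]
  constructor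
  · -- necessity of the common weights
    rintro ⟨C, hC⟩
    have hC' : ∀ N : ℕ, 1 ≤ N → ∀ (S : Finset ℕ) (d : ℕ → ℝ), (∀ m ∈ S, 0 ≤ d m) →
        ∑ m ∈ S, d m = 1 →
        ∫ θ in (0 : ℝ)..(2 * Real.pi), (qa s l N S d θ) ^ q ≤ C * (N : ℝ) ^ (s * p - 1) :=
      fun N hN S d hd hd1 => hC N hN S d hd hd1
    have hnn : ∀ (N : ℕ) (S : Finset ℕ) (d : ℕ → ℝ), (∀ m ∈ S, 0 ≤ d m) →
        0 ≤ ∫ θ in (0 : ℝ)..(2 * Real.pi), (qa s l N S d θ) ^ q := fun N S d hd =>
      intervalIntegral.integral_nonneg hpi0 fun θ _ => Real.rpow_nonneg (qa_nonneg s l N S d hd θ) _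
    have hC0 : 0 ≤ C := by
      have h1 := (hnn 1 {0} (fun _ => 1) (fun _ _ => zero_le_one)).trans
        (hC' 1 le_rfl {0} (fun _ => 1) (fun _ _ => zero_le_one) (by simp))
      simpa using h1
    -- the multiplier is bounded
    have hbdd : ∃ Λ : ℝ, 0 ≤ Λ ∧ ∀ n, ‖l n‖ ≤ Λ := by
      refine ⟨C ^ (1 / p), Real.rpow_nonneg hC0 _, fun n => ?_⟩
      have h1 := hC' 1 le_rfl {n} (fun _ => 1) (fun _ _ => zero_le_one) (by simp)
      have h2 : ∀ θ, qa s l 1 {n} (fun _ => 1) θ = ‖l n‖ ^ 2 := by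
        intro θ
        unfold qa wn
        simp [bc]
      simp only [h2] at h1
      rw [intervalIntegral.integral_const, smul_eq_mul, sub_zero, Nat.cast_one, Real.one_rpow,
        mul_one] at h1
      have h3 : (‖l n‖ ^ 2) ^ q = ‖l n‖ ^ p := by
        rw [← Real.rpow_natCast, ← Real.rpow_mul (norm_nonneg _), hq]
        congr 1
        push_cast
        ring
      rw [h3] at h1
      have h4 : ‖l n‖ ^ p ≤ C := by
        have h5 : (1 : ℝ) ≤ 2 * Real.pi := by
          have := Real.pi_gt_three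
          linarith
        have h6 : 0 ≤ ‖l n‖ ^ p := Real.rpow_nonneg (norm_nonneg _) _
        nlinarith
      calc ‖l n‖ = (‖l n‖ ^ p) ^ (1 / p) := by
            rw [← Real.rpow_mul (norm_nonneg _), mul_one_div_cancel hp.ne', Real.rpow_one]
        _ ≤ C ^ (1 / p) := Real.rpow_le_rpow (Real.rpow_nonneg (norm_nonneg _) _) h4 (by positivity)
    obtain ⟨Λ, hΛ0, hΛ⟩ := hbdd
    refine ⟨2 * (C + 2 * Real.pi) ^ (2 / p), fun N hN => ?_⟩
    have hNr : (1 : ℝ) ≤ N := by exact_mod_cast hN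
    have hN0 : (0 : ℝ) < N := by linarith
    -- bound of the windows
    obtain ⟨B, hB0, hB⟩ : ∃ B : ℝ, 0 ≤ B ∧ ∀ m θ, ‖wn s l N m θ‖ ^ 2 ≤ B := by
      refine ⟨(∑ k ∈ range (s * (N - 1) + 1), (bc s N k : ℝ) * Λ) ^ 2, sq_nonneg _, fun m θ => ?_⟩
      refine pow_le_pow_left₀ (norm_nonneg _) ?_ 2
      unfold wn
      refine (norm_sum_le _ _).trans (Finset.sum_le_sum fun k _ => ?_)
      rw [norm_mul, norm_mul]
      have h1 : ‖Complex.exp (k * θ * Complex.I)‖ = 1 := by
        have : (k : ℂ) * θ * Complex.I = ((k * θ : ℝ) : ℂ) * Complex.I := by push_cast; ring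
        rw [this, Complex.norm_exp_ofReal_mul_I]
      rw [h1, mul_one, Complex.norm_natCast]
      exact mul_le_mul_of_nonneg_left (hΛ _) (Nat.cast_nonneg _)
    have hqaB : ∀ (S : Finset ℕ) (d : ℕ → ℝ), (∀ m ∈ S, 0 ≤ d m) → ∑ m ∈ S, d m = 1 → ∀ θ,
        qa s l N S d θ ≤ B := by
      intro S d hd hd1 θ
      unfold qa
      calc ∑ m ∈ S, d m * ‖wn s l N m θ‖ ^ 2 ≤ ∑ m ∈ S, d m * B :=
            Finset.sum_le_sum fun m hm => mul_le_mul_of_nonneg_left (hB m θ) (hd m hm)
        _ = B := by rw [← Finset.sum_mul, hd1, one_mul]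
    have hcont : ∀ (S : Finset ℕ) (d : ℕ → ℝ), (∀ m ∈ S, 0 ≤ d m) → ∀ r : ℝ,
        Continuous fun θ => (qa s l N S d θ + 1) ^ r := by
      intro S d hd r
      refine Continuous.rpow_const ((continuous_qa s l N S d).add continuous_const) fun θ => ?_
      left
      have := qa_nonneg s l N S d hd θ
      linarith
    -- nearly maximal averages
    set 𝒜 : Set ℝ := {x | ∃ (S : Finset ℕ) (d : ℕ → ℝ), (∀ m ∈ S, 0 ≤ d m) ∧ ∑ m ∈ S, d m = 1 ∧
      x = ∫ θ in (0 : ℝ)..(2 * Real.pi), (qa s l N S d θ + 1) ^ q} with h𝒜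
    have hne : 𝒜.Nonempty := ⟨_, {0}, fun _ => 1, fun _ _ => zero_le_one, by simp, rfl⟩
    have hbd : BddAbove 𝒜 := by
      refine ⟨2 * Real.pi * (B + 1) ^ q, ?_⟩
      rintro x ⟨S, d, hd, hd1, rfl⟩
      have h1 : ∫ θ in (0 : ℝ)..(2 * Real.pi), (qa s l N S d θ + 1) ^ q ≤
          ∫ _ in (0 : ℝ)..(2 * Real.pi), (B + 1) ^ q := by
        refine intervalIntegral.integral_mono_on hpi0 ((hcont S d hd q).intervalIntegrable _ _)
          (continuous_const.intervalIntegrable _ _) fun θ _ => ?_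
        have h2 := qa_nonneg s l N S d hd θ
        exact Real.rpow_le_rpow (by linarith) (by linarith [hqaB S d hd hd1 θ]) hq0.le
      refine h1.trans (le_of_eq ?_)
      rw [intervalIntegral.integral_const, smul_eq_mul, sub_zero]
    obtain ⟨t, ht0, ht1, htB⟩ : ∃ t : ℝ, 0 < t ∧ t ≤ 1 ∧ t * (2 * Real.pi * B ^ 2) ≤ q / 2 := by
      refine ⟨min 1 (q / 2 / (2 * Real.pi * B ^ 2 + 1)), ?_, min_le_left _ _, ?_⟩
      · refine lt_min one_pos ?_
        positivity
      · have h1 : min 1 (q / 2 / (2 * Real.pi * B ^ 2 + 1)) ≤ q / 2 / (2 * Real.pi * B ^ 2 + 1) :=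
          min_le_right _ _
        have h2 : 0 ≤ 2 * Real.pi * B ^ 2 := by positivity
        calc min 1 (q / 2 / (2 * Real.pi * B ^ 2 + 1)) * (2 * Real.pi * B ^ 2)
            ≤ q / 2 / (2 * Real.pi * B ^ 2 + 1) * (2 * Real.pi * B ^ 2) :=
              mul_le_mul_of_nonneg_right h1 h2
          _ ≤ q / 2 / (2 * Real.pi * B ^ 2 + 1) * (2 * Real.pi * B ^ 2 + 1) := by
              refine mul_le_mul_of_nonneg_left (by linarith) ?_
              positivity
          _ = q / 2 := by
              field_simp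
    have hη : 0 < q * t / 2 := by positivity
    obtain ⟨x, ⟨S, d, hd, hd1, rfl⟩, hx⟩ := exists_lt_of_lt_csSup hne (sub_lt_self (sSup 𝒜) hη)
    set F : ℝ → ℝ := qa s l N S d with hF
    have hF0 : ∀ θ, 0 ≤ F θ := qa_nonneg s l N S d hd
    have hFc : Continuous F := continuous_qa s l N S d
    have hFB : ∀ θ, F θ ≤ B := hqaB S d hd hd1
    set J : ℝ := ∫ θ in (0 : ℝ)..(2 * Real.pi), (F θ + 1) ^ q with hJ
    have hJ1 : 2 * Real.pi ≤ J := by
      have h1 : ∫ _ in (0 : ℝ)..(2 * Real.pi), (1 : ℝ) ≤ J := by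
        refine intervalIntegral.integral_mono_on hpi0 (continuous_const.intervalIntegrable _ _)
          ((hcont S d hd q).intervalIntegrable _ _) fun θ _ => ?_
        exact Real.one_le_rpow (by linarith [hF0 θ]) hq0.le
      rw [intervalIntegral.integral_const, smul_eq_mul, sub_zero, mul_one] at h1
      exact h1
    have hJ1' : 1 ≤ J := by
      have := Real.pi_gt_three
      linarith
    have hJ0 : 0 < J := by linarith
    have hNp : (1 : ℝ) ≤ (N : ℝ) ^ (s * p - 1) := Real.one_le_rpow hNr (by linarith)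
    have hJ2 : J ≤ (C + 2 * Real.pi) * (N : ℝ) ^ (s * p - 1) := by
      have h1 : J ≤ ∫ θ in (0 : ℝ)..(2 * Real.pi), ((F θ) ^ q + 1) := by
        refine intervalIntegral.integral_mono_on hpi0 ((hcont S d hd q).intervalIntegrable _ _)
          (((hFc.rpow_const fun θ => Or.inr hq0.le).add continuous_const).intervalIntegrable _ _)
          fun θ _ => ?_
        have h2 := Real.rpow_add_le_add_rpow (hF0 θ) zero_le_one hq0.le hq1.le
        rwa [Real.one_rpow] at h2
      rw [intervalIntegral.integral_add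
        ((hFc.rpow_const fun θ => Or.inr hq0.le).intervalIntegrable _ _)
        (continuous_const.intervalIntegrable _ _), intervalIntegral.integral_const, smul_eq_mul,
        sub_zero, mul_one] at h1
      have h3 := hC' N hN S d hd hd1
      nlinarith
    -- the variational inequality
    have hvar : ∀ m, ∫ θ in (0 : ℝ)..(2 * Real.pi), (F θ + 1) ^ (q - 1) * ‖wn s l N m θ‖ ^ 2 ≤
        2 * J := by
      intro m
      set G : ℝ → ℝ := fun θ => ‖wn s l N m θ‖ ^ 2 with hG
      have hGc : Continuous G := ((continuous_wn s l N m).norm).pow 2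
      have hG0 : ∀ θ, 0 ≤ G θ := fun θ => sq_nonneg _
      have hGB : ∀ θ, G θ ≤ B := hB m
      obtain ⟨S', d', hd', hd1', hmix⟩ := qa_mix s l N S d hd hd1 m t ht0.le ht1
      have h1 : ∫ θ in (0 : ℝ)..(2 * Real.pi), (qa s l N S' d' θ + 1) ^ q ≤ sSup 𝒜 :=
        le_csSup hbd ⟨S', d', hd', hd1', rfl⟩
      have hc1 : Continuous fun θ => (F θ + 1) ^ (q - 1) := hcont S d hd (q - 1)
      have h2 : ∫ θ in (0 : ℝ)..(2 * Real.pi), ((F θ + 1) ^ q +
          q * (F θ + 1) ^ (q - 1) * (t * (G θ - F θ)) - (t * (G θ - F θ)) ^ 2) ≤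
          ∫ θ in (0 : ℝ)..(2 * Real.pi), (qa s l N S' d' θ + 1) ^ q := by
        refine intervalIntegral.integral_mono_on hpi0 ?_
          ((hcont S' d' hd' q).intervalIntegrable _ _) fun θ _ => ?_
        · refine Continuous.intervalIntegrable ?_ _ _
          exact ((hcont S d hd q).add ((continuous_const.mul hc1).mul
            (continuous_const.mul (hGc.sub hFc)))).sub ((continuous_const.mul (hGc.sub hFc)).pow 2)
        · have h3 := rpow_quad (x := F θ + 1) (y := qa s l N S' d' θ + 1) hq0.le hq1.le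
            (by linarith [hF0 θ]) (by linarith [qa_nonneg s l N S' d' hd' θ])
          have h4 : qa s l N S' d' θ + 1 - (F θ + 1) = t * (G θ - F θ) := by
            rw [hmix θ]
            simp only [hG, hF]
            ring
          rw [h4] at h3
          exact h3
      have h5 : ∫ θ in (0 : ℝ)..(2 * Real.pi), ((F θ + 1) ^ q +
          q * (F θ + 1) ^ (q - 1) * (t * (G θ - F θ)) - (t * (G θ - F θ)) ^ 2) =
          J + q * t * ((∫ θ in (0 : ℝ)..(2 * Real.pi), (F θ + 1) ^ (q - 1) * G θ) -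
            ∫ θ in (0 : ℝ)..(2 * Real.pi), (F θ + 1) ^ (q - 1) * F θ) -
          t ^ 2 * ∫ θ in (0 : ℝ)..(2 * Real.pi), (G θ - F θ) ^ 2 := by
        have e1 : ∀ θ, (F θ + 1) ^ q +
            q * (F θ + 1) ^ (q - 1) * (t * (G θ - F θ)) - (t * (G θ - F θ)) ^ 2 =
            (F θ + 1) ^ q + (q * t) * ((F θ + 1) ^ (q - 1) * G θ - (F θ + 1) ^ (q - 1) * F θ) -
              t ^ 2 * (G θ - F θ) ^ 2 := fun θ => by ring
        simp only [e1]
        rw [intervalIntegral.integral_sub, intervalIntegral.integral_add,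
          intervalIntegral.integral_const_mul, intervalIntegral.integral_sub,
          intervalIntegral.integral_const_mul]
        · exact (hc1.mul hGc).intervalIntegrable _ _
        · exact (hc1.mul hFc).intervalIntegrable _ _
        · exact (hcont S d hd q).intervalIntegrable _ _
        · exact (continuous_const.mul ((hc1.mul hGc).sub (hc1.mul hFc))).intervalIntegrable _ _
        · exact ((hcont S d hd q).add
            (continuous_const.mul ((hc1.mul hGc).sub (hc1.mul hFc)))).intervalIntegrable _ _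
        · exact (continuous_const.mul ((hGc.sub hFc).pow 2)).intervalIntegrable _ _
      have h6 : ∫ θ in (0 : ℝ)..(2 * Real.pi), (G θ - F θ) ^ 2 ≤ 2 * Real.pi * B ^ 2 := by
        have e1 : ∫ θ in (0 : ℝ)..(2 * Real.pi), (G θ - F θ) ^ 2 ≤
            ∫ _ in (0 : ℝ)..(2 * Real.pi), B ^ 2 := by
          refine intervalIntegral.integral_mono_on hpi0
            (((hGc.sub hFc).pow 2).intervalIntegrable _ _)
            (continuous_const.intervalIntegrable _ _) fun θ _ => ?_
          refine sq_le_sq' ?_ ?_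
          · linarith [hG0 θ, hFB θ]
          · linarith [hGB θ, hF0 θ]
        refine e1.trans (le_of_eq ?_)
        rw [intervalIntegral.integral_const, smul_eq_mul, sub_zero]
      have h7 : ∫ θ in (0 : ℝ)..(2 * Real.pi), (F θ + 1) ^ (q - 1) * F θ ≤ J := by
        refine intervalIntegral.integral_mono_on hpi0 ((hc1.mul hFc).intervalIntegrable _ _)
          ((hcont S d hd q).intervalIntegrable _ _) fun θ _ => ?_
        have e1 : 0 < F θ + 1 := by linarith [hF0 θ]
        have e2 : (F θ + 1) ^ q = (F θ + 1) ^ (q - 1) * (F θ + 1) := by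
          rw [← Real.rpow_add_one e1.ne', sub_add_cancel]
        rw [e2]
        exact mul_le_mul_of_nonneg_left (by linarith) (Real.rpow_nonneg e1.le _)
      set X := ∫ θ in (0 : ℝ)..(2 * Real.pi), (F θ + 1) ^ (q - 1) * G θ with hX
      set Y := ∫ θ in (0 : ℝ)..(2 * Real.pi), (F θ + 1) ^ (q - 1) * F θ with hY
      set D := ∫ θ in (0 : ℝ)..(2 * Real.pi), (G θ - F θ) ^ 2 with hD
      have h8 : J + q * t * (X - Y) - t ^ 2 * D ≤ J + q * t / 2 := by
        have : J + q * t * (X - Y) - t ^ 2 * D ≤ sSup 𝒜 := by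
          rw [← h5]
          exact h2.trans h1
        linarith
      have h9 : t ^ 2 * D ≤ t * (q / 2) := by
        have e1 : t * D ≤ q / 2 := (mul_le_mul_of_nonneg_left h6 ht0.le).trans htB
        nlinarith
      have hqt : 0 < q * t := by positivity
      have h10 : q * t * (X - Y) ≤ q * t * 1 := by linarith
      have h11 : X - Y ≤ 1 := le_of_mul_le_mul_left h10 hqt
      show X ≤ 2 * J
      linarith
    -- the weight
    refine ⟨fun θ => (F θ + 1) ^ q / J, (hcont S d hd q).div_const J, fun θ => ?_, ?_, fun m => ?_⟩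
    · have : 0 < F θ + 1 := by linarith [hF0 θ]
      positivity
    · rw [intervalIntegral.integral_div, ← hJ, div_self hJ0.ne']
    · have e1 : ∀ θ, ((F θ + 1) ^ q / J) ^ (1 - 2 / p) =
          J ^ (1 / q - 1) * (F θ + 1) ^ (q - 1) := by
        intro θ
        have e2 : 0 < F θ + 1 := by linarith [hF0 θ]
        rw [hqi, Real.div_rpow (Real.rpow_nonneg e2.le _) hJ0.le, ← Real.rpow_mul e2.le]
        have e3 : q * (1 - 1 / q) = q - 1 := by
          field_simp
        have e4 : J ^ (1 / q - 1) = (J ^ (1 - 1 / q))⁻¹ := by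
          rw [← Real.rpow_neg hJ0.le]
          congr 1
          ring
        rw [e3, e4, div_eq_inv_mul]
      have e5 : ∀ θ, ‖wn s l N m θ‖ ^ 2 * ((F θ + 1) ^ q / J) ^ (1 - 2 / p) =
          J ^ (1 / q - 1) * ((F θ + 1) ^ (q - 1) * ‖wn s l N m θ‖ ^ 2) := by
        intro θ
        rw [e1]
        ring
      simp only [e5]
      rw [intervalIntegral.integral_const_mul]
      have e6 : 0 ≤ J ^ (1 / q - 1) := Real.rpow_nonneg hJ0.le _
      have e7 : J ^ (1 / q - 1) * (2 * J) = 2 * J ^ (1 / q) := by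
        have : J ^ (1 / q) = J ^ (1 / q - 1) * J := by
          rw [← Real.rpow_add_one hJ0.ne', sub_add_cancel]
        rw [this]
        ring
      have e8 : 1 / q = 2 / p := by
        rw [hq]
        field_simp
      calc J ^ (1 / q - 1) * ∫ θ in (0 : ℝ)..(2 * Real.pi),
            (F θ + 1) ^ (q - 1) * ‖wn s l N m θ‖ ^ 2 ≤ J ^ (1 / q - 1) * (2 * J) :=
            mul_le_mul_of_nonneg_left (hvar m) e6
        _ = 2 * J ^ (2 / p) := by rw [e7, e8]
        _ ≤ 2 * ((C + 2 * Real.pi) * (N : ℝ) ^ (s * p - 1)) ^ (2 / p) := by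
            refine mul_le_mul_of_nonneg_left ?_ (by norm_num)
            exact Real.rpow_le_rpow hJ0.le hJ2 (by positivity)
        _ = 2 * (C + 2 * Real.pi) ^ (2 / p) * (N : ℝ) ^ (2 * s - 2 / p) := by
            rw [Real.mul_rpow (by positivity) (by positivity), ← Real.rpow_mul hN0.le]
            have e9 : (s * p - 1) * (2 / p) = 2 * s - 2 / p := by
              field_simp
            rw [e9]
            ring
  · -- sufficiency
    rintro ⟨C, hC⟩
    refine ⟨(max C 1) ^ q, fun N hN S d hd hd1 => ?_⟩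
    have hNr : (1 : ℝ) ≤ N := by exact_mod_cast hN
    have hN0 : (0 : ℝ) < N := by linarith
    obtain ⟨v, hvc, hv0, hv1, hvm⟩ := hC N hN
    show ∫ θ in (0 : ℝ)..(2 * Real.pi), (qa s l N S d θ) ^ q ≤ _
    set F : ℝ → ℝ := qa s l N S d with hF
    have hF0 : ∀ θ, 0 ≤ F θ := qa_nonneg s l N S d hd
    have hFc : Continuous F := continuous_qa s l N S d
    set A : ℝ := max C 1 * (N : ℝ) ^ (2 * s - 2 / p) with hA
    have hm0 : 0 < max C 1 := lt_of_lt_of_le one_pos (le_max_right _ _)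
    have hA0 : 0 < A := by positivity
    have hvr : Continuous fun θ => v θ ^ (1 - 2 / p) :=
      hvc.rpow_const fun θ => Or.inl (hv0 θ).ne'
    have h1 : ∫ θ in (0 : ℝ)..(2 * Real.pi), F θ * v θ ^ (1 - 2 / p) ≤ A := by
      have e1 : ∀ θ, F θ * v θ ^ (1 - 2 / p) =
          ∑ m ∈ S, d m * (‖wn s l N m θ‖ ^ 2 * v θ ^ (1 - 2 / p)) := by
        intro θ
        simp only [hF, qa]
        rw [Finset.sum_mul]
        exact Finset.sum_congr rfl fun m _ => by ring
      simp only [e1]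
      have e0 : ∀ m, IntervalIntegrable (fun θ => d m * (‖wn s l N m θ‖ ^ 2 *
          v θ ^ (1 - 2 / p))) volume 0 (2 * Real.pi) := fun m =>
        (continuous_const.mul
          ((((continuous_wn s l N m).norm).pow 2).mul hvr)).intervalIntegrable _ _
      rw [intervalIntegral.integral_finsetSum fun m _ => e0 m]
      simp only [intervalIntegral.integral_const_mul]
      calc ∑ m ∈ S, d m * ∫ θ in (0 : ℝ)..(2 * Real.pi), ‖wn s l N m θ‖ ^ 2 * v θ ^ (1 - 2 / p)
          ≤ ∑ m ∈ S, d m * A := by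
            refine Finset.sum_le_sum fun m hm => mul_le_mul_of_nonneg_left ?_ (hd m hm)
            refine (hvm m).trans ?_
            exact mul_le_mul_of_nonneg_right (le_max_left _ _) (Real.rpow_nonneg hN0.le _)
        _ = A := by rw [← Finset.sum_mul, hd1, one_mul]
    have h2 : ∀ θ, (F θ) ^ q ≤ A ^ q * (q * (F θ * v θ ^ (1 - 2 / p) / A) + (1 - q) * v θ) := by
      intro θ
      have hw := hv0 θ
      have e1 := Real.geom_mean_le_arith_mean2_weighted hq0.le (by linarith : 0 ≤ 1 - q)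
        (p₁ := F θ * v θ ^ (1 - 2 / p) / A) (p₂ := v θ)
        (by
          have := hF0 θ
          positivity) hw.le (by ring)
      have e2 : (F θ * v θ ^ (1 - 2 / p) / A) ^ q * v θ ^ (1 - q) = (F θ) ^ q / A ^ q := by
        rw [Real.div_rpow (mul_nonneg (hF0 θ) (Real.rpow_nonneg hw.le _)) hA0.le,
          Real.mul_rpow (hF0 θ) (Real.rpow_nonneg hw.le _), ← Real.rpow_mul hw.le, hqi]
        have e3 : (1 - 1 / q) * q = q - 1 := by
          field_simp
        rw [e3]
        have e4 : v θ ^ (q - 1) * v θ ^ (1 - q) = 1 := by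
          rw [← Real.rpow_add hw, show q - 1 + (1 - q) = 0 by ring, Real.rpow_zero]
        calc (F θ) ^ q * v θ ^ (q - 1) / A ^ q * v θ ^ (1 - q) =
              (F θ) ^ q / A ^ q * (v θ ^ (q - 1) * v θ ^ (1 - q)) := by ring
          _ = _ := by rw [e4, mul_one]
      rw [e2, div_le_iff₀ (Real.rpow_pos_of_pos hA0 q)] at e1
      linarith
    have h3 : ∫ θ in (0 : ℝ)..(2 * Real.pi), (F θ) ^ q ≤ ∫ θ in (0 : ℝ)..(2 * Real.pi),
        A ^ q * (q * (F θ * v θ ^ (1 - 2 / p) / A) + (1 - q) * v θ) := by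
      refine intervalIntegral.integral_mono_on hpi0
        ((hFc.rpow_const fun θ => Or.inr hq0.le).intervalIntegrable _ _) ?_ fun θ _ => h2 θ
      refine Continuous.intervalIntegrable ?_ _ _
      exact continuous_const.mul ((continuous_const.mul ((hFc.mul hvr).div_const A)).add
        (continuous_const.mul hvc))
    refine h3.trans ?_
    rw [intervalIntegral.integral_const_mul, intervalIntegral.integral_add,
      intervalIntegral.integral_const_mul, intervalIntegral.integral_const_mul,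
      intervalIntegral.integral_div, hv1]
    · have e1 : (∫ θ in (0 : ℝ)..(2 * Real.pi), F θ * v θ ^ (1 - 2 / p)) / A ≤ 1 := by
        rw [div_le_one hA0]
        exact h1
      have e2 : q * ((∫ θ in (0 : ℝ)..(2 * Real.pi), F θ * v θ ^ (1 - 2 / p)) / A) +
          (1 - q) * 1 ≤ 1 := by nlinarith
      calc A ^ q * (q * ((∫ θ in (0 : ℝ)..(2 * Real.pi), F θ * v θ ^ (1 - 2 / p)) / A) +
            (1 - q) * 1) ≤ A ^ q * 1 := mul_le_mul_of_nonneg_left e2 (Real.rpow_nonneg hA0.le _)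
        _ = (max C 1) ^ q * (N : ℝ) ^ (s * p - 1) := by
          rw [mul_one, hA, Real.mul_rpow hm0.le (Real.rpow_nonneg hN0.le _),
            ← Real.rpow_mul hN0.le]
          congr 2
          rw [hq]
          field_simp
    · exact (continuous_const.mul ((hFc.mul hvr).div_const A)).intervalIntegrable _ _
    · exact (continuous_const.mul hvc).intervalIntegrable _ _

end MP63
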